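import Pool.Agent.H456.PR.Out
import Pool.Agent.H456.Pub.Law
import Pool.Agent.H456.Pub.Out

/-!
# The final forms of the law
-/

set_option autoImplicit false
set_option linter.all false

open Polynomial WeierstrassCurve Finset Filter
open Pool.Agent.H456.EC
open Pool.Agent.H456.RN
open Pool.Agent.H456.BQ
open Pool.Agent.H456.Coh
open Pool.Agent.H456.Pub (SameClass Tors Prim Killed twist law prop twistP SelTwo SelInf SelInfTwo rank card_tors card_prim)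

namespace Pool.Agent.H456.PR

/-- the statements used -/
structure HypR : Prop where
  mai : S_mai
  clU : S_clU
  ctw : S_ctw
  rk : S_rk
  sh : S_sh
  num : S_num

theorem twist_eq {F : Type} [Field F] (E : WeierstrassCurve (RatFunc F)) (D : RatFunc F) : twist E D = twE D E := rfl

theorem law_eq (k : ℕ) : law k = Cd k := rfl

section

variable {F : Type} [Field F]

/-- the discriminant of the cubic -/
theorem cubE_disc (h2 : (2 : F) ≠ 0) (E : WeierstrassCurve (RatFunc F)) : 16 * (cubE E).disc = E.Δ := by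
  have h2' : (2 : RatFunc F) ≠ 0 := two_ne h2
  have h4 : (4 : RatFunc F) ≠ 0 := by
    have : (4 : RatFunc F) = 2 ^ 2 := by norm_num
    rw [this]; exact pow_ne_zero _ h2'
  have e8 : 4 * E.b₈ = E.b₂ * E.b₆ - E.b₄ ^ 2 := E.b_relation
  simp only [cubE, Cub.disc, WeierstrassCurve.Δ]
  field_simp
  linear_combination (128 * E.b₂ ^ 2) * e8

open Classical in
/-- a root of the cubic gives a point of order two -/
theorem no_root (h2 : (2 : F) ≠ 0) {E : WeierstrassCurve (RatFunc F)} (hE : E.Δ ≠ 0)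
    (h : ∀ T : E.toAffine.Point, 2 • T = 0 → T = 0) (r : RatFunc F) : (cubE E).ev r ≠ 0 := by
  intro h0
  have h2' : (2 : RatFunc F) ≠ 0 := two_ne h2
  have h4 : (4 : RatFunc F) ≠ 0 := by
    have : (4 : RatFunc F) = 2 ^ 2 := by norm_num
    rw [this]; exact pow_ne_zero _ h2'
  set y : RatFunc F := -((E.a₁ * r + E.a₃) / 2) with hy
  have heq : E.toAffine.Equation r y := by
    rw [Affine.equation_iff]
    simp only [cubE, Cub.ev, WeierstrassCurve.b₂, WeierstrassCurve.b₄, WeierstrassCurve.b₆] at h0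
    have h0' : 4 * r ^ 3 + (E.a₁ ^ 2 + 4 * E.a₂) * r ^ 2 + (4 * E.a₄ + 2 * E.a₁ * E.a₃) * r + (E.a₃ ^ 2 + 4 * E.a₆) = 0 := by
      apply mul_left_cancel₀ h2'
      field_simp at h0
      linear_combination h0
    rw [hy]
    field_simp
    linear_combination -h0'
  have hns := (Affine.equation_iff_nonsingular_of_Δ_ne_zero (W := E.toAffine) hE).1 heq
  have hneg : -(Affine.Point.some r y hns : E.toAffine.Point) = .some r y hns := by
    rw [Affine.Point.neg_some]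
    congr 1
    simp only [Affine.negY, hy]
    field_simp
    ring
  have h3 := h (.some r y hns) (by
    rw [two_nsmul]
    nth_rewrite 1 [← hneg]
    exact neg_add_cancel _)
  exact Affine.Point.some_ne_zero hns h3

theorem sc_root {K : Type} [Field K] {g : Cub K} {D : K} (hD : D ≠ 0) (h : ∀ r, g.ev r ≠ 0) (r : K) :
    (g.sc D).ev r ≠ 0 := by
  intro h0
  apply h (r / D)
  simp only [Cub.ev, Cub.sc] at h0 ⊢
  field_simp
  linear_combination h0

open Classical in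
theorem twE_no (h2 : (2 : F) ≠ 0) {E : WeierstrassCurve (RatFunc F)} (hE : E.Δ ≠ 0)
    (h : ∀ T : E.toAffine.Point, 2 • T = 0 → T = 0) {D : RatFunc F} (hD : D ≠ 0) :
    ∀ T : (twE D E).toAffine.Point, 2 • T = 0 → T = 0 := by
  intro T hT
  have hd : ((cubE E).sc D).disc ≠ 0 := by
    rw [Cub.disc_sc]
    refine mul_ne_zero (pow_ne_zero _ hD) ?_
    intro h0
    apply hE
    rw [← cubE_disc h2, h0, mul_zero]
  exact tors_of hd (two_ne h2) (sc_root hD (no_root h2 hE h)) T hT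

theorem twE_Δ (h2 : (2 : F) ≠ 0) {E : WeierstrassCurve (RatFunc F)} (hE : E.Δ ≠ 0) {D : RatFunc F} (hD : D ≠ 0) :
    (twE D E).Δ ≠ 0 := by
  have h16 : (16 : RatFunc F) ≠ 0 := by
    have : (16 : RatFunc F) = 2 ^ 4 := by norm_num
    rw [this]; exact pow_ne_zero _ (two_ne h2)
  unfold twE
  rw [crv_Δ, Cub.disc_sc]
  refine mul_ne_zero h16 (mul_ne_zero (pow_ne_zero _ hD) ?_)
  intro h0
  apply hE
  rw [← cubE_disc h2, h0, mul_zero]

open Classical in
theorem killed_card (h2 : (2 : F) ≠ 0) {E : WeierstrassCurve (RatFunc F)} (hE : E.Δ ≠ 0)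
    (h : ∀ T : E.toAffine.Point, 2 • T = 0 → T = 0) :
    Nat.card {x : SelmerGroup E (primaryPts E 2) // 2 • x = 0} = Nat.card (SelmerGroup E (torsionPts E 2)) := by
  obtain ⟨φ, hφ, hinj⟩ := ctrl_all F h2 E hE
  let ψ : SelmerGroup E (torsionPts E 2) → {x : SelmerGroup E (primaryPts E 2) // 2 • x = 0} :=
    fun y => ⟨φ y, (hφ _).1 ⟨y, rfl⟩⟩
  symm
  apply Nat.card_congr
  refine Equiv.ofBijective ψ ⟨?_, ?_⟩
  · intro a b hab
    exact hinj (fun P hP => h P (by convert hP)) (congrArg Subtype.val hab)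
  · rintro ⟨x, hx⟩
    obtain ⟨y, hy⟩ := (hφ x).2 hx
    exact ⟨y, Subtype.ext hy⟩

open Classical in
theorem card_prim' (E : WeierstrassCurve (RatFunc F)) (p : ℕ) :
    Nat.card (Quot (SameClass E (Prim E p))) = Nat.card (SelmerGroup E (primaryPts E p)) := by
  have hA : ∀ T, Prim E p T ↔ T ∈ primaryPts E p := fun T => ⟨fun h => h.ex, fun h => ⟨h⟩⟩
  exact Nat.card_congr (Equiv.ofBijective _ (Pool.Agent.H456.Pub.toSel_bij E (Prim E p) (primaryPts E p) hA))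

end

variable {F : Type} [Field F] [Fintype F]

open Classical in
/-- the curves with a rational point of order two are negligible -/
theorem two_neg (h2 : (2 : F) ≠ 0) (ε : ℝ) (hε : 0 < ε) : ∀ᶠ d in atTop,
    (((CL F d).filter (fun κ => ¬ ∀ T : κ.out.toAffine.Point, 2 • T = 0 → T = 0)).card : ℝ) ≤ ε * (CL F d).card := by
  filter_upwards [two_small hypU_all t_badc (t_clsG t_badc) t_selinv h2 ε hε] with d hd
  refine le_trans ?_ hd
  rw [card_eq_sum_ones]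
  push_cast
  rw [sum_filter]
  apply sum_le_sum
  intro κ hκ
  by_cases h : ∀ T : κ.out.toAffine.Point, 2 • T = 0 → T = 0
  · rw [if_neg (not_not.2 h), if_pos h]
  · rw [if_pos h, if_neg h]
    exact selC_ge hypU_all t_selinv h2 hκ

theorem prop_congr {A : Type} {𝒟 : Finset A} {p q : A → Prop} (h : ∀ D ∈ 𝒟, (p D ↔ q D)) : prop 𝒟 p = prop 𝒟 q := by
  classical
  unfold prop
  have e : 𝒟.filter p = 𝒟.filter q := by
    ext D
    simp only [mem_filter]
    exact ⟨fun hD => ⟨hD.1, (h D hD.1).1 hD.2⟩, fun hD => ⟨hD.1, (h D hD.1).2 hD.2⟩⟩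
  convert congrArg (fun s : Finset A => (s.card : ℝ) / (𝒟.card : ℝ)) e

theorem prop_mono {A : Type} {𝒟 : Finset A} {p q : A → Prop} (h : ∀ D ∈ 𝒟, p D → q D) : prop 𝒟 p ≤ prop 𝒟 q := by
  classical
  unfold prop
  apply div_le_div_of_nonneg_right _ (Nat.cast_nonneg _)
  have : (𝒟.filter p).card ≤ (𝒟.filter q).card := by
    apply card_le_card
    intro D hD
    rw [mem_filter] at hD ⊢
    exact ⟨hD.1, h D hD.1 hD.2⟩
  exact_mod_cast this

theorem prop_or {A : Type} {𝒟 : Finset A} {p q : A → Prop} (h : ∀ D ∈ 𝒟, p D → ¬ q D) :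
    prop 𝒟 (fun D => p D ∨ q D) = prop 𝒟 p + prop 𝒟 q := by
  classical
  unfold prop
  rw [← add_div]
  have h1 : Disjoint (𝒟.filter p) (𝒟.filter q) := by
    rw [disjoint_left]
    intro D hD hD'
    rw [mem_filter] at hD hD'
    exact h D hD.1 hD.2 hD'.2
  have h2 : ((𝒟.filter (fun D => p D ∨ q D)).card : ℝ) = ((𝒟.filter p).card : ℝ) + ((𝒟.filter q).card : ℝ) := by
    rw [filter_or, card_union_of_disjoint h1]
    push_cast
    rfl
  convert congrArg (fun x : ℝ => x / (𝒟.card : ℝ)) h2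

open Classical in
theorem law_good (H : HypR) (h2 : (2 : F) ≠ 0) (ε : ℝ) (hε : 0 < ε) :
    ∃ 𝒟 : Finset F[X], 𝒟.Nonempty ∧ (∀ D ∈ 𝒟, D.Monic ∧ Squarefree D ∧ Even D.natDegree) ∧
      ∀ᶠ d in atTop, ∃ B ⊆ CL F d, (B.card : ℝ) ≤ ε * (CL F d).card ∧ ∀ κ ∈ CL F d, κ ∉ B →
        (∀ T : κ.out.toAffine.Point, 2 • T = 0 → T = 0) ∧ ∀ k, |prS 𝒟 κ.out k - Cd k| ≤ ε := by
  obtain ⟨𝒟, h1, h3, h4⟩ := law_CL H.mai H.clU H.ctw h2 (ε / 2) (half_pos hε)
  refine ⟨𝒟, h1, h3, ?_⟩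
  filter_upwards [h4, two_neg h2 (ε / 2) (half_pos hε)] with d h5 h6
  refine ⟨(CL F d).filter (fun κ => ∃ k, ε / 2 < |prS 𝒟 κ.out k - Cd k|) ∪
    (CL F d).filter (fun κ => ¬ ∀ T : κ.out.toAffine.Point, 2 • T = 0 → T = 0),
    union_subset (filter_subset _ _) (filter_subset _ _), ?_, ?_⟩
  · have h7 := card_union_le ((CL F d).filter (fun κ => ∃ k, ε / 2 < |prS 𝒟 κ.out k - Cd k|))
      ((CL F d).filter (fun κ => ¬ ∀ T : κ.out.toAffine.Point, 2 • T = 0 → T = 0))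
    have h8 : ((((CL F d).filter (fun κ => ∃ k, ε / 2 < |prS 𝒟 κ.out k - Cd k|) ∪
      (CL F d).filter (fun κ => ¬ ∀ T : κ.out.toAffine.Point, 2 • T = 0 → T = 0)).card : ℕ) : ℝ) ≤
      ((CL F d).filter (fun κ => ∃ k, ε / 2 < |prS 𝒟 κ.out k - Cd k|)).card +
      ((CL F d).filter (fun κ => ¬ ∀ T : κ.out.toAffine.Point, 2 • T = 0 → T = 0)).card := by exact_mod_cast h7
    have e : ε * ((CL F d).card : ℝ) = ε / 2 * (CL F d).card + ε / 2 * (CL F d).card := by ring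
    rw [e]
    exact h8.trans (add_le_add h5 h6)
  · intro κ hκ hB
    rw [mem_union, not_or, mem_filter, mem_filter] at hB
    refine ⟨?_, fun k => ?_⟩
    · by_contra hc
      exact hB.2 ⟨hκ, hc⟩
    · by_contra hc
      push Not at hc
      exact hB.1 ⟨hκ, k, by linarith⟩

open Classical in
theorem prS_prop (𝒟 : Finset F[X]) (E : WeierstrassCurve (RatFunc F)) (k : ℕ) : prS 𝒟 E k =
    prop 𝒟 (fun D => Nat.card (SelTwo (twistP E D)) = 2 ^ k) := by
  have h1 : prS 𝒟 E k = prop 𝒟 (fun D => Nat.card (SelmerGroup (twE (toK F D) E) (torsionPts (twE (toK F D) E) 2)) =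
      2 ^ k) := by
    unfold prS prop
    congr!
  rw [h1]
  apply prop_congr
  intro D _
  rw [(card_tors _ 2).1]
  exact Iff.rfl

open Classical in
theorem prop_inf (h2 : (2 : F) ≠ 0) {𝒟 : Finset F[X]} (h𝒟 : ∀ D ∈ 𝒟, D ≠ 0) {E : WeierstrassCurve (RatFunc F)}
    (hE : E.Δ ≠ 0) (h : ∀ T : E.toAffine.Point, 2 • T = 0 → T = 0) (k : ℕ) :
    prop 𝒟 (fun D => Nat.card (SelInfTwo (twistP E D)) = 2 ^ k) =
    prop 𝒟 (fun D => Nat.card (SelTwo (twistP E D)) = 2 ^ k) := by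
  apply prop_congr
  intro D hD
  have hD0 : toK F D ≠ 0 := (map_ne_zero_iff _ toK_inj).2 (h𝒟 D hD)
  have e : twistP E D = twE (toK F D) E := rfl
  rw [(card_prim _ 2 2).1, (card_tors _ 2).1, e, killed_card h2 (twE_Δ h2 hE hD0) (twE_no h2 hE h hD0)]

open Classical in
theorem KC_Δ (h2 : (2 : F) ≠ 0) {d : ℕ} {κ : KC F} (hκ : κ ∈ CL F d) : κ.out.Δ ≠ 0 := by
  obtain ⟨f, hf, rfl⟩ := CL_crv h2 hκ
  obtain ⟨C, hC⟩ := out_cls (W := crv f)
  rw [← hC, variableChange_Δ]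
  exact mul_ne_zero (pow_ne_zero _ (Units.ne_zero _)) (crvK_Δ h2 hf)

open Classical in
theorem rank_one (H : HypR) (h2 : (2 : F) ≠ 0) {𝒟 : Finset F[X]} (h𝒟 : ∀ D ∈ 𝒟, D ≠ 0) {E : WeierstrassCurve (RatFunc F)}
    (hE : E.Δ ≠ 0) (ε : ℝ) (h : ∀ k, |prS 𝒟 E k - Cd k| ≤ ε) :
    (0.2097 - ε ≤ prop 𝒟 (fun D => Finite (twistP E D).toAffine.Point ∧ Nat.card (SelInf (twistP E D)) = 1)) ∧
    0.629 - 2 * ε ≤ prop 𝒟 (fun D => rank (twistP E D) ≤ 1) := by
  have hD0 : ∀ D ∈ 𝒟, toK F D ≠ 0 := fun D hD => (map_ne_zero_iff _ toK_inj).2 (h𝒟 D hD)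
  have h0 := abs_le.1 (h 0)
  have h1 := abs_le.1 (h 1)
  obtain ⟨n1, n2, n3⟩ := H.num
  constructor
  · refine le_trans (b := prS 𝒟 E 0) (by linarith [h0.1]) ?_
    rw [prS_prop]
    apply prop_mono
    intro D hD hc
    rw [(card_tors _ 2).1] at hc
    refine ⟨(H.rk F h2 _ (twE_Δ h2 hE (hD0 D hD)) 0 hc).2.2 rfl, ?_⟩
    rw [card_prim']
    exact H.sh F h2 _ (twE_Δ h2 hE (hD0 D hD)) (by rw [pow_zero] at hc; exact hc)
  · refine le_trans (b := prS 𝒟 E 0 + prS 𝒟 E 1) (by linarith [h0.1, h1.1]) ?_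
    rw [prS_prop, prS_prop, ← prop_or (fun D _ a b => by rw [a] at b; norm_num at b)]
    apply prop_mono
    intro D hD hc
    rw [(card_tors _ 2).1] at hc
    rcases hc with hc | hc
    · exact ((H.rk F h2 _ (twE_Δ h2 hE (hD0 D hD)) 0 hc).2.1).trans (by norm_num)
    · exact (H.rk F h2 _ (twE_Δ h2 hE (hD0 D hD)) 1 hc).2.1

/-- **the final form** -/
theorem fin_law (H : HypR) (h2 : (2 : F) ≠ 0) (ε : ℝ) (hε : 0 < ε) :
    ∃ 𝒟 : Finset F[X], 𝒟.Nonempty ∧ (∀ D ∈ 𝒟, D.Monic ∧ Squarefree D ∧ Even D.natDegree) ∧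
      ∀ᶠ d in atTop, ∃ B : Set (KC F), B ⊆ cls '' Eqn F d ∧ (B.ncard : ℝ) ≤ ε * ((cls '' Eqn F d).ncard : ℝ) ∧
        ∀ κ ∈ cls '' Eqn F d, κ ∉ B →
          (∀ k : ℕ, |prop 𝒟 (fun D => Nat.card (SelTwo (twistP κ.out D)) = 2 ^ k) - law k| ≤ ε) ∧
          (∀ k : ℕ, |prop 𝒟 (fun D => Nat.card (SelInfTwo (twistP κ.out D)) = 2 ^ k) - law k| ≤ ε) ∧
          0.2097 - ε ≤ prop 𝒟 (fun D => Finite (twistP κ.out D).toAffine.Point ∧
            Nat.card (SelInf (twistP κ.out D)) = 1) ∧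
          0.629 - 2 * ε ≤ prop 𝒟 (fun D => rank (twistP κ.out D) ≤ 1) := by
  classical
  obtain ⟨𝒟, h1, h3, h4⟩ := law_good H h2 ε hε
  refine ⟨𝒟, h1, h3, ?_⟩
  have hne : ∀ D ∈ 𝒟, D ≠ 0 := fun D hD => (h3 D hD).1.ne_zero
  filter_upwards [h4] with d h5
  obtain ⟨B, hB, hc, hκ⟩ := h5
  refine ⟨(B : Set (KC F)), ?_, ?_, ?_⟩
  · rw [← coe_CL]
    exact coe_subset.2 hB
  · rw [Set.ncard_coe_finset, ← coe_CL, Set.ncard_coe_finset]
    exact hc
  · intro κ hk hkB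
    have hk' := mem_CL_iff.1 hk
    obtain ⟨ht, hl⟩ := hκ κ hk' (fun h => hkB (mem_coe.2 h))
    have hΔ := KC_Δ h2 hk'
    obtain ⟨r1, r2⟩ := rank_one H h2 hne hΔ ε hl
    refine ⟨fun k => ?_, fun k => ?_, r1, r2⟩
    · rw [← prS_prop]
      exact hl k
    · rw [prop_inf h2 hne hΔ (fun T hT => ht T (by convert hT)) k, ← prS_prop]
      exact hl k

end Pool.Agent.H456.PR
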