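import Pool.Agent.H456.PR.Stm

/-!
(ap) Irreducible polynomials of even degree congruent to `1` modulo `M`. Proof (no `L`-functions): the polynomial
`G = C_{Q^(e+1)}(x) / C_{Q^e}(x)` (Carlitz module) has a root modulo `P` only if `Q^(e+1)` divides `P - 1` (for `P ∤ Q`),
and an irreducible quadratic polynomial over `F` has a root modulo `P` only if the degree of `P` is even. By the theorem of
the primitive element and the argument of Euclid there are infinitely many `P` modulo which finitely many given separable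
polynomials all have a root.
-/

set_option autoImplicit false
set_option linter.all false

/-! ### Prime divisors of the values of a polynomial over `F[X]` -/

section

open Polynomial Finset

namespace Pool.Agent.H456.PR

variable {F : Type} [Field F] [Fintype F]

theorem ap_factor (w : F[X]) (h0 : w ≠ 0) (hu : ¬ IsUnit w) : ∃ P : F[X], P.Monic ∧ Irreducible P ∧ P ∣ w := by
  classical
  obtain ⟨i, hi, hiw⟩ := WfDvdMonoid.exists_irreducible_factor hu h0
  exact ⟨normalize i, monic_normalize hi.ne_zero, (associated_normalize i).irreducible hi,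
    (normalize_dvd_iff).mpr hiw⟩

theorem ap_euclid (f : F[X][X]) (hf : 1 ≤ f.natDegree) (E : F[X]) (hE : E ≠ 0) :
    ∃ P a : F[X], P.Monic ∧ Irreducible P ∧ ¬ P ∣ E ∧ P ∣ f.eval a := by
  classical
  by_cases hc : f.eval 0 = 0
  · have h1 : (X * E + 1 : F[X]) ≠ 0 := by
      intro h
      have h2 : X * (-E) = 1 := by linear_combination -h
      have := IsUnit.of_mul_eq_one _ h2
      exact not_isUnit_X this
    have h2 : ¬ IsUnit (X * E + 1 : F[X]) := by
      intro h
      have h3 := natDegree_eq_zero_of_isUnit h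
      have h4 : (X * E + 1 : F[X]).natDegree = (X * E).natDegree := by
        rw [show (1 : F[X]) = C 1 from (C_1).symm, natDegree_add_C]
      rw [h4, natDegree_X_mul hE] at h3
      omega
    obtain ⟨P, hP1, hP2, hP3⟩ := ap_factor _ h1 h2
    refine ⟨P, 0, hP1, hP2, ?_, by rw [hc]; exact dvd_zero _⟩
    intro h
    have h3 : P ∣ 1 := by
      have := dvd_sub hP3 (h.mul_left X)
      simpa using this
    exact hP2.not_isUnit (isUnit_of_dvd_one h3)
  · set c := f.eval 0 with hcdef
    have hne : ∀ u : F, f - C (c * C u) ≠ 0 := by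
      intro u h
      have h1 : f = C (c * C u) := sub_eq_zero.mp h
      rw [h1, natDegree_C] at hf
      omega
    have hG : (∏ u : F, (f - C (c * C u))).comp (C (c * E) * X) ≠ 0 := by
      intro h
      rw [comp_eq_zero_iff] at h
      rcases h with h | ⟨_, h⟩
      · rw [Finset.prod_eq_zero_iff] at h
        obtain ⟨u, _, hu⟩ := h
        exact hne u hu
      · have h2 : (C (c * E) * X : F[X][X]).coeff 1 = 0 := by
          rw [h, coeff_C]; simp
        rw [coeff_C_mul, coeff_X_one, mul_one] at h2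
        exact mul_ne_zero hc hE h2
    obtain ⟨b, hb⟩ : ∃ b : F[X], ((∏ u : F, (f - C (c * C u))).comp (C (c * E) * X)).eval b ≠ 0 := by
      by_contra h
      push Not at h
      exact hG (Polynomial.zero_of_eval_zero _ h)
    rw [eval_comp, eval_prod, Finset.prod_ne_zero_iff] at hb
    obtain ⟨k, hk⟩ : c * E * b ∣ f.eval (c * E * b) - c := by
      have := sub_dvd_eval_sub (c * E * b) 0 f
      simpa using this
    have hw : f.eval (c * E * b) = c * (1 + E * b * k) := by linear_combination hk
    have hw' : ∀ u : F, (1 + E * b * k) ≠ C u := by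
      intro u hu
      have := hb u (mem_univ u)
      rw [eval_mul, eval_C, eval_X, eval_sub, eval_C, hw, hu, sub_self] at this
      exact this rfl
    obtain ⟨P, hP1, hP2, hP3⟩ := ap_factor (1 + E * b * k) (by simpa using hw' 0) (by
      intro h
      obtain ⟨u, _, hu⟩ := (Polynomial.isUnit_iff).mp h
      exact hw' u hu.symm)
    refine ⟨P, c * E * b, hP1, hP2, ?_, by rw [hw]; exact hP3.mul_left _⟩
    intro h
    have h3 : P ∣ 1 := by
      have := dvd_sub hP3 ((h.mul_right b).mul_right k)
      simpa using this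
    exact hP2.not_isUnit (isUnit_of_dvd_one h3)

/-- clearing denominators -/
theorem ap_clear (p : (FractionRing F[X])[X]) : ∃ (b : F[X]) (q : F[X][X]), b ≠ 0 ∧
    q.map (algebraMap F[X] (FractionRing F[X])) = C (algebraMap F[X] (FractionRing F[X]) b) * p := by
  obtain ⟨b, hb, h⟩ := IsLocalization.integerNormalization_spec (nonZeroDivisors F[X]) p
  refine ⟨b, _, nonZeroDivisors.ne_zero hb, h.trans ?_⟩
  rw [← algebraMap_smul (FractionRing F[X]) b p, smul_eq_C_mul]

theorem ap_prim {ι : Type} [Finite ι] (g : ι → F[X][X]) (E : F[X]) (hE : E ≠ 0) (K : Type) [Field K] [Algebra F[X] K]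
    [IsFractionRing F[X] K] (hclear : ∀ p : K[X], ∃ (b : F[X]) (q : F[X][X]), b ≠ 0 ∧
      q.map (algebraMap F[X] K) = C (algebraMap F[X] K b) * p)
    (L : Type) [Field L] [Algebra K L] (α : L) (hαi : IsIntegral K α)
    (hα : ∀ x : L, ∃ p : K[X], aeval α p = x) (ρ : ι → L)
    (hρ : ∀ i, aeval (ρ i) ((g i).map (algebraMap F[X] K)) = 0) :
    ∃ P : F[X], P.Monic ∧ Irreducible P ∧ ¬ P ∣ E ∧ ∀ i, ∃ x : AdjoinRoot P, (g i).eval₂ (AdjoinRoot.mk P) x = 0 := by
  classical
  have := Fintype.ofFinite ι
  have hinj := IsFractionRing.injective F[X] K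
  have h2 := fun i => hα (ρ i)
  choose p hp using h2
  have h3 := fun i => hclear (p i)
  choose b h hb hh using h3
  obtain ⟨c, f, hc, hf⟩ := hclear (minpoly K α)
  have hev : ∀ (u : F[X][X]) (x : L), eval₂ ((algebraMap K L).comp (algebraMap F[X] K)) x u =
      aeval x (u.map (algebraMap F[X] K)) := by
    intro u x
    rw [aeval_def, eval₂_map]
  have hG : ∀ i, aeval α (((scaleRoots (g i) (b i)).comp (h i)).map (algebraMap F[X] K)) = 0 := by
    intro i
    have h5 : algebraMap K L (algebraMap F[X] K (b i)) = ((algebraMap K L).comp (algebraMap F[X] K)) (b i) := rfl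
    rw [← hev, eval₂_comp, hev (h i), hh i, map_mul, hp i, aeval_C, h5, scaleRoots_eval₂_mul, hev, hρ i, mul_zero]
  have h7 : ∀ i, ∃ q : K[X], ((scaleRoots (g i) (b i)).comp (h i)).map (algebraMap F[X] K) =
      minpoly K α * q := fun i => minpoly.dvd _ _ (hG i)
  choose q hq using h7
  choose e r he hr using fun i => hclear (q i)
  have h8 : ∀ i, f * r i = C (c * e i) * (scaleRoots (g i) (b i)).comp (h i) := by
    intro i
    apply map_injective (algebraMap F[X] K) hinj
    rw [Polynomial.map_mul, Polynomial.map_mul, hq i, hf, hr i, map_C, map_mul, C_mul]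
    ring
  have h9 : 1 ≤ f.natDegree := by
    have h10 : (f.map (algebraMap F[X] K)).natDegree = (minpoly K α).natDegree := by
      rw [hf, natDegree_C_mul ((map_ne_zero_iff _ hinj).mpr hc)]
    rw [natDegree_map_eq_of_injective hinj] at h10
    rw [h10]
    exact minpoly.natDegree_pos hαi
  obtain ⟨P, a, hP1, hP2, hP3, hP4⟩ := ap_euclid f h9 (E * (c * ∏ i, (b i * e i)))
    (mul_ne_zero hE (mul_ne_zero hc (Finset.prod_ne_zero_iff.mpr fun i _ => mul_ne_zero (hb i) (he i))))
  have := Fact.mk hP2
  have hmk : ∀ u : F[X], ¬ P ∣ u → AdjoinRoot.mk P u ≠ 0 := by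
    intro u hu h
    exact hu (AdjoinRoot.mk_eq_zero.mp h)
  have hPb : ∀ i, ¬ P ∣ b i := fun i hi => hP3 (Dvd.dvd.mul_left (Dvd.dvd.mul_left
    ((hi.mul_right _).trans (Finset.dvd_prod_of_mem (fun i => b i * e i) (Finset.mem_univ i))) _) _)
  have hPe : ∀ i, ¬ P ∣ e i := fun i hi => hP3 (Dvd.dvd.mul_left (Dvd.dvd.mul_left
    ((hi.mul_left _).trans (Finset.dvd_prod_of_mem (fun i => b i * e i) (Finset.mem_univ i))) _) _)
  have hPc : ¬ P ∣ c := fun hi => hP3 (Dvd.dvd.mul_left (Dvd.dvd.mul_right hi _) _)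
  refine ⟨P, hP1, hP2, fun hi => hP3 (Dvd.dvd.mul_right hi _), fun i => ?_⟩
  have h10 : eval₂ (AdjoinRoot.mk P) (AdjoinRoot.mk P a) f = 0 := by
    rw [eval₂_at_apply]
    exact AdjoinRoot.mk_eq_zero.mpr hP4
  have h11 := congrArg (eval₂ (AdjoinRoot.mk P) (AdjoinRoot.mk P a)) (h8 i)
  rw [eval₂_mul, h10, zero_mul, eval₂_mul, eval₂_C, eval₂_comp, map_mul] at h11
  have h12 := (mul_eq_zero.mp h11.symm).resolve_left (mul_ne_zero (hmk _ hPc) (hmk _ (hPe i)))
  refine ⟨eval₂ (AdjoinRoot.mk P) (AdjoinRoot.mk P a) (h i) / AdjoinRoot.mk P (b i), ?_⟩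
  have h13 := scaleRoots_eval₂_mul (p := g i) (AdjoinRoot.mk P)
    (eval₂ (AdjoinRoot.mk P) (AdjoinRoot.mk P a) (h i) / AdjoinRoot.mk P (b i)) (b i)
  rw [mul_div_cancel₀ _ (hmk _ (hPb i)), h12] at h13
  exact (mul_eq_zero.mp h13.symm).resolve_left (pow_ne_zero _ (hmk _ (hPb i)))

theorem ap_roots {ι : Type} [Finite ι] (g : ι → F[X][X])
    (hs : ∀ i, ((g i).map (algebraMap F[X] (FractionRing F[X]))).Separable) (hd : ∀ i, 1 ≤ (g i).natDegree)
    (E : F[X]) (hE : E ≠ 0) :
    ∃ P : F[X], P.Monic ∧ Irreducible P ∧ ¬ P ∣ E ∧ ∀ i, ∃ x : AdjoinRoot P, (g i).eval₂ (AdjoinRoot.mk P) x = 0 := by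
  classical
  have hinj := IsFractionRing.injective F[X] (FractionRing F[X])
  have h1 : ∀ i, ∃ x : SeparableClosure (FractionRing F[X]),
      aeval x ((g i).map (algebraMap F[X] (FractionRing F[X]))) = 0 := by
    intro i
    refine IsSepClosed.exists_aeval_eq_zero _ _ ?_ (hs i)
    rw [degree_map_eq_of_injective hinj]
    intro h
    have := hd i
    have h5 := natDegree_eq_zero_iff_degree_le_zero.mpr h.le
    omega
  choose ρ hρ using h1
  have hint : ∀ x ∈ Set.range ρ, IsIntegral (FractionRing F[X]) x := fun x _ => Algebra.IsIntegral.isIntegral x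
  have hfd := IntermediateField.finiteDimensional_adjoin hint
  have hsep : Algebra.IsSeparable (FractionRing F[X]) (IntermediateField.adjoin (FractionRing F[X]) (Set.range ρ)) :=
    Algebra.isSeparable_tower_bot_of_isSeparable _ _ (SeparableClosure (FractionRing F[X]))
  obtain ⟨α, hα⟩ := Field.exists_primitive_element (FractionRing F[X])
    (IntermediateField.adjoin (FractionRing F[X]) (Set.range ρ))
  have hαi : IsIntegral (FractionRing F[X]) α := Algebra.IsIntegral.isIntegral α
  refine ap_prim g E hE (FractionRing F[X]) ap_clear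
    (IntermediateField.adjoin (FractionRing F[X]) (Set.range ρ)) α hαi ?_
    (fun i => ⟨ρ i, IntermediateField.subset_adjoin _ _ ⟨i, rfl⟩⟩) ?_
  · intro x
    have h3 := IntermediateField.adjoin_simple_toSubalgebra_of_isAlgebraic (hαi.isAlgebraic)
    rw [hα, IntermediateField.top_toSubalgebra] at h3
    have h4 : x ∈ Algebra.adjoin (FractionRing F[X]) {α} := by
      rw [← h3]
      exact Algebra.mem_top
    rw [Algebra.adjoin_singleton_eq_range_aeval] at h4
    obtain ⟨p, hp⟩ := h4
    exact ⟨p, hp⟩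
  · intro i
    apply Subtype.val_injective
    exact (IntermediateField.aeval_coe _ _ _).symm.trans (hρ i)

end Pool.Agent.H456.PR

end

/-! ### The Carlitz module -/

section

open Polynomial Finset

namespace Pool.Agent.H456.PR

variable (F : Type) [Field F] [Fintype F]

/-- the operator `b ↦ t b + b ^ q` -/
noncomputable def apRho {B : Type} [CommRing B] [Algebra F B] (t : B) : Module.End F B :=
  LinearMap.mulLeft F t + (FiniteField.frobeniusAlgHom F B).toLinearMap

theorem apRho_apply {B : Type} [CommRing B] [Algebra F B] (t b : B) :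
    apRho F t b = t * b + b ^ Fintype.card F := rfl

/-- the action of a polynomial -/
noncomputable def apA {B : Type} [CommRing B] [Algebra F B] (t : B) (a : F[X]) (b : B) : B :=
  aeval (apRho F t) a b

variable {F}

section

variable {B : Type} [CommRing B] [Algebra F B] (t : B)

theorem apA_add (a a' : F[X]) (b : B) : apA F t (a + a') b = apA F t a b + apA F t a' b := by
  simp [apA]

theorem apA_sub (a a' : F[X]) (b : B) : apA F t (a - a') b = apA F t a b - apA F t a' b := by
  simp [apA]

theorem apA_mul (a a' : F[X]) (b : B) : apA F t (a * a') b = apA F t a (apA F t a' b) := by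
  simp [apA]

theorem apA_zero (a : F[X]) : apA F t a 0 = 0 := by
  simp [apA]

theorem apA_one (b : B) : apA F t 1 b = b := by
  simp [apA]

theorem apA_C (c : F) (b : B) : apA F t (C c) b = algebraMap F B c * b := by
  simp [apA, Algebra.smul_def]

theorem apA_X (b : B) : apA F t X b = t * b + b ^ Fintype.card F := by
  simp [apA, apRho_apply]

theorem apA_ind {motive : F[X] → Prop} (a : F[X]) (h0 : ∀ c, motive (C c)) (hadd : ∀ a a', motive a → motive a' →
    motive (a + a')) (hX : ∀ a, motive a → motive (a * X)) : motive a := by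
  refine Polynomial.induction_on a h0 hadd ?_
  intro n c h
  rw [pow_succ, ← mul_assoc]
  exact hX _ h

theorem apA_hom {B' : Type} [CommRing B'] [Algebra F B'] (h : B →ₐ[F] B') (a : F[X]) :
    ∀ b : B, h (apA F t a b) = apA F (h t) a (h b) := by
  refine apA_ind (motive := fun a => ∀ b : B, h (apA F t a b) = apA F (h t) a (h b)) a ?_ ?_ ?_
  · intro c b
    rw [apA_C, apA_C, map_mul, AlgHom.commutes]
  · intro a a' h1 h2 b
    rw [apA_add, apA_add, map_add, h1, h2]
  · intro a h1 b
    rw [apA_mul, apA_mul, h1, apA_X, apA_X, map_add, map_mul, map_pow]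

end

/-- the Carlitz polynomial -/
noncomputable def apC (a : F[X]) : F[X][X] := apA F (C X : F[X][X]) a X

theorem apC_eval {B : Type} [CommRing B] [Algebra F B] (ψ : F[X] →ₐ[F] B) (a : F[X]) (b : B) :
    eval₂ (ψ : F[X] →+* B) b (apC a) = apA F (ψ X) a b := by
  have h := apA_hom (C X : F[X][X]) (eval₂AlgHom ψ b (fun _ => Commute.all _ _)) a X
  simpa [apC] using h

theorem apC_comp (a a' : F[X]) : (apC a).comp (apC a') = apC (a * a') := by
  have h := apC_eval (CAlgHom : F[X] →ₐ[F] F[X][X]) a (apC a')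
  rw [comp, show apC (a * a') = apA F (C X) a (apC a') from apA_mul _ _ _ _]
  exact h

theorem ap_card_zero : ((Fintype.card F : ℕ) : F) = 0 := FiniteField.cast_card_eq_zero F

theorem apC_derivative_aux (a : F[X]) : ∀ y : F[X][X], derivative (apA F (C X : F[X][X]) a y) = C a * derivative y := by
  refine apA_ind (motive := fun a => ∀ y : F[X][X], derivative (apA F (C X : F[X][X]) a y) = C a * derivative y) a ?_ ?_ ?_
  · intro c y
    rw [apA_C]
    have : algebraMap F F[X][X] c = C (C c) := rfl
    rw [this, derivative_C_mul]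
  · intro a a' h1 h2 y
    rw [apA_add, derivative_add, h1, h2, C_add, add_mul]
  · intro a h1 y
    rw [apA_mul, h1, apA_X, derivative_add, derivative_C_mul, derivative_pow]
    have : (C ((Fintype.card F : ℕ) : F[X]) : F[X][X]) = 0 := by
      have h3 : ((Fintype.card F : ℕ) : F[X]) = 0 := by
        rw [← C_eq_natCast, ap_card_zero, C_0]
      rw [h3, C_0]
    rw [this, C_mul]
    ring

theorem apC_derivative (a : F[X]) : derivative (apC a) = C a := by
  rw [apC, apC_derivative_aux, derivative_X, mul_one]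

theorem apC_coeff_zero (a : F[X]) : (apC a).coeff 0 = 0 := by
  rw [coeff_zero_eq_eval_zero]
  have h := apC_eval (AlgHom.id F F[X]) a 0
  rw [apA_zero] at h
  exact h

theorem apC_coeff_one (a : F[X]) : (apC a).coeff 1 = a := by
  have h := congrArg (fun p => coeff p 0) (apC_derivative a)
  simp only [coeff_derivative, coeff_C_zero] at h
  simpa using h

theorem ap_card_one_lt : 1 < Fintype.card F := Fintype.one_lt_card

theorem apRho_natDegree (y : F[X][X]) (hy : 1 ≤ y.natDegree) :
    ((C X : F[X][X]) * y + y ^ Fintype.card F).natDegree = Fintype.card F * y.natDegree := by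
  have h1 : ((C X : F[X][X]) * y).natDegree = y.natDegree := natDegree_C_mul X_ne_zero
  have h2 : (y ^ Fintype.card F).natDegree = Fintype.card F * y.natDegree := natDegree_pow _ _
  rw [natDegree_add_eq_right_of_natDegree_lt, h2]
  rw [h1, h2]
  have := ap_card_one_lt (F := F)
  nlinarith

theorem apC_natDegree_aux (n : ℕ) : ∀ a : F[X], a.natDegree = n → a ≠ 0 → (apC a).natDegree = Fintype.card F ^ n := by
  induction n with
  | zero =>
    intro a ha h0
    rw [eq_C_of_natDegree_eq_zero ha, apC, apA_C]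
    have : algebraMap F F[X][X] (a.coeff 0) = C (C (a.coeff 0)) := rfl
    rw [this, natDegree_C_mul, natDegree_X, pow_zero]
    intro h
    apply h0
    rw [eq_C_of_natDegree_eq_zero ha, h]
  | succ n ih =>
    intro a ha h0
    have h1 : a = X * a.divX + C (a.coeff 0) := (X_mul_divX_add a).symm
    have h2 : a.divX.natDegree = n := by rw [natDegree_divX_eq_natDegree_tsub_one, ha]; rfl
    have h3 : a.divX ≠ 0 := by
      intro h
      rw [h, mul_zero, zero_add] at h1
      rw [h1, natDegree_C] at ha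
      omega
    have h4 := ih _ h2 h3
    have hq := ap_card_one_lt (F := F)
    have h5 : 1 ≤ (apC a.divX).natDegree := by
      rw [h4]; exact Nat.one_le_pow _ _ (by omega)
    have h6 : apC a = ((C X : F[X][X]) * apC a.divX + apC a.divX ^ Fintype.card F) + C (C (a.coeff 0)) * X := by
      conv_lhs => rw [h1]
      rw [apC, apA_add, apA_mul, apA_X, apA_C]
      rfl
    rw [h6, natDegree_add_eq_left_of_natDegree_lt, apRho_natDegree _ h5, h4, pow_succ']
    rw [apRho_natDegree _ h5, h4]
    have h7 : (C (C (a.coeff 0)) * X : F[X][X]).natDegree ≤ 1 := by simpa using natDegree_C_mul_X_pow_le (C (a.coeff 0)) 1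
    have h8 : 1 ≤ Fintype.card F ^ n := Nat.one_le_pow _ _ (by omega)
    nlinarith

theorem apC_natDegree (a : F[X]) (ha : a ≠ 0) : (apC a).natDegree = Fintype.card F ^ a.natDegree :=
  apC_natDegree_aux _ a rfl ha

/-- the polynomials whose roots have exact order `Q ^ (e + 1)` -/
noncomputable def apG (Q : F[X]) (e : ℕ) : F[X][X] := (divX (apC Q)).comp (apC (Q ^ e))

theorem apC_eq_mul (Q : F[X]) : apC Q = X * divX (apC Q) := by
  have h := (X_mul_divX_add (apC Q)).symm
  rw [apC_coeff_zero, C_0, add_zero] at h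
  exact h

theorem apG_mul (Q : F[X]) (e : ℕ) : apC (Q ^ e) * apG Q e = apC (Q ^ (e + 1)) := by
  rw [pow_succ', ← apC_comp, apG]
  conv_rhs => rw [apC_eq_mul Q]
  rw [mul_comp, X_comp]

theorem apG_natDegree (Q : F[X]) (hQ : 1 ≤ Q.natDegree) (e : ℕ) : 1 ≤ (apG Q e).natDegree := by
  have hQ0 : Q ≠ 0 := by
    rintro rfl
    simp at hQ
  have hq := ap_card_one_lt (F := F)
  rw [apG, natDegree_comp, natDegree_divX_eq_natDegree_tsub_one, apC_natDegree Q hQ0,
    apC_natDegree _ (pow_ne_zero _ hQ0)]
  have h1 : 1 ≤ Fintype.card F ^ (Q ^ e).natDegree := Nat.one_le_pow _ _ (by omega)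
  have h2 : 2 ≤ Fintype.card F ^ Q.natDegree := hq.trans_le (Nat.le_self_pow (by omega) _)
  exact Nat.mul_pos (by omega) h1

theorem apG_separable (Q : F[X]) (hQ : Q ≠ 0) (e : ℕ) :
    ((apG Q e).map (algebraMap F[X] (FractionRing F[X]))).Separable := by
  have h1 : ((apC (Q ^ (e + 1))).map (algebraMap F[X] (FractionRing F[X]))).Separable := by
    rw [Polynomial.Separable, derivative_map, apC_derivative, map_C]
    have h0 : algebraMap F[X] (FractionRing F[X]) (Q ^ (e + 1)) ≠ 0 :=
      (map_ne_zero_iff _ (IsFractionRing.injective F[X] (FractionRing F[X]))).mpr (pow_ne_zero _ hQ)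
    refine ⟨0, C (algebraMap F[X] (FractionRing F[X]) (Q ^ (e + 1)))⁻¹, ?_⟩
    rw [zero_mul, zero_add, ← C_mul, inv_mul_cancel₀ h0, C_1]
  rw [← apG_mul, Polynomial.map_mul] at h1
  exact h1.of_mul_right

end Pool.Agent.H456.PR

end

/-! ### The Carlitz module modulo a prime -/

section

open Polynomial Finset

namespace Pool.Agent.H456.PR

variable {F : Type} [Field F] [Fintype F]

section

variable {k : Type} [Field k] [Algebra F k]

/-- the linear form `X ^ i ↦ ρ ^ i b` -/
noncomputable def apL (F : Type) [Field F] [Fintype F] {k : Type} [Field k] [Algebra F k] (t b : k) : k[X] →ₗ[k] k :=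
  Polynomial.lsum (fun i => LinearMap.toSpanSingleton k k (((apRho F t) ^ i) b))

theorem apL_monomial (t b : k) (n : ℕ) (c : k) : apL F t b (monomial n c) = c * ((apRho F t) ^ n) b := by
  rw [apL, lsum_apply, sum_monomial_index]
  · simp [LinearMap.toSpanSingleton_apply]
  · simp

theorem apL_mul_X (t b : k) (G : k[X]) : apL F t b (G * X) = apL F t (apRho F t b) G := by
  refine Polynomial.induction_on' G ?_ ?_
  · intro p q hp hq
    rw [add_mul, map_add, map_add, hp, hq]
  · intro n c
    rw [monomial_mul_X, apL_monomial, apL_monomial, pow_succ]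
    rfl

theorem apL_C_mul (t b c : k) (G : k[X]) : apL F t b (C c * G) = c * apL F t b G := by
  rw [← smul_eq_C_mul, map_smul, smul_eq_mul]

theorem apL_map (t b : k) (a : F[X]) : apL F t b (a.map (algebraMap F k)) = apA F t a b := by
  refine Polynomial.induction_on' a ?_ ?_
  · intro p q hp hq
    rw [Polynomial.map_add, map_add, apA_add, hp, hq]
  · intro n c
    rw [map_monomial, apL_monomial, apA, aeval_monomial, Module.algebraMap_end_eq_smul_id]
    simp [Algebra.smul_def]

theorem ap_frob_pow (j : ℕ) (x : k) : ((FiniteField.frobeniusAlgHom F k) ^ j) x = x ^ (Fintype.card F ^ j) := by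
  rw [AlgHom.coe_pow, FiniteField.coe_frobeniusAlgHom, pow_iterate]

theorem apL_prod (t : k) (j : ℕ) : ∀ b : k, apL F t b (∏ i ∈ range j, (X - C (t ^ (Fintype.card F ^ i)))) =
    b ^ (Fintype.card F ^ j) := by
  induction j with
  | zero =>
    intro b
    have h : (∏ i ∈ range 0, (X - C (t ^ (Fintype.card F ^ i))) : k[X]) = monomial 0 1 := by simp
    rw [h, apL_monomial]
    simp
  | succ j ih =>
    intro b
    rw [prod_range_succ, mul_sub, map_sub, apL_mul_X, ih, mul_comm _ (C _), apL_C_mul, ih, apRho_apply,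
      ← ap_frob_pow (F := F) j (t * b + b ^ Fintype.card F), map_add, map_mul, ap_frob_pow, ap_frob_pow, ap_frob_pow,
      ← pow_mul, ← pow_succ']
    ring

end

theorem ap_card_root (P : F[X]) (hP1 : P.Monic) (hP2 : Irreducible P) : ∀ b : AdjoinRoot P,
    b ^ (Fintype.card F ^ P.natDegree) = b := by
  intro b
  have := Fact.mk hP2
  have hfin : Module.finrank F (AdjoinRoot P) = P.natDegree := finrank_quotient_span_eq_natDegree
  have hfd : FiniteDimensional F (AdjoinRoot P) := (AdjoinRoot.powerBasis hP2.ne_zero).finite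
  have hf : Finite (AdjoinRoot P) := Module.finite_of_finite F
  have := Fintype.ofFinite (AdjoinRoot P)
  rw [← hfin, ← Module.card_eq_pow_finrank, FiniteField.pow_card]

theorem ap_map_eq (P : F[X]) (hP1 : P.Monic) (hP2 : Irreducible P) : P.map (algebraMap F (AdjoinRoot P)) =
    ∏ i ∈ range P.natDegree, (X - C ((AdjoinRoot.root P) ^ (Fintype.card F ^ i))) := by
  have := Fact.mk hP2
  have hfin : Module.finrank F (AdjoinRoot P) = P.natDegree := finrank_quotient_span_eq_natDegree
  have hfd : FiniteDimensional F (AdjoinRoot P) := (AdjoinRoot.powerBasis hP2.ne_zero).finite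
  have hf : Finite (AdjoinRoot P) := Module.finite_of_finite F
  have hinj : Function.Injective (fun i : Fin P.natDegree => (AdjoinRoot.root P) ^ (Fintype.card F ^ i.1)) := by
    intro i j hij
    have h1 := (FiniteField.bijective_frobeniusAlgHom_pow F (AdjoinRoot P)).1
    have h2 : (FiniteField.frobeniusAlgHom F (AdjoinRoot P)) ^ i.1 = (FiniteField.frobeniusAlgHom F (AdjoinRoot P)) ^ j.1 := by
      apply AdjoinRoot.algHom_ext
      rw [ap_frob_pow, ap_frob_pow]
      exact hij
    have h3 := @h1 ⟨i.1, by rw [hfin]; exact i.2⟩ ⟨j.1, by rw [hfin]; exact j.2⟩ h2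
    exact Fin.ext (by simpa using h3)
  rw [← Fin.prod_univ_eq_prod_range (fun i => X - C ((AdjoinRoot.root P) ^ (Fintype.card F ^ i))) P.natDegree]
  have hdvd : (∏ i : Fin P.natDegree, (X - C ((AdjoinRoot.root P) ^ (Fintype.card F ^ i.1)))) ∣
      P.map (algebraMap F (AdjoinRoot P)) := by
    refine Finset.prod_dvd_of_coprime ((pairwise_coprime_X_sub_C hinj).set_pairwise _) ?_
    intro i _
    rw [dvd_iff_isRoot, IsRoot, eval_map_algebraMap, ← ap_frob_pow (F := F), aeval_algHom_apply]
    have : aeval (AdjoinRoot.root P) P = 0 := by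
      rw [AdjoinRoot.aeval_eq, AdjoinRoot.mk_self]
    rw [this, map_zero]
  refine eq_of_monic_of_dvd_of_natDegree_le (monic_prod_of_monic _ _ fun i _ => monic_X_sub_C _) (hP1.map _) hdvd ?_
  rw [natDegree_map, natDegree_prod_of_monic _ _ fun i _ => monic_X_sub_C _,
    Finset.sum_congr rfl (fun i _ => natDegree_X_sub_C _)]
  simp

/-- the analogue of Fermat's little theorem -/
theorem ap_fermat (P : F[X]) (hP1 : P.Monic) (hP2 : Irreducible P) (b : AdjoinRoot P) :
    apA F (AdjoinRoot.root P) (P - 1) b = 0 := by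
  have := Fact.mk hP2
  rw [apA_sub, apA_one, ← apL_map, ap_map_eq P hP1 hP2, apL_prod, ap_card_root P hP1 hP2, sub_self]

theorem ap_order (P Q : F[X]) (hP1 : P.Monic) (hP2 : Irreducible P) (hQP : ¬ P ∣ Q) (hQ : Irreducible Q) (e : ℕ)
    (x : AdjoinRoot P) (hx : (apG Q e).eval₂ (AdjoinRoot.mk P) x = 0) : Q ^ (e + 1) ∣ P - 1 := by
  classical
  have := Fact.mk hP2
  by_contra hc
  have hev : ∀ (a : F[X]) (b : AdjoinRoot P), eval₂ (AdjoinRoot.mk P) b (apC a) = apA F (AdjoinRoot.root P) a b :=
    fun a b => apC_eval (AdjoinRoot.mkₐ P) a b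
  have hy : apA F (AdjoinRoot.root P) (Q ^ e) x ≠ 0 := by
    intro h
    rw [apG, eval₂_comp, hev, h, eval₂_at_zero, coeff_divX, apC_coeff_one] at hx
    exact hQP (AdjoinRoot.mk_eq_zero.mp hx)
  have hy2 : apA F (AdjoinRoot.root P) (Q ^ (e + 1)) x = 0 := by
    rw [← hev, ← apG_mul, eval₂_mul, hx, mul_zero]
  have hy3 := ap_fermat P hP1 hP2 x
  obtain ⟨u, v, huv⟩ : ∃ u v, EuclideanDomain.gcd (P - 1) (Q ^ (e + 1)) = (P - 1) * u + Q ^ (e + 1) * v :=
    ⟨_, _, EuclideanDomain.gcd_eq_gcd_ab (P - 1) (Q ^ (e + 1))⟩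
  obtain ⟨j, hj, hj2⟩ := (dvd_prime_pow hQ.prime (e + 1)).mp (EuclideanDomain.gcd_dvd_right (P - 1) (Q ^ (e + 1)))
  have hj3 : j ≤ e := by
    by_contra hje
    have : j = e + 1 := by omega
    subst this
    exact hc (hj2.symm.dvd.trans (EuclideanDomain.gcd_dvd_left _ _))
  obtain ⟨w, hw⟩ := hj2.dvd.trans (pow_dvd_pow Q hj3)
  apply hy
  rw [hw, huv, mul_comm, apA_mul, apA_add, mul_comm (P - 1), mul_comm (Q ^ (e + 1)), apA_mul, apA_mul, hy3, hy2,
    apA_zero, apA_zero, add_zero, apA_zero]

theorem ap_even (P : F[X]) (hP2 : Irreducible P) (g : F[X]) (hg1 : g.Monic) (hg2 : Irreducible g)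
    (hg3 : g.natDegree = 2) (x : AdjoinRoot P) (hx : (g.map C).eval₂ (AdjoinRoot.mk P) x = 0) : Even P.natDegree := by
  have := Fact.mk hP2
  have hfin : Module.finrank F (AdjoinRoot P) = P.natDegree := finrank_quotient_span_eq_natDegree
  have hfd : FiniteDimensional F (AdjoinRoot P) := (AdjoinRoot.powerBasis hP2.ne_zero).finite
  have h1 : aeval x g = 0 := by
    rw [eval₂_map] at hx
    exact hx
  have h2 := minpoly.eq_of_irreducible_of_monic hg2 h1 hg1
  have h3 := minpoly.degree_dvd (K := F) (x := x) (Algebra.IsIntegral.isIntegral x)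
  rw [← h2, hg3, hfin] at h3
  exact even_iff_two_dvd.mpr h3

theorem ap_quad (F : Type) [Field F] [Finite F] : ∃ g : F[X], g.Monic ∧ Irreducible g ∧ g.natDegree = 2 ∧ g.Separable := by
  obtain ⟨p, hp⟩ := CharP.exists F
  have hpp : Fact p.Prime := ⟨CharP.char_is_prime F p⟩
  have h1 := FiniteField.finrank_extension F p 2
  obtain ⟨α, hα⟩ := Field.exists_primitive_element F (FiniteField.Extension F p 2)
  have hi : IsIntegral F α := Algebra.IsIntegral.isIntegral α
  refine ⟨minpoly F α, minpoly.monic hi, minpoly.irreducible hi, ?_, Algebra.IsSeparable.isSeparable F α⟩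
  rw [← IntermediateField.adjoin.finrank hi, hα, IntermediateField.finrank_top', h1]

theorem ap_main (M E : F[X]) (hM : M ≠ 0) (hE : E ≠ 0) : ∃ P : F[X], P.Monic ∧ Irreducible P ∧ ¬ P ∣ E ∧
    Even P.natDegree ∧ M ∣ P - 1 := by
  classical
  obtain ⟨g, hg1, hg2, hg3, hg4⟩ := ap_quad F
  set S := (UniqueFactorizationMonoid.normalizedFactors M).toFinset with hS
  have hSirr : ∀ Q ∈ S, Irreducible Q := fun Q hQ =>
    UniqueFactorizationMonoid.irreducible_of_normalized_factor _ (Multiset.mem_toFinset.mp hQ)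
  have hinjC : Function.Injective (C : F →+* F[X]) := C_injective
  obtain ⟨P, hP1, hP2, hP3, hP4⟩ := ap_roots (F := F) (ι := Option S)
    (fun i => i.elim (g.map C) (fun Q => apG Q.1 ((UniqueFactorizationMonoid.normalizedFactors M).count Q.1 - 1)))
    (by
      rintro (_ | Q)
      · rw [Option.elim_none, Polynomial.map_map]
        exact hg4.map
      · exact apG_separable Q.1 (hSirr Q.1 Q.2).ne_zero _)
    (by
      rintro (_ | Q)
      · rw [Option.elim_none, natDegree_map_eq_of_injective hinjC, hg3]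
        omega
      · exact apG_natDegree Q.1 (hSirr Q.1 Q.2).natDegree_pos _)
    (E * M) (mul_ne_zero hE hM)
  refine ⟨P, hP1, hP2, fun h => hP3 (h.mul_right _), ?_, ?_⟩
  · obtain ⟨x, hx⟩ := hP4 none
    exact ap_even P hP2 g hg1 hg2 hg3 x hx
  · have h1 : Associated (∏ Q ∈ S, Q ^ ((UniqueFactorizationMonoid.normalizedFactors M).count Q)) M := by
      rw [hS, ← Finset.prod_multiset_count]
      exact UniqueFactorizationMonoid.prod_normalizedFactors hM
    refine h1.symm.dvd.trans ?_
    refine Finset.prod_dvd_of_coprime ?_ ?_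
    · intro Q hQ Q' hQ' hne
      refine IsCoprime.pow ?_
      refine (hSirr Q hQ).coprime_iff_not_dvd.mpr ?_
      intro h
      apply hne
      have h2 := (hSirr Q hQ).associated_of_dvd (hSirr Q' hQ') h
      have h3 := UniqueFactorizationMonoid.normalize_normalized_factor Q (Multiset.mem_toFinset.mp hQ)
      have h4 := UniqueFactorizationMonoid.normalize_normalized_factor Q' (Multiset.mem_toFinset.mp hQ')
      rw [← h3, ← h4]
      exact normalize_eq_normalize h2.dvd h2.symm.dvd
    · intro Q hQ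
      obtain ⟨x, hx⟩ := hP4 (some ⟨Q, hQ⟩)
      have hcount : 1 ≤ (UniqueFactorizationMonoid.normalizedFactors M).count Q :=
        Multiset.one_le_count_iff_mem.mpr (Multiset.mem_toFinset.mp hQ)
      have h5 := ap_order P Q hP1 hP2 (fun h => hP3 ((h.trans
        (UniqueFactorizationMonoid.dvd_of_mem_normalizedFactors (Multiset.mem_toFinset.mp hQ))).mul_left _))
        (hSirr Q hQ) _ x hx
      rwa [Nat.sub_add_cancel hcount] at h5

end Pool.Agent.H456.PR

end

open Polynomial Finset Filter
open Pool.Agent.H456.EC (toK toK_inj sig toK_eq reflect_toK cls)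
open Pool.Agent.H456.RN
open Pool.Agent.H456.BQ
open Pool.Agent.H456.Coh (TF)
open Pool.Agent.H456.PP (OneR HasRt sx hh Tz Tq Iso3 nr IsoP nrP)

namespace Pool.Agent.H456.PR

theorem t_ap : S_ap := by
  intro F _ _ M hM d₁
  classical
  obtain ⟨P, hP1, hP2, hP3, hP4, hP5⟩ := ap_main M (∏ f ∈ (PL F (d₁ + 1)).erase 0, f) hM
    (Finset.prod_ne_zero_iff.mpr fun f hf => (Finset.mem_erase.mp hf).1)
  refine ⟨⟨P, hP1, hP2⟩, hP4, ?_, hP5⟩
  by_contra h
  push Not at h
  exact hP3 (Finset.dvd_prod_of_mem (fun f => f) (Finset.mem_erase.mpr ⟨hP2.ne_zero, mem_PL_of_natDegree (by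
    show P.natDegree < d₁ + 1
    have : P.natDegree ≤ d₁ := h
    omega)⟩))

end Pool.Agent.H456.PR
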