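import Pool.Agent.H456.PR.Stm
import Pool.Agent.H456.PP.T_avr2
import Pool.Agent.H456.PP.T_rho

/-!
(avT) Generalization of `t_avr2` (PP/T_avr2.lean) from the two places `PlX F`, `PlO F` to a finite set `T ⊆ S` of places: replace the condition `P = PlX F ∨ P = PlO F` by `P ∈ T`; the local factor is `1/2` for each `P ∈ T`, so the product is `1 / 2 ^ T.card`. `PP.t_rho : PP.S_rho` is proved, `BQ.t_avc.1 : S_avc` too (BQ/T_avc.lean).
-/

set_option autoImplicit false
set_option linter.all false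

open Polynomial Finset Filter
open Pool.Agent.H456.EC (toK toK_inj sig toK_eq reflect_toK cls)
open Pool.Agent.H456.RN
open Pool.Agent.H456.BQ
open Pool.Agent.H456.Coh (TF)
open Pool.Agent.H456.PP (OneR HasRt sx hh Tz Tq Iso3 nr IsoP nrP)

namespace Pool.Agent.H456.PR

section avT

variable {F : Type} [Field F] [Fintype F]

open Classical in
/-- the local factor -/
noncomputable def avT_rho (T : Finset (Pl F)) (P : Pl F) {M : ℕ} (hM : 1 ≤ M)
    (g : Q4 (Rq (P.1 ^ M))) : ℝ :=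
  if P ∈ T then (nr (g.map (redP P.1 hM)) : ℝ) / 2 else 1

open Classical in
/-- the value of the local factor -/
noncomputable def avT_fac (T : Finset (Pl F)) (P : Pl F) : ℝ := if P ∈ T then 1 / 2 else 1

open Classical in
theorem avT_prod (T S : Finset (Pl F)) (hTS : T ⊆ S) (a : Pl F → ℝ) :
    ∏ P : S, (if P.1 ∈ T then a P.1 else 1) = ∏ P ∈ T, a P := by
  have h1 : ∏ P : S, (if P.1 ∈ T then a P.1 else 1) =
      ∏ P ∈ S, (if P ∈ T then a P else 1) :=
    prod_coe_sort S (fun P => if P ∈ T then a P else 1)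
  rw [h1, prod_ite_mem, inter_eq_right.2 hTS]

theorem avT_R (T S : Finset (Pl F)) (hTS : T ⊆ S) {M : ℕ} (hM : 1 ≤ M) (n e : ℕ)
    (G : Q4 F[X]) : ∏ P : S, avT_rho T P.1 hM ((redV S M n e G).at P) =
      ∏ P ∈ T, ((nrP P G : ℝ) / 2) := by
  classical
  have h := avT_prod T S hTS (fun P => (nrP P G : ℝ) / 2)
  rw [← h]
  apply prod_congr rfl
  intro P _
  unfold avT_rho
  rw [redV_at, map_redP]
  rfl

open Classical in
theorem avT_loc (h2 : (2 : F) ≠ 0) (T : Finset (Pl F)) (P : Pl F) {m M : ℕ} (hM : 1 ≤ M)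
    {c : Cub F[X] → Prop}
    (hc : Cnd P.1 m c) (hd : P ∈ T → ∀ f, c f → ¬ P.1 ∣ f.disc) :
    ∑ g, phP P hM (WPc P M c) g * avT_rho T P hM g = avT_fac T P * ∑ g, phP P hM (WPc P M c) g := by
  unfold avT_fac avT_rho
  by_cases h : P ∈ T
  · have h1 := PP.t_rho F h2 P M hM (WPc P M c) (PP.avr2_tr P M hc) (PP.avr2_unit h2 P M (hd h))
    rw [if_pos h]
    have h3 : ∀ g : Q4 (Rq (P.1 ^ M)), phP P hM (WPc P M c) g *
        (if P ∈ T then (nr (g.map (redP P.1 hM)) : ℝ) / 2 else 1) =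
        (1 / 2) * (((g.map (redP P.1 hM)).sp : ℝ) * (nr (g.map (redP P.1 hM)) : ℝ) * WPc P M c g.res) := by
      intro g
      rw [if_pos h]
      unfold phP
      ring
    rw [sum_congr rfl (fun g _ => h3 g), ← mul_sum, h1]
    rfl
  · rw [if_neg h, one_mul]
    apply sum_congr rfl
    intro g _
    rw [if_neg h, mul_one]

end avT

theorem t_avT : S_avT := by
  intro F _ _ h2 m c ci hc hci T hdT S hTS M hM n e hm he hN
  classical
  rw [← BQ.t_avc.1 F h2 m c ci hc hci S M hM n e hm he hN]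
  have hq2 : 2 ≤ (Fintype.card F : ℝ) := q_ge
  have key : ∀ G : Q4 F[X], Ph S hM (fun P => WPc P M (c P)) (WPc (PlX F) M ci) (redV S M n e G) *
      ∏ P ∈ T, ((nrP P G : ℝ) / 2) =
      (∏ P : S, phP P.1 hM (WPc P.1 M (c P.1)) ((redV S M n e G).at P) *
        avT_rho T P.1 hM ((redV S M n e G).at P)) * phX F hM (WPc (PlX F) M ci) (redV S M n e G).inf := by
    intro G
    rw [prod_mul_distrib, avT_R T S hTS hM n e G]
    unfold Ph
    ring
  unfold AV
  rw [sum_congr rfl (fun G _ => key G),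
    sum_redV S M n e he hN (fun g => (∏ P : S, phP P.1 hM (WPc P.1 M (c P.1)) (g.at P) *
        avT_rho T P.1 hM (g.at P)) * phX F hM (WPc (PlX F) M ci) g.inf),
    sum_redV S M n e he hN (fun g => Ph S hM (fun P => WPc P M (c P)) (WPc (PlX F) M ci) g)]
  have h1 : ∑ g : Q4 (RB S M), Ph S hM (fun P => WPc P M (c P)) (WPc (PlX F) M ci) g =
      (∏ P : S, ∑ g, phP P.1 hM (WPc P.1 M (c P.1)) g) * ∑ g, phX F hM (WPc (PlX F) M ci) g :=
    sum_split S M (fun P g => phP P.1 hM (WPc P.1 M (c P.1)) g) (fun g => phX F hM (WPc (PlX F) M ci) g)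
  have h3 := sum_split S M (fun P g => phP P.1 hM (WPc P.1 M (c P.1)) g * avT_rho T P.1 hM g)
    (fun g => phX F hM (WPc (PlX F) M ci) g)
  have h4 : ∀ P : S, ∑ g, phP P.1 hM (WPc P.1 M (c P.1)) g * avT_rho T P.1 hM g =
      avT_fac T P.1 * ∑ g, phP P.1 hM (WPc P.1 M (c P.1)) g := by
    intro P
    exact avT_loc h2 T P.1 hM (hc P.1) (fun h => hdT P.1 h)
  have h5 : ∏ P : S, avT_fac T P.1 = 1 / 2 ^ T.card := by
    have := avT_prod T S hTS (fun _ => (1 / 2 : ℝ))
    unfold avT_fac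
    rw [this, prod_const, div_pow, one_pow]
  rw [h3, h1, prod_congr rfl (fun P _ => h4 P), prod_mul_distrib, h5]
  ring

end Pool.Agent.H456.PR
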