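import Pool.Agent.H456.PR.Stm
import Pool.Agent.H456.PP.T_csq
import Pool.Agent.H456.PP.T_dloc
import Pool.Agent.H456.BQ.T_badc

/-!
(avg) Fix `T, D₀, S, J, ε`; `D_J = DJ J` has degree `2k` (`Cfg.even`), `q = #F`, `B_n = q^(12n+3)`, `B_{n+k} = q^(12k) B_n`. Let `D` be larger than `D₀`, than the degrees of the places of `T`, than the `D₁` of `S_low` for `ε' = ε / (8 q^(10k))`-ish, and than the `D` of `PP.a_csq : PP.S_csq` for `ε/16` (the set there is decreasing in `D`). Conditions: `c P f := if P ∈ T then ¬ P ∣ disc f ∧ (OneR P f ↔ P ∈ S) else if D₀ < deg P ∧ deg P ≤ D then ¬ P² ∣ disc f else True`: `Cnd P 2 (c P)`, invariant under scaling by `u`, `P ∤ u` (`OneR`: roots of `f.sc u` are `u` times the roots of `f` modulo `P`; `disc (f.sc u) = u⁶ disc f`), trivial outside the finite set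
`S₀ = T ∪ PlD F D` (`mem_PlD`). `s = {f ∈ Msh n : all c P f, ¬ BadC f, ∀ P with D < deg P: ¬ P² ∣ disc f}` exactly. Let `M_n = #{f ∈ Msh n : all c P f}`: `#s ≤ M_n ≤ #s + (ε/8) B_n` eventually (`t_badc : S_badc`, `a_csq`). Let `T' ⊆ S`, `T' ∩ J = ∅`. `Φ(g) = 1[¬ BadC g] (NT T' g - 1)` is invariant under translations (`S_tri`; `BadC` is invariant: see Bad.lean) and `BadC (f.sc D) ↔ BadC f`. UPPER: `∑_s (NT T' (f.sc D_J) - 1) ≤ ∑_{f ∈ Msh n, all c, ¬BadC} = q^(-2k) ∑_{g ∈ Msh (n+k), all cJ} Φ(g)` (`S_tws`; terms are `≥ 0` since `NT ≥ 1`: the zero class, finiteness) `≤ q^(-2k) (2/2^|T'| #{g ∈ Msh (n+k) : all cJ} + ε' B_{n+k})`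
(`S_up` for the conditions `cJ`, `m = 5`, at level `n+k`; for `P ∈ T'`: `P ∉ J` so `cJ P = c P` which implies `OneR` as `P ∈ S ⊆ T`) `= 2/2^|T'| M_n + ε' q^(10k) B_n` (`S_tws` with `Φ = 1`). LOWER: with `Φ(g) = 1[¬ BadC g ∧ ∀ P, D < deg P → ¬ P² ∣ disc g] (NT ∅ g - 1)`: `D < deg P` implies `P ∤ D_J`, so the condition is the same for `f.sc D_J` and `f`: `∑_s (NT ∅ (f.sc D_J) - 1) = q^(-2k) ∑_{g, all cJ} Φ(g) ≥ q^(-2k) (2 #{g : all cJ} - ε' B_{n+k}) = 2 M_n - ε' q^(10k) B_n ≥ 2 #s - ε B_n` (`S_low`). There are finitely many `T' ⊆ S`, take the intersection of the eventualities.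
-/

set_option autoImplicit false
set_option linter.all false

open Polynomial Finset Filter
open Pool.Agent.H456.EC (toK toK_inj sig toK_eq reflect_toK cls)
open Pool.Agent.H456.RN
open Pool.Agent.H456.BQ
open Pool.Agent.H456.Coh (TF)
open Pool.Agent.H456.PP (OneR HasRt sx hh Tz Tq Iso3 nr IsoP nrP)

namespace Pool.Agent.H456.PR

section

variable {F : Type} [Field F]

/-! ### cubics modulo `p` -/

theorem avg_cong {p d : F[X]} (hpd : p ∣ d) {f f' : Cub F[X]}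
    (h : f.map (Ideal.Quotient.mk (Ideal.span {d})) = f'.map (Ideal.Quotient.mk (Ideal.span {d}))) :
    (∀ r : F[X], p ∣ f.ev r ↔ p ∣ f'.ev r) ∧ (p ∣ f.disc ↔ p ∣ f'.disc) := by
  constructor
  · intro r
    have h1 : Ideal.Quotient.mk (Ideal.span {d}) (f.ev r) = Ideal.Quotient.mk (Ideal.span {d}) (f'.ev r) := by
      rw [← Cub.map_ev, ← Cub.map_ev, h]
    rw [Ideal.Quotient.eq, Ideal.mem_span_singleton] at h1
    exact dvd_iff_dvd_of_dvd_sub (hpd.trans h1)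
  · have h1 : Ideal.Quotient.mk (Ideal.span {d}) f.disc = Ideal.Quotient.mk (Ideal.span {d}) f'.disc := by
      rw [← Cub.map_disc, ← Cub.map_disc, h]
    rw [Ideal.Quotient.eq, Ideal.mem_span_singleton] at h1
    exact dvd_iff_dvd_of_dvd_sub (hpd.trans h1)

theorem avg_OneR_cong {p d : F[X]} (hpd : p ∣ d) {f f' : Cub F[X]}
    (h : f.map (Ideal.Quotient.mk (Ideal.span {d})) = f'.map (Ideal.Quotient.mk (Ideal.span {d}))) :
    OneR p f ↔ OneR p f' := by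
  obtain ⟨h1, h2⟩ := avg_cong hpd h
  unfold OneR
  simp only [h1, h2]

theorem avg_OneR_tr (p : F[X]) (f : Cub F[X]) (s : F[X]) : OneR p (f.tr s) ↔ OneR p f := by
  unfold OneR
  rw [Cub.disc_tr]
  simp only [Cub.ev_tr]
  refine and_congr Iff.rfl (and_congr ?_ ?_)
  · constructor
    · rintro ⟨r, hr⟩; exact ⟨_, hr⟩
    · rintro ⟨r, hr⟩; exact ⟨r - s, by rwa [sub_add_cancel]⟩
  · constructor
    · intro h r r' hr hr'
      have h1 := h (r - s) (r' - s) (by rwa [sub_add_cancel]) (by rwa [sub_add_cancel])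
      have e : r - s - (r' - s) = r - r' := by ring
      rwa [e] at h1
    · intro h r r' hr hr'
      have h1 := h _ _ hr hr'
      have e : r + s - (r' + s) = r - r' := by ring
      rwa [e] at h1

theorem avg_ev_sub (f : Cub F[X]) (x y : F[X]) : x - y ∣ f.ev x - f.ev y := by
  refine ⟨x ^ 2 + x * y + y ^ 2 + f.a * (x + y) + f.b, ?_⟩
  simp only [Cub.ev]
  ring

theorem avg_OneR_sc {p : F[X]} (hp : Prime p) {u v : F[X]} (hu : ¬ p ∣ u) (huv : p ∣ u * v - 1)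
    (f : Cub F[X]) : OneR p (f.sc u) ↔ OneR p f := by
  have hv : ¬ p ∣ v := by
    intro h
    have h1 : p ∣ 1 := by
      have h2 := dvd_sub (h.mul_left u) huv
      have e : u * v - (u * v - 1) = 1 := by ring
      rwa [e] at h2
    exact hp.not_unit (isUnit_of_dvd_one h1)
  -- the roots
  have k1 : ∀ r : F[X], p ∣ (f.sc u).ev (u * r) ↔ p ∣ f.ev r := by
    intro r
    rw [Cub.ev_sc]
    constructor
    · intro h
      rcases hp.dvd_or_dvd h with h | h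
      · exact absurd (hp.dvd_of_dvd_pow h) hu
      · exact h
    · exact fun h => h.mul_left _
  have k2 : ∀ y : F[X], p ∣ (f.sc u).ev y ↔ p ∣ f.ev (v * y) := by
    intro y
    rw [← k1 (v * y)]
    apply dvd_iff_dvd_of_dvd_sub
    refine Dvd.dvd.trans ?_ (avg_ev_sub (f.sc u) _ _)
    have e : y - u * (v * y) = -((u * v - 1) * y) := by ring
    rw [e, dvd_neg]
    exact huv.mul_right y
  unfold OneR
  refine and_congr ?_ (and_congr ?_ ?_)
  · rw [Cub.disc_sc]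
    refine not_congr ⟨fun h => ?_, fun h => h.mul_left _⟩
    rcases hp.dvd_or_dvd h with h | h
    · exact absurd (hp.dvd_of_dvd_pow h) hu
    · exact h
  · constructor
    · rintro ⟨r, hr⟩; exact ⟨_, (k2 r).1 hr⟩
    · rintro ⟨r, hr⟩; exact ⟨_, (k1 r).2 hr⟩
  · constructor
    · intro h r r' hr hr'
      have h1 := h _ _ ((k1 r).2 hr) ((k1 r').2 hr')
      rw [← mul_sub] at h1
      exact (hp.dvd_or_dvd h1).resolve_left hu
    · intro h r r' hr hr'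
      have h1 := h _ _ ((k2 r).1 hr) ((k2 r').1 hr')
      rw [← mul_sub] at h1
      exact (hp.dvd_or_dvd h1).resolve_left hv

theorem avg_inv (P : Pl F) {u : F[X]} (hu : ¬ P.1 ∣ u) : ∃ v, P.1 ∣ u * v - 1 := by
  have h := (P.2.2.coprime_iff_not_dvd).2 hu
  obtain ⟨a, b, hab⟩ := h
  refine ⟨b, -a, ?_⟩
  linear_combination hab

theorem avg_sq_sc (P : Pl F) {u : F[X]} (hu : ¬ P.1 ∣ u) (n : ℕ) (f : Cub F[X]) :
    P.1 ^ n ∣ (f.sc u).disc ↔ P.1 ^ n ∣ f.disc := by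
  rw [Cub.disc_sc]
  have h : IsCoprime (P.1 ^ n) (u ^ 6) := IsCoprime.pow ((P.2.2.coprime_iff_not_dvd).2 hu)
  exact ⟨fun h1 => h.dvd_of_dvd_mul_left h1, fun h1 => h1.mul_left _⟩

theorem avg_OneR_sc' (P : Pl F) {u : F[X]} (hu : ¬ P.1 ∣ u) (f : Cub F[X]) :
    OneR P.1 (f.sc u) ↔ OneR P.1 f := by
  obtain ⟨v, hv⟩ := avg_inv P hu
  exact avg_OneR_sc P.2.2.prime hu hv f

/-! ### the exceptional cubics -/

theorem avg_BadC_tr (f : Cub F[X]) (r : F[X]) : BadC (f.tr r) ↔ BadC f := by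
  unfold BadC
  rw [Cub.c4_tr, Cub.c6_tr]
  refine or_congr Iff.rfl ?_
  simp only [Cub.map_tr, Cub.ev_tr]
  constructor
  · rintro ⟨ρ, h⟩; exact ⟨_, h⟩
  · rintro ⟨ρ, h⟩; exact ⟨ρ - toK F r, by rwa [sub_add_cancel]⟩

theorem avg_BadC_sc (f : Cub F[X]) {D : F[X]} (hD : D ≠ 0) : BadC (f.sc D) ↔ BadC f := by
  have hK : toK F D ≠ 0 := fun h => hD (toK_inj (by rw [h, map_zero]))
  unfold BadC
  rw [Cub.c4_sc, Cub.c6_sc, mul_eq_zero, mul_eq_zero]
  refine or_congr (or_congr ?_ ?_) ?_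
  · exact ⟨fun h => h.resolve_left (pow_ne_zero _ hD), Or.inr⟩
  · exact ⟨fun h => h.resolve_left (pow_ne_zero _ hD), Or.inr⟩
  · rw [Cub.map_sc]
    constructor
    · rintro ⟨ρ, h⟩
      refine ⟨ρ / toK F D, ?_⟩
      have e : ρ = toK F D * (ρ / toK F D) := by field_simp
      rw [e, Cub.ev_sc] at h
      exact (mul_eq_zero.1 h).resolve_left (pow_ne_zero _ hK)
    · rintro ⟨ρ, h⟩
      exact ⟨toK F D * ρ, by rw [Cub.ev_sc, h, mul_zero]⟩

/-! ### the twisting elements -/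

theorem avg_DJ_ne (J : Finset (Pl F)) : DJ J ≠ 0 := by
  unfold DJ
  exact prod_ne_zero_iff.2 fun P _ => P.2.1.ne_zero

theorem avg_DJ_dvd (J : Finset (Pl F)) (P : Pl F) : P.1 ∣ DJ J ↔ P ∈ J := by
  unfold DJ
  constructor
  · intro h
    obtain ⟨Q, hQ, hd⟩ := (P.2.2.prime.dvd_finset_prod_iff _).1 h
    have h1 := eq_of_monic_of_associated P.2.1 Q.2.1 (P.2.2.associated_of_dvd Q.2.2 hd)
    have h2 : P = Q := Subtype.ext h1
    rw [h2]; exact hQ
  · intro h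
    exact dvd_prod_of_mem (fun P : Pl F => P.1) h

theorem avg_DJ_deg {T : Finset (Pl F)} {D₀ : ℕ} (hT : Cfg T D₀) {J : Finset (Pl F)} (hJ : J ⊆ T) :
    ∃ k : ℕ, (DJ J).natDegree = 2 * k := by
  unfold DJ
  rw [natDegree_prod_of_monic _ _ fun P _ => P.2.1]
  have h : Even (∑ P ∈ J, P.1.natDegree) := Finset.even_sum _ fun P hP => hT.even P (hJ hP)
  obtain ⟨k, hk⟩ := h
  exact ⟨k, by omega⟩

end

section

variable {F : Type} [Field F] [Fintype F]

/-! ### the numbers of classes -/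

theorem avg_NT_pos (h2 : (2 : F) ≠ 0) (T : Finset (Pl F)) {f : Cub F[X]} (hf : f.disc ≠ 0) :
    (0 : ℝ) ≤ (NT T f : ℝ) - 1 := by
  have hfin : Finite (Sel (f.map (toK F))) := finite_Sel hypU_all h2 hf
  have h0 : Nonempty {σ : Sel (f.map (toK F)) // ∀ P ∈ T, Tr P σ} := by
    refine ⟨⟨0, fun P _ => ?_⟩⟩
    refine ⟨zp (f.map (toK F)), IsSel.zp _, rfl, ?_⟩
    refine ⟨1, 0, fun h => one_ne_zero h.1, ?_⟩
    simp only [BQ.zp, Q4.map, Q4.ev, map_zero]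
    ring
  have h1 : 1 ≤ NT T f := Nat.card_pos
  have h3 : (1 : ℝ) ≤ NT T f := by exact_mod_cast h1
  linarith

open Classical in
/-- the conditions -/
noncomputable def avg_c (T S : Finset (Pl F)) (D₀ D : ℕ) (P : Pl F) (f : Cub F[X]) : Prop :=
  if P ∈ T then ¬ P.1 ∣ f.disc ∧ (OneR P.1 f ↔ P ∈ S) else
    if D₀ < P.1.natDegree ∧ P.1.natDegree ≤ D then ¬ P.1 ^ 2 ∣ f.disc else True

theorem avg_cnd (T S : Finset (Pl F)) (D₀ D : ℕ) (P : Pl F) : Cnd P.1 2 (avg_c T S D₀ D P) := by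
  unfold avg_c
  constructor
  · intro f f' h
    obtain ⟨-, h1⟩ := avg_cong (p := P.1) (d := P.1 ^ 2) (dvd_pow_self _ two_ne_zero) h
    obtain ⟨-, h2⟩ := avg_cong (p := P.1 ^ 2) (d := P.1 ^ 2) dvd_rfl h
    have h3 := avg_OneR_cong (p := P.1) (d := P.1 ^ 2) (dvd_pow_self _ two_ne_zero) h
    split_ifs
    · rw [h1, h3]
    · rw [h2]
    · exact Iff.rfl
  · intro f r
    split_ifs
    · rw [Cub.disc_tr, avg_OneR_tr]
    · rw [Cub.disc_tr]
    · exact Iff.rfl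

theorem avg_c_disc {T S : Finset (Pl F)} {D₀ D : ℕ} {P : Pl F} (hP : P ∈ T) {f : Cub F[X]}
    (h : avg_c T S D₀ D P f) : ¬ P.1 ∣ f.disc := by
  unfold avg_c at h
  rw [if_pos hP] at h
  exact h.1

theorem avg_c_sc (T S : Finset (Pl F)) (D₀ D : ℕ) (P : Pl F) (f : Cub F[X]) (u : F[X]) (hu : ¬ P.1 ∣ u) :
    avg_c T S D₀ D P (f.sc u) ↔ avg_c T S D₀ D P f := by
  unfold avg_c
  have h1 := avg_sq_sc P hu 1 f
  rw [pow_one] at h1
  have h2 := avg_sq_sc P hu 2 f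
  split_ifs
  · rw [h1, avg_OneR_sc' P hu]
  · rw [h2]
  · exact Iff.rfl

/-- the members of the family -/
theorem avg_mem {T S : Finset (Pl F)} {D₀ D n : ℕ} (hD : D₀ ≤ D) (f : Cub F[X]) :
    InG T D₀ S n f ↔ f ∈ Msh F n ∧ (∀ P, avg_c T S D₀ D P f) ∧ ¬ BadC f ∧
      ∀ P : Pl F, D < P.1.natDegree → ¬ P.1 ^ 2 ∣ f.disc := by
  constructor
  · rintro ⟨h1, ⟨h2, h3, h4⟩, h5⟩
    refine ⟨h1, fun P => ?_, h4, fun P hP => h3 P (hD.trans_lt hP)⟩
    unfold avg_c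
    split_ifs with c1 c2
    · exact ⟨h2 P c1, h5 P c1⟩
    · exact h3 P c2.1
  · rintro ⟨h1, h2, h3, h4⟩
    refine ⟨h1, ⟨fun P hP => avg_c_disc hP (h2 P), fun P hP => ?_, h3⟩, fun P hP => ?_⟩
    · by_cases hPT : P ∈ T
      · intro hd
        exact avg_c_disc hPT (h2 P) ((dvd_pow_self _ two_ne_zero).trans hd)
      · by_cases hPD : P.1.natDegree ≤ D
        · have h := h2 P
          unfold avg_c at h
          rw [if_neg hPT, if_pos ⟨hP, hPD⟩] at h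
          exact h
        · exact h4 P (not_le.1 hPD)
    · have h := h2 P
      unfold avg_c at h
      rw [if_pos hP] at h
      exact h.2

theorem avg_triv (T S : Finset (Pl F)) (D₀ D : ℕ) {J : Finset (Pl F)} (hJ : J ⊆ T) (P : Pl F)
    (hP : P ∉ (open Classical in T ∪ PlD F D)) (f : Cub F[X]) : cJ J (avg_c T S D₀ D) P f := by
  classical
  rw [mem_union, not_or, mem_PlD, not_le] at hP
  unfold cJ
  rw [if_neg (fun h => hP.1 (hJ h))]
  unfold avg_c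
  rw [if_neg hP.1, if_neg (fun h => absurd h.2 (not_le.2 hP.2))]
  trivial

open Classical in
/-- few cubics with the conditions are not in the family -/
theorem avg_few (h2 : (2 : F) ≠ 0) {ε : ℝ} (hε : 0 < ε) : ∃ D₁ : ℕ, ∀ D ≥ D₁, ∀ᶠ n in atTop,
    (((Sb F n).filter (fun f => BadC f)).card : ℝ) +
      (((Sb F n).filter (fun f => ∃ P : Pl F, D < P.1.natDegree ∧ P.1 ^ 2 ∣ f.disc)).card : ℝ) ≤
      2 * ε * (Fintype.card F : ℝ) ^ (12 * n + 3) := by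
  obtain ⟨D₁, hD₁⟩ := (Pool.Agent.H456.PP.t_csq Pool.Agent.H456.PP.t_dloc) F h2 ε hε
  refine ⟨D₁, fun D hD => ?_⟩
  filter_upwards [hD₁, t_badc F h2 ε hε] with n h3 h4
  have h5 : (((Sb F n).filter (fun f => ∃ P : Pl F, D < P.1.natDegree ∧ P.1 ^ 2 ∣ f.disc)).card : ℝ) ≤
      (((Sb F n).filter (fun f => ∃ P : Pl F, D₁ < P.1.natDegree ∧ P.1 ^ 2 ∣ f.disc)).card : ℝ) := by
    have : (Sb F n).filter (fun f => ∃ P : Pl F, D < P.1.natDegree ∧ P.1 ^ 2 ∣ f.disc) ⊆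
        (Sb F n).filter (fun f => ∃ P : Pl F, D₁ < P.1.natDegree ∧ P.1 ^ 2 ∣ f.disc) := by
      intro f hf
      rw [mem_filter] at hf ⊢
      obtain ⟨h6, P, h7, h8⟩ := hf
      exact ⟨h6, P, lt_of_le_of_lt hD h7, h8⟩
    exact_mod_cast card_le_card this
  linarith

theorem avg_ite (a c d : Prop) [Decidable a] [Decidable c] [Decidable d] (x : ℝ) :
    (if c then (if (¬ a ∧ d) then x else 0) else 0) = if (¬ a ∧ c ∧ d) then x else 0 := by
  by_cases ha : a <;> by_cases hc : c <;> by_cases hd : d <;> simp [ha, hc, hd]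

theorem avg_ite' (a c : Prop) [Decidable a] [Decidable c] (x : ℝ) :
    (if c then (if ¬ a then x else 0) else 0) = if (¬ a ∧ c) then x else 0 := by
  by_cases ha : a <;> by_cases hc : c <;> simp [ha, hc]

theorem avg_arith {q ε : ℝ} (hq : 0 < q) (n k : ℕ) :
    ε / (2 * q ^ (10 * k)) * q ^ (12 * (n + k) + 3) = q ^ (2 * k) * (ε / 2 * q ^ (12 * n + 3)) := by
  have e : 12 * (n + k) + 3 = 10 * k + (2 * k + (12 * n + 3)) := by ring
  rw [e, pow_add, pow_add]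
  have h1 : q ^ (10 * k) ≠ 0 := (pow_pos hq _).ne'
  field_simp

open Classical in
theorem t_avg : S_tri → S_up → S_low → S_tws → S_avg := by
  intro htri hup hlow htws F _ _ h2 T D₀ hT S hST J hJT ε hε
  obtain ⟨k, hk⟩ := avg_DJ_deg hT hJT
  have hq1 : (1 : ℝ) ≤ (Fintype.card F : ℝ) := by
    have : 0 < Fintype.card F := Fintype.card_pos
    exact_mod_cast this
  have hq0 : (0 : ℝ) < (Fintype.card F : ℝ) := by linarith
  obtain ⟨D₁, hD₁⟩ := avg_few h2 (ε := ε / 8) (by positivity)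
  have hε' : 0 < ε / (2 * (Fintype.card F : ℝ) ^ (10 * k)) := by positivity
  obtain ⟨D₂, hD₂⟩ := hlow F h2 _ hε'
  obtain ⟨D, hD0, hD1, hD2, hDT⟩ : ∃ D : ℕ, D₀ ≤ D ∧ D₁ ≤ D ∧ D₂ ≤ D ∧ ∀ P ∈ T, P.1.natDegree ≤ D := by
    refine ⟨D₀ + D₁ + D₂ + ∑ P ∈ T, P.1.natDegree, by omega, by omega, by omega, fun P hP => ?_⟩
    have h : P.1.natDegree ≤ ∑ P ∈ T, P.1.natDegree :=
      single_le_sum (f := fun P : Pl F => P.1.natDegree) (fun i _ => Nat.zero_le _) hP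
    omega
  obtain ⟨hc5, hsum⟩ := htws F h2 J k hk (avg_c T S D₀ D) (avg_cnd T S D₀ D)
    (fun P hP f hf => avg_c_disc (hJT hP) hf) (fun P f u hu => avg_c_sc T S D₀ D P f u hu)
  have hDJ := avg_DJ_ne J
  have htr := avg_triv T S D₀ D hJT
  have hU : ∀ᶠ n in atTop, ∀ T' ∈ S.powerset, Disjoint T' J →
      ∑ f ∈ (Msh F n).filter (fun f => ¬ BadC f ∧ ∀ P, cJ J (avg_c T S D₀ D) P f), ((NT T' f : ℝ) - 1) ≤
      2 / 2 ^ T'.card * (((Msh F n).filter (fun f => ∀ P, cJ J (avg_c T S D₀ D) P f)).card : ℝ) +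
        ε / (2 * (Fintype.card F : ℝ) ^ (10 * k)) * (Fintype.card F : ℝ) ^ (12 * n + 3) := by
    rw [Filter.eventually_all_finset]
    intro T' hT'
    by_cases hd : Disjoint T' J
    · have hT1 : ∀ P ∈ T', ∀ f, cJ J (avg_c T S D₀ D) P f → OneR P.1 f := by
        intro P hP f hf
        have hPJ : P ∉ J := fun h => (Finset.disjoint_left.1 hd) hP h
        have hPS := mem_powerset.1 hT' hP
        unfold cJ at hf
        rw [if_neg hPJ] at hf
        unfold avg_c at hf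
        rw [if_pos (hST hPS)] at hf
        exact hf.2.2 hPS
      filter_upwards [hup F h2 5 (cJ J (avg_c T S D₀ D)) hc5 (T ∪ PlD F D) htr T' hT1 _ hε'] with n hn _
      exact hn
    · exact Eventually.of_forall fun n h => absurd h hd
  have hL := hD₂ D hD2 5 (cJ J (avg_c T S D₀ D)) hc5 (T ∪ PlD F D) htr
  filter_upwards [(tendsto_add_atTop_nat k).eventually hU, (tendsto_add_atTop_nat k).eventually hL,
    hD₁ D hD1] with n hUn hLn hfew s hs
  have hmem : ∀ f, f ∈ s ↔ f ∈ Msh F n ∧ (∀ P, avg_c T S D₀ D P f) ∧ ¬ BadC f ∧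
      ∀ P : Pl F, D < P.1.natDegree → ¬ P.1 ^ 2 ∣ f.disc := fun f => by rw [hs, avg_mem hD0]
  obtain ⟨A, hA⟩ : ∃ A, A = (Msh F n).filter (fun f => ∀ P, avg_c T S D₀ D P f) := ⟨_, rfl⟩
  obtain ⟨B, hB⟩ : ∃ B, B = (Msh F (n + k)).filter (fun g => ∀ P, cJ J (avg_c T S D₀ D) P g) := ⟨_, rfl⟩
  have hsum' : ∀ (Φ : Cub F[X] → ℝ), (∀ f r, Φ (f.tr r) = Φ f) →
      (Fintype.card F : ℝ) ^ (2 * k) * ∑ f ∈ A, Φ (f.sc (DJ J)) = ∑ g ∈ B, Φ g := by
    intro Φ hΦ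
    rw [hA, hB]
    exact hsum Φ hΦ n
  have hcard : (Fintype.card F : ℝ) ^ (2 * k) * (A.card : ℝ) = (B.card : ℝ) := by
    have h := hsum' (fun _ => 1) (fun _ _ => rfl)
    simpa using h
  have hdisc : ∀ f ∈ A, (f.sc (DJ J)).disc ≠ 0 := by
    intro f hf
    rw [hA, mem_filter, mem_Msh] at hf
    rw [Cub.disc_sc]
    exact mul_ne_zero (pow_ne_zero _ hDJ) hf.1.2.1
  have hsA : s ⊆ A := by
    intro f hf
    rw [hmem] at hf
    rw [hA, mem_filter]
    exact ⟨hf.1, hf.2.1⟩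
  have hsAc : (s.card : ℝ) ≤ A.card := by exact_mod_cast card_le_card hsA
  have hAs : (A.card : ℝ) ≤ s.card + ε / 4 * (Fintype.card F : ℝ) ^ (12 * n + 3) := by
    have hsub : A ⊆ s ∪ ((Sb F n).filter (fun f => BadC f) ∪
        (Sb F n).filter (fun f => ∃ P : Pl F, D < P.1.natDegree ∧ P.1 ^ 2 ∣ f.disc)) := by
      intro f hf
      rw [hA, mem_filter] at hf
      have hSb : f ∈ Sb F n := mem_Sb.2 (mem_Msh.1 hf.1).1
      rw [mem_union, mem_union, mem_filter, mem_filter]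
      by_cases hb : BadC f
      · exact Or.inr (Or.inl ⟨hSb, hb⟩)
      · by_cases hd : ∃ P : Pl F, D < P.1.natDegree ∧ P.1 ^ 2 ∣ f.disc
        · exact Or.inr (Or.inr ⟨hSb, hd⟩)
        · refine Or.inl ((hmem f).2 ⟨hf.1, hf.2, hb, fun P hP hd' => hd ⟨P, hP, hd'⟩⟩)
    have h1 := (card_le_card hsub).trans ((card_union_le _ _).trans (Nat.add_le_add_left (card_union_le _ _) _))
    have h3 : (A.card : ℝ) ≤ s.card + ((((Sb F n).filter (fun f => BadC f)).card : ℝ) +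
        (((Sb F n).filter (fun f => ∃ P : Pl F, D < P.1.natDegree ∧ P.1 ^ 2 ∣ f.disc)).card : ℝ)) := by
      exact_mod_cast h1
    have e : 2 * (ε / 8) * (Fintype.card F : ℝ) ^ (12 * n + 3) = ε / 4 * (Fintype.card F : ℝ) ^ (12 * n + 3) := by ring
    linarith
  have hQ : (0 : ℝ) < (Fintype.card F : ℝ) ^ (12 * n + 3) := pow_pos hq0 _
  have hq2k : (0 : ℝ) < (Fintype.card F : ℝ) ^ (2 * k) := pow_pos hq0 _
  constructor
  · intro T' hT' hd
    obtain ⟨Φ, hΦ⟩ : ∃ Φ : Cub F[X] → ℝ, ∀ g, Φ g = if ¬ BadC g then ((NT T' g : ℝ) - 1) else 0 := ⟨_, fun g => rfl⟩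
    have hΦtr : ∀ f r, Φ (f.tr r) = Φ f := by
      intro f r
      rw [hΦ, hΦ, htri F T' f r]
      simp only [avg_BadC_tr]
    have h1 : ∑ f ∈ s, ((NT T' (f.sc (DJ J)) : ℝ) - 1) = ∑ f ∈ s, Φ (f.sc (DJ J)) := by
      refine sum_congr rfl fun f hf => ?_
      rw [hmem] at hf
      rw [hΦ, if_pos]
      rw [avg_BadC_sc f hDJ]
      exact hf.2.2.1
    have h2' : ∑ f ∈ s, Φ (f.sc (DJ J)) ≤ ∑ f ∈ A, Φ (f.sc (DJ J)) := by
      refine sum_le_sum_of_subset_of_nonneg hsA fun f hf _ => ?_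
      rw [hΦ]
      by_cases hb : BadC (f.sc (DJ J))
      · rw [if_neg (not_not.2 hb)]
      · rw [if_pos hb]
        exact avg_NT_pos h2 T' (hdisc f hf)
    have h3 := hsum' Φ hΦtr
    have h4 : ∑ g ∈ B, Φ g = ∑ f ∈ (Msh F (n + k)).filter (fun f => ¬ BadC f ∧ ∀ P, cJ J (avg_c T S D₀ D) P f),
        ((NT T' f : ℝ) - 1) := by
      rw [hB, sum_filter, sum_filter]
      refine sum_congr rfl fun g _ => ?_
      rw [hΦ]
      exact avg_ite' _ _ _
    have h5 := hUn T' (mem_powerset.2 hT') hd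
    rw [← h4, ← h3, ← hB, ← hcard, avg_arith hq0] at h5
    have h6 : ∑ f ∈ A, Φ (f.sc (DJ J)) ≤ 2 / 2 ^ T'.card * (A.card : ℝ) + ε / 2 * (Fintype.card F : ℝ) ^ (12 * n + 3) := by
      have e : 2 / 2 ^ T'.card * ((Fintype.card F : ℝ) ^ (2 * k) * (A.card : ℝ)) +
          (Fintype.card F : ℝ) ^ (2 * k) * (ε / 2 * (Fintype.card F : ℝ) ^ (12 * n + 3)) =
          (Fintype.card F : ℝ) ^ (2 * k) * (2 / 2 ^ T'.card * (A.card : ℝ) +
            ε / 2 * (Fintype.card F : ℝ) ^ (12 * n + 3)) := by ring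
      rw [e] at h5
      exact le_of_mul_le_mul_left h5 hq2k
    have h7 : (2 : ℝ) / 2 ^ T'.card ≤ 2 := by
      rw [div_le_iff₀ (by positivity)]
      have : (1 : ℝ) ≤ 2 ^ T'.card := one_le_pow₀ (by norm_num)
      linarith
    have h8 : (0 : ℝ) < 2 / 2 ^ T'.card := by positivity
    have h9 : 2 / 2 ^ T'.card * (A.card : ℝ) ≤ 2 / 2 ^ T'.card * (s.card : ℝ) +
        ε / 2 * (Fintype.card F : ℝ) ^ (12 * n + 3) := by
      have h10 := mul_le_mul_of_nonneg_left hAs h8.le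
      have h11 : (2 : ℝ) / 2 ^ T'.card * (ε / 4 * (Fintype.card F : ℝ) ^ (12 * n + 3)) ≤
          2 * (ε / 4 * (Fintype.card F : ℝ) ^ (12 * n + 3)) :=
        mul_le_mul_of_nonneg_right h7 (by positivity)
      rw [mul_add] at h10
      linarith
    rw [h1]
    linarith
  · obtain ⟨Φ, hΦ⟩ : ∃ Φ : Cub F[X] → ℝ, ∀ g, Φ g =
        if (¬ BadC g ∧ ∀ P : Pl F, D < P.1.natDegree → ¬ P.1 ^ 2 ∣ g.disc) then ((NT ∅ g : ℝ) - 1) else 0 := ⟨_, fun g => rfl⟩
    have hΦtr : ∀ f r, Φ (f.tr r) = Φ f := by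
      intro f r
      rw [hΦ, hΦ, htri F ∅ f r]
      simp only [avg_BadC_tr, Cub.disc_tr]
    have hiff : ∀ f : Cub F[X], (∀ P : Pl F, D < P.1.natDegree → ¬ P.1 ^ 2 ∣ (f.sc (DJ J)).disc) ↔
        ∀ P : Pl F, D < P.1.natDegree → ¬ P.1 ^ 2 ∣ f.disc := by
      intro f
      refine forall_congr' fun P => ?_
      refine imp_congr_right fun hP => ?_
      rw [avg_sq_sc P ?_ 2 f]
      rw [avg_DJ_dvd]
      exact fun h => absurd (hDT P (hJT h)) (not_le.2 hP)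
    have h1 : ∑ f ∈ A, Φ (f.sc (DJ J)) = ∑ f ∈ s, ((NT ∅ (f.sc (DJ J)) : ℝ) - 1) := by
      have h1' : ∑ f ∈ s, ((NT ∅ (f.sc (DJ J)) : ℝ) - 1) = ∑ f ∈ s, Φ (f.sc (DJ J)) := by
        refine sum_congr rfl fun f hf => ?_
        rw [hmem] at hf
        rw [hΦ, if_pos]
        rw [avg_BadC_sc f hDJ, hiff]
        exact hf.2.2
      rw [h1']
      symm
      refine sum_subset hsA fun f hf hfs => ?_
      rw [hΦ, if_neg]
      rw [avg_BadC_sc f hDJ, hiff]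
      intro hc
      apply hfs
      rw [hA, mem_filter] at hf
      exact (hmem f).2 ⟨hf.1, hf.2, hc⟩
    have h3 := hsum' Φ hΦtr
    have h4 : ∑ g ∈ B, Φ g = ∑ f ∈ (Msh F (n + k)).filter (fun f => ¬ BadC f ∧ (∀ P, cJ J (avg_c T S D₀ D) P f) ∧
        ∀ P : Pl F, D < P.1.natDegree → ¬ P.1 ^ 2 ∣ f.disc), ((NT ∅ f : ℝ) - 1) := by
      rw [hB, sum_filter, sum_filter]
      refine sum_congr rfl fun g _ => ?_
      rw [hΦ]
      exact avg_ite _ _ _ _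
    have h5 := hLn
    rw [← h4, ← h3, ← hB, ← hcard, avg_arith hq0, h1] at h5
    have h6 : 2 * (A.card : ℝ) - ε / 2 * (Fintype.card F : ℝ) ^ (12 * n + 3) ≤
        ∑ f ∈ s, ((NT ∅ (f.sc (DJ J)) : ℝ) - 1) := by
      have e : 2 * ((Fintype.card F : ℝ) ^ (2 * k) * (A.card : ℝ)) -
          (Fintype.card F : ℝ) ^ (2 * k) * (ε / 2 * (Fintype.card F : ℝ) ^ (12 * n + 3)) =
          (Fintype.card F : ℝ) ^ (2 * k) * (2 * (A.card : ℝ) -
            ε / 2 * (Fintype.card F : ℝ) ^ (12 * n + 3)) := by ring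
      rw [e] at h5
      exact le_of_mul_le_mul_left h5 hq2k
    have h7 : 0 ≤ ε / 2 * (Fintype.card F : ℝ) ^ (12 * n + 3) := by positivity
    linarith

end

end Pool.Agent.H456.PR
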