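import Pool.Agent.H456.PR.Stm

/-!
(bal) Let `n = #S`, `p_k = #{I ⊆ S : d I = k}/2^n`, `η_k = 2^(-n) ∑_{I : d I = k} |u I/n - (1 - 2^(-k))|`, `∑_k η_k ≤ η` (finitely many `k`). BALANCE: the number of `(I, P)`, `P ∈ S`, with `d I = k` and `d (I Δ P) = k+1` equals the number of `(I, P)` with `d I = k+1`, `d (I Δ P) = k` (bijection `(I, P) ↦ (I Δ P, P)`): `∑_{d I = k} (n - u I) = ∑_{d I = k+1} u I` (along each edge `d` changes by exactly one, so it decreases or increases by one). Dividing by `n 2^n`: `|2^(-k) p_k - (1 - 2^(-(k+1))) p_{k+1}| ≤ η_k + η_{k+1} =: e_k`, `∑ e_k ≤ 2η`. Since `1 - 2^(-(k+1)) ≥ 1/2`: `p_{k+1} = r_k p_k + err`, `r_k = 2/(2^(k+1) - 1)`, `|err| ≤ 2 e_k`.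
Put `x_k = p_k - ak k · p_0`: `x_0 = 0`, `|x_{k+1}| ≤ r_k |x_k| + 2 e_k`, and `r_k ≤ 2/3` for `k ≥ 1`; `x_0 = 0` so the factor `r_0 = 2` does not matter. So `|x_k| ≤ 2 ∑_{j<k} e_j ≤ 4η`, and `∑_{k ≤ N} |x_k| ≤ 6 ∑ e_j ≤ 12 η` (from `|x_{k+1}| ≤ (2/3)|x_k| + 2e_k`: sum over `k`). `∑_k p_k = 1`, `∑_k ak k = A = ∏' ≥ 4` (`S_eul`): `|1 - A p_0| ≤ 12 η` (for large `N` `p_k = 0` beyond the maximum of `d`, `∑_{k≤N} ak k → A`), so `|p_0 - 1/A| ≤ 3η`, `ak k ≤ 2`: `|p_k - ak k/A| ≤ |x_k| + ak k |p_0 - 1/A| ≤ 4η + 6η`. `Cd k = A⁻¹ ak k`.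
-/

set_option autoImplicit false
set_option linter.all false

open Polynomial Finset Filter
open Pool.Agent.H456.EC (toK toK_inj sig toK_eq reflect_toK cls)
open Pool.Agent.H456.RN
open Pool.Agent.H456.BQ
open Pool.Agent.H456.Coh (TF)
open Pool.Agent.H456.PP (OneR HasRt sx hh Tz Tq Iso3 nr IsoP nrP)

namespace Pool.Agent.H456.PR

open Classical in
/-- the neighbour of `I` in the direction `P` -/
noncomputable def balF {B : Type} (P : B) (I : Finset B) : Finset B :=
  if P ∈ I then I.erase P else insert P I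

open Classical in
lemma balF_sub {B : Type} {S : Finset B} {P : B} {I : Finset B} (hI : I ⊆ S) (hP : P ∈ S) :
    balF P I ⊆ S := by
  unfold balF
  split_ifs with h
  · exact (Finset.erase_subset P I).trans hI
  · exact Finset.insert_subset hP hI

open Classical in
lemma balF_inv {B : Type} (P : B) (I : Finset B) : balF P (balF P I) = I := by
  unfold balF
  by_cases h : P ∈ I
  · rw [if_pos h, if_neg (Finset.notMem_erase P I), Finset.insert_erase h]
  · rw [if_neg h, if_pos (Finset.mem_insert_self P I), Finset.erase_insert h]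

open Classical in
lemma bal_edge {B : Type} {S : Finset B} {d : Finset B → ℕ}
    (hd : ∀ I ⊆ S, ∀ P ∈ S, P ∉ I → (d (insert P I) = d I + 1 ∨ d I = d (insert P I) + 1))
    {P : B} {I : Finset B} (hI : I ⊆ S) (hP : P ∈ S) :
    d (balF P I) = d I + 1 ∨ d I = d (balF P I) + 1 := by
  unfold balF
  split_ifs with h
  · have h1 := hd (I.erase P) ((Finset.erase_subset P I).trans hI) P hP (Finset.notMem_erase P I)
    rw [Finset.insert_erase h] at h1
    tauto
  · exact hd I hI P hP h

open Classical in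
lemma bal_balance {B : Type} (S : Finset B) (d u : Finset B → ℕ)
    (hd : ∀ I ⊆ S, ∀ P ∈ S, P ∉ I → (d (insert P I) = d I + 1 ∨ d I = d (insert P I) + 1))
    (hu : ∀ I ⊆ S, u I = (S.filter (fun P => d (balF P I) < d I)).card) (k : ℕ) :
    ∑ I ∈ S.powerset.filter (fun I => d I = k), ((S.card : ℝ) - u I) =
      ∑ I ∈ S.powerset.filter (fun I => d I = k + 1), (u I : ℝ) := by
  have h1 : ∀ I ∈ S.powerset, (u I : ℝ) =
      ∑ P ∈ S, (if d I = d (balF P I) + 1 then (1 : ℝ) else 0) := by
    intro I hI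
    rw [Finset.mem_powerset] at hI
    rw [hu I hI, Finset.card_filter]
    push_cast
    refine Finset.sum_congr rfl fun P hP => ?_
    have h2 := bal_edge hd hI hP
    by_cases h3 : d (balF P I) < d I
    · rw [if_pos h3, if_pos (by omega)]
    · rw [if_neg h3, if_neg (by omega)]
  have h2 : ∀ I ∈ S.powerset, (S.card : ℝ) - u I =
      ∑ P ∈ S, (if d (balF P I) = d I + 1 then (1 : ℝ) else 0) := by
    intro I hI
    rw [h1 I hI]
    rw [Finset.mem_powerset] at hI
    have h3 : (S.card : ℝ) = ∑ _P ∈ S, (1 : ℝ) := by simp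
    rw [h3, ← Finset.sum_sub_distrib]
    refine Finset.sum_congr rfl fun P hP => ?_
    have h4 := bal_edge hd hI hP
    by_cases h5 : d I = d (balF P I) + 1
    · rw [if_pos h5, if_neg (by omega)]
      ring
    · rw [if_neg h5, if_pos (by omega)]
      ring
  have e1 : ∑ I ∈ S.powerset.filter (fun I => d I = k), ((S.card : ℝ) - u I) =
      ∑ P ∈ S, ∑ I ∈ S.powerset, (if d I = k ∧ d (balF P I) = k + 1 then (1 : ℝ) else 0) := by
    rw [Finset.sum_comm, Finset.sum_filter]
    refine Finset.sum_congr rfl fun I hI => ?_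
    by_cases h3 : d I = k
    · rw [if_pos h3, h2 I hI]
      refine Finset.sum_congr rfl fun P hP => ?_
      by_cases h4 : d (balF P I) = k + 1
      · rw [if_pos (by omega), if_pos ⟨h3, h4⟩]
      · rw [if_neg (by omega), if_neg (by tauto)]
    · rw [if_neg h3]
      symm
      exact Finset.sum_eq_zero fun P _ => if_neg (by tauto)
  have e2 : ∑ I ∈ S.powerset.filter (fun I => d I = k + 1), (u I : ℝ) =
      ∑ P ∈ S, ∑ I ∈ S.powerset, (if d I = k + 1 ∧ d (balF P I) = k then (1 : ℝ) else 0) := by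
    rw [Finset.sum_comm, Finset.sum_filter]
    refine Finset.sum_congr rfl fun I hI => ?_
    by_cases h3 : d I = k + 1
    · rw [if_pos h3, h1 I hI]
      refine Finset.sum_congr rfl fun P hP => ?_
      by_cases h4 : d (balF P I) = k
      · rw [if_pos (by omega), if_pos ⟨h3, h4⟩]
      · rw [if_neg (by omega), if_neg (by tauto)]
    · rw [if_neg h3]
      symm
      exact Finset.sum_eq_zero fun P _ => if_neg (by tauto)
  rw [e1, e2]
  refine Finset.sum_congr rfl fun P hP => ?_
  refine Finset.sum_nbij' (fun I => balF P I) (fun I => balF P I) ?_ ?_ ?_ ?_ ?_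
  · intro I hI
    rw [Finset.mem_powerset] at hI ⊢
    exact balF_sub hI hP
  · intro I hI
    rw [Finset.mem_powerset] at hI ⊢
    exact balF_sub hI hP
  · intro I _
    exact balF_inv P I
  · intro I _
    exact balF_inv P I
  · intro I _
    rw [balF_inv]
    by_cases h3 : d I = k ∧ d (balF P I) = k + 1
    · rw [if_pos h3, if_pos ⟨h3.2, h3.1⟩]
    · rw [if_neg h3, if_neg (fun h => h3 ⟨h.2, h.1⟩)]

lemma bal_den (k : ℕ) : (0 : ℝ) < 2 ^ (k + 1) - 1 := by
  have : (1 : ℝ) < 2 ^ (k + 1) := one_lt_pow₀ (by norm_num) (by omega)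
  linarith

lemma bal_aks (k : ℕ) : ak (k + 1) = ak k * (2 / (2 ^ (k + 1) - 1)) := by
  unfold ak
  rw [Finset.prod_range_succ]

lemma bal_ak0 : ak 0 = 1 := by
  unfold ak
  simp

lemma bal_akpos (k : ℕ) : 0 < ak k := by
  unfold ak
  exact Finset.prod_pos fun i _ => div_pos (by norm_num) (bal_den i)

lemma bal_r (k : ℕ) (hk : 1 ≤ k) : (2 : ℝ) / (2 ^ (k + 1) - 1) ≤ 2 / 3 := by
  have h1 : (4 : ℝ) ≤ 2 ^ (k + 1) := by
    calc (4 : ℝ) = 2 ^ 2 := by norm_num
      _ ≤ 2 ^ (k + 1) := pow_le_pow_right₀ (by norm_num) (by omega)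
  exact div_le_div_of_nonneg_left (by norm_num) (by norm_num) (by linarith)

lemma bal_ak2 (k : ℕ) : ak k ≤ 2 := by
  rcases Nat.eq_zero_or_pos k with h | h
  · subst h
    rw [bal_ak0]
    norm_num
  · induction k, h using Nat.le_induction with
    | base =>
      rw [bal_aks, bal_ak0]
      norm_num
    | succ k hk ih =>
      rw [bal_aks]
      have h1 := bal_r k hk
      have h2 := bal_akpos k
      have h3 : ak k * (2 / (2 ^ (k + 1) - 1)) ≤ ak k * 1 :=
        mul_le_mul_of_nonneg_left (by linarith) h2.le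
      linarith

/-- the stability of the recursion -/
lemma bal_rec (hE : S_eul) (p h : ℕ → ℝ) (η : ℝ) (hh : ∀ k, 0 ≤ h k)
    (hsum : ∀ N, ∑ k ∈ Finset.range N, h k ≤ η)
    (hrec : ∀ k, |(1 / 2 : ℝ) ^ k * p k - (1 - (1 / 2) ^ (k + 1)) * p (k + 1)| ≤ h k + h (k + 1))
    (N0 : ℕ) (hp : ∀ N, N0 ≤ N → ∑ k ∈ Finset.range N, p k = 1) (k : ℕ) :
    |p k - Cd k| ≤ 10 * η := by
  obtain ⟨-, hA, hA4⟩ := hE
  set A : ℝ := ∏' j : ℕ, (1 + (1 / 2 : ℝ) ^ j) with hAdef
  set x : ℕ → ℝ := fun k => p k - ak k * p 0 with hx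
  set e : ℕ → ℝ := fun k => h k + h (k + 1) with he
  have he0 : ∀ k, 0 ≤ e k := fun k => add_nonneg (hh k) (hh (k + 1))
  have hes : ∀ N, ∑ k ∈ Finset.range N, e k ≤ 2 * η := by
    intro N
    rw [he, Finset.sum_add_distrib]
    have h1 := hsum N
    have h2 : ∑ k ∈ Finset.range N, h (k + 1) ≤ ∑ k ∈ Finset.range (N + 1), h k := by
      rw [Finset.sum_range_succ']
      linarith [hh 0]
    have h3 := hsum (N + 1)
    linarith
  have hx0 : x 0 = 0 := by simp [hx, bal_ak0]
  have hxs : ∀ k, |x (k + 1)| ≤ 2 / 3 * |x k| + 2 * e k := by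
    intro k
    set r : ℝ := 2 / (2 ^ (k + 1) - 1) with hr
    set c : ℝ := 1 - (1 / 2 : ℝ) ^ (k + 1) with hc
    have hden := bal_den k
    have hc2 : 1 / 2 ≤ c := by
      have h1 : (1 / 2 : ℝ) ^ (k + 1) ≤ (1 / 2) ^ 1 :=
        pow_le_pow_of_le_one (by norm_num) (by norm_num) (by omega)
      rw [hc]
      linarith
    have hcpos : 0 < c := by linarith
    have hrc : r * c = (1 / 2 : ℝ) ^ k := by
      rw [hr, hc, div_pow, div_pow, one_pow, one_pow, pow_succ]
      rw [pow_succ] at hden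
      have h2k : (2 : ℝ) ^ k ≠ 0 := by positivity
      generalize (2 : ℝ) ^ k = X at hden h2k
      have hX : X * 2 - 1 ≠ 0 := hden.ne'
      rw [div_mul_eq_mul_div, div_eq_div_iff hX h2k]
      field_simp
    have hr0 : 0 ≤ r := div_nonneg (by norm_num) hden.le
    -- the error
    have h1 : c * (x (k + 1) - r * x k) = - ((1 / 2 : ℝ) ^ k * p k - c * p (k + 1)) := by
      have h2 : x (k + 1) - r * x k = p (k + 1) - r * p k := by
        simp only [hx]
        rw [bal_aks, ← hr]
        ring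
      rw [h2, ← hrc]
      ring
    have h2 : c * |x (k + 1) - r * x k| ≤ e k := by
      have h3 : c * |x (k + 1) - r * x k| = |c * (x (k + 1) - r * x k)| := by
        rw [abs_mul, abs_of_pos hcpos]
      rw [h3, h1, abs_neg]
      exact hrec k
    have h3 : |x (k + 1) - r * x k| ≤ 2 * e k := by
      have := abs_nonneg (x (k + 1) - r * x k)
      nlinarith
    have h4 : |x (k + 1)| ≤ |x (k + 1) - r * x k| + |r * x k| := by
      have := abs_add_le (x (k + 1) - r * x k) (r * x k)
      simpa using this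
    have h5 : |r * x k| ≤ 2 / 3 * |x k| := by
      rw [abs_mul, abs_of_nonneg hr0]
      rcases Nat.eq_zero_or_pos k with hk | hk
      · subst hk
        rw [hx0]
        simp
      · exact mul_le_mul_of_nonneg_right (bal_r k hk) (abs_nonneg _)
    linarith
  have hη : 0 ≤ η := by
    have := hsum 0
    simpa using this
  -- the single terms
  have hxk : ∀ k, |x k| ≤ 2 * ∑ j ∈ Finset.range k, e j := by
    intro k
    induction k with
    | zero => simp [hx0]
    | succ k ih =>
      rw [Finset.sum_range_succ]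
      have h1 := hxs k
      have h2 := abs_nonneg (x k)
      linarith
  have hxk' : ∀ k, |x k| ≤ 4 * η := fun k => (hxk k).trans (by linarith [hes k])
  -- the sums
  have hX : ∀ N, ∑ k ∈ Finset.range N, |x k| ≤ 12 * η := by
    intro N
    cases N with
    | zero => simpa using by linarith
    | succ N =>
      have h1 : ∑ k ∈ Finset.range (N + 1), |x k| = ∑ k ∈ Finset.range N, |x (k + 1)| := by
        rw [Finset.sum_range_succ', hx0]
        simp
      have h2 : ∑ k ∈ Finset.range N, |x (k + 1)| ≤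
          2 / 3 * ∑ k ∈ Finset.range N, |x k| + 2 * ∑ k ∈ Finset.range N, e k := by
        rw [Finset.mul_sum, Finset.mul_sum, ← Finset.sum_add_distrib]
        exact Finset.sum_le_sum fun k _ => hxs k
      have h3 : ∑ k ∈ Finset.range N, |x k| ≤ ∑ k ∈ Finset.range (N + 1), |x k| := by
        rw [Finset.sum_range_succ]
        linarith [abs_nonneg (x N)]
      have h4 := hes N
      linarith
  have hlim : Tendsto (fun N => |1 - (∑ k ∈ Finset.range N, ak k) * p 0|) atTop
      (nhds |1 - A * p 0|) :=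
    ((tendsto_const_nhds.sub (hA.tendsto_sum_nat.mul_const (p 0))).abs)
  have h1A : |1 - A * p 0| ≤ 12 * η := by
    refine le_of_tendsto hlim ?_
    filter_upwards [eventually_ge_atTop N0] with N hN
    have h1 : 1 - (∑ k ∈ Finset.range N, ak k) * p 0 = ∑ k ∈ Finset.range N, x k := by
      simp only [hx]
      rw [Finset.sum_sub_distrib, hp N hN, Finset.sum_mul]
    rw [h1]
    exact (Finset.abs_sum_le_sum_abs _ _).trans (hX N)
  have hA0 : 0 < A := by linarith
  have h3η : |p 0 - A⁻¹| ≤ 3 * η := by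
    have h1 : A * (p 0 - A⁻¹) = -(1 - A * p 0) := by
      field_simp
      ring
    have h2 : A * |p 0 - A⁻¹| ≤ 12 * η := by
      have h3 : A * |p 0 - A⁻¹| = |A * (p 0 - A⁻¹)| := by
        rw [abs_mul, abs_of_pos hA0]
      rw [h3, h1, abs_neg]
      exact h1A
    have := abs_nonneg (p 0 - A⁻¹)
    nlinarith
  have hfin : p k - Cd k = x k + ak k * (p 0 - A⁻¹) := by
    simp only [hx]
    unfold Cd
    rw [← hAdef]
    ring
  rw [hfin]
  have h4 : |x k + ak k * (p 0 - A⁻¹)| ≤ |x k| + |ak k * (p 0 - A⁻¹)| := abs_add_le _ _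
  have h5 : |ak k * (p 0 - A⁻¹)| ≤ 2 * (3 * η) := by
    rw [abs_mul, abs_of_pos (bal_akpos k)]
    exact mul_le_mul (bal_ak2 k) h3η (abs_nonneg _) (by norm_num)
  have h6 := hxk' k
  linarith

open Classical in
theorem t_bal : S_eul → S_bal := by
  intro hE B S d u hS hd hu η hη k
  have hu' : ∀ I ⊆ S, u I = (S.filter (fun P => d (balF P I) < d I)).card := hu
  have hn : (0 : ℝ) < S.card := by exact_mod_cast hS
  have h2n : (0 : ℝ) < 2 ^ S.card := by positivity
  set f : Finset B → ℝ := fun I => |(u I : ℝ) / S.card - (1 - (1 / 2 : ℝ) ^ d I)| with hf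
  set p : ℕ → ℝ := fun k => ((S.powerset.filter (fun I => d I = k)).card : ℝ) / 2 ^ S.card with hp
  set h : ℕ → ℝ := fun k => (∑ I ∈ S.powerset.filter (fun I => d I = k), f I) / 2 ^ S.card with hh
  have hf0 : ∀ I, 0 ≤ f I := fun I => abs_nonneg _
  have hh0 : ∀ k, 0 ≤ h k := fun k => div_nonneg (Finset.sum_nonneg fun I _ => hf0 I) h2n.le
  refine bal_rec hE p h η hh0 ?_ ?_ (S.powerset.sup d + 1) ?_ k
  · intro N
    simp only [hh]
    rw [← Finset.sum_div, div_le_iff₀ h2n]
    refine le_trans ?_ hη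
    exact Finset.sum_fiberwise_le_sum_of_sum_fiber_nonneg
      (fun y _ => Finset.sum_nonneg fun I _ => hf0 I)
  · intro j
    have hb := bal_balance S d u hd hu' j
    have key : ∀ i : ℕ, |(∑ I ∈ S.powerset.filter (fun I => d I = i), (u I : ℝ)) / S.card -
        (1 - (1 / 2 : ℝ) ^ i) * ((S.powerset.filter (fun I => d I = i)).card : ℝ)| ≤
        ∑ I ∈ S.powerset.filter (fun I => d I = i), f I := by
      intro i
      have e1 : (∑ I ∈ S.powerset.filter (fun I => d I = i), (u I : ℝ)) / S.card -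
          (1 - (1 / 2 : ℝ) ^ i) * ((S.powerset.filter (fun I => d I = i)).card : ℝ) =
          ∑ I ∈ S.powerset.filter (fun I => d I = i),
            ((u I : ℝ) / S.card - (1 - (1 / 2 : ℝ) ^ d I)) := by
        rw [Finset.sum_sub_distrib, Finset.sum_div]
        congr 1
        rw [Finset.sum_congr rfl (fun I hI => by rw [(Finset.mem_filter.1 hI).2] :
          ∀ I ∈ S.powerset.filter (fun I => d I = i), (1 - (1 / 2 : ℝ) ^ d I) =
            1 - (1 / 2 : ℝ) ^ i)]
        rw [Finset.sum_const, nsmul_eq_mul]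
        ring
      rw [e1]
      exact Finset.abs_sum_le_sum_abs _ _
    have k1 := key j
    have k2 := key (j + 1)
    have e2 : (∑ I ∈ S.powerset.filter (fun I => d I = j + 1), (u I : ℝ)) =
        (S.card : ℝ) * ((S.powerset.filter (fun I => d I = j)).card : ℝ) -
        ∑ I ∈ S.powerset.filter (fun I => d I = j), (u I : ℝ) := by
      rw [← hb, Finset.sum_sub_distrib, Finset.sum_const, nsmul_eq_mul]
      ring
    rw [e2] at k2
    set a : ℝ := ∑ I ∈ S.powerset.filter (fun I => d I = j), (u I : ℝ) with ha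
    set c1 : ℝ := ((S.powerset.filter (fun I => d I = j)).card : ℝ) with hc1
    set c2 : ℝ := ((S.powerset.filter (fun I => d I = j + 1)).card : ℝ) with hc2
    have e3 : (1 / 2 : ℝ) ^ j * p j - (1 - (1 / 2) ^ (j + 1)) * p (j + 1) =
        ((((S.card : ℝ) * c1 - a) / S.card - (1 - (1 / 2 : ℝ) ^ (j + 1)) * c2) +
          (a / S.card - (1 - (1 / 2 : ℝ) ^ j) * c1)) / 2 ^ S.card := by
      simp only [hp]
      rw [← hc1, ← hc2]
      field_simp
      ring
    rw [e3, abs_div, abs_of_pos h2n]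
    have e4 : h j + h (j + 1) = ((∑ I ∈ S.powerset.filter (fun I => d I = j + 1), f I) +
        ∑ I ∈ S.powerset.filter (fun I => d I = j), f I) / 2 ^ S.card := by
      simp only [hh]
      ring
    rw [e4]
    refine div_le_div_of_nonneg_right ?_ h2n.le
    exact (abs_add_le _ _).trans (add_le_add k2 k1)
  · intro N hN
    simp only [hp]
    rw [← Finset.sum_div, div_eq_one_iff_eq h2n.ne']
    have h1 := Finset.card_eq_sum_card_fiberwise (f := d) (s := S.powerset)
      (t := Finset.range N) (fun I hI => by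
        rw [Finset.mem_coe] at hI ⊢
        rw [Finset.mem_range]
        have := Finset.le_sup (f := d) hI
        omega)
    rw [Finset.card_powerset] at h1
    exact_mod_cast h1.symm

end Pool.Agent.H456.PR
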