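import Pool.Agent.H456.PR.Stm
import Pool.Agent.H456.Coh.Out

/-!
(bdr) For `n` with `deg P ≤ 2n + 1` the residues modulo `P` of the elements of `Sb F n` are equidistributed in `Cub (F[X]/P)` (`Q³` classes, `Q = q^(deg P)`; see `card_MinS`, BQ/Cnt.lean, BQ/T_avc.lean, BQ/T_badc.lean), and over the finite field `κ = F[X]/P` at most `3 Q²` monic cubics (exactly `Q²`) have discriminant `0`: for given `a, b` the discriminant `a²b² - 4b³ - 4a³c - 27c² + 18abc` is a polynomial in `c` of degree `≤ 2`, nonzero unless (characteristic `3`) `a = 0` and `b = 0`, when... (in characteristic `3` with `a = b = 0` all `c` occur: `Q` cubics; with `a = 0, b ≠ 0`: `disc = -4b³ ≠ 0`, none; `a ≠ 0`: linear in `c`).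
In characteristic `≠ 3` degree two in `c`: at most `2Q²`. (Compare PP/T_dloc.lean.)
-/

set_option autoImplicit false
set_option linter.all false

open Polynomial Finset Filter
open Pool.Agent.H456.EC (toK toK_inj sig toK_eq reflect_toK cls)
open Pool.Agent.H456.RN
open Pool.Agent.H456.BQ
open Pool.Agent.H456.Coh (TF)
open Pool.Agent.H456.PP (OneR HasRt sx hh Tz Tq Iso3 nr IsoP nrP)

namespace Pool.Agent.H456.PR

section bdr

/-- for given `a` and `b` at most two values of `c` give discriminant `0`, except in characteristic three -/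
theorem bdr_fib {κ : Type} [Field κ] [Fintype κ] [DecidableEq κ] (h2 : (2 : κ) ≠ 0) (a b : κ) :
    (((univ : Finset κ).filter (fun c => (⟨a, b, c⟩ : Cub κ).disc = 0)).card : ℝ) ≤
      2 + (if a = 0 then (if b = 0 then (Fintype.card κ : ℝ) else 0) else 0) := by
  have hite : (0 : ℝ) ≤ (if a = 0 then (if b = 0 then (Fintype.card κ : ℝ) else 0) else 0) := by
    split_ifs <;> positivity
  by_cases h3 : (3 : κ) = 0
  · have h27 : (27 : κ) = 0 := by
      have e1 : (27 : κ) = 3 * 9 := by norm_num
      rw [e1, h3, zero_mul]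
    have h18 : (18 : κ) = 0 := by
      have e1 : (18 : κ) = 3 * 6 := by norm_num
      rw [e1, h3, zero_mul]
    have h4 : (4 : κ) ≠ 0 := by
      have e1 : (4 : κ) = 2 * 2 := by norm_num
      rw [e1]
      exact mul_ne_zero h2 h2
    by_cases ha : a = 0
    · by_cases hb : b = 0
      · rw [if_pos ha, if_pos hb]
        have h5 := card_le_univ ((univ : Finset κ).filter (fun c => (⟨a, b, c⟩ : Cub κ).disc = 0))
        have h6 : (((univ : Finset κ).filter (fun c => (⟨a, b, c⟩ : Cub κ).disc = 0)).card : ℝ) ≤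
          (Fintype.card κ : ℝ) := by exact_mod_cast h5
        linarith
      · have h5 : (univ : Finset κ).filter (fun c => (⟨a, b, c⟩ : Cub κ).disc = 0) = ∅ := by
          rw [filter_eq_empty_iff]
          intro c _ hc
          simp only [Cub.disc] at hc
          rw [ha, h27, h18] at hc
          have h7 : 4 * b ^ 3 = 0 := by linear_combination -hc
          rcases mul_eq_zero.1 h7 with h | h
          · exact h4 h
          · exact hb (pow_eq_zero_iff (by norm_num) |>.1 h)
        rw [h5, card_empty]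
        push_cast
        linarith
    · have h5 : ((univ : Finset κ).filter (fun c => (⟨a, b, c⟩ : Cub κ).disc = 0)).card ≤ 1 := by
        rw [card_le_one]
        intro c hc c' hc'
        rw [mem_filter] at hc hc'
        have k1 := hc.2
        have k2 := hc'.2
        simp only [Cub.disc] at k1 k2
        rw [h27, h18] at k1 k2
        have h7 : (4 * a ^ 3) * (c - c') = 0 := by linear_combination k2 - k1
        rcases mul_eq_zero.1 h7 with h | h
        · exact absurd h (mul_ne_zero h4 (pow_ne_zero 3 ha))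
        · exact sub_eq_zero.1 h
      have h6 : (((univ : Finset κ).filter (fun c => (⟨a, b, c⟩ : Cub κ).disc = 0)).card : ℝ) ≤ 1 := by
        exact_mod_cast h5
      linarith
  · have h27 : (-27 : κ) ≠ 0 := by
      have e1 : (-27 : κ) = -(3 * (3 * 3)) := by norm_num
      rw [e1]
      exact neg_ne_zero.2 (mul_ne_zero h3 (mul_ne_zero h3 h3))
    set p : κ[X] := C (-27) * X ^ 2 + C (18 * a * b - 4 * a ^ 3) * X + C (a ^ 2 * b ^ 2 - 4 * b ^ 3) with hp
    have hp0 : p ≠ 0 := by
      intro h0
      have h4 := congrArg (fun p => p.coeff 2) h0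
      simp only [hp, coeff_add, coeff_C_mul, coeff_X_pow, coeff_X, coeff_C, coeff_zero] at h4
      norm_num at h4
      apply h27
      rw [h4, neg_zero]
    have dp : p.natDegree ≤ 2 := by
      rw [hp]; compute_degree!
    have hsub : (univ : Finset κ).filter (fun c => (⟨a, b, c⟩ : Cub κ).disc = 0) ⊆ p.roots.toFinset := by
      intro c hc
      rw [mem_filter] at hc
      rw [Multiset.mem_toFinset, mem_roots hp0, IsRoot.def, hp]
      simp only [eval_add, eval_mul, eval_pow, eval_X, eval_C]
      have h := hc.2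
      simp only [Cub.disc] at h
      linear_combination h
    have h5 : ((univ : Finset κ).filter (fun c => (⟨a, b, c⟩ : Cub κ).disc = 0)).card ≤ 2 :=
      calc _ ≤ p.roots.toFinset.card := card_le_card hsub
        _ ≤ Multiset.card p.roots := Multiset.toFinset_card_le _
        _ ≤ p.natDegree := card_roots' _
        _ ≤ 2 := dp
    have h6 : (((univ : Finset κ).filter (fun c => (⟨a, b, c⟩ : Cub κ).disc = 0)).card : ℝ) ≤ 2 := by
      exact_mod_cast h5
    linarith

theorem bdr_field {κ : Type} [Field κ] [Fintype κ] [DecidableEq κ] (h2 : (2 : κ) ≠ 0) :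
    (((univ : Finset (Cub κ)).filter (fun f => f.disc = 0)).card : ℝ) ≤ 3 * (Fintype.card κ : ℝ) ^ 2 := by
  have h1 : (((univ : Finset (Cub κ)).filter (fun f => f.disc = 0)).card : ℝ) =
      ∑ a : κ, ∑ b : κ, (((univ : Finset κ).filter (fun c => (⟨a, b, c⟩ : Cub κ).disc = 0)).card : ℝ) := by
    rw [card_filter]
    push_cast
    rw [sum_Cub]
    refine sum_congr rfl fun a _ => sum_congr rfl fun b _ => ?_
    rw [card_filter]
    push_cast
    rfl
  rw [h1]
  refine (sum_le_sum fun a _ => sum_le_sum fun b _ => bdr_fib h2 a b).trans ?_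
  have hQ : (1 : ℝ) ≤ Fintype.card κ := by
    exact_mod_cast Fintype.card_pos (α := κ)
  have h4 : ∑ a : κ, ∑ b : κ, ((2 : ℝ) + (if a = 0 then (if b = 0 then (Fintype.card κ : ℝ) else 0) else 0)) =
      2 * (Fintype.card κ : ℝ) ^ 2 + Fintype.card κ := by
    simp only [sum_add_distrib, sum_const, card_univ, nsmul_eq_mul]
    have h5 : ∑ a : κ, ∑ b : κ, (if a = 0 then (if b = 0 then (Fintype.card κ : ℝ) else 0) else 0) =
        Fintype.card κ := by
      rw [sum_eq_single (0 : κ)]
      · rw [sum_eq_single (0 : κ)]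
        · simp
        · intro b _ hb
          simp [hb]
        · intro h
          exact absurd (mem_univ _) h
      · intro a _ ha
        simp [ha]
      · intro h
        exact absurd (mem_univ _) h
    rw [h5]
    ring
  rw [h4]
  nlinarith

open Classical in
theorem bdr_ring (κ : Type) [CommRing κ] [Fintype κ] (hκ : IsField κ) (h2 : (2 : κ) ≠ 0) :
    (((univ : Finset (Cub κ)).filter (fun f => f.disc = 0)).card : ℝ) ≤ 3 * (Fintype.card κ : ℝ) ^ 2 := by
  letI := hκ.toField
  exact bdr_field (κ := κ) h2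

variable {F : Type} [Field F] [Fintype F]

theorem bdr_at {S : Finset (Pl F)} {n : ℕ} {f : Cub F[X]} (P : S) (h : P.1.1 ∣ f.disc) :
    ((redC S 1 n f).at P).disc = 0 := by
  have e1 : (redC S 1 n f).at P = f.map (Ideal.Quotient.mk (Ideal.span {P.1.1 ^ 1})) := rfl
  rw [e1, Cub.map_disc, Ideal.Quotient.eq_zero_iff_mem, Ideal.mem_span_singleton, pow_one]
  exact h

open Classical in
theorem bdr_root (h2 : (2 : F) ≠ 0) (S : Finset (Pl F)) {n : ℕ} (hN : dS S 1 ≤ 2 * n + 1) :
    (∑ f ∈ Sb F n, (if ∀ P ∈ S, P.1 ∣ f.disc then (1 : ℝ) else 0)) /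
      (Fintype.card F : ℝ) ^ (12 * n + 3) ≤ ∏ P ∈ S, (3 / (Fintype.card F : ℝ) ^ P.1.natDegree) := by
  have hq2 : 2 ≤ (Fintype.card F : ℝ) := q_ge
  have hq0 : (0 : ℝ) < Fintype.card F := by linarith
  set φ : (P : S) → Cub (Rq (P.1.1 ^ 1)) → ℝ := fun P g => if g.disc = 0 then 1 else 0 with hφ
  have h1 : (∑ f ∈ Sb F n, (if ∀ P ∈ S, P.1 ∣ f.disc then (1 : ℝ) else 0)) /
      (Fintype.card F : ℝ) ^ (12 * n + 3) ≤
      (∑ f ∈ Sb F n, (∏ P : S, φ P ((redC S 1 n f).at P)) * 1) /
        (Fintype.card F : ℝ) ^ (12 * n + 3) := by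
    apply div_le_div_of_nonneg_right _ (by positivity)
    apply sum_le_sum
    intro G _
    split_ifs with h
    · rw [mul_one]
      apply le_of_eq
      symm
      apply prod_eq_one
      intro P _
      rw [hφ]
      simp only
      rw [if_pos (bdr_at P (h P.1 P.2))]
    · apply mul_nonneg _ zero_le_one
      apply prod_nonneg
      intro P _
      rw [hφ]
      simp only
      split_ifs <;> norm_num
  refine h1.trans ?_
  have h3 := sum_redC S 1 n hN (fun g => (∏ P : S, φ P (g.at P)) * 1)
  rw [h3, sum_splitC S 1 φ (fun _ => 1)]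
  rw [div_le_iff₀ (by positivity)]
  have h4 : ∀ P : S, ∑ g, φ P g ≤ 3 / (Fintype.card F : ℝ) ^ P.1.1.natDegree *
      ((Fintype.card F : ℝ) ^ (1 * P.1.1.natDegree)) ^ 3 := by
    intro P
    have h5 := bdr_ring (Rq (P.1.1 ^ 1)) (isField_Rq P.1) (two_ne_Rq h2 P.1 1 one_ne_zero)
    have h6 : (Fintype.card (Rq (P.1.1 ^ 1)) : ℝ) = (Fintype.card F : ℝ) ^ (1 * P.1.1.natDegree) := by
      rw [← Nat.card_eq_fintype_card, card_Rq (P.1.2.1.pow 1), natDegree_pow]
      push_cast
      rfl
    rw [h6] at h5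
    have h7 : 3 / (Fintype.card F : ℝ) ^ P.1.1.natDegree * ((Fintype.card F : ℝ) ^ (1 * P.1.1.natDegree)) ^ 3 =
        3 * ((Fintype.card F : ℝ) ^ (1 * P.1.1.natDegree)) ^ 2 := by
      have h8 : (Fintype.card F : ℝ) ^ P.1.1.natDegree ≠ 0 := by positivity
      rw [one_mul]
      field_simp
    rw [h7]
    refine le_trans (le_of_eq ?_) h5
    rw [hφ]
    simp only
    rw [← sum_filter, sum_const, nsmul_eq_mul, mul_one]
  have h5 : ∑ g : Cub (Rq ((X : F[X]) ^ 1)), (1 : ℝ) = ((Fintype.card F : ℝ) ^ 1) ^ 3 := by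
    rw [sum_const, card_univ, card_Cub, ← Nat.card_eq_fintype_card, card_Rq (monic_X.pow 1), natDegree_pow, natDegree_X,
      nsmul_eq_mul, mul_one]
    push_cast
    rfl
  rw [h5]
  have h6 : ∏ P : S, ∑ g, φ P g ≤ ∏ P : S, (3 / (Fintype.card F : ℝ) ^ P.1.1.natDegree *
      ((Fintype.card F : ℝ) ^ (1 * P.1.1.natDegree)) ^ 3) := by
    apply Finset.prod_le_prod
    · intro P _
      apply sum_nonneg
      intro g _
      rw [hφ]
      simp only
      split_ifs <;> norm_num
    · intro P _
      exact h4 P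
  refine (mul_le_mul_of_nonneg_right h6 (by positivity)).trans (le_of_eq ?_)
  rw [prod_mul_distrib, prod_pow, prod_pow_eq_pow_sum]
  have h7 : ∑ P : S, 1 * P.1.1.natDegree = ∑ P ∈ S, 1 * P.1.natDegree := sum_coe_sort S (fun P => 1 * P.1.natDegree)
  have h8 : ∏ P : S, (3 / (Fintype.card F : ℝ) ^ P.1.1.natDegree) = ∏ P ∈ S, (3 / (Fintype.card F : ℝ) ^ P.1.natDegree) :=
    prod_coe_sort S (fun P => 3 / (Fintype.card F : ℝ) ^ P.1.natDegree)
  rw [h7, h8, mul_assoc, ← pow_mul, ← pow_mul, ← pow_add]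
  congr 2
  unfold dS
  ring

end bdr

theorem t_bdr : S_bdr := by
  classical
  intro F _ _ h2 P
  have hq2 : 2 ≤ (Fintype.card F : ℝ) := q_ge
  have hq0 : (0 : ℝ) < Fintype.card F := by linarith
  filter_upwards [eventually_ge_atTop (dS {P} 1)] with n hn
  have h := bdr_root h2 {P} (n := n) (by omega)
  rw [prod_singleton, div_le_iff₀ (by positivity)] at h
  refine le_trans (le_of_eq ?_) h
  rw [← sum_filter, sum_const, nsmul_eq_mul, mul_one]
  congr 2
  ext f
  rw [mem_filter, mem_filter]
  simp only [mem_singleton, forall_eq]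

end Pool.Agent.H456.PR
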