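import Pool.Agent.H456.PR.Stm

/-!
(cau) Let `N = #A`, `supp a = {P ∈ S : ¬ tr P a}`, `x_a = #(supp a) - n/2`, `n = #S`. `supp z = ∅`. `∑_{a ≠ z} x_a = ∑_P (N - n₁(P)) - (N-1) n/2` (double counting: `∑_a #(supp a) = ∑_P #{a : ¬ tr P a}`), and `∑_{a ≠ z} x_a² = ∑_{a} #(supp a)² - n ∑_a #(supp a) + (N-1) n²/4`, with `∑_a #(supp a)² = ∑_P (N - n₁(P)) + ∑_{P ≠ Q} (N - n₁(P) - n₁(Q) + n₂(P,Q))`, which equals `∑_{P≠Q} n₂ - (n-1) ∑ n₁ + (N-1)n²/4` after simplification. Conclude with Cauchy-Schwarz (`sum_mul_sq_le_sq_mul_sq` or `inner_mul_le_norm_mul_norm`, `sq_sum_le_card_mul_sum_sq`) over `univ.erase z`, of cardinality `N - 1`.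
(`∑_{P≠Q}` is `∑ P ∈ S, ∑ Q ∈ S.erase P`; `#{a : ¬tr P a ∧ ¬tr Q a} = N - n₁(P) - n₁(Q) + n₂(P,Q)` - with indicator functions in `ℝ` everything is a sum over `a` of products of indicators: `#(supp a) = ∑_{P ∈ S} (1 - t_P(a))`, and the identity holds for each `a`.)
-/

set_option autoImplicit false
set_option linter.all false

open Polynomial Finset Filter
open Pool.Agent.H456.EC (toK toK_inj sig toK_eq reflect_toK cls)
open Pool.Agent.H456.RN
open Pool.Agent.H456.BQ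
open Pool.Agent.H456.Coh (TF)
open Pool.Agent.H456.PP (OneR HasRt sx hh Tz Tq Iso3 nr IsoP nrP)

namespace Pool.Agent.H456.PR

/-- the number of the elements with a property, as a sum of indicators -/
lemma cau_card {A : Type} [Fintype A] (p : A → Prop) [DecidablePred p] :
    (Nat.card {a // p a} : ℝ) = ∑ a : A, (if p a then (1 : ℝ) else 0) := by
  rw [Nat.card_eq_fintype_card, Fintype.card_subtype, Finset.card_filter]
  push_cast
  rfl

open Classical in
lemma cau_pt {A B : Type} (S : Finset B) (tr : B → A → Prop) (a : A) :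
    ((S.card : ℝ) / 2 - ∑ P ∈ S, (if tr P a then (1 : ℝ) else 0)) ^ 2 =
      (∑ P ∈ S, ∑ Q ∈ S.erase P, (if tr P a ∧ tr Q a then (1 : ℝ) else 0)) -
      ((S.card : ℝ) - 1) * (∑ P ∈ S, (if tr P a then (1 : ℝ) else 0)) + (S.card : ℝ) ^ 2 / 4 := by
  have h1 : (∑ P ∈ S, (if tr P a then (1 : ℝ) else 0)) ^ 2 =
      (∑ P ∈ S, (if tr P a then (1 : ℝ) else 0)) +
      ∑ P ∈ S, ∑ Q ∈ S.erase P, (if tr P a ∧ tr Q a then (1 : ℝ) else 0) := by
    rw [sq, Finset.sum_mul_sum, ← Finset.sum_add_distrib]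
    refine Finset.sum_congr rfl fun P hP => ?_
    rw [← Finset.add_sum_erase S _ hP]
    congr 1
    · by_cases h : tr P a <;> simp [h]
    · refine Finset.sum_congr rfl fun Q _ => ?_
      by_cases h : tr P a <;> by_cases h' : tr Q a <;> simp [h, h']
  have h2 : ((S.card : ℝ) / 2 - ∑ P ∈ S, (if tr P a then (1 : ℝ) else 0)) ^ 2 =
      (S.card : ℝ) ^ 2 / 4 - (S.card : ℝ) * (∑ P ∈ S, (if tr P a then (1 : ℝ) else 0)) +
      (∑ P ∈ S, (if tr P a then (1 : ℝ) else 0)) ^ 2 := by ring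
  rw [h2, h1]
  ring

open Classical in
theorem t_cau : S_cau := by
  intro A B _ z S tr hz
  have hN : (Nat.card A : ℝ) = (Finset.univ : Finset A).card := by
    rw [Nat.card_eq_fintype_card]; rfl
  have hNe : (((Finset.univ : Finset A).erase z).card : ℝ) = (Nat.card A : ℝ) - 1 := by
    rw [hN, Finset.card_erase_of_mem (Finset.mem_univ z)]
    have : 1 ≤ (Finset.univ : Finset A).card := Finset.card_pos.2 ⟨z, Finset.mem_univ z⟩
    push_cast [Nat.cast_sub this]
    ring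
  set x : A → ℝ := fun a => (S.card : ℝ) / 2 - ∑ P ∈ S, (if tr P a then (1 : ℝ) else 0) with hx
  have hxz : x z = - ((S.card : ℝ) / 2) := by
    have : ∑ P ∈ S, (if tr P z then (1 : ℝ) else 0) = S.card := by
      rw [Finset.sum_congr rfl (fun P hP => if_pos (hz P hP))]
      simp
    simp only [hx]
    rw [this]
    ring
  -- the sum
  have hn1 : ∑ P ∈ S, (Nat.card {a // tr P a} : ℝ) =
      ∑ a : A, ∑ P ∈ S, (if tr P a then (1 : ℝ) else 0) := by
    rw [Finset.sum_comm]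
    exact Finset.sum_congr rfl fun P _ => cau_card _
  have hn2 : ∑ P ∈ S, ∑ Q ∈ S.erase P, (Nat.card {a // tr P a ∧ tr Q a} : ℝ) =
      ∑ a : A, ∑ P ∈ S, ∑ Q ∈ S.erase P, (if tr P a ∧ tr Q a then (1 : ℝ) else 0) := by
    rw [Finset.sum_comm]
    refine Finset.sum_congr rfl fun P _ => ?_
    rw [Finset.sum_comm]
    exact Finset.sum_congr rfl fun Q _ => cau_card _
  have hs1 : ∑ a ∈ (Finset.univ : Finset A).erase z, x a =
      - ((∑ P ∈ S, ((Nat.card A : ℝ) - Nat.card {a // tr P a})) -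
        ((Nat.card A : ℝ) - 1) * S.card / 2) + ((Nat.card A : ℝ) - 1) * S.card -
        (S.card : ℝ) * ((Nat.card A : ℝ) - 1) +
        2 * ((∑ P ∈ S, ((Nat.card A : ℝ) - Nat.card {a // tr P a})) -
        ((Nat.card A : ℝ) - 1) * S.card / 2) := by
    have h1 : ∑ a ∈ (Finset.univ : Finset A).erase z, x a = ∑ a, x a - x z := by
      rw [← Finset.add_sum_erase Finset.univ x (Finset.mem_univ z)]
      ring
    have h2 : ∑ a, x a = (Nat.card A : ℝ) * (S.card / 2) -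
        ∑ P ∈ S, (Nat.card {a // tr P a} : ℝ) := by
      rw [hn1]
      simp only [hx]
      rw [Finset.sum_sub_distrib, Finset.sum_const, nsmul_eq_mul, hN]
    rw [h1, h2, hxz, Finset.sum_sub_distrib, Finset.sum_const, nsmul_eq_mul]
    ring
  have hs2 : ∑ a ∈ (Finset.univ : Finset A).erase z, x a ^ 2 =
      (∑ P ∈ S, ∑ Q ∈ S.erase P, (Nat.card {a // tr P a ∧ tr Q a} : ℝ)) -
      ((S.card : ℝ) - 1) * (∑ P ∈ S, (Nat.card {a // tr P a} : ℝ)) +
        ((Nat.card A : ℝ) - 1) * (S.card : ℝ) ^ 2 / 4 := by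
    have h1 : ∑ a ∈ (Finset.univ : Finset A).erase z, x a ^ 2 = ∑ a, x a ^ 2 - x z ^ 2 := by
      rw [← Finset.add_sum_erase Finset.univ (fun a => x a ^ 2) (Finset.mem_univ z)]
      ring
    have h2 : ∑ a, x a ^ 2 =
        (∑ P ∈ S, ∑ Q ∈ S.erase P, (Nat.card {a // tr P a ∧ tr Q a} : ℝ)) -
        ((S.card : ℝ) - 1) * (∑ P ∈ S, (Nat.card {a // tr P a} : ℝ)) +
        (Nat.card A : ℝ) * ((S.card : ℝ) ^ 2 / 4) := by
      rw [hn1, hn2, Finset.mul_sum, hN, ← nsmul_eq_mul, ← Finset.sum_const,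
        ← Finset.sum_sub_distrib, ← Finset.sum_add_distrib]
      exact Finset.sum_congr rfl fun a _ => cau_pt S tr a
    rw [h1, h2, hxz]
    ring
  have key := sq_sum_le_card_mul_sum_sq (s := (Finset.univ : Finset A).erase z) (f := x)
  rw [hNe, hs1, hs2] at key
  refine le_trans (le_of_eq ?_) key
  ring

end Pool.Agent.H456.PR
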