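import Pool.Agent.H456.PR.Stm
import Pool.Agent.H456.Coh.All

/-!
(ctw) `out_cls` (see Coh/Fin.lean `equiv_s2`, BQ/SFin.lean `selC_crv`): `(cls (crv f)).out = C • ((crv f).map (toK F))` (or the inverse) for a variable change `C = (u, r, s, t)`. CLAIM: for every `E` with `2 ≠ 0` and `C` there is `C'` with `twE D (C • E) = C' • twE D E` (`D ≠ 0`; `C' = (u, D r', 0, 0)` with `r'` from `cubE (C • E) = ((cubE E).tr r').sc (u⁻²)`-type formula, see BQ/T_selinv.lean where exactly this is done: `cubE (C • E)` in terms of `cubE E`; then `.sc D` commutes up to `Cub.sc_tr`, and `crv ((g.tr r).sc k²)` is a variable change of `crv g`). `S_transp` (`t_transp`, Coh/T_transp.lean) gives an isomorphism of the Selmer groups for variable changes (`Δ ≠ 0`).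
So the left side is the order of the Selmer group of `twE D ((crv f).map (toK F)) = crv ((f.map (toK F)).sc (toK D)) = crv ((f.sc D).map (toK F))` (`cubE_crv`), and `equiv_selmer` (Coh/Asm.lean, `hypC_all`) identifies it with `Nat.card (Sel ((f.sc D).map (toK F))) = NT ∅ (f.sc D)`.
-/

set_option autoImplicit false
set_option linter.all false

open Polynomial Finset Filter
open Pool.Agent.H456.EC (toK toK_inj sig toK_eq reflect_toK cls)
open Pool.Agent.H456.RN
open Pool.Agent.H456.BQ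
open Pool.Agent.H456.Coh (TF)
open Pool.Agent.H456.PP (OneR HasRt sx hh Tz Tq Iso3 nr IsoP nrP)

namespace Pool.Agent.H456.PR

/-- the curve of the cubic `k² (x - r)` is a variable change -/
theorem ctw_crv {K : Type} [Field K] (h : Cub K) (k : Kˣ) (r : K) :
    crv ((h.tr r).sc ((k : K) ^ 2)) = (⟨k⁻¹, r, 0, 0⟩ : WeierstrassCurve.VariableChange K) • crv h := by
  ext
  · rw [WeierstrassCurve.variableChange_a₁]
    simp [crv]
  · rw [WeierstrassCurve.variableChange_a₂]
    simp only [crv, Cub.sc, Cub.tr, inv_inv]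
    ring
  · rw [WeierstrassCurve.variableChange_a₃]
    simp [crv]
  · rw [WeierstrassCurve.variableChange_a₄]
    simp only [crv, Cub.sc, Cub.tr, inv_inv]
    ring
  · rw [WeierstrassCurve.variableChange_a₆]
    simp only [crv, Cub.sc, Cub.tr, inv_inv]
    ring

theorem ctw_map_sc {R S : Type} [CommRing R] [CommRing S] (φ : R →+* S) (D : R) (f : Cub R) :
    (f.sc D).map φ = (f.map φ).sc (φ D) := by
  ext <;> simp only [Cub.map, Cub.sc, map_mul, map_pow]

/-- the twist of the representative -/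
theorem ctw_key {F : Type} [Field F] [Fintype F] (h2 : (2 : F) ≠ 0) (f : Cub F[X]) (D : F[X]) :
    ∃ C' : WeierstrassCurve.VariableChange (RatFunc F),
      twE (toK F D) (cls (crv f)).out = C' • crv ((f.sc D).map (toK F)) := by
  obtain ⟨C, hC⟩ := out_cls (W := crv f)
  refine ⟨⟨(C.u⁻¹)⁻¹, toK F D * C.r, 0, 0⟩, ?_⟩
  rw [← ctw_crv, ← hC, ctw_map_sc]
  unfold twE
  rw [selinv_cubE h2, cubE_crv h2]
  congr 1
  rw [Cub.sc_sc, mul_comm, ← Cub.sc_sc, Cub.sc_tr]

open Classical in
theorem ctw_equiv {F : Type} [Field F] [Fintype F] (h2 : (2 : F) ≠ 0) {f : Cub F[X]} (hf : f.disc ≠ 0) {D : F[X]} (hD : D ≠ 0) :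
    Nonempty (Pool.Agent.H456.Coh.SelmerGroup (twE (toK F D) (cls (crv f)).out)
      (Pool.Agent.H456.Coh.torsionPts (twE (toK F D) (cls (crv f)).out) 2) ≃ Sel ((f.sc D).map (toK F))) := by
  have hd : (f.sc D).disc ≠ 0 := by
    rw [Cub.disc_sc]
    exact mul_ne_zero (pow_ne_zero _ hD) hf
  obtain ⟨C', hC'⟩ := ctw_key h2 f D
  have hΔ := Pool.Agent.H456.Coh.crvK_Δ h2 hd
  rw [crv_map] at hΔ
  obtain ⟨e⟩ := (Pool.Agent.H456.Coh.t_transp F (crv ((f.sc D).map (toK F))) C' hΔ 2).1
  obtain ⟨e'⟩ := Pool.Agent.H456.Coh.equiv_selmer Pool.Agent.H456.Coh.hypC_all h2 (Pool.Agent.H456.Coh.fK_disc hd)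
  rw [hC']
  exact ⟨e.toEquiv.trans e'⟩

theorem t_ctw : S_ctw := by
  intro F _ _ h2 f hf D hD
  obtain ⟨e⟩ := ctw_equiv h2 hf hD
  refine (Nat.card_congr e).trans ?_
  unfold NT
  refine Nat.card_congr ?_
  exact (Equiv.subtypeUnivEquiv (fun σ P hP => absurd hP (Finset.notMem_empty P))).symm

end Pool.Agent.H456.PR
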