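import Pool.Agent.H456.PR.Stm

/-!
(eul) `ak k = ∏_{i<k} 2/(2^(i+1) - 1)`. Multipliable: `∑ (1/2)^j < ∞` (Mathlib: `Real.multipliable_one_add_of_summable` or `multipliable_one_add_of_summable`). Identity (Euler): finite version (q-binomial theorem) or functional equation: let `q = 1/2`, `F(z) = ∑_k q^(k(k-1)/2) z^k / ((1-q)...(1-q^k))`; `F(z) = (1+z) F(qz)` (compare coefficients: `c_k = q^k c_k + q^(k-1) c_{k-1}`, i.e. `c_k (1-q^k) = q^(k-1) c_{k-1}`), `F` is continuous at `0` with `F(0) = 1`, so `F(1) = ∏_{j<N} (1+q^j) F(q^N) → ∏ (1+q^j)`. `ak k = c_k` since `2/(2^i - 1) = q^(i-1)/(1-q^i)`. Continuity: `|F(z) - 1| ≤ |z| ∑_{k≥1} c_k` for `0 ≤ z ≤ 1`; summability by comparison (`ak (k+1)/ak k = 2/(2^(k+1)-1) ≤ 2/3` for `k ≥ 1`).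
`4 ≤ ∏`: the partial product of the first four factors is `2 · 3/2 · 5/4 · 9/8 = 4.21...`, all factors are `≥ 1`.
-/

set_option autoImplicit false
set_option linter.all false

open Polynomial Finset Filter
open Pool.Agent.H456.EC (toK toK_inj sig toK_eq reflect_toK cls)
open Pool.Agent.H456.RN
open Pool.Agent.H456.BQ
open Pool.Agent.H456.Coh (TF)
open Pool.Agent.H456.PP (OneR HasRt sx hh Tz Tq Iso3 nr IsoP nrP)

namespace Pool.Agent.H456.PR

lemma eul_den (k : ℕ) : (0 : ℝ) < 2 ^ (k + 1) - 1 := by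
  have : (1 : ℝ) < 2 ^ (k + 1) := one_lt_pow₀ (by norm_num) (by omega)
  linarith

lemma eul_succ (k : ℕ) : ak (k + 1) = ak k * (2 / (2 ^ (k + 1) - 1)) := by
  unfold ak
  rw [Finset.prod_range_succ]

lemma eul_zero : ak 0 = 1 := by
  unfold ak
  simp

lemma eul_pos (k : ℕ) : 0 < ak k := by
  unfold ak
  exact Finset.prod_pos fun i _ => div_pos (by norm_num) (eul_den i)

lemma eul_summable : Summable ak := by
  refine summable_of_ratio_norm_eventually_le (r := 2 / 3) (by norm_num) ?_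
  filter_upwards [eventually_ge_atTop 1] with k hk
  rw [Real.norm_of_nonneg (eul_pos _).le, Real.norm_of_nonneg (eul_pos _).le, eul_succ, mul_comm]
  refine mul_le_mul_of_nonneg_right ?_ (eul_pos k).le
  have h1 : (4 : ℝ) ≤ 2 ^ (k + 1) := by
    calc (4 : ℝ) = 2 ^ 2 := by norm_num
      _ ≤ 2 ^ (k + 1) := pow_le_pow_right₀ (by norm_num) (by omega)
  exact div_le_div_of_nonneg_left (by norm_num) (by norm_num) (by linarith)

lemma eul_summable_z {z : ℝ} (hz0 : 0 ≤ z) (hz1 : z ≤ 1) : Summable fun k => ak k * z ^ k :=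
  Summable.of_nonneg_of_le (fun k => mul_nonneg (eul_pos k).le (pow_nonneg hz0 k))
    (fun k => mul_le_of_le_one_right (eul_pos k).le (pow_le_one₀ hz0 hz1)) eul_summable

/-- the functional equation -/
lemma eul_fun {z : ℝ} (hz0 : 0 ≤ z) (hz1 : z ≤ 1) :
    ∑' k, ak k * z ^ k = (1 + z) * ∑' k, ak k * (z / 2) ^ k := by
  have hs := eul_summable_z hz0 hz1
  have hs2 : Summable fun k => ak k * (z / 2) ^ k := eul_summable_z (by linarith) (by linarith)
  have e0 : ∑' k, ak k * z ^ k = 1 + ∑' k, ak (k + 1) * z ^ (k + 1) := by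
    rw [hs.tsum_eq_zero_add, eul_zero]
    simp
  have e1 : ∑' k, ak k * (z / 2) ^ k = 1 + ∑' k, ak (k + 1) * (z / 2) ^ (k + 1) := by
    rw [hs2.tsum_eq_zero_add, eul_zero]
    simp
  have hs3 : Summable fun k => ak (k + 1) * (z / 2) ^ (k + 1) :=
    (summable_nat_add_iff (f := fun k => ak k * (z / 2) ^ k) 1).2 hs2
  have hs4 : Summable fun k => z * (ak k * (z / 2) ^ k) := hs2.mul_left z
  have e2 : ∀ k, ak (k + 1) * z ^ (k + 1) =
      ak (k + 1) * (z / 2) ^ (k + 1) + z * (ak k * (z / 2) ^ k) := by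
    intro k
    have h := eul_den k
    rw [eul_succ, div_pow, div_pow]
    field_simp
    ring
  rw [e0, tsum_congr e2, hs3.tsum_add hs4, tsum_mul_left]
  rw [add_mul, one_mul]
  conv_rhs => rw [e1]
  rw [e1]
  ring

lemma eul_iter (N : ℕ) : ∑' k, ak k =
    (∏ j ∈ Finset.range N, (1 + (1 / 2 : ℝ) ^ j)) * ∑' k, ak k * ((1 / 2 : ℝ) ^ N) ^ k := by
  induction N with
  | zero => simp
  | succ N ih =>
    rw [ih, Finset.prod_range_succ, eul_fun (z := (1 / 2 : ℝ) ^ N) (by positivity)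
      (pow_le_one₀ (by norm_num) (by norm_num))]
    have : (1 / 2 : ℝ) ^ N / 2 = (1 / 2) ^ (N + 1) := by rw [pow_succ]; ring
    rw [this, mul_assoc]

lemma eul_lim : Tendsto (fun N : ℕ => ∑' k, ak k * ((1 / 2 : ℝ) ^ N) ^ k) atTop (nhds 1) := by
  have h := tendsto_tsum_of_dominated_convergence (𝓕 := atTop)
    (f := fun (N : ℕ) (k : ℕ) => ak k * ((1 / 2 : ℝ) ^ N) ^ k)
    (g := fun k : ℕ => if k = 0 then (1 : ℝ) else 0) (bound := ak) eul_summable ?_ ?_
  · rwa [tsum_ite_eq] at h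
  · intro k
    rcases Nat.eq_zero_or_pos k with hk | hk
    · subst hk
      simp only [pow_zero, mul_one, if_true, eul_zero]
      exact tendsto_const_nhds
    · rw [if_neg hk.ne']
      have h1 : Tendsto (fun N : ℕ => (1 / 2 : ℝ) ^ N) atTop (nhds 0) :=
        tendsto_pow_atTop_nhds_zero_of_lt_one (by norm_num) (by norm_num)
      have h2 := (h1.pow k).const_mul (ak k)
      rw [zero_pow hk.ne', mul_zero] at h2
      exact h2
  · filter_upwards with N k
    rw [Real.norm_of_nonneg (mul_nonneg (eul_pos k).le (by positivity))]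
    exact mul_le_of_le_one_right (eul_pos k).le
      (pow_le_one₀ (by positivity) (pow_le_one₀ (by norm_num) (by norm_num)))

theorem t_eul : S_eul := by
  have hm : Multipliable (fun j : ℕ => (1 + (1 / 2 : ℝ) ^ j)) :=
    Real.multipliable_one_add_of_summable (summable_geometric_of_lt_one (by norm_num) (by norm_num))
  have ht := hm.hasProd.tendsto_prod_nat
  have h1 : Tendsto (fun N : ℕ => (∏ j ∈ Finset.range N, (1 + (1 / 2 : ℝ) ^ j)) *
      ∑' k, ak k * ((1 / 2 : ℝ) ^ N) ^ k) atTop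
      (nhds ((∏' j : ℕ, (1 + (1 / 2 : ℝ) ^ j)) * 1)) := ht.mul eul_lim
  have h2 : ∑' k, ak k = ∏' j : ℕ, (1 + (1 / 2 : ℝ) ^ j) := by
    rw [mul_one] at h1
    have h3 : Tendsto (fun _ : ℕ => ∑' k, ak k) atTop
        (nhds (∏' j : ℕ, (1 + (1 / 2 : ℝ) ^ j))) := h1.congr fun N => (eul_iter N).symm
    exact tendsto_nhds_unique tendsto_const_nhds h3
  refine ⟨hm, h2 ▸ eul_summable.hasSum, ?_⟩
  refine ge_of_tendsto ht ?_
  filter_upwards [eventually_ge_atTop 4] with N hN
  induction N, hN using Nat.le_induction with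
  | base => norm_num [Finset.prod_range_succ]
  | succ n hn ih =>
    rw [Finset.prod_range_succ]
    have h3 : (0 : ℝ) ≤ (1 / 2) ^ n := by positivity
    nlinarith

end Pool.Agent.H456.PR
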