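import Pool.Agent.H456.PR.Stm
import Pool.Agent.H456.PP.All

/-!
(fl1) `D = DJ J`. For a place `Q` compare `LS Q (s.smul D)` and `LS Q (s.smul (D P))`. (1) `Q = P`: by `Rt P s` and `LS_iff` (BQ/SLoc.lean; the discriminants of the resolvents are not `0`: `f.disc ≠ 0` because `GoodF.sqf` and there are places of degree `> D₀`, `infinite_Pl`) both hold (a root gives a point with `z = 0`).
(2) `Q ≠ P` and (`Q.natDegree ≤ D₀` or `Q ∈ T`): in every model `ι P = w²`, `w` a unit (`S_sqr`, `Cfg.small`, `Cfg.sq`; `Q ∤ P` since both are monic irreducible and different), so `(s.smul (D P)).map j` is `((s.smul D).map j).smul (w²)`; use `Q4.Sol.of_sub` (BQ/SDef.lean) with `M = 1`. (3) `Q ∉ T`, `D₀ < Q.natDegree`: `¬ Q² ∣ f.disc` and `D`, `D P` are prime to `Q`. `a_unr : PP.S_unr` (PP/All.lean) says `LS Q (s.smul D) → LS Q s` for pairs `s` of the cubic `f`.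
Conversely apply it to the cubic `f.sc D` (`disc = D⁶ disc f`), the pair `(s.1.smul D, D s.2)` of `f.sc D` and the twist `D`: `(s.smul D).smul D = s.smul D²` is soluble if `s` is. The same for `D P`. So both are equivalent to `LS Q s`. (4) infinity: `P` is monic of even degree, `S_sqr` part two; unfold `LSI` as in BQ/SDef.lean.
-/

set_option autoImplicit false
set_option linter.all false

open Polynomial Finset Filter
open Pool.Agent.H456.EC (toK toK_inj sig toK_eq reflect_toK cls)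
open Pool.Agent.H456.RN
open Pool.Agent.H456.BQ
open Pool.Agent.H456.Coh (TF)
open Pool.Agent.H456.PP (OneR HasRt sx hh Tz Tq Iso3 nr IsoP nrP)

namespace Pool.Agent.H456.PR

section fl1a

variable {L : Type} [Field L]

theorem fl1_ev (g : Q4 L) (k u v : L) : (g.smul k).ev u v = k * g.ev u v := by
  simp only [Q4.ev, Q4.smul]; ring

theorem fl1_sol {g : Q4 L} {w : L} (hw : w ≠ 0) : (g.smul (w ^ 2)).Sol ↔ g.Sol := by
  constructor
  · rintro ⟨u, v, z, huv, hz⟩
    refine ⟨u, v, z / w, huv, ?_⟩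
    rw [fl1_ev] at hz
    rw [div_pow, hz, mul_div_cancel_left₀ _ (pow_ne_zero 2 hw)]
  · rintro ⟨u, v, z, huv, hz⟩
    refine ⟨u, v, w * z, huv, ?_⟩
    rw [fl1_ev, mul_pow, hz]

theorem fl1_root {g : Q4 L} (h : HasRt g) (k : L) : (g.smul k).Sol := by
  obtain ⟨u, v, huv, h0⟩ := h
  refine ⟨u, v, 0, huv, ?_⟩
  rw [fl1_ev, h0, mul_zero, zero_pow two_ne_zero]

end fl1a

section fl1b

variable {F : Type} [Field F]

theorem fl1_ndvd {P Q : Pl F} (h : Q ≠ P) : ¬ Q.1 ∣ P.1 := by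
  intro hd
  apply h
  have h1 : Associated Q.1 P.1 := (Irreducible.dvd_irreducible_iff_associated Q.2.2 P.2.2).1 hd
  exact Subtype.ext (eq_of_monic_of_associated Q.2.1 P.2.1 h1)

theorem fl1_DJ {J : Finset (Pl F)} {Q : Pl F} (h : Q ∉ J) : ¬ Q.1 ∣ DJ J := by
  intro hd
  obtain ⟨P, hP, hd'⟩ := (Prime.dvd_finset_prod_iff Q.2.2.prime _).1 hd
  exact fl1_ndvd (show Q ≠ P from fun e => h (by rw [e]; exact hP)) hd'

theorem fl1_DJ0 (J : Finset (Pl F)) : DJ J ≠ 0 := by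
  unfold DJ
  exact Finset.prod_ne_zero_iff.2 (fun P _ => P.2.2.ne_zero)

end fl1b

section fl1c

variable {F : Type} [Field F] [Fintype F]

/-- at a place where the twist is unramified -/
theorem fl1_unr (h2 : (2 : F) ≠ 0) {Q : Pl F} {f : Cub F[X]} (hf : ¬ Q.1 ^ 2 ∣ f.disc) {D : F[X]} (hD : ¬ Q.1 ∣ D)
    {s : Q4 (RatFunc F) × RatFunc F} (hs : s.1.res = ((f.map (toK F)).sc 4).tr s.2) :
    LS Q (s.1.smul (toK F D)) ↔ LS Q s.1 := by
  have hD0 : toK F D ≠ 0 := (map_ne_zero_iff _ toK_inj).2 (fun h => hD (h ▸ dvd_zero _))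
  constructor
  · exact PP.a_unr F h2 Q f hf D hD s hs
  · intro h
    have hfD : ¬ Q.1 ^ 2 ∣ (f.sc D).disc := by
      rw [Cub.disc_sc]
      exact PP.unr_sq (fun h => hD (Q.2.2.prime.dvd_of_dvd_pow h)) hf
    have hres : (s.1.smul (toK F D)).res = (((f.sc D).map (toK F)).sc 4).tr (toK F D * s.2) := by
      rw [Q4.res_smul, hs, Cub.sc_tr, Cub.sc_sc, Cub.map_sc, Cub.sc_sc, mul_comm 4 (toK F D)]
    refine PP.a_unr F h2 Q (f.sc D) hfD D hD (s.1.smul (toK F D), toK F D * s.2) hres ?_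
    intro O L _ _ _ _ _ π ι hL j hj
    have h1 := h O L π ι hL j hj
    have h3 : ((s.1.smul (toK F D)).smul (toK F D)).map j = (s.1.map j).smul ((j (toK F D)) ^ 2) := by
      rw [Q4.map_smul, Q4.map_smul, Q4.smul_smul, ← pow_two]
    show (((s.1.smul (toK F D)).smul (toK F D)).map j).Sol
    rw [h3]
    exact (fl1_sol ((map_ne_zero_iff _ j.injective).2 hD0)).2 h1

/-- at a place where the factor is a square -/
theorem fl1_sqr (hsq : S_sqr) (h2 : (2 : F) ≠ 0) {Q P : Pl F} (hne : Q ≠ P) (hS : SqM Q P.1) (D : F[X])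
    (g : Q4 (RatFunc F)) : LS Q (g.smul (toK F D)) ↔ LS Q (g.smul (toK F (D * P.1))) := by
  have key : ∀ (O L : Type) [CommRing O] [IsDomain O] [Field L] [Algebra O L] [IsFractionRing O L] (π : O)
      (ι : F[X] →+* O), Lc4 Q.1 π ι → ∀ j : RatFunc F →+* L, (∀ x : F[X], j (toK F x) = algebraMap O L (ι x)) →
      (((g.smul (toK F D)).map j).Sol ↔ ((g.smul (toK F (D * P.1))).map j).Sol) := by
    intro O L _ _ _ _ _ π ι hL j hj
    obtain ⟨w, hw, he⟩ := (hsq F h2).1 Q P.1 (fl1_ndvd hne) hS O π ι hL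
    have hw0 : algebraMap O L w ≠ 0 := (map_ne_zero_iff _ (IsFractionRing.injective O L)).2 hw.ne_zero
    have h3 : (g.smul (toK F (D * P.1))).map j = ((g.smul (toK F D)).map j).smul ((algebraMap O L w) ^ 2) := by
      rw [Q4.map_smul, Q4.map_smul, Q4.smul_smul, map_mul, map_mul, hj P.1, he, map_pow]
    rw [h3, fl1_sol hw0]
  constructor
  · intro h O L _ _ _ _ _ π ι hL j hj
    exact (key O L π ι hL j hj).1 (h O L π ι hL j hj)
  · intro h O L _ _ _ _ _ π ι hL j hj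
    exact (key O L π ι hL j hj).2 (h O L π ι hL j hj)

/-- at infinity -/
theorem fl1_inf (hsq : S_sqr) (h2 : (2 : F) ≠ 0) {P : Pl F} (hev : Even P.1.natDegree) (D : F[X])
    (g : Q4 (RatFunc F)) : LSI (g.smul (toK F D)) ↔ LSI (g.smul (toK F (D * P.1))) := by
  have key : ∀ (O L : Type) [CommRing O] [IsDomain O] [Field L] [Algebra O L] [IsFractionRing O L] (π : O)
      (ι : F[X] →+* O), Lc4 (X : F[X]) π ι → ∀ j : RatFunc F →+* L, (∀ x : F[X], j (toK F x) = algebraMap O L (ι x)) →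
      ((((g.smul (toK F D)).map (locI_tau F)).map j).Sol ↔
        (((g.smul (toK F (D * P.1))).map (locI_tau F)).map j).Sol) := by
    intro O L _ _ _ _ _ π ι hL j hj
    obtain ⟨w, hw0, he⟩ := (hsq F h2).2 P.1 P.2.1 hev O L π ι hL j hj
    have h3 : ((g.smul (toK F (D * P.1))).map (locI_tau F)).map j =
        (((g.smul (toK F D)).map (locI_tau F)).map j).smul (w ^ 2) := by
      rw [Q4.map_smul, Q4.map_smul, Q4.map_smul, Q4.map_smul, Q4.smul_smul, map_mul, map_mul, map_mul, he]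
    rw [h3, fl1_sol hw0]
  constructor
  · intro h O L _ _ _ _ _ π ι hL j hj
    exact (key O L π ι hL j hj).1 (h O L π ι hL j hj)
  · intro h O L _ _ _ _ _ π ι hL j hj
    exact (key O L π ι hL j hj).2 (h O L π ι hL j hj)

/-- at the place where the quartic has a root -/
theorem fl1_rt (h2 : (2 : F) ≠ 0) {P : Pl F} {f : Cub F[X]} (hf : f.disc ≠ 0) {D : F[X]} (hD : D ≠ 0)
    {s : Q4 (RatFunc F) × RatFunc F} (hs : s.1.res = ((f.map (toK F)).sc 4).tr s.2) (hR : Rt P s) :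
    LS P (s.1.smul (toK F D)) := by
  have h4 : (4 : RatFunc F) ≠ 0 := by
    have : (4 : RatFunc F) = 2 ^ 2 := by norm_num
    rw [this]; exact pow_ne_zero _ (two_ne h2)
  have hD0 : toK F D ≠ 0 := (map_ne_zero_iff _ toK_inj).2 hD
  have hf0 : toK F f.disc ≠ 0 := (map_ne_zero_iff _ toK_inj).2 hf
  have hd : (s.1.smul (toK F D)).res.disc ≠ 0 := by
    rw [Q4.res_smul, hs, Cub.disc_sc, Cub.disc_tr, Cub.disc_sc, Cub.map_disc]
    exact mul_ne_zero (pow_ne_zero _ hD0) (mul_ne_zero (pow_ne_zero _ h4) hf0)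
  rw [LS_iff h2 hd P, Q4.map_smul]
  exact fl1_root hR _

end fl1c

theorem t_fl1 : S_sqr → S_fl1 := by
  intro hsq F _ _ h2 T D₀ hT f hf J hJ P hP hPJ s hs hR
  have hf0 : f.disc ≠ 0 := fun h => hf.disc P hP (h ▸ dvd_zero _)
  have hD0 : DJ J ≠ 0 := fl1_DJ0 J
  have hinf := fl1_inf hsq h2 (hT.even P hP) (DJ J) s.1
  have hfin : ∀ Q : Pl F, LS Q (s.1.smul (toK F (DJ J))) ↔ LS Q (s.1.smul (toK F (DJ J * P.1))) := by
    intro Q
    by_cases hQP : Q = P
    · subst hQP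
      exact ⟨fun _ => fl1_rt h2 hf0 (mul_ne_zero hD0 Q.2.2.ne_zero) hs hR, fun _ => fl1_rt h2 hf0 hD0 hs hR⟩
    · by_cases hQT : Q ∈ T
      · exact fl1_sqr hsq h2 hQP (hT.sq P hP Q hQT (fun e => hQP e.symm)) (DJ J) s.1
      · by_cases hQd : Q.1.natDegree ≤ D₀
        · exact fl1_sqr hsq h2 hQP (hT.small P hP Q hQd) (DJ J) s.1
        · have hQ2 : ¬ Q.1 ^ 2 ∣ f.disc := hf.sqf Q (by omega)
          have n1 : ¬ Q.1 ∣ DJ J := fl1_DJ (fun h => hQT (hJ h))
          have n2 : ¬ Q.1 ∣ DJ J * P.1 := by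
            intro h
            rcases Q.2.2.prime.dvd_or_dvd h with h | h
            · exact n1 h
            · exact fl1_ndvd hQP h
          rw [fl1_unr h2 hQ2 n1 hs, fl1_unr h2 hQ2 n2 hs]
  exact and_congr (forall_congr' hfin) hinf

end Pool.Agent.H456.PR
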