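import Pool.Agent.H456.PR.Stm
import Pool.Agent.H456.PP.All

/-!
(fl2) `D = DJ J`, `K = RatFunc F`, `fK = f.map (toK F)`, `fK.disc ≠ 0` (by `GoodF.sqf` and `infinite_Pl` there is a place with `¬ Q² ∣ f.disc`). By `S_sxn` replace `s₁, s₂` by equivalent pairs with `sx ≠ 0` (`PE` preserves the resolvent condition `PE.res`, `Rt` (a root is moved by the matrix; `HasRt` is the negation of `NR`, see `Q4.NR.of_sub`), `IsD`: `PE M s s'` gives `(s.1.smul d).sub M = (s'.1.smul d).smul (det²)`, use `LS.of_sub`, `LSI.of_sub`). Let `q = Tq fK s₁ s₂`. CLAIM: `IsoP Q q` for every `Q ≠ P` and `IsoP (PlX F) (q.map (locI_tau F))`.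
Take the model of Mathlib (`t_mcomp`) or any model `(O, L, π, ι)` at `Q` (`t_comp4` gives one) and `j : RatFunc F →+* L` the extension of `ι`; `(Tq f s₁ s₂).map j = Tq (f.map j) (s₁.map) (s₂.map)` (unfold). (1) `Q ≠ P`, `deg Q ≤ D₀` or `Q ∈ T`: `ι P = w²` with `w` a unit (`S_sqr` with `Cfg.small`, `Cfg.sq`, `Q ∤ P`), so `(s₂.smul (D P)).map j` soluble gives `(s₂.map j).smul (j D)` soluble; `(s₁.map j).smul (j D)` is soluble by hypothesis; `a_T1 : PP.S_T1` (PP/All.lean) with `D := j D ≠ 0`. (2) `Q ∉ T` and `D₀ < deg Q`: `¬ Q² ∣ f.disc`, `Q ∤ D`, `Q ∤ D P`, so `a_unr` gives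
`LS Q s₁.1` and `LS Q s₂.1`; `a_T1` with `D = 1`. (3) infinity: `j (locI_tau (toK P)) = w²`, `w ≠ 0` (`S_sqr` part two, `P` monic of even degree), `a_T1` with `D := j (locI_tau (toK D))`. By `S_rcg` `q` is isotropic over `K`. Now the completion `L` of Mathlib at `P`, `O` its ring of integers, `π = ι P`: `q.map j` is isotropic. `a_T3 : PP.S_T3` for the cubic `f.map ι : Cub O`: `OneR π (f.map ι)` follows from `OneR P.1 f` by `Lc.dvd` and `Lc.dense`. `s₁.map` is soluble: `(s₁.smul D).map j` is, and `ι D = w²` is the square of a unit: each `Q ∈ J` is a nonzero square modulo `P` (`Cfg.sq`), so `SqM P D`, `P ∤ D`, `S_sqr`.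
`¬ HasRt s₁.map` is `¬ Rt P s₁`. The `D` of `S_T3` is `ι (D P)`: `π ∣`, `¬ π² ∣` (`Lc.dvd`), `(s₂.smul (D P)).map j` is soluble, `¬ Rt P s₂`. So `q.map j` is anisotropic, a contradiction.
-/

set_option autoImplicit false
set_option linter.all false

open Polynomial Finset Filter
open Pool.Agent.H456.EC (toK toK_inj sig toK_eq reflect_toK cls)
open Pool.Agent.H456.RN
open Pool.Agent.H456.BQ
open Pool.Agent.H456.Coh (TF)
open Pool.Agent.H456.PP (OneR HasRt sx hh Tz Tq Iso3 nr IsoP nrP)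

namespace Pool.Agent.H456.PR

section maps

variable {R S T' : Type} [CommRing R] [CommRing S] [CommRing T']

theorem fl2_Tq_map (φ : R →+* S) (f : Cub R) (s₁ s₂ : Q4 R × R) :
    (Tq f s₁ s₂).map φ = Tq (f.map φ) (s₁.1.map φ, φ s₁.2) (s₂.1.map φ, φ s₂.2) := by
  simp only [Tq, Tz, hh, TF.map, Cub.map, Q4.map]
  ext <;> simp only [map_add, map_mul, map_sub, map_neg, map_pow, map_ofNat]

theorem fl2_sx_map (φ : R →+* S) (g : Q4 R) : sx (g.map φ) = φ (sx g) := by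
  simp only [sx, Q4.map, map_add, map_mul, map_sub, map_pow, map_ofNat]

theorem fl2_dvd_ev {p x y : R} (f : Cub R) (h : p ∣ x - y) : p ∣ f.ev x - f.ev y := by
  have e : f.ev x - f.ev y = (x - y) * (x ^ 2 + x * y + y ^ 2 + f.a * (x + y) + f.b) := by
    simp only [Cub.ev]; ring
  rw [e]
  exact Dvd.dvd.mul_right h _

end maps

section fld

variable {L : Type} [Field L]

theorem fl2_sol_sq {g : Q4 L} {D w : L} (hw : w ≠ 0) (h : (g.smul (D * w ^ 2)).Sol) : (g.smul D).Sol := by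
  obtain ⟨u, v, z, huv, hz⟩ := h
  refine ⟨u, v, z / w, huv, ?_⟩
  rw [div_pow, hz, div_eq_iff (pow_ne_zero 2 hw), Q4.ev_smul, Q4.ev_smul]
  ring

theorem fl2_HasRt {g : Q4 L} (h : ¬ HasRt g) : g.NR := by
  intro u v huv h0
  exact h ⟨u, v, huv, h0⟩

end fld

section glob

variable {F : Type} [Field F]

theorem fl2_IsD {M : M2 (RatFunc F)} {s s' : Q4 (RatFunc F) × RatFunc F} (h : PE M s s') {D : F[X]} (hs : IsD D s) :
    IsD D s' := by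
  have e : (s.1.smul (toK F D)).sub M = (s'.1.smul (toK F D)).smul (M.det ^ 2) := by
    rw [Q4.smul_sub, h.sub, Q4.smul_smul, Q4.smul_smul, mul_comm]
  exact ⟨fun P => (hs.1 P).of_sub h.det h.det e, hs.2.of_sub h.det h.det e⟩

theorem fl2_Rt {M : M2 (RatFunc F)} {s s' : Q4 (RatFunc F) × RatFunc F} (h : PE M s s') {P : Pl F} (hs : Rt P s') :
    Rt P s := by
  by_contra hn
  have h1 := fl2_HasRt hn
  obtain ⟨u, v, huv, h0⟩ := hs
  refine Q4.NR.of_sub (M := M.map (algebraMap (RatFunc F) ((plv P).adicCompletion (RatFunc F))))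
    (c := algebraMap (RatFunc F) ((plv P).adicCompletion (RatFunc F)) M.det) ?_ ?_ ?_ h1 u v huv h0
  · rw [M2.map_det]; exact (map_ne_zero_iff _ (RingHom.injective _)).2 h.det
  · exact (map_ne_zero_iff _ (RingHom.injective _)).2 h.det
  · rw [← Q4.map_sub, h.sub, Q4.map_smul, map_pow]

theorem fl2_dvd_Pl {P Q : Pl F} (h : Q.1 ∣ P.1) : Q = P := by
  apply Subtype.ext
  exact eq_of_monic_of_associated Q.2.1 P.2.1 (Q.2.2.associated_of_dvd P.2.2 h)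

theorem fl2_dvd_DJ {J : Finset (Pl F)} {Q : Pl F} (h : Q.1 ∣ DJ J) : Q ∈ J := by
  unfold DJ at h
  obtain ⟨P, hP, h⟩ := (Prime.dvd_finset_prod_iff Q.2.2.prime (fun P : Pl F => P.1)).1 h
  rw [fl2_dvd_Pl h]
  exact hP

theorem fl2_DJ_ne (J : Finset (Pl F)) : DJ J ≠ 0 := by
  unfold DJ
  exact Finset.prod_ne_zero_iff.2 fun P _ => P.2.2.ne_zero

theorem fl2_SqM_DJ {P : Pl F} {J : Finset (Pl F)} (h : ∀ Q ∈ J, SqM P Q.1) : SqM P (DJ J) := by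
  unfold DJ
  refine Finset.prod_induction (fun Q : Pl F => Q.1) (fun u => SqM P u) ?_ ?_ h
  · rintro u v ⟨r, hr⟩ ⟨s, hs⟩
    refine ⟨r * s, ?_⟩
    have e : u * v - (r * s) ^ 2 = u * (v - s ^ 2) + s ^ 2 * (u - r ^ 2) := by ring
    rw [e]
    exact dvd_add (hs.mul_left _) (hr.mul_left _)
  · exact ⟨1, by rw [one_pow, sub_self]; exact dvd_zero _⟩

theorem fl2_OneR {P : F[X]} {O : Type} [CommRing O] {π : O} {ι : F[X] →+* O} (hL : Lc P π ι) {f : Cub F[X]}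
    (h : OneR P f) : OneR π (f.map ι) := by
  have hd : ∀ x : F[X], π ∣ ι x ↔ P ∣ x := by
    intro x
    have := hL.dvd 1 x
    rwa [pow_one, pow_one] at this
  obtain ⟨h1, ⟨r, hr⟩, h3⟩ := h
  refine ⟨?_, ⟨ι r, ?_⟩, ?_⟩
  · rw [Cub.map_disc, hd]; exact h1
  · rw [Cub.map_ev, hd]; exact hr
  · intro x x' hx hx'
    obtain ⟨y, hy⟩ := hL.dense 1 x
    obtain ⟨y', hy'⟩ := hL.dense 1 x'
    rw [pow_one] at hy hy'
    have a : P ∣ f.ev y := by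
      rw [← hd, ← Cub.map_ev]
      have := fl2_dvd_ev (f.map ι) hy
      exact (dvd_sub_right hx).1 this
    have a' : P ∣ f.ev y' := by
      rw [← hd, ← Cub.map_ev]
      have := fl2_dvd_ev (f.map ι) hy'
      exact (dvd_sub_right hx').1 this
    have b := (hd _).2 (h3 y y' a a')
    rw [map_sub] at b
    have e : x - x' = (x - ι y) - (x' - ι y') + (ι y - ι y') := by ring
    rw [e]
    exact dvd_add (dvd_sub hy hy') b

theorem fl2_iso (h2 : (2 : F) ≠ 0) {P : F[X]} {O L : Type} [CommRing O] [IsDomain O] [Field L] [Algebra O L]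
    [IsFractionRing O L] {π : O} {ι : F[X] →+* O} (hL : Lc4 P π ι) (φ : RatFunc F →+* L) {f : Cub (RatFunc F)}
    (hf : f.disc ≠ 0) {s₁ s₂ : Q4 (RatFunc F) × RatFunc F} (r₁ : s₁.1.res = (f.sc 4).tr s₁.2)
    (r₂ : s₂.1.res = (f.sc 4).tr s₂.2) (x₁ : sx s₁.1 ≠ 0) (x₂ : sx s₂.1 ≠ 0) {D : L} (hD : D ≠ 0)
    (k₁ : ((s₁.1.map φ).smul D).Sol) (k₂ : ((s₂.1.map φ).smul D).Sol) : Iso3 ((Tq f s₁ s₂).map φ) := by
  rw [fl2_Tq_map]
  refine Pool.Agent.H456.PP.a_T1 F h2 P O L π ι hL (f.map φ) ?_ _ _ ?_ ?_ ?_ ?_ D hD k₁ k₂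
  · rw [Cub.map_disc]; exact (map_ne_zero_iff _ φ.injective).2 hf
  · show (s₁.1.map φ).res = ((f.map φ).sc 4).tr (φ s₁.2)
    rw [Q4.map_res, r₁, Cub.map_tr, Cub.map_sc, map_ofNat]
  · show (s₂.1.map φ).res = ((f.map φ).sc 4).tr (φ s₂.2)
    rw [Q4.map_res, r₂, Cub.map_tr, Cub.map_sc, map_ofNat]
  · show sx (s₁.1.map φ) ≠ 0
    rw [fl2_sx_map]; exact (map_ne_zero_iff _ φ.injective).2 x₁
  · show sx (s₂.1.map φ) ≠ 0
    rw [fl2_sx_map]; exact (map_ne_zero_iff _ φ.injective).2 x₂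

variable [Fintype F]

theorem fl2_model (Q : Pl F) : ∃ (O L : Type) (_ : CommRing O) (_ : IsDomain O) (_ : Field L) (_ : Algebra O L)
    (_ : IsFractionRing O L) (π : O) (ι : F[X] →+* O) (j : RatFunc F →+* L), Lc4 Q.1 π ι ∧
      (∀ x : F[X], j (toK F x) = algebraMap O L (ι x)) :=
  ⟨(plv Q).adicCompletionIntegers (RatFunc F), (plv Q).adicCompletion (RatFunc F), inferInstance, inferInstance,
    inferInstance, inferInstance, inferInstance, _, _,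
    algebraMap (RatFunc F) ((plv Q).adicCompletion (RatFunc F)), t_mcomp F Q, fun x => rfl⟩

theorem fl2_fin (hsqr : S_sqr) (h2 : (2 : F) ≠ 0) {T : Finset (Pl F)} {D₀ : ℕ} (hC : Cfg T D₀) {f : Cub F[X]}
    (hG : GoodF T D₀ f) {J : Finset (Pl F)} (hJ : J ⊆ T) {P : Pl F} (hP : P ∈ T)
    {s₁ s₂ : Q4 (RatFunc F) × RatFunc F} (hK : (f.map (toK F)).disc ≠ 0)
    (r₁ : s₁.1.res = ((f.map (toK F)).sc 4).tr s₁.2) (r₂ : s₂.1.res = ((f.map (toK F)).sc 4).tr s₂.2)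
    (x₁ : sx s₁.1 ≠ 0) (x₂ : sx s₂.1 ≠ 0) (d₁ : IsD (DJ J) s₁) (d₂ : IsD (DJ J * P.1) s₂) {Q : Pl F} (hQ : Q ≠ P) :
    IsoP Q (Tq (f.map (toK F)) s₁ s₂) := by
  have hQP : ¬ Q.1 ∣ P.1 := fun h => hQ (fl2_dvd_Pl h)
  obtain ⟨O, L, i1, i2, i3, i4, i5, π, ι, j, hL, hj⟩ := fl2_model Q
  refine ⟨O, L, i1, i2, i3, i4, i5, π, ι, j, hL, hj, ?_⟩
  by_cases hc : Q ∈ T ∨ Q.1.natDegree ≤ D₀
  · have hSq : SqM Q P.1 := by
      rcases hc with hc | hc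
      · exact hC.sq P hP Q hc (Ne.symm hQ)
      · exact hC.small P hP Q hc
    obtain ⟨w, hw, hwP⟩ := (hsqr F h2).1 Q P.1 hQP hSq O π ι hL
    have hw0 : algebraMap O L w ≠ 0 := (map_ne_zero_iff _ (IsFractionRing.injective O L)).2 hw.ne_zero
    refine fl2_iso h2 hL j hK r₁ r₂ x₁ x₂ (D := j (toK F (DJ J))) ?_ ?_ ?_
    · exact (map_ne_zero_iff _ j.injective).2 ((map_ne_zero_iff _ toK_inj).2 (fl2_DJ_ne J))
    · have h := d₁.1 Q O L π ι hL j hj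
      rwa [Q4.map_smul] at h
    · have h := d₂.1 Q O L π ι hL j hj
      rw [Q4.map_smul, map_mul, map_mul, hj P.1, hwP, map_pow] at h
      exact fl2_sol_sq hw0 h
  · push Not at hc
    have hsq := hG.sqf Q hc.2
    have hD : ¬ Q.1 ∣ DJ J := fun h => hc.1 (hJ (fl2_dvd_DJ h))
    have hDP : ¬ Q.1 ∣ DJ J * P.1 := fun h => (Q.2.2.prime.dvd_or_dvd h).elim hD hQP
    have l₁ := Pool.Agent.H456.PP.a_unr F h2 Q f hsq (DJ J) hD s₁ r₁ (d₁.1 Q)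
    have l₂ := Pool.Agent.H456.PP.a_unr F h2 Q f hsq (DJ J * P.1) hDP s₂ r₂ (d₂.1 Q)
    refine fl2_iso h2 hL j hK r₁ r₂ x₁ x₂ (D := 1) one_ne_zero ?_ ?_
    · rw [Q4.smul_one]; exact l₁ O L π ι hL j hj
    · rw [Q4.smul_one]; exact l₂ O L π ι hL j hj

theorem fl2_inf (hsqr : S_sqr) (h2 : (2 : F) ≠ 0) {T : Finset (Pl F)} {D₀ : ℕ} (hC : Cfg T D₀) {f : Cub F[X]}
    {J : Finset (Pl F)} {P : Pl F} (hP : P ∈ T)
    {s₁ s₂ : Q4 (RatFunc F) × RatFunc F} (hK : (f.map (toK F)).disc ≠ 0)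
    (r₁ : s₁.1.res = ((f.map (toK F)).sc 4).tr s₁.2) (r₂ : s₂.1.res = ((f.map (toK F)).sc 4).tr s₂.2)
    (x₁ : sx s₁.1 ≠ 0) (x₂ : sx s₂.1 ≠ 0) (d₁ : IsD (DJ J) s₁) (d₂ : IsD (DJ J * P.1) s₂) :
    IsoP (PlX F) ((Tq (f.map (toK F)) s₁ s₂).map (locI_tau F)) := by
  obtain ⟨O, L, i1, i2, i3, i4, i5, π, ι, j, hL, hj⟩ := fl2_model (PlX F)
  refine ⟨O, L, i1, i2, i3, i4, i5, π, ι, j, hL, hj, ?_⟩
  obtain ⟨w, hw0, hw⟩ := (hsqr F h2).2 P.1 P.2.1 (hC.even P hP) O L π ι hL j hj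
  have e : ((Tq (f.map (toK F)) s₁ s₂).map (locI_tau F)).map j =
      (Tq (f.map (toK F)) s₁ s₂).map (j.comp (locI_tau F)) := rfl
  rw [e]
  have eQ : ∀ g : Q4 (RatFunc F), (g.map (locI_tau F)).map j = g.map (j.comp (locI_tau F)) := fun g => rfl
  refine fl2_iso h2 hL (j.comp (locI_tau F)) hK r₁ r₂ x₁ x₂ (D := (j.comp (locI_tau F)) (toK F (DJ J))) ?_ ?_ ?_
  · exact (map_ne_zero_iff _ (RingHom.injective _)).2 ((map_ne_zero_iff _ toK_inj).2 (fl2_DJ_ne J))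
  · have h := d₁.2 O L π ι hL j hj
    rwa [eQ, Q4.map_smul] at h
  · have h := d₂.2 O L π ι hL j hj
    rw [eQ, Q4.map_smul, map_mul, map_mul] at h
    have hw' : (j.comp (locI_tau F)) (toK F P.1) = w ^ 2 := hw
    rw [hw'] at h
    exact fl2_sol_sq hw0 h

theorem fl2_last (hsqr : S_sqr) (h2 : (2 : F) ≠ 0) {T : Finset (Pl F)} {D₀ : ℕ}
    (hC : Cfg T D₀) {f : Cub F[X]} {J : Finset (Pl F)} (hJ : J ⊆ T) {P : Pl F} (hP : P ∈ T) (hPJ : P ∉ J)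
    (hOne : OneR P.1 f) {O L : Type} [CommRing O] [IsDomain O] [Field L] [Algebra O L] [IsFractionRing O L] {π : O}
    {ι : F[X] →+* O} (hL : Lc4 P.1 π ι) (j : RatFunc F →+* L) (hj : ∀ x : F[X], j (toK F x) = algebraMap O L (ι x))
    {s₁ s₂ : Q4 (RatFunc F) × RatFunc F} (r₁ : s₁.1.res = ((f.map (toK F)).sc 4).tr s₁.2)
    (r₂ : s₂.1.res = ((f.map (toK F)).sc 4).tr s₂.2) (x₁ : sx s₁.1 ≠ 0) (x₂ : sx s₂.1 ≠ 0) (d₁ : IsD (DJ J) s₁)
    (d₂ : IsD (DJ J * P.1) s₂) (n₁ : ¬ HasRt (s₁.1.map j)) (n₂ : ¬ HasRt (s₂.1.map j)) :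
    ¬ Iso3 ((Tq (f.map (toK F)) s₁ s₂).map j) := by
  have hfj : (f.map (toK F)).map j = (f.map ι).map (algebraMap O L) := by
    ext <;> simp only [Cub.map, hj]
  rw [fl2_Tq_map, hfj]
  have hPD : ¬ P.1 ∣ DJ J := fun h => hPJ (fl2_dvd_DJ h)
  obtain ⟨w, hw, hwD⟩ := (hsqr F h2).1 P (DJ J) hPD
    (fl2_SqM_DJ fun Q hQ => hC.sq Q (hJ hQ) P hP (fun h => hPJ (h ▸ hQ))) O π ι hL
  have hw0 : algebraMap O L w ≠ 0 := (map_ne_zero_iff _ (IsFractionRing.injective O L)).2 hw.ne_zero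
  have k₁ : (s₁.1.map j).Sol := by
    have h := d₁.1 P O L π ι hL j hj
    rw [Q4.map_smul, hj, hwD, map_pow, ← one_mul (algebraMap O L w ^ 2)] at h
    have h' := fl2_sol_sq hw0 h
    rwa [Q4.smul_one] at h'
  have k₂ : ((s₂.1.map j).smul (algebraMap O L (ι (DJ J * P.1)))).Sol := by
    have h := d₂.1 P O L π ι hL j hj
    rwa [Q4.map_smul, hj] at h
  have hd1 : π ∣ ι (DJ J * P.1) := by
    have h := (hL.dvd 1 (DJ J * P.1)).2 (by rw [pow_one]; exact dvd_mul_left _ _)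
    rwa [pow_one] at h
  have hd2 : ¬ π ^ 2 ∣ ι (DJ J * P.1) := by
    intro h
    have h' := (hL.dvd 2 (DJ J * P.1)).1 h
    rw [pow_two] at h'
    exact hPD ((mul_dvd_mul_iff_right P.2.2.ne_zero).1 h')
  refine Pool.Agent.H456.PP.a_T3 F h2 P O L π ι hL (f.map ι) (fl2_OneR hL.toLc hOne) (s₁.1.map j, j s₁.2)
    (s₂.1.map j, j s₂.2) ?_ ?_ ?_ ?_ k₁ n₁ (ι (DJ J * P.1)) hd1 hd2 k₂ n₂
  · show (s₁.1.map j).res = (((f.map ι).map (algebraMap O L)).sc 4).tr (j s₁.2)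
    rw [Q4.map_res, r₁, Cub.map_tr, Cub.map_sc, map_ofNat, hfj]
  · show (s₂.1.map j).res = (((f.map ι).map (algebraMap O L)).sc 4).tr (j s₂.2)
    rw [Q4.map_res, r₂, Cub.map_tr, Cub.map_sc, map_ofNat, hfj]
  · show sx (s₁.1.map j) ≠ 0
    rw [fl2_sx_map]; exact (map_ne_zero_iff _ j.injective).2 x₁
  · show sx (s₂.1.map j) ≠ 0
    rw [fl2_sx_map]; exact (map_ne_zero_iff _ j.injective).2 x₂

theorem fl2_Iso3_map {R S : Type} [Field R] [Field S] (φ : R →+* S) {q : TF R} (h : Iso3 q) : Iso3 (q.map φ) := by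
  obtain ⟨x, y, z, hn, h0⟩ := h
  refine ⟨φ x, φ y, φ z, ?_, ?_⟩
  · rintro ⟨a, b, c⟩
    exact hn ⟨(map_eq_zero_iff _ φ.injective).1 a, (map_eq_zero_iff _ φ.injective).1 b,
      (map_eq_zero_iff _ φ.injective).1 c⟩
  · simp only [TF.ev, TF.map] at h0 ⊢
    rw [← map_zero φ, ← h0]
    simp only [map_add, map_mul, map_pow]

end glob

theorem t_fl2 : S_sqr → S_sxn → S_rcg → S_fl2 := by
  intro hsqr hsxn hrcg F _ _ h2 T D₀ hC f hG J hJ P hP hPJ hOne s₁ s₂ r₁ r₂ d₁ n₁ d₂ n₂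
  have hdisc : f.disc ≠ 0 := fun h => hG.disc P hP (h ▸ dvd_zero _)
  have hK : (f.map (toK F)).disc ≠ 0 := disc_ne hdisc
  have h2K : (2 : RatFunc F) ≠ 0 := two_ne h2
  obtain ⟨M₁, s₁', p₁, x₁⟩ := hsxn (RatFunc F) h2K (f.map (toK F)) hK s₁ r₁
  obtain ⟨M₂, s₂', p₂, x₂⟩ := hsxn (RatFunc F) h2K (f.map (toK F)) hK s₂ r₂
  have r₁' := p₁.res r₁
  have r₂' := p₂.res r₂
  have d₁' := fl2_IsD p₁ d₁
  have d₂' := fl2_IsD p₂ d₂
  have n₁' : ¬ Rt P s₁' := fun h => n₁ (fl2_Rt p₁ h)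
  have n₂' : ¬ Rt P s₂' := fun h => n₂ (fl2_Rt p₂ h)
  have hq : Iso3 (Tq (f.map (toK F)) s₁' s₂') := by
    apply hrcg F h2 P
    · intro Q hQ
      exact fl2_fin hsqr h2 hC hG hJ hP hK r₁' r₂' x₁ x₂ d₁' d₂' hQ
    · exact fl2_inf hsqr h2 hC hP hK r₁' r₂' x₁ x₂ d₁' d₂'
  exact fl2_last hsqr h2 hC hJ hP hPJ hOne (t_mcomp F P)
    (algebraMap (RatFunc F) ((plv P).adicCompletion (RatFunc F))) (fun x => rfl) r₁' r₂' x₁ x₂ d₁' d₂' n₁' n₂'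
    (fl2_Iso3_map _ hq)

end Pool.Agent.H456.PR
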