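import Pool.Agent.H456.PR.Stm
import Pool.Agent.H456.PP.All

/-!
(fln) `D = DJ J ≠ 0`, `g_D = (f.sc D).map (toK F)`, `g_D.disc = D⁶ disc f ≠ 0` (`f.disc ≠ 0` by `GoodF.sqf` and `infinite_Pl`); `Finite (Sel g_D)`: `finite_Sel hypU_all h2` (BQ/SUp.lean, BQ/SAll.lean). `NT ∅ (f.sc D) = Nat.card (Sel g_D)` (`Nat.card_congr`, trivial condition), so `S_pw2` gives the power of two. `DJ (insert P J) = P * DJ J`. BRIDGE: pairs of `g_D` are `(D s.1, D s.2)` for the pairs `s` of `fK = f.map (toK F)`: `(g.smul D).res = g.res.sc D`, `((fK.sc 4).tr ρ).sc D = ((fK.sc D).sc 4).tr (D ρ)`; `IsSel g_D (D s) ↔ s.1.res = (fK.sc 4).tr s.2 ∧ IsD D s`; `PE M (D s) (D s') ↔ PE M s s'`;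
`Rt P (D s) ↔ Rt P s`; every pair of `g_D` is of this form (divide by `D`). So `NT T' (f.sc D)` is the number of the `PE`-classes of the pairs `s` of `fK` with `IsD D s` and `∀ P ∈ T', Rt P s` (`Rt` is `PE`-invariant). (i) for `P ∈ T'`: by `S_fl1` the sets of pairs for `D` and `D P` are the same: the last claim. (ii) `S_lu` with the model of Mathlib at `P` (`t_mcomp`), the cubic `f.map ι` (`OneR π (f.map ι)` from `OneR P.1 f` by `Lc.dvd`, `Lc.dense`) and `ι D` (resp. `ι (D P)`), `¬ π² ∣ ι D` since `P² ∤ D` (resp. `P² ∤ D P`: `P ∤ DJ J` as `P ∉ J`), gives `Uniq2 (g_D.map _)` and `S_grp` gives `NT ∅ (f.sc D) ≤ 2 NT {P} (f.sc D)`, the same for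
`D P`, and `NT {P} (f.sc (D P)) = NT {P} (f.sc D)`. (iii) by `S_fl2` either all the classes of the twist by `D` are trivial at `P`, so `NT ∅ (f.sc D) = NT {P} (f.sc D)`, or all the classes of the twist by `D P` are, `NT ∅ (f.sc (D P)) = NT {P} (f.sc (D P)) = NT {P} (f.sc D)`; with (ii) the sum is `≤ 3 NT {P}`.
-/

set_option autoImplicit false
set_option linter.all false

open Polynomial Finset Filter
open Pool.Agent.H456.EC (toK toK_inj sig toK_eq reflect_toK cls)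
open Pool.Agent.H456.RN
open Pool.Agent.H456.BQ
open Pool.Agent.H456.Coh (TF)
open Pool.Agent.H456.PP (OneR HasRt sx hh Tz Tq Iso3 nr IsoP nrP)

namespace Pool.Agent.H456.PR

section pairs

variable {K : Type} [Field K]

/-- the pair multiplied by `d` -/
def fln_sm (d : K) (s : Q4 K × K) : Q4 K × K := (s.1.smul d, d * s.2)

theorem fln_sm_sm (c d : K) (s : Q4 K × K) : fln_sm c (fln_sm d s) = fln_sm (d * c) s := by
  apply Prod.ext
  · simp only [fln_sm, Q4.smul_smul]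
  · simp only [fln_sm]; ring

theorem fln_sm_one (s : Q4 K × K) : fln_sm 1 s = s := by
  apply Prod.ext
  · simp only [fln_sm, Q4.smul_one]
  · simp only [fln_sm]; ring

theorem fln_PE {d : K} (hd : d ≠ 0) {M : M2 K} {s s' : Q4 K × K} :
    PE M (fln_sm d s) (fln_sm d s') ↔ PE M s s' := by
  constructor
  · intro h
    refine ⟨h.det, ?_, ?_⟩
    · apply Q4.smul_cancel hd
      have h1 := h.sub
      simp only [fln_sm] at h1
      rw [Q4.smul_sub, Q4.smul_smul, mul_comm, ← Q4.smul_smul] at h1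
      exact h1
    · have h1 := h.tau
      simp only [fln_sm] at h1
      rw [Q4.tau_smul] at h1
      apply mul_left_cancel₀ hd
      linear_combination h1
  · intro h
    refine ⟨h.det, ?_, ?_⟩
    · simp only [fln_sm]
      rw [Q4.smul_sub, h.sub, Q4.smul_smul, Q4.smul_smul, mul_comm]
    · simp only [fln_sm]
      rw [Q4.tau_smul, h.tau]
      ring

theorem fln_res {d : K} (hd : d ≠ 0) (f : Cub K) (s : Q4 K × K) :
    (fln_sm d s).1.res = ((f.sc d).sc 4).tr (fln_sm d s).2 ↔ s.1.res = (f.sc 4).tr s.2 := by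
  have e : ((f.sc d).sc 4).tr (fln_sm d s).2 = ((f.sc 4).tr s.2).sc d := by
    simp only [fln_sm]
    rw [Cub.sc_tr, Cub.sc_sc, Cub.sc_sc, mul_comm d 4]
  rw [e]
  simp only [fln_sm]
  rw [Q4.res_smul]
  exact ⟨fun h => Cub.sc_inj hd h, fun h => by rw [h]⟩

theorem fln_HasRt {L : Type} [Field L] {d : L} (hd : d ≠ 0) (g : Q4 L) : HasRt (g.smul d) ↔ HasRt g := by
  constructor
  · rintro ⟨u, v, huv, h⟩
    refine ⟨u, v, huv, ?_⟩
    rw [Q4.ev_smul] at h
    exact (mul_eq_zero.1 h).resolve_left hd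
  · rintro ⟨u, v, huv, h⟩
    refine ⟨u, v, huv, ?_⟩
    rw [Q4.ev_smul, h, mul_zero]

theorem fln_NR {L : Type} [Field L] (g : Q4 L) : HasRt g ↔ ¬ g.NR := by
  constructor
  · rintro ⟨u, v, huv, h⟩ hn
    exact hn u v huv h
  · intro h
    by_contra h1
    apply h
    intro u v huv h2
    exact h1 ⟨u, v, huv, h2⟩

end pairs

section glob

variable {F : Type} [Field F]

theorem fln_Rt_sm {P : Pl F} {d : RatFunc F} (hd : d ≠ 0) (s : Q4 (RatFunc F) × RatFunc F) :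
    Rt P (fln_sm d s) ↔ Rt P s := by
  unfold Rt
  simp only [fln_sm]
  rw [Q4.map_smul]
  apply fln_HasRt
  exact (map_ne_zero_iff _ (algebraMap (RatFunc F) ((plv P).adicCompletion (RatFunc F))).injective).2 hd

theorem fln_Rt_pe {P : Pl F} {M : M2 (RatFunc F)} {s s' : Q4 (RatFunc F) × RatFunc F} (h : PE M s s') :
    Rt P s → Rt P s' := by
  unfold Rt
  intro h1
  rw [fln_NR] at h1 ⊢
  intro h2
  apply h1
  have hi := (algebraMap (RatFunc F) ((plv P).adicCompletion (RatFunc F))).injective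
  have h3 := h.symm
  refine h2.of_sub (M := M.adj.map (algebraMap (RatFunc F) ((plv P).adicCompletion (RatFunc F))))
    (c := algebraMap (RatFunc F) ((plv P).adicCompletion (RatFunc F)) M.adj.det) ?_ ?_ ?_
  · rw [M2.map_det]; exact (map_ne_zero_iff _ hi).2 h3.det
  · exact (map_ne_zero_iff _ hi).2 h3.det
  · rw [← Q4.map_sub, h3.sub, Q4.map_smul, map_pow]

theorem fln_IsSel {D : F[X]} (hD : D ≠ 0) (f : Cub F[X]) (s : Q4 (RatFunc F) × RatFunc F) :
    IsSel ((f.sc D).map (toK F)) (fln_sm (toK F D) s) ↔ s.1.res = ((f.map (toK F)).sc 4).tr s.2 ∧ IsD D s := by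
  have hd : toK F D ≠ 0 := (map_ne_zero_iff _ toK_inj).2 hD
  constructor
  · intro h
    refine ⟨?_, h.fin, h.inf⟩
    have h1 := h.res
    rw [Cub.map_sc] at h1
    exact (fln_res hd _ _).1 h1
  · rintro ⟨h1, h2, h3⟩
    refine ⟨?_, h2, h3⟩
    rw [Cub.map_sc]
    exact (fln_res hd _ _).2 h1

/-- the classes in terms of the pairs -/
theorem fln_rep {T : Finset (Pl F)} {D : F[X]} (hD : D ≠ 0) (f : Cub F[X])
    (σ : {σ : Sel ((f.sc D).map (toK F)) // ∀ P ∈ T, Tr P σ}) :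
    ∃ (s : Q4 (RatFunc F) × RatFunc F) (h : IsSel ((f.sc D).map (toK F)) (fln_sm (toK F D) s)),
      σ.1 = selMk _ (fln_sm (toK F D) s) h ∧ ∀ P ∈ T, Rt P s := by
  have hd : toK F D ≠ 0 := (map_ne_zero_iff _ toK_inj).2 hD
  obtain ⟨σ, hσ⟩ := σ
  obtain ⟨t, ht, rfl⟩ := sel_ind σ
  have e : fln_sm (toK F D) (fln_sm (toK F D)⁻¹ t) = t := by
    rw [fln_sm_sm, inv_mul_cancel₀ hd, fln_sm_one]
  refine ⟨fln_sm (toK F D)⁻¹ t, by rw [e]; exact ht, ?_, ?_⟩
  · simp only [e]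
  · intro P hP
    rw [fln_Rt_sm (inv_ne_zero hd)]
    obtain ⟨s, h, h1, h2⟩ := hσ P hP
    obtain ⟨M, hM⟩ := selMk_eq.1 h1.symm
    exact fln_Rt_pe hM h2

theorem fln_le {T₁ T₂ : Finset (Pl F)} {D₁ D₂ : F[X]} (hD₁ : D₁ ≠ 0) (hD₂ : D₂ ≠ 0) (f : Cub F[X])
    [Finite (Sel ((f.sc D₂).map (toK F)))]
    (H : ∀ s : Q4 (RatFunc F) × RatFunc F, s.1.res = ((f.map (toK F)).sc 4).tr s.2 → IsD D₁ s → (∀ P ∈ T₁, Rt P s) →
      IsD D₂ s ∧ ∀ P ∈ T₂, Rt P s) : NT T₁ (f.sc D₁) ≤ NT T₂ (f.sc D₂) := by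
  have hd₁ : toK F D₁ ≠ 0 := (map_ne_zero_iff _ toK_inj).2 hD₁
  have hd₂ : toK F D₂ ≠ 0 := (map_ne_zero_iff _ toK_inj).2 hD₂
  have key : ∀ σ : {σ : Sel ((f.sc D₁).map (toK F)) // ∀ P ∈ T₁, Tr P σ},
      ∃ (τ : {σ : Sel ((f.sc D₂).map (toK F)) // ∀ P ∈ T₂, Tr P σ}) (s : Q4 (RatFunc F) × RatFunc F)
        (h : IsSel ((f.sc D₁).map (toK F)) (fln_sm (toK F D₁) s))
        (h' : IsSel ((f.sc D₂).map (toK F)) (fln_sm (toK F D₂) s)),
        σ.1 = selMk _ (fln_sm (toK F D₁) s) h ∧ τ.1 = selMk _ (fln_sm (toK F D₂) s) h' := by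
    intro σ
    obtain ⟨s, h, h1, h2⟩ := fln_rep hD₁ f σ
    have h3 := (fln_IsSel hD₁ f s).1 h
    have h4 := H s h3.1 h3.2 h2
    have h' := (fln_IsSel hD₂ f s).2 ⟨h3.1, h4.1⟩
    refine ⟨⟨selMk _ (fln_sm (toK F D₂) s) h', ?_⟩, s, h, h', h1, rfl⟩
    intro P hP
    exact ⟨_, h', rfl, (fln_Rt_sm hd₂ s).2 (h4.2 P hP)⟩
  choose φ s h h' e e' using key
  unfold NT
  apply Nat.card_le_card_of_injective φ
  intro σ τ hst
  apply Subtype.ext
  rw [e σ, e τ]
  have h1 := congrArg Subtype.val hst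
  rw [e' σ, e' τ] at h1
  obtain ⟨M, hM⟩ := selMk_eq.1 h1
  exact selMk_eq.2 ⟨M, (fln_PE hd₁).2 ((fln_PE hd₂).1 hM)⟩

theorem fln_empty (g : Cub F[X]) : NT ∅ g = Nat.card (Sel (g.map (toK F))) := by
  unfold NT
  exact Nat.card_congr (Equiv.subtypeUnivEquiv (fun σ P hP => absurd hP (notMem_empty P)))

theorem fln_single (P : Pl F) (g : Cub F[X]) : Nat.card {σ : Sel (g.map (toK F)) // Tr P σ} = NT {P} g := by
  unfold NT
  apply Nat.card_congr
  apply Equiv.subtypeEquivRight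
  intro σ
  simp only [mem_singleton, forall_eq]

theorem fln_DJ_ne (J : Finset (Pl F)) : DJ J ≠ 0 := by
  unfold DJ
  exact prod_ne_zero_iff.2 (fun P _ => P.2.2.ne_zero)

theorem fln_dvd {J : Finset (Pl F)} {P : Pl F} (hP : P ∉ J) : ¬ P.1 ∣ DJ J := by
  unfold DJ
  intro h
  obtain ⟨Q, hQ, hd⟩ := (Prime.dvd_finset_prod_iff P.2.2.prime _).1 h
  have h1 := (P.2.2.associated_of_dvd Q.2.2 hd)
  have h2 := eq_of_monic_of_associated P.2.1 Q.2.1 h1
  apply hP
  rw [Subtype.ext h2]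
  exact hQ

theorem fln_one {P : F[X]} {O : Type} [CommRing O] {π : O} {ι : F[X] →+* O} (hL : Lc P π ι) {f : Cub F[X]}
    (h : OneR P f) : OneR π (f.map ι) := by
  have hd : ∀ x : F[X], π ∣ ι x ↔ P ∣ x := by
    intro x
    have := hL.dvd 1 x
    rwa [pow_one, pow_one] at this
  have hev : ∀ (g : Cub O) (r r' : O), π ∣ r - r' → (π ∣ g.ev r ↔ π ∣ g.ev r') := by
    intro g r r' h1
    have h3 : π ∣ g.ev r - g.ev r' := by
      have e : g.ev r - g.ev r' = (r - r') * (r ^ 2 + r * r' + r' ^ 2 + g.a * (r + r') + g.b) := by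
        simp only [Cub.ev]; ring
      rw [e]
      exact h1.mul_right _
    constructor
    · intro h4
      have := dvd_sub h4 h3
      rwa [sub_sub_cancel] at this
    · intro h4
      have := dvd_add h3 h4
      rwa [sub_add_cancel] at this
  obtain ⟨h1, ⟨r, hr⟩, h3⟩ := h
  refine ⟨?_, ⟨ι r, ?_⟩, ?_⟩
  · rw [Cub.map_disc, hd]; exact h1
  · rw [Cub.map_ev, hd]; exact hr
  · intro x x' hx hx'
    obtain ⟨y, hy⟩ := hL.dense 1 x
    obtain ⟨y', hy'⟩ := hL.dense 1 x'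
    rw [pow_one] at hy hy'
    have k1 := (hev _ _ _ hy).1 hx
    have k2 := (hev _ _ _ hy').1 hx'
    rw [Cub.map_ev, hd] at k1 k2
    have k3 := (hd _).2 (h3 _ _ k1 k2)
    rw [map_sub] at k3
    have k4 := dvd_sub (dvd_add hy k3) hy'
    have e : x - ι y + (ι y - ι y') - (x' - ι y') = x - x' := by ring
    rwa [e] at k4

variable [Fintype F]

theorem fln_uniq (hlu : S_lu) (h2 : (2 : F) ≠ 0) {P : Pl F} {f : Cub F[X]} (h : OneR P.1 f) {D : F[X]}
    (hD : ¬ P.1 ^ 2 ∣ D) :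
    Uniq2 (((f.sc D).map (toK F)).map (algebraMap (RatFunc F) ((plv P).adicCompletion (RatFunc F)))) := by
  have hL := t_mcomp F P
  have h1 := hlu F h2 P ((plv P).adicCompletionIntegers (RatFunc F)) ((plv P).adicCompletion (RatFunc F)) _ _ hL
    (f.map (algebraMap F[X] ((plv P).adicCompletionIntegers (RatFunc F)))) (fln_one hL.toLc h)
    (algebraMap F[X] ((plv P).adicCompletionIntegers (RatFunc F)) D) (by rw [hL.dvd]; exact hD)
  have e : ((f.sc D).map (toK F)).map (algebraMap (RatFunc F) ((plv P).adicCompletion (RatFunc F))) =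
      ((f.map (algebraMap F[X] ((plv P).adicCompletionIntegers (RatFunc F)))).sc
        (algebraMap F[X] ((plv P).adicCompletionIntegers (RatFunc F)) D)).map
          (algebraMap ((plv P).adicCompletionIntegers (RatFunc F)) ((plv P).adicCompletion (RatFunc F))) := by
    rw [← Cub.map_sc]
    rfl
  rw [e]
  exact h1

theorem fln_disc {T : Finset (Pl F)} {D₀ : ℕ} {f : Cub F[X]} (hf : GoodF T D₀ f) : f.disc ≠ 0 := by
  intro h0
  have hi := infinite_Pl (F := F)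
  have hex : ∃ P : Pl F, D₀ < P.1.natDegree := by
    by_contra h
    push Not at h
    have hfin : Finite (Pl F) :=
      Finite.of_injective (fun P : Pl F => (⟨P.1, mem_PL_iff.2 (h P)⟩ : {x // x ∈ PL F (D₀ + 1)})) (by
        intro P Q hPQ
        exact Subtype.ext (congrArg (fun x : {x // x ∈ PL F (D₀ + 1)} => x.1) hPQ))
    exact not_finite (Pl F)
  obtain ⟨P, hP⟩ := hex
  apply hf.sqf P hP
  rw [h0]
  exact dvd_zero _

end glob

theorem t_fln : S_fl1 → S_fl2 → S_lu → S_grp → S_pw2 → S_fln := by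
  classical
  intro hfl1 hfl2 hlu hgrp hpw2 F _ _ h2 T D₀ hT f hf J hJ
  have hdf := fln_disc hf
  have hfin : ∀ D : F[X], D ≠ 0 → Finite (Sel ((f.sc D).map (toK F))) := by
    intro D hD
    apply finite_Sel hypU_all h2
    rw [Cub.disc_sc]
    exact mul_ne_zero (pow_ne_zero _ hD) hdf
  have hdK : ∀ D : F[X], D ≠ 0 → ((f.sc D).map (toK F)).disc ≠ 0 := by
    intro D hD
    apply disc_ne
    rw [Cub.disc_sc]
    exact mul_ne_zero (pow_ne_zero _ hD) hdf
  have hD := fln_DJ_ne J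
  refine ⟨hfin _ hD, ?_, ?_⟩
  · rw [fln_empty]
    exact hpw2 F h2 _ (hdK _ hD) (hfin _ hD)
  intro P hP hPJ h1
  have hDP : DJ (insert P J) = DJ J * P.1 := by
    unfold DJ
    rw [prod_insert hPJ, mul_comm]
  have hD' : DJ J * P.1 ≠ 0 := mul_ne_zero hD P.2.2.ne_zero
  rw [hDP]
  have F1 := hfin _ hD
  have F2 := hfin _ hD'
  have hiff := hfl1 F h2 T D₀ hT f hf J hJ P hP hPJ
  have key : ∀ T' : Finset (Pl F), P ∈ T' → NT T' (f.sc (DJ J)) = NT T' (f.sc (DJ J * P.1)) := by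
    intro T' hT'
    apply le_antisymm
    · apply fln_le hD hD'
      intro s hs hI hr
      exact ⟨(hiff s hs (hr P hT')).1 hI, hr⟩
    · apply fln_le hD' hD
      intro s hs hI hr
      exact ⟨(hiff s hs (hr P hT')).2 hI, hr⟩
  have hndvd : ¬ P.1 ∣ DJ J := fln_dvd hPJ
  have n1 : ¬ P.1 ^ 2 ∣ DJ J := fun h => hndvd ((dvd_pow_self _ two_ne_zero).trans h)
  have n2 : ¬ P.1 ^ 2 ∣ DJ J * P.1 := by
    intro h
    rw [pow_two] at h
    exact hndvd ((mul_dvd_mul_iff_right P.2.2.ne_zero).1 h)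
  have g1 : NT ∅ (f.sc (DJ J)) ≤ 2 * NT {P} (f.sc (DJ J)) := by
    rw [fln_empty, ← fln_single]
    exact hgrp F h2 P _ (hdK _ hD) F1 (fln_uniq hlu h2 h1 n1)
  have g2 : NT ∅ (f.sc (DJ J * P.1)) ≤ 2 * NT {P} (f.sc (DJ J)) := by
    rw [key {P} (mem_singleton_self P), fln_empty, ← fln_single]
    exact hgrp F h2 P _ (hdK _ hD') F2 (fln_uniq hlu h2 h1 n2)
  refine ⟨?_, g1, g2, key⟩
  by_cases hex : ∃ s : Q4 (RatFunc F) × RatFunc F, s.1.res = ((f.map (toK F)).sc 4).tr s.2 ∧ IsD (DJ J) s ∧ ¬ Rt P s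
  · obtain ⟨s₁, a1, a2, a3⟩ := hex
    have g3 : NT ∅ (f.sc (DJ J * P.1)) ≤ NT {P} (f.sc (DJ J)) := by
      apply fln_le hD' hD
      intro s hs hI _
      have hr : Rt P s := by
        by_contra hr
        exact hfl2 F h2 T D₀ hT f hf J hJ P hP hPJ h1 s₁ s a1 hs a2 a3 hI hr
      refine ⟨(hiff s hs hr).2 hI, ?_⟩
      intro Q hQ
      rw [mem_singleton.1 hQ]
      exact hr
    omega
  · push Not at hex
    have g3 : NT ∅ (f.sc (DJ J)) ≤ NT {P} (f.sc (DJ J)) := by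
      apply fln_le hD hD
      intro s hs hI _
      refine ⟨hI, ?_⟩
      intro Q hQ
      rw [mem_singleton.1 hQ]
      exact hex s hs hI
    omega

end Pool.Agent.H456.PR
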