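import Pool.Agent.H456.PR.Stm
import Pool.Agent.H456.Coh.All

/-!
(grp) Use Coh/Asm.lean: `exists_pair`, `exists_cocycle`, `isCoc`, with `H = hypC_all` (Coh/All.lean): the pairs with `IsSel g s` correspond to the cocycles in the GROUP `selCocycles (crv g) (torsionPts (crv g) 2)`. `Rt P` is invariant under `PE` (over `K`): so for `σ = selMk g s h`: `Tr P σ ↔ Rt P s`. If all classes are trivial at `P` the claim is clear. Otherwise fix `σ₀ = selMk g s₀ h₀` with `¬ Rt P s₀` and a cocycle `c₀` with `Assoc g c₀ s₀`. For a class `σ` with `¬ Tr P σ`, `σ = selMk g s h`, `Assoc g c s`, put `c' = c - c₀ ∈ selCocycles`, `s'` a pair with `IsSel g s'`, `Assoc g c' s'` (`exists_pair`), `φ σ = selMk g s' _`.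
CLAIM 1: `φ` is injective: if the pairs `s', t'` of `c - c₀` and `d - c₀` are equivalent then by `S_coh1` the cocycles are cohomologous, so `c` and `d` are, so by `S_coh2` the pairs are equivalent. CLAIM 2: `Rt P s'`. Then `#{¬ Tr} ≤ #{Tr}` and `Nat.card (Sel g) ≤ 2 #{Tr}` (`Finite (Sel g)`). Proof of claim 2: let `Kv` be the completion, `ι : SeparableClosure K →ₐ[K] SeparableClosure Kv` (exists: `IsSepClosed.lift` or `SeparableClosure` maps; see how Coh/T_loc.lean, Coh/T_iso.lean, Coh/T_coord.lean obtain and use `ι`; `Algebra K (SeparableClosure Kv)`), for `σ : Gal Kv` let `τ(σ) : Gal K` be the restriction: `ι (τ x) = σ (ι x)` (`ι` has normal image; existence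
and multiplicativity of `τ`: see Coh/T_iso.lean / T_coord.lean, it may be there). For a cocycle `c` over `K` let `c_v(σ) = Point.map ι (c (τ σ))`, as a point over `SeparableClosure Kv` of `crv (g.map (algebraMap K Kv))` (identify `Pt (crv g) (SeparableClosure Kv)` and `Pt (crv (g.map _)) (SeparableClosure Kv)`; the curves over the separable closure are the same up to `map_map`; if the identification is awkward work with coordinates (points of order two are `0` or `(x, y)`) and with the matrices `mT (c σ)`). (a) `c_v` is a continuous cocycle (`IsCoc (g.map _) c_v`; continuity: `c` is locally constant, the restriction map is continuous). (b) `Assoc g c s → Assoc (g.map _) c_v (s.map _)`: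
map the matrix by `ι`. (c) `(c - c₀)_v = c_v - c₀_v`. The pairs `s, s₀` over `Kv` are soluble (`LS_iff`, BQ/SLoc.lean) and have no roots, so by `Uniq2` they are equivalent, so by `S_coh1` over `Kv` there is `T` with `2T = 0`, `c_v - c₀_v = σT - T`. The pair `zp` is associated with the zero cocycle (`M = 1`, `mT 0 = 1`), so by `S_coh2` over `Kv` applied to the cocycles `0` and `(c-c₀)_v` the pairs `zp` and `s'.map` are equivalent, so `s'.map` has a root. (The use of `LocTriv`-like statements may help: `S_coh2` can be replaced by a direct descent.)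
-/

set_option autoImplicit false
set_option linter.all false

open Polynomial Finset Filter
open Pool.Agent.H456.EC (toK toK_inj sig toK_eq reflect_toK cls)
open Pool.Agent.H456.RN
open Pool.Agent.H456.BQ
open Pool.Agent.H456.Coh (TF)
open Pool.Agent.H456.PP (OneR HasRt sx hh Tz Tq Iso3 nr IsoP nrP)

namespace Pool.Agent.H456.PR

section grp

open WeierstrassCurve
open Pool.Agent.H456.Coh (Gal Pt mT mapP fL IsCoc Assoc selCocycles torsionPts)
open Pool.Agent.H456.Coh (coh_sim coh_refl coh_mPE coh_mstab coh_mmul coh_minj coh_cancel)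
open Pool.Agent.H456.Coh (coh_mul_diag coh_scal_one coh_adj_mul' coh_rat coh_PE_map coh_PE_of_map)
open Pool.Agent.H456.Coh (loc_PE_map loc_zp_map loc_mapP_map loc_conj loc_restr loc_mT_map)
open Pool.Agent.H456.Coh (hypC_all a_mmul t_mstab isCoc exists_pair exists_cocycle sel_disc)

/-- the pair over the closure -/
theorem grp_mapP {K Kv : Type} [Field K] [Field Kv] [Algebra K Kv] (s : Q4 K × K) :
    mapP (SeparableClosure Kv) (mapP Kv s) = mapP (SeparableClosure Kv) s := by
  simp only [mapP, Q4.map, IsScalarTower.algebraMap_apply K Kv (SeparableClosure Kv)]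

/-- the pair of the zero class over the closure -/
theorem grp_zp {K Kv : Type} [Field K] [Field Kv] [Algebra K Kv] (f : Cub K) :
    mapP (SeparableClosure Kv) (zp (fL f Kv)) = zp (fL f (SeparableClosure Kv)) := by
  simp [mapP, zp, Q4.map, Cub.map, map_ofNat, IsScalarTower.algebraMap_apply K Kv (SeparableClosure Kv)]

open Classical in
/-- Claim 2: the pair of the difference of the cocycles has a root over the completion. -/
theorem grp_root {K Kv : Type} [Field K] [Field Kv] [Algebra K Kv] (h2 : (2 : K) ≠ 0) {f : Cub K}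
    (hf : f.disc ≠ 0) {c c₀ c' : Gal K → Pt (crv f) (SeparableClosure K)} (hc : IsCoc f c)
    (hc₀ : IsCoc f c₀) (hc' : IsCoc f c') (hcc : ∀ τ, c' τ = c τ - c₀ τ) {s s₀ s' : Q4 K × K}
    (hs : Assoc f c s) (hs₀ : Assoc f c₀ s₀) (hs' : Assoc f c' s')
    (hN : ∃ N : M2 Kv, PE N (mapP Kv s₀) (mapP Kv s)) : HasRt (s'.1.map (algebraMap K Kv)) := by
  obtain ⟨N, hN⟩ := hN
  obtain ⟨M, hM, hM2⟩ := hs
  obtain ⟨M₀, hM₀, hM₀2⟩ := hs₀
  obtain ⟨M', hM', hM'2⟩ := hs'
  have ι : SeparableClosure K →ₐ[K] SeparableClosure Kv := IsSepClosed.lift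
  have hPE := loc_PE_map (ι : SeparableClosure K →+* SeparableClosure Kv) hM
  rw [loc_zp_map, loc_mapP_map] at hPE
  have hPE₀ := loc_PE_map (ι : SeparableClosure K →+* SeparableClosure Kv) hM₀
  rw [loc_zp_map, loc_mapP_map] at hPE₀
  have hPE' := loc_PE_map (ι : SeparableClosure K →+* SeparableClosure Kv) hM'
  rw [loc_zp_map, loc_mapP_map] at hPE'
  have hNb := coh_PE_map (L := SeparableClosure Kv) hN
  rw [grp_mapP, grp_mapP] at hNb
  set Mv := M.map (ι : SeparableClosure K →+* SeparableClosure Kv) with hMv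
  set Mv₀ := M₀.map (ι : SeparableClosure K →+* SeparableClosure Kv) with hMv₀
  set Mv' := M'.map (ι : SeparableClosure K →+* SeparableClosure Kv) with hMv'
  set Nb := N.map (algebraMap Kv (SeparableClosure Kv)) with hNbd
  have hz := (hPE₀.trans hNb).trans hPE.symm
  obtain ⟨T, hT, hsim⟩ := coh_mstab t_mstab.2 h2 hf hz
  have s1 : coh_sim (Mv₀.mul Nb) ((mT T).mul Mv) := by
    have a2 := hsim.mul (coh_refl Mv)
    rw [M2.mul_assoc] at a2
    have a3 := ((coh_refl (Mv₀.mul Nb)).mul (coh_adj_mul' hPE.det)).symm.trans a2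
    rw [coh_mul_diag, coh_scal_one] at a3
    exact a3
  have hιT : ∀ (e : Gal K → Pt (crv f) (SeparableClosure K)), IsCoc f e → ∀ τ,
      2 • (Affine.Point.map ι (e τ) : Pt (crv f) (SeparableClosure Kv)) = 0 := by
    intro e he τ
    rw [← map_nsmul, he.tors τ, map_zero]
  -- the conjugates of the matrices
  have hconj : ∀ (e : Gal K → Pt (crv f) (SeparableClosure K)) (m : M2 (SeparableClosure K)),
      (∀ σ : Gal K, ∃ k : SeparableClosure K, k ≠ 0 ∧
        m.map (σ.toAlgHom : SeparableClosure K →+* SeparableClosure K) = ((mT (e σ)).mul m).scal k) →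
      ∀ (σ : Gal Kv) (τ : Gal K), (∀ x, ι (τ x) = σ (ι x)) →
        coh_sim ((m.map (ι : SeparableClosure K →+* SeparableClosure Kv)).map
          ((σ.toAlgHom.restrictScalars K : SeparableClosure Kv →ₐ[K] SeparableClosure Kv) :
            SeparableClosure Kv →+* SeparableClosure Kv))
          ((mT (Affine.Point.map ι (e τ) : Pt (crv f) (SeparableClosure Kv))).mul
            (m.map (ι : SeparableClosure K →+* SeparableClosure Kv))) := by
    intro e m hm σ τ hστ
    obtain ⟨k, hk, ek⟩ := loc_conj hm ι σ τ hστ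
    rw [loc_mT_map] at ek
    exact ⟨k, hk, ek⟩
  have key : ∀ (σ : Gal Kv) (τ : Gal K), (∀ x, ι (τ x) = σ (ι x)) →
      (Affine.Point.map ι (c' τ) : Pt (crv f) (SeparableClosure Kv)) =
        T - Affine.Point.map (σ.toAlgHom.restrictScalars K) T := by
    intro σ τ hστ
    have b2 := hconj c M hM2 σ τ hστ
    have b3 := hconj c₀ M₀ hM₀2 σ τ hστ
    set σ' : SeparableClosure Kv →ₐ[K] SeparableClosure Kv := σ.toAlgHom.restrictScalars K with hσ'
    rw [← hMv] at b2
    rw [← hMv₀] at b3
    have bN : Nb.map (σ' : SeparableClosure Kv →+* SeparableClosure Kv) = Nb := by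
      exact M2.ext (σ.commutes N.α) (σ.commutes N.β) (σ.commutes N.γ) (σ.commutes N.δ)
    have b1 := s1.map (σ' : SeparableClosure Kv →+* SeparableClosure Kv)
    rw [M2.map_mul, M2.map_mul, bN, loc_mT_map] at b1
    have hσT : 2 • (Affine.Point.map σ' T : Pt (crv f) (SeparableClosure Kv)) = 0 := by
      rw [← map_nsmul, hT, map_zero]
    have c1 : coh_sim ((mT (Affine.Point.map ι (c₀ τ) : Pt (crv f) (SeparableClosure Kv))).mul (mT T))
        (mT (Affine.Point.map ι (c₀ τ) + T)) := coh_mmul a_mmul.1 h2 hf (hιT c₀ hc₀ τ) hT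
    have c2 : coh_sim ((mT (Affine.Point.map σ' T : Pt (crv f) (SeparableClosure Kv))).mul
        (mT (Affine.Point.map ι (c τ)))) (mT (Affine.Point.map σ' T + Affine.Point.map ι (c τ))) :=
      coh_mmul a_mmul.1 h2 hf hσT (hιT c hc τ)
    have b4 : coh_sim ((mT (Affine.Point.map ι (c₀ τ) + T)).mul Mv)
        ((mT (Affine.Point.map σ' T + Affine.Point.map ι (c τ))).mul Mv) := by
      have d3 := (c1.mul (coh_refl Mv)).symm
      rw [M2.mul_assoc] at d3
      have d4 := d3.trans ((coh_refl (mT (Affine.Point.map ι (c₀ τ) :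
        Pt (crv f) (SeparableClosure Kv)))).mul s1.symm)
      rw [← M2.mul_assoc] at d4
      have d5 := d4.trans ((b3.symm.mul (coh_refl Nb)).trans b1)
      have d6 := d5.trans ((coh_refl _).mul b2)
      rw [← M2.mul_assoc] at d6
      exact d6.trans (c2.mul (coh_refl Mv))
    have e3 := coh_minj a_mmul.2 h2 hf (by rw [smul_add, hιT c₀ hc₀, hT, add_zero])
      (by rw [smul_add, hιT c hc, hσT, add_zero]) (coh_cancel hPE.det b4)
    have e4 : (Affine.Point.map ι (c' τ) : Pt (crv f) (SeparableClosure Kv)) =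
        Affine.Point.map ι (c τ) - Affine.Point.map ι (c₀ τ) := by
      rw [hcc, map_sub]
    rw [e4, sub_eq_sub_iff_add_eq_add, add_comm (Affine.Point.map ι (c τ)) (Affine.Point.map σ' T), ← e3]
    abel
  -- the matrix `mT T * M'` is rational up to a scalar
  set R := (mT T).mul Mv' with hR
  have hRP : PE R (zp (fL f (SeparableClosure Kv))) (mapP (SeparableClosure Kv) s') :=
    (coh_mPE t_mstab.1 h2 hf hT).trans hPE'
  have hfix : ∀ σ : Gal Kv, coh_sim (R.map (σ.toAlgHom : SeparableClosure Kv →+* SeparableClosure Kv)) R := by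
    intro σ
    obtain ⟨τ, hστ⟩ := loc_restr ι σ
    have b3 := hconj c' M' hM'2 σ τ hστ
    have hk := key σ τ hστ
    set σ' : SeparableClosure Kv →ₐ[K] SeparableClosure Kv := σ.toAlgHom.restrictScalars K with hσ'
    rw [← hMv'] at b3
    have hσT : 2 • (Affine.Point.map σ' T : Pt (crv f) (SeparableClosure Kv)) = 0 := by
      rw [← map_nsmul, hT, map_zero]
    have e1 : R.map (σ.toAlgHom : SeparableClosure Kv →+* SeparableClosure Kv) =
        (mT (Affine.Point.map σ' T : Pt (crv f) (SeparableClosure Kv))).mul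
          (Mv'.map (σ' : SeparableClosure Kv →+* SeparableClosure Kv)) := by
      have e2 : R.map (σ.toAlgHom : SeparableClosure Kv →+* SeparableClosure Kv) =
          R.map (σ' : SeparableClosure Kv →+* SeparableClosure Kv) := rfl
      rw [e2, hR, M2.map_mul, loc_mT_map]
    have c2 : coh_sim ((mT (Affine.Point.map σ' T : Pt (crv f) (SeparableClosure Kv))).mul
        (mT (Affine.Point.map ι (c' τ)))) (mT (Affine.Point.map σ' T + Affine.Point.map ι (c' τ))) :=
      coh_mmul a_mmul.1 h2 hf hσT (hιT c' hc' τ)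
    have e5 : Affine.Point.map σ' T + (Affine.Point.map ι (c' τ) : Pt (crv f) (SeparableClosure Kv)) = T := by
      rw [hk]
      abel
    rw [e5] at c2
    rw [e1]
    have d1 := (coh_refl (mT (Affine.Point.map σ' T : Pt (crv f) (SeparableClosure Kv)))).mul b3
    rw [← M2.mul_assoc] at d1
    exact d1.trans (c2.mul (coh_refl Mv'))
  obtain ⟨N₀, l, hl, e⟩ := coh_rat R hRP.det hfix
  have e2 : N₀.map (algebraMap Kv (SeparableClosure Kv)) = R.scal l⁻¹ := by
    rw [e, M2.scal_scal, mul_inv_cancel₀ hl, coh_scal_one]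
  have h3 : PE (N₀.map (algebraMap Kv (SeparableClosure Kv))) (mapP (SeparableClosure Kv) (zp (fL f Kv)))
      (mapP (SeparableClosure Kv) (mapP Kv s')) := by
    rw [grp_zp, grp_mapP, e2]
    exact hRP.scal (inv_ne_zero hl)
  have h4 : PE N₀ (zp (fL f Kv)) (mapP Kv s') := coh_PE_of_map (L := SeparableClosure Kv) h3
  by_contra hno
  refine zp_root (fL f Kv) (h4.symm.NR ?_)
  intro u v huv h0
  exact hno ⟨u, v, huv, h0⟩

end grp

open Classical in
theorem t_grp : S_grp := by
  intro F _ _ h2 P g hg hfin hU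
  have H := Pool.Agent.H456.Coh.hypC_all
  have h2' : (2 : RatFunc F) ≠ 0 := two_ne h2
  by_cases hall : ∀ σ : Sel g, Tr P σ
  · have h1 : Nat.card {σ : Sel g // Tr P σ} = Nat.card (Sel g) :=
      Nat.card_congr (Equiv.subtypeUnivEquiv hall)
    omega
  push Not at hall
  obtain ⟨σ₀, hσ₀⟩ := hall
  obtain ⟨s₀, hs₀, rfl⟩ := sel_ind σ₀
  have hr₀ : ¬ Rt P s₀ := fun h => hσ₀ ⟨s₀, hs₀, rfl, h⟩
  obtain ⟨c₀, hc₀, hA₀⟩ := Pool.Agent.H456.Coh.exists_cocycle H h2 hg hs₀
  -- the data of a class which is not trivial at `P`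
  have hdat : ∀ σ : {σ : Sel g // ¬ Tr P σ}, ∃ (s : Q4 (RatFunc F) × RatFunc F) (h : IsSel g s)
      (c : Pool.Agent.H456.Coh.Gal (RatFunc F) → Pool.Agent.H456.Coh.Pt (crv g) (SeparableClosure (RatFunc F)))
      (s' : Q4 (RatFunc F) × RatFunc F) (h' : IsSel g s'), σ.1 = selMk g s h ∧
      c ∈ Pool.Agent.H456.Coh.selCocycles (crv g) (Pool.Agent.H456.Coh.torsionPts (crv g) 2) ∧
      Pool.Agent.H456.Coh.Assoc g c s ∧ Pool.Agent.H456.Coh.Assoc g (c - c₀) s' ∧ Tr P (selMk g s' h') := by
    rintro ⟨σ, hσ⟩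
    obtain ⟨s, hs, rfl⟩ := sel_ind σ
    have hr : ¬ Rt P s := fun h => hσ ⟨s, hs, rfl, h⟩
    obtain ⟨c, hc, hA⟩ := Pool.Agent.H456.Coh.exists_cocycle H h2 hg hs
    have hcc := AddSubgroup.sub_mem _ hc hc₀
    obtain ⟨s', hs', hA'⟩ := Pool.Agent.H456.Coh.exists_pair H h2 hg hcc
    refine ⟨s, hs, c, s', hs', rfl, hc, hA, hA', s', hs', rfl, ?_⟩
    refine grp_root h2' hg (Pool.Agent.H456.Coh.isCoc hc) (Pool.Agent.H456.Coh.isCoc hc₀)
      (Pool.Agent.H456.Coh.isCoc hcc) (fun τ => rfl) hA hA₀ hA' ?_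
    have hres : ∀ t : Q4 (RatFunc F) × RatFunc F, IsSel g t →
        (Pool.Agent.H456.Coh.mapP ((plv P).adicCompletion (RatFunc F)) t).1.res =
          ((g.map (algebraMap (RatFunc F) ((plv P).adicCompletion (RatFunc F)))).sc 4).tr
            (Pool.Agent.H456.Coh.mapP ((plv P).adicCompletion (RatFunc F)) t).2 := by
      intro t ht
      have h := congrArg (Cub.map (algebraMap (RatFunc F) ((plv P).adicCompletion (RatFunc F)))) ht.res
      rw [← Q4.map_res, Cub.map_tr, Cub.map_sc, map_ofNat] at h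
      exact h
    have hsol : ∀ t : Q4 (RatFunc F) × RatFunc F, IsSel g t →
        (Pool.Agent.H456.Coh.mapP ((plv P).adicCompletion (RatFunc F)) t).1.Sol := by
      intro t ht
      exact (LS_iff h2 (Pool.Agent.H456.Coh.sel_disc h2 hg ht.res) P).1 (ht.fin P)
    exact hU _ _ (hres s₀ hs₀) (hres s hs) (hsol s₀ hs₀) (hsol s hs) hr₀ hr
  choose s hs c s' hs' h1 h3 h4 h5 h6 using hdat
  have hinj : Function.Injective (fun σ : {σ : Sel g // ¬ Tr P σ} =>
      (⟨selMk g (s' σ) (hs' σ), h6 σ⟩ : {σ : Sel g // Tr P σ})) := by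
    intro σ τ hστ
    have e1 : selMk g (s' σ) (hs' σ) = selMk g (s' τ) (hs' τ) := congrArg Subtype.val hστ
    rw [selMk_eq] at e1
    obtain ⟨T, hT, hTT⟩ := H.coh1 _ h2' g hg (c σ - c₀) (c τ - c₀)
      (Pool.Agent.H456.Coh.isCoc (AddSubgroup.sub_mem _ (h3 σ) hc₀))
      (Pool.Agent.H456.Coh.isCoc (AddSubgroup.sub_mem _ (h3 τ) hc₀)) _ _ (h5 σ) (h5 τ) e1
    have e2 := H.coh2 _ h2' g hg (c σ) (c τ) (Pool.Agent.H456.Coh.isCoc (h3 σ))
      (Pool.Agent.H456.Coh.isCoc (h3 τ)) _ _ (h4 σ) (h4 τ) T hT (fun ρ => by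
        have h := hTT ρ
        simp only [Pi.sub_apply] at h
        have h' : c τ ρ = (c τ ρ - c₀ ρ) + c₀ ρ := by abel
        rw [h', h]
        abel)
    apply Subtype.ext
    rw [h1 σ, h1 τ, selMk_eq]
    exact e2
  have h7 := Nat.card_le_card_of_injective _ hinj
  have h8 := Nat.card_congr (Equiv.sumCompl (fun σ : Sel g => Tr P σ))
  rw [Nat.card_sum] at h8
  omega

end Pool.Agent.H456.PR
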