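import Pool.Agent.H456.PR.Stm

/-!
(hlf) Let `w = a + bθ + cθ²` in `A = L[θ]/(g)`, `w² = x - θ`. The hypothesis for `R = AdjoinRoot p` gives the
three identities `(E0) (E1) (E2)`. With the trace `h`, the second elementary function `s` and the norm `n` of `w`
one has `h² - 2s = Tr (w²) = 3x + g.a`, `s² - 2hn = e₂(w²) = 3x² + 2 g.a x + g.b`, `n² = N (w²) = g(x)`.
Root `(h, 1)` or `(-h, 1)`.
-/

set_option autoImplicit false
set_option linter.all false

open Polynomial Finset Filter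
open Pool.Agent.H456.EC (toK toK_inj sig toK_eq reflect_toK cls)
open Pool.Agent.H456.RN
open Pool.Agent.H456.BQ
open Pool.Agent.H456.Coh (TF)
open Pool.Agent.H456.PP (OneR HasRt sx hh Tz Tq Iso3 nr IsoP nrP)

namespace Pool.Agent.H456.PR

section hlf

variable {L : Type} [Field L]

/-- the trace of `a + bθ + cθ²` -/
def hlf_T (A B C a b c : L) : L := 3 * a - b * A + c * (A ^ 2 - 2 * B)

/-- the second elementary function of `a + bθ + cθ²` -/
def hlf_S (A B C a b c : L) : L :=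
  (a * (a - c * B) + b * c * C) +
  (a * (a - c * B - (b - c * A) * A) + c * (b - c * A) * C) +
  ((a - c * B) * (a - c * B - (b - c * A) * A) - (b - c * A) * (-(c * C) - (b - c * A) * B))

/-- the norm of `a + bθ + cθ²` -/
def hlf_N (A B C a b c : L) : L :=
  a * ((a - c * B) * (a - c * B - (b - c * A) * A) - (b - c * A) * (-(c * C) - (b - c * A) * B))
  - b * (-(c * C) * (a - c * B - (b - c * A) * A) + (b - c * A) * ((b - c * A) * C))
  + c * (-(c * C) * (-(c * C) - (b - c * A) * B) + (a - c * B) * ((b - c * A) * C))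

def hlf_p0 (A B C a b c : L) : L := a ^ 2 - 2 * b * c * C + c ^ 2 * (A * C)
def hlf_p1 (A B C a b c : L) : L := 2 * a * b - 2 * b * c * B + c ^ 2 * (A * B - C)
def hlf_p2 (A B C a b c : L) : L := b ^ 2 + 2 * a * c - 2 * b * c * A + c ^ 2 * (A ^ 2 - B)

theorem hlf_T2 (A B C a b c : L) : hlf_T A B C a b c ^ 2 - 2 * hlf_S A B C a b c =
    hlf_T A B C (hlf_p0 A B C a b c) (hlf_p1 A B C a b c) (hlf_p2 A B C a b c) := by
  simp only [hlf_T, hlf_S, hlf_p0, hlf_p1, hlf_p2]; ring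

theorem hlf_S2 (A B C a b c : L) : hlf_S A B C a b c ^ 2 - 2 * hlf_T A B C a b c * hlf_N A B C a b c =
    hlf_S A B C (hlf_p0 A B C a b c) (hlf_p1 A B C a b c) (hlf_p2 A B C a b c) := by
  simp only [hlf_T, hlf_S, hlf_N, hlf_p0, hlf_p1, hlf_p2]; ring

theorem hlf_N2 (A B C a b c : L) : hlf_N A B C a b c ^ 2 =
    hlf_N A B C (hlf_p0 A B C a b c) (hlf_p1 A B C a b c) (hlf_p2 A B C a b c) := by
  simp only [hlf_N, hlf_p0, hlf_p1, hlf_p2]; ring

/-- the polynomial `X³ + A X² + B X + C` -/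
noncomputable def hlf_P (A B C : L) : L[X] := X ^ 3 + Polynomial.C A * X ^ 2 + Polynomial.C B * X + Polynomial.C C

theorem hlf_monic (A B C : L) : (hlf_P A B C).Monic := by
  unfold hlf_P; monicity!

theorem hlf_deg (A B C : L) : (hlf_P A B C).natDegree = 3 := by
  unfold hlf_P; compute_degree!

theorem hlf_lin {P : L[X]} (hP : P.natDegree = 3) (u v w : L)
    (h : P ∣ Polynomial.C u + Polynomial.C v * X + Polynomial.C w * X ^ 2) : u = 0 ∧ v = 0 ∧ w = 0 := by
  have h5 : Polynomial.C u + Polynomial.C v * X + Polynomial.C w * X ^ 2 = 0 := by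
    by_contra hne
    have h6 := Polynomial.natDegree_le_of_dvd h hne
    rw [hP] at h6
    have h7 : (Polynomial.C u + Polynomial.C v * X + Polynomial.C w * X ^ 2).natDegree ≤ 2 := by
      compute_degree
    omega
  have c0 := congrArg (fun t => Polynomial.coeff t 0) h5
  have c1 := congrArg (fun t => Polynomial.coeff t 1) h5
  have c2 := congrArg (fun t => Polynomial.coeff t 2) h5
  simp [Polynomial.coeff_X, Polynomial.coeff_C, Polynomial.coeff_X_pow] at c0 c1 c2
  exact ⟨c0, c1, c2⟩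

theorem hlf_root (g : Cub L) (P : L[X]) (hP : P = hlf_P g.a g.b g.c) :
    (g.map (algebraMap L (AdjoinRoot P))).ev (AdjoinRoot.root P) = 0 := by
  have h : aeval (AdjoinRoot.root P) (hlf_P g.a g.b g.c) = 0 := by
    rw [AdjoinRoot.aeval_eq, ← hP, AdjoinRoot.mk_self]
  simp only [hlf_P, map_add, map_mul, map_pow, aeval_X, aeval_C] at h
  simpa only [Cub.ev, Cub.map] using h

/-- comparison of the coefficients -/
theorem hlf_coeff {g : Cub L} {p q r : L} (h : SqA g p q r) : ∃ a b c : L,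
    hlf_p0 g.a g.b g.c a b c = p ∧ hlf_p1 g.a g.b g.c a b c = q ∧ hlf_p2 g.a g.b g.c a b c = r := by
  obtain ⟨a, b, c, h⟩ := h
  refine ⟨a, b, c, ?_⟩
  obtain ⟨P, hP⟩ : ∃ P, P = hlf_P g.a g.b g.c := ⟨_, rfl⟩
  have h1 := h (AdjoinRoot P) (AdjoinRoot.root P) (hlf_root g P hP)
  have h2 : AdjoinRoot.mk P (Polynomial.C p + Polynomial.C q * X + Polynomial.C r * X ^ 2
      - (Polynomial.C a + Polynomial.C b * X + Polynomial.C c * X ^ 2) ^ 2) = 0 := by
    rw [map_sub, sub_eq_zero]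
    simpa only [AdjoinRoot.algebraMap_eq, map_add, map_mul, map_pow, AdjoinRoot.mk_C, AdjoinRoot.mk_X] using h1
  rw [AdjoinRoot.mk_eq_zero] at h2
  have h3 : P ∣ Polynomial.C (p - hlf_p0 g.a g.b g.c a b c) + Polynomial.C (q - hlf_p1 g.a g.b g.c a b c) * X
      + Polynomial.C (r - hlf_p2 g.a g.b g.c a b c) * X ^ 2 := by
    have h4 : Polynomial.C (p - hlf_p0 g.a g.b g.c a b c) + Polynomial.C (q - hlf_p1 g.a g.b g.c a b c) * X
      + Polynomial.C (r - hlf_p2 g.a g.b g.c a b c) * X ^ 2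
      = (Polynomial.C p + Polynomial.C q * X + Polynomial.C r * X ^ 2
      - (Polynomial.C a + Polynomial.C b * X + Polynomial.C c * X ^ 2) ^ 2)
      + P * (Polynomial.C (c ^ 2) * X + Polynomial.C (2 * b * c - c ^ 2 * g.a)) := by
      simp only [hP, hlf_P, hlf_p0, hlf_p1, hlf_p2, map_sub, map_add, map_mul, map_pow, map_ofNat]
      ring
    rw [h4]
    exact dvd_add h2 (dvd_mul_right _ _)
  obtain ⟨c0, c1, c2⟩ := hlf_lin (by rw [hP]; exact hlf_deg _ _ _) _ _ _ h3
  exact ⟨(sub_eq_zero.1 c0).symm, (sub_eq_zero.1 c1).symm, (sub_eq_zero.1 c2).symm⟩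

end hlf

theorem t_hlf : S_hlf := by
  intro L _ h2 g hd x y hy hs
  obtain ⟨a, b, c, e0, e1, e2⟩ := hlf_coeff hs
  have hT := hlf_T2 g.a g.b g.c a b c
  have hS := hlf_S2 g.a g.b g.c a b c
  have hN := hlf_N2 g.a g.b g.c a b c
  rw [e0, e1, e2] at hT hS hN
  generalize hlf_T g.a g.b g.c a b c = h at hT hS
  generalize hlf_S g.a g.b g.c a b c = s at hT hS
  generalize hlf_N g.a g.b g.c a b c = n at hS hN
  simp only [hlf_T] at hT
  simp only [hlf_S] at hS
  simp only [hlf_N] at hN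
  have hn : n ^ 2 = y ^ 2 := by
    rw [hy]; simp only [Cub.ev]; linear_combination hN
  have key : h ^ 4 - (6 * x + 2 * g.a) * h ^ 2 - 8 * n * h
      + (g.a ^ 2 - 2 * g.a * x - 3 * x ^ 2 - 4 * g.b) = 0 := by
    have hs' : 2 * s = h ^ 2 - (3 * x + g.a) := by linear_combination -hT
    have : (2 * s) ^ 2 - 8 * h * n = 4 * (3 * x ^ 2 + 2 * g.a * x + g.b) := by linear_combination 4 * hS
    rw [hs'] at this
    linear_combination this
  rcases sq_eq_sq_iff_eq_or_eq_neg.1 hn with hn | hn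
  · refine ⟨h, 1, fun hh => one_ne_zero hh.2, ?_⟩
    simp only [Q4.ev, gp]
    rw [hn] at key
    linear_combination key
  · refine ⟨-h, 1, fun hh => one_ne_zero hh.2, ?_⟩
    simp only [Q4.ev, gp]
    rw [hn] at key
    linear_combination key

end Pool.Agent.H456.PR
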