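import Pool.Agent.H456.PR.Stm
import Pool.Agent.H456.BQ.T_sol

/-!
(hlv) Let `E = crv g`, `Rᵢ = (xᵢ, yᵢ)`. STEP 1: `R₁ + R₂ ∈ 2 E(L)`. If `x₁ = x₂`: `y₂ = ± y₁`; if `y₂ = y₁` the pairs are equal (`PE.refl`), if `y₂ = -y₁` then `PE ⟨1,0,0,-1⟩` works (`gp g x (-y)` is `gp g x y` with `v ↦ -v`; check `tau`). If `x₁ ≠ x₂`: let `λ = (y₂-y₁)/(x₂-x₁)`, `μ = y₁ - λ x₁`, `x₃ = λ² - g.a - x₁ - x₂`, `y₃' = λ x₃ + μ`. `g(X) - (λX+μ)² = (X-x₁)(X-x₂)(X-x₃)`, so for a root `θ`: `(x₁-θ)(x₂-θ)(x₃-θ) = (λθ+μ)²`. In `A = L[θ]/(g)` the elements `xᵢ - θ` (`i = 1, 2`) are units because `g(xᵢ) = yᵢ² ≠ 0`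
(inverse: a polynomial in `θ` divided by `yᵢ²`). `(x₁-θ)(x₂-θ) = w²` with `w` a unit, so `x₃ - θ = ((λθ+μ)/w)²`, `w⁻¹ = w/((x₁-θ)(x₂-θ))` is a polynomial in `θ`: so `SqA g x₃ (-1) 0` (reduce to degree `≤ 2` in `θ`; it is convenient to prove first: if `u ∈ L[X]` then there are `a b c` with `u(θ) = a + bθ + cθ²` for all `R, θ`: division by the monic cubic). `S_hlf` gives a root of `gp g x₃ (-y₃')` hence (`double_of_root`, BQ/Grp.lean) the point `(x₃, -y₃') = R₁ + R₂` is in `2E(L)`. STEP 2: if `R₁ + R₂ = 2X` then the pairs of `R₁` and `R₂` are equivalent. This is the converse of `rel_congr` / `rel_inj`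
(BQ/Grp.lean, general field). One way: by the theory of `Coh` over `K := L` (any field of characteristic `≠ 2`): `S_exc, S_coh1, S_coh2, S_loc1` (see Coh/All.lean: `hypC_all`): a pair with `(s.1.map (algebraMap L L)).Sol` has a cocycle `c(σ) = σQ - Q` (`S_loc1` with `Kv = K = L`: `LocTriv (crv g) L c`). To compare with `R` one needs `2Q = ± R` modulo `2E(L)`: so perhaps more direct: explicit matrices. The quartic `gp g x₀ y₀` with `(h, z)`, `z² = gp(h,1)`, is the set of the lines of slope `h`(up to normalization) through `-R₀` or so and `z` separates the two other intersection points (`quad_of_quartic`, `point_of_quartic`, `two_points` in BQ/Grp.lean).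
For the point `X = (x, y)` with `R₀ = 2X + R₁` up to signs, the corresponding `(h, z)`, `z ≠ 0` is a point of the quartic where it takes a square value; the matrix moving `(1,0)` to `(h, 1)` with the second column chosen so that the coefficient `B` vanishes and `A = 1` (determinant normalized by `z`) transforms `gp g x₀ y₀` to a quartic with `A = 1, B = 0` and the resolvent of the pair; such a quartic is `gp g x' y'` with `x'` determined by the translation `ρ` and `y'` by the coefficient `D` (a pair with `A = 1, B = 0`: `res = (g.sc 4).tr ρ` forces `C = -(6x'+2a)`, `E`, and `D² = 64 g(x')`), and `rel_congr` then tells that `(x', y')` is `± (R₀ - 2X')`.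
The file BQ/T_sol.lean / `S_sol` (a pair with a point `z ≠ 0` is the pair of a point `(x, y)`, with the matrix) does exactly this, and `rel_inj` (BQ/Grp.lean) computes the point: combine: apply `S_sol` (`t_sol`) to the pair of `R₁` and the point `(h, z)` attached to `X` where `2X = R₁ + R₂` (or `R₁ - R₂`) to get a point `R'` with an equivalent pair, and identify `R' = ± R₂` by the formulas in BQ/Grp.lean. If `z = 0` for this `h` choose another representative or treat it directly. Choose the most convenient way.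
-/

set_option autoImplicit false
set_option linter.all false

open Polynomial Finset Filter
open Pool.Agent.H456.EC (toK toK_inj sig toK_eq reflect_toK cls)
open Pool.Agent.H456.RN
open Pool.Agent.H456.BQ
open Pool.Agent.H456.Coh (TF)
open Pool.Agent.H456.PP (OneR HasRt sx hh Tz Tq Iso3 nr IsoP nrP)

namespace Pool.Agent.H456.PR

section hlv

/-- reduction of a product -/
theorem hlv_mul {L : Type} [Field L] (g : Cub L) (a b c a' b' c' : L) : ∃ a'' b'' c'' : L,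
    ∀ (R : Type) [CommRing R] [Algebra L R] (θ : R), (g.map (algebraMap L R)).ev θ = 0 →
      (algebraMap L R a + algebraMap L R b * θ + algebraMap L R c * θ ^ 2) *
        (algebraMap L R a' + algebraMap L R b' * θ + algebraMap L R c' * θ ^ 2) =
      algebraMap L R a'' + algebraMap L R b'' * θ + algebraMap L R c'' * θ ^ 2 := by
  refine ⟨a * a' - (b * c' + c * b') * g.c + c * c' * (g.a * g.c),
    a * b' + b * a' - (b * c' + c * b') * g.b + c * c' * (g.a * g.b - g.c),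
    a * c' + b * b' + c * a' - (b * c' + c * b') * g.a + c * c' * (g.a ^ 2 - g.b),
    fun R _ _ θ h => ?_⟩
  simp only [Cub.ev, Cub.map] at h
  simp only [map_add, map_sub, map_mul, map_pow]
  linear_combination (algebraMap L R b * algebraMap L R c' + algebraMap L R c * algebraMap L R b' +
    algebraMap L R c * algebraMap L R c' * (θ - algebraMap L R g.a)) * h

/-- the classes of `-(x₁ - θ)(x₂ - θ)` and of `x₃ - θ` -/
theorem hlv_sq {L : Type} [Field L] (g : Cub L) {x₁ y₁ x₂ y₂ x₃ l : L} (h₁ : y₁ ^ 2 = g.ev x₁)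
    (h₂ : y₂ ^ 2 = g.ev x₂) (hy₁ : y₁ ≠ 0) (hy₂ : y₂ ≠ 0) (hx : x₁ ≠ x₂)
    (hl : l * (x₁ - x₂) = y₁ - y₂) (e₁ : x₃ = l ^ 2 - g.a - x₁ - x₂)
    (h : SqA g (x₁ * x₂) (-(x₁ + x₂)) 1) : SqA g x₃ (-1) 0 := by
  obtain ⟨a, b, c, hw⟩ := h
  -- the inverses of `xᵢ - θ`
  obtain ⟨a₁, b₁, c₁, m₁⟩ := hlv_mul g (x₁ ^ 2 + g.a * x₁ + g.b) (x₁ + g.a) 1
    (x₂ ^ 2 + g.a * x₂ + g.b) (x₂ + g.a) 1
  obtain ⟨a₂, b₂, c₂, m₂⟩ := hlv_mul g (y₁ - l * x₁) l 0 a b c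
  obtain ⟨a₃, b₃, c₃, m₃⟩ := hlv_mul g a₁ b₁ c₁ a₂ b₂ c₂
  obtain ⟨k, hk⟩ : ∃ k : L, k = ((y₁ * y₂) ^ 2)⁻¹ := ⟨_, rfl⟩
  have hyy : (y₁ * y₂) ^ 2 ≠ 0 := pow_ne_zero _ (mul_ne_zero hy₁ hy₂)
  have hk1 : k * (y₁ * y₂) ^ 2 = 1 := by
    rw [hk]
    exact inv_mul_cancel₀ hyy
  refine ⟨k * a₃, k * b₃, k * c₃, fun R _ _ θ hθ => ?_⟩
  have n₁ := m₁ R θ hθ
  have n₂ := m₂ R θ hθ
  have n₃ := m₃ R θ hθ
  have hw' := hw R θ hθ
  have hx0 : x₁ - x₂ ≠ 0 := sub_ne_zero.2 hx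
  -- the chord
  have q1 : (g.ev x₁ - y₁ ^ 2) = 0 := by rw [h₁]; ring
  have q2 : (g.ev x₂ - y₂ ^ 2) = 0 := by rw [h₂]; ring
  have hc1 : g.b - 2 * l * (y₁ - l * x₁) = x₁ * x₂ + x₃ * (x₁ + x₂) := by
    apply mul_left_cancel₀ hx0
    simp only [Cub.ev] at q1 q2
    have hy2 : y₂ = y₁ - l * (x₁ - x₂) := by rw [hl]; ring
    rw [hy2] at q2
    rw [e₁]
    linear_combination q1 - q2
  have hc0 : g.c - (y₁ - l * x₁) ^ 2 = -(x₁ * x₂ * x₃) := by
    simp only [Cub.ev] at q1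
    rw [e₁] at hc1 ⊢
    linear_combination q1 - x₁ * hc1
  have chordA : (algebraMap L R x₁ - θ) * (algebraMap L R x₂ - θ) * (algebraMap L R x₃ - θ) =
      (algebraMap L R (y₁ - l * x₁) + algebraMap L R l * θ) ^ 2 := by
    have d2 : algebraMap L R x₃ = algebraMap L R l ^ 2 - algebraMap L R g.a - algebraMap L R x₁ -
        algebraMap L R x₂ := by
      rw [e₁]
      simp only [map_sub, map_pow]
    have d1 : algebraMap L R g.b - 2 * algebraMap L R l * algebraMap L R (y₁ - l * x₁) =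
        algebraMap L R x₁ * algebraMap L R x₂ + algebraMap L R x₃ *
          (algebraMap L R x₁ + algebraMap L R x₂) := by
      have := congrArg (algebraMap L R) hc1
      rw [map_sub, map_mul, map_mul, map_ofNat, map_add, map_mul, map_mul, map_add] at this
      exact this
    have d0 : algebraMap L R g.c - algebraMap L R (y₁ - l * x₁) ^ 2 =
        -(algebraMap L R x₁ * algebraMap L R x₂ * algebraMap L R x₃) := by
      have := congrArg (algebraMap L R) hc0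
      rw [map_sub, map_pow, map_neg, map_mul, map_mul] at this
      exact this
    have hθ' := hθ
    simp only [Cub.ev, Cub.map] at hθ'
    linear_combination (-1 : R) * hθ' + θ ^ 2 * d2 + θ * d1 + d0
  have i₁ : (algebraMap L R x₁ - θ) * (algebraMap L R (x₁ ^ 2 + g.a * x₁ + g.b) +
      algebraMap L R (x₁ + g.a) * θ + algebraMap L R 1 * θ ^ 2) = algebraMap L R (y₁ ^ 2) := by
    rw [h₁]
    have hθ' := hθ
    simp only [Cub.ev, Cub.map] at hθ'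
    simp only [Cub.ev, map_add, map_mul, map_pow, map_one]
    linear_combination (-1 : R) * hθ'
  have i₂ : (algebraMap L R x₂ - θ) * (algebraMap L R (x₂ ^ 2 + g.a * x₂ + g.b) +
      algebraMap L R (x₂ + g.a) * θ + algebraMap L R 1 * θ ^ 2) = algebraMap L R (y₂ ^ 2) := by
    rw [h₂]
    have hθ' := hθ
    simp only [Cub.ev, Cub.map] at hθ'
    simp only [Cub.ev, map_add, map_mul, map_pow, map_one]
    linear_combination (-1 : R) * hθ'
  have hw2 : (algebraMap L R x₁ - θ) * (algebraMap L R x₂ - θ) =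
      (algebraMap L R a + algebraMap L R b * θ + algebraMap L R c * θ ^ 2) ^ 2 := by
    rw [← hw']
    simp only [map_add, map_mul, map_neg, map_one]
    ring
  have hkR : algebraMap L R k * algebraMap L R ((y₁ * y₂) ^ 2) = 1 := by
    rw [← map_mul, hk1, map_one]
  -- abbreviations
  obtain ⟨A₁, hA₁⟩ : ∃ A : R, A = algebraMap L R x₁ - θ := ⟨_, rfl⟩
  obtain ⟨A₂, hA₂⟩ : ∃ A : R, A = algebraMap L R x₂ - θ := ⟨_, rfl⟩
  obtain ⟨A₃, hA₃⟩ : ∃ A : R, A = algebraMap L R x₃ - θ := ⟨_, rfl⟩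
  obtain ⟨N₁, hN₁⟩ : ∃ A : R, A = algebraMap L R (x₁ ^ 2 + g.a * x₁ + g.b) +
      algebraMap L R (x₁ + g.a) * θ + algebraMap L R 1 * θ ^ 2 := ⟨_, rfl⟩
  obtain ⟨N₂, hN₂⟩ : ∃ A : R, A = algebraMap L R (x₂ ^ 2 + g.a * x₂ + g.b) +
      algebraMap L R (x₂ + g.a) * θ + algebraMap L R 1 * θ ^ 2 := ⟨_, rfl⟩
  obtain ⟨W, hW⟩ : ∃ A : R, A = algebraMap L R a + algebraMap L R b * θ +
      algebraMap L R c * θ ^ 2 := ⟨_, rfl⟩
  obtain ⟨ℓ, hℓ⟩ : ∃ A : R, A = algebraMap L R (y₁ - l * x₁) + algebraMap L R l * θ := ⟨_, rfl⟩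
  rw [← hA₁, ← hA₂, ← hA₃, ← hℓ] at chordA
  rw [← hA₁, ← hN₁] at i₁
  rw [← hA₂, ← hN₂] at i₂
  rw [← hA₁, ← hA₂, ← hW] at hw2
  rw [← hN₁, ← hN₂] at n₁
  have n₂' : ℓ * W = algebraMap L R a₂ + algebraMap L R b₂ * θ + algebraMap L R c₂ * θ ^ 2 := by
    rw [← n₂, hℓ, hW, map_zero, zero_mul, add_zero]
  rw [← n₁, ← n₂'] at n₃
  have goal1 : algebraMap L R (k * a₃) + algebraMap L R (k * b₃) * θ +
      algebraMap L R (k * c₃) * θ ^ 2 = algebraMap L R k * (N₁ * N₂ * (ℓ * W)) := by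
    rw [n₃, map_mul, map_mul, map_mul]
    ring
  have goal2 : algebraMap L R x₃ + algebraMap L R (-1) * θ + algebraMap L R 0 * θ ^ 2 = A₃ := by
    rw [hA₃, map_neg, map_one, map_zero]
    ring
  rw [goal1, goal2]
  obtain ⟨κ, hκ⟩ : ∃ κ : R, κ = algebraMap L R k := ⟨_, rfl⟩
  obtain ⟨Y₁, hY₁⟩ : ∃ κ : R, κ = algebraMap L R (y₁ ^ 2) := ⟨_, rfl⟩
  obtain ⟨Y₂, hY₂⟩ : ∃ κ : R, κ = algebraMap L R (y₂ ^ 2) := ⟨_, rfl⟩
  have hkR' : κ * (Y₁ * Y₂) = 1 := by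
    rw [hκ, hY₁, hY₂, ← map_mul, ← mul_pow]
    exact hkR
  rw [← hκ]
  rw [← hY₁] at i₁
  rw [← hY₂] at i₂
  calc A₃ = A₃ * (κ * (Y₁ * Y₂)) ^ 2 := by rw [hkR']; ring
    _ = A₃ * (κ * ((A₁ * N₁) * (A₂ * N₂))) ^ 2 := by rw [i₁, i₂]
    _ = κ ^ 2 * (N₁ * N₂) ^ 2 * ((A₁ * A₂ * A₃) * (A₁ * A₂)) := by ring
    _ = (κ * (N₁ * N₂ * (ℓ * W))) ^ 2 := by rw [chordA, hw2]; ring

theorem hlv_neg {L : Type} [Field L] (h2 : (2 : L) ≠ 0) (g : Cub L) (x y ρ : L) :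
    PE ⟨1, 0, 0, -1⟩ (gp g x (-y), ρ) (gp g x y, ρ) := by
  have hd : (⟨1, 0, 0, -1⟩ : M2 L).det = -1 := by simp only [M2.det]; ring
  refine ⟨?_, ?_, ?_⟩
  · rw [hd]
    exact neg_ne_zero.2 one_ne_zero
  · rw [hd]
    ext <;> simp only [Q4.sub, Q4.smul, gp] <;> ring
  · simp only [Q4.tau, gp]
    ring

/-- two pairs with the same `x` -/
theorem hlv_same {L : Type} [Field L] (h2 : (2 : L) ≠ 0) (g : Cub L) {x y y' : L}
    (h : y ^ 2 = g.ev x) (h' : y' ^ 2 = g.ev x) (ρ : L) :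
    ∃ M : M2 L, PE M (gp g x y, ρ) (gp g x y', ρ) := by
  have : (y - y') * (y + y') = 0 := by linear_combination h - h'
  rcases mul_eq_zero.1 this with e | e
  · rw [sub_eq_zero.1 e]
    exact ⟨_, PE.refl _⟩
  · rw [eq_neg_of_add_eq_zero_left e]
    exact ⟨_, hlv_neg h2 g x y' ρ⟩

/-- the substitution attached to two points `(x, y)`, `(x', y')` with the sum `(x₁, y₁)` and the
difference `± (x₂, y₂)` -/
theorem hlv_mat {L : Type} [Field L] (h2 : (2 : L) ≠ 0) (g : Cub L)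
    {x₁ y₁ x₂ y₂ x y x' y' l m : L} (h₁ : y₁ ^ 2 = g.ev x₁)
    (h₂ : y₂ ^ 2 = g.ev x₂) (hX : y ^ 2 = g.ev x) (hX' : y' ^ 2 = g.ev x') (hx : x ≠ x')
    (hl : l * (x - x') = y - y') (hx₁ : x₁ = l ^ 2 - g.a - x - x') (hy₁ : y₁ = -(l * (x₁ - x) + y))
    (hm : m * (x - x') = y + y') (hx₂ : x₂ = m ^ 2 - g.a - x - x') :
    ∃ M : M2 L, PE M (gp g x₁ y₁, -(2 * x₁ + 2 * g.a)) (gp g x₂ y₂, -(2 * x₂ + 2 * g.a)) := by
  have h4 : (4 : L) ≠ 0 := by
    have : (4 : L) = 2 ^ 2 := by norm_num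
    rw [this]; exact pow_ne_zero _ h2
  obtain ⟨z, hz⟩ : ∃ z, z = x - x' := ⟨_, rfl⟩
  have hz0 : z ≠ 0 := by
    rw [hz]
    exact sub_ne_zero.2 hx
  -- the quadratic polynomial with the roots `x`, `x'`
  have hc1 : g.b - 2 * l * (y - l * x) = x * x' + x₁ * (x + x') := by
    apply mul_left_cancel₀ (sub_ne_zero.2 hx)
    simp only [Cub.ev] at hX hX'
    have hy2 : y' = y - l * (x - x') := by rw [hl]; ring
    rw [hy2] at hX'
    rw [hx₁]
    linear_combination hX' - hX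
  have hz2 : (gp g x₁ y₁).ev l 1 = z ^ 2 := by
    have hs : x + x' = l ^ 2 - g.a - x₁ := by rw [hx₁]; ring
    have e1 : y - l * x = -y₁ - l * x₁ := by rw [hy₁]; ring
    rw [e1] at hc1
    simp only [Q4.ev, gp]
    rw [hz]
    linear_combination (-(x + x') - (l ^ 2 - g.a - x₁) - 4 * x₁) * hs - 4 * hc1
  obtain ⟨M, hM⟩ : ∃ M : M2 L, M = ⟨l, l * m - z, 1, m⟩ := ⟨_, rfl⟩
  have hdet : M.det = z := by
    rw [hM]
    simp only [M2.det]
    ring
  have hd0 : M.det ≠ 0 := by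
    rw [hdet]
    exact hz0
  have hmz : m * z = l ^ 3 - (3 * x₁ + g.a) * l - 2 * y₁ := by
    rw [hz, hm]
    have e1 : y' = y - l * (x - x') := by rw [hl]; ring
    rw [e1, hy₁, hx₁]
    ring
  have p := sol_pe hd0 (gp g x₁ y₁, -(2 * x₁ + 2 * g.a))
  have hres := p.res (f := g.sc 4) (res_gp g x₁ y₁ h₁)
  have hA : (sol_mv M (gp g x₁ y₁, -(2 * x₁ + 2 * g.a))).1.A = 1 := by
    show (M.det ^ 2)⁻¹ * ((gp g x₁ y₁).sub M).A = 1
    have e1 : ((gp g x₁ y₁).sub M).A = (gp g x₁ y₁).ev l 1 := by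
      rw [hM]
      simp only [Q4.sub, Q4.ev]
      ring
    rw [e1, hz2, hdet]
    exact inv_mul_cancel₀ (pow_ne_zero _ hz0)
  have hB : (sol_mv M (gp g x₁ y₁, -(2 * x₁ + 2 * g.a))).1.B = 0 := by
    show (M.det ^ 2)⁻¹ * ((gp g x₁ y₁).sub M).B = 0
    have e1 : ((gp g x₁ y₁).sub M).B = 4 * m * (gp g x₁ y₁).ev l 1 - z *
        (4 * (l ^ 3 - (3 * x₁ + g.a) * l - 2 * y₁)) := by
      rw [hM]
      simp only [Q4.sub, Q4.ev, gp]
      ring
    rw [e1, hz2, ← hmz]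
    ring
  obtain ⟨x₃, y₃, h₃, hg, hρ⟩ := sol_four h2 g _ hA hB hres
  have p' : PE M (gp g x₁ y₁, -(2 * x₁ + 2 * g.a)) (gp g x₃ y₃, -(2 * x₃ + 2 * g.a)) := by
    have e : sol_mv M (gp g x₁ y₁, -(2 * x₁ + 2 * g.a)) = (gp g x₃ y₃, -(2 * x₃ + 2 * g.a)) :=
      Prod.ext hg hρ
    rw [← e]
    exact p
  -- identification of `x₃`
  have hx₃ : x₃ = x₂ := by
    have e := (rel_entries (f := g) (x₀ := x₁) (y₀ := y₁) (x₁ := x₃) (y₁ := y₃) h2 hd0 p'.sub (by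
      have := p'.tau
      simp only at this
      rw [this]
      ring)).2.2
    rw [hM] at e
    simp only at e
    have hs : x + x' = l ^ 2 - g.a - x₁ := by rw [hx₁]; ring
    rw [hx₂]
    linear_combination hs - e
  rw [hx₃] at p' h₃
  obtain ⟨M', q⟩ := hlv_same h2 g h₃ h₂ (-(2 * x₂ + 2 * g.a))
  exact ⟨_, p'.trans q⟩

open Classical in
/-- the case of a double -/
theorem hlv_dbl {L : Type} [Field L] (h2 : (2 : L) ≠ 0) (g : Cub L) (hf : g.disc ≠ 0)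
    {x₁ y₁ x₂ y₂ : L} (h₁ : y₁ ^ 2 = g.ev x₁) (h₂ : y₂ ^ 2 = g.ev x₂)
    (h : ∃ X : (crv g).toAffine.Point, pt hf h2 h₁ + pt hf h2 h₂ = (2 : ℕ) • X) :
    ∃ M : M2 L, PE M (gp g x₁ y₁, -(2 * x₁ + 2 * g.a)) (gp g x₂ y₂, -(2 * x₂ + 2 * g.a)) := by
  obtain ⟨X, hX⟩ := h
  have n1 : pt hf h2 h₁ ≠ 0 := WeierstrassCurve.Affine.Point.some_ne_zero _
  have n2 : pt hf h2 h₂ ≠ 0 := WeierstrassCurve.Affine.Point.some_ne_zero _
  -- the same point up to sign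
  have same : x₁ = x₂ → ∃ M : M2 L, PE M (gp g x₁ y₁, -(2 * x₁ + 2 * g.a))
      (gp g x₂ y₂, -(2 * x₂ + 2 * g.a)) := by
    intro e
    subst e
    exact hlv_same h2 g h₁ h₂ _
  have hneg : (-y₂) ^ 2 = g.ev x₂ := by rw [neg_sq]; exact h₂
  have eX : ∀ {x y x' y' : L} (k : y ^ 2 = g.ev x) (k' : y' ^ 2 = g.ev x'),
      pt hf h2 k = pt hf h2 k' → x = x' ∧ y = y' := by
    intro x y x' y' k k' e
    unfold pt at e
    rw [WeierstrassCurve.Affine.Point.some.injEq] at e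
    exact e
  by_cases hX0 : X = 0
  · rw [hX0, smul_zero] at hX
    have e := eq_neg_of_add_eq_zero_left hX
    rw [neg_pt hf h2 h₂ hneg] at e
    exact same (eX _ _ e).1
  by_cases hX1 : pt hf h2 h₁ - X = 0
  · rw [← sub_eq_zero.1 hX1, two_nsmul] at hX
    exact same (eX _ _ (add_left_cancel hX)).1.symm
  obtain ⟨x, y, hxy, hXe⟩ := exists_pt hf h2 hX0
  obtain ⟨x', y', hxy', hXe'⟩ := exists_pt hf h2 hX1
  have hsum : pt hf h2 hxy + pt hf h2 hxy' = pt hf h2 h₁ := by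
    rw [← hXe, ← hXe']
    abel
  -- the difference
  have hdif : pt hf h2 hxy' - pt hf h2 hxy = -pt hf h2 h₂ := by
    rw [← hXe, ← hXe']
    have : pt hf h2 h₂ = (2 : ℕ) • X - pt hf h2 h₁ := by rw [← hX]; abel
    rw [this, two_nsmul]
    abel
  have hx : x ≠ x' := by
    rintro rfl
    rcases eq_or_neg hf h2 hxy hxy' with e | e
    · rw [e, sub_self] at hdif
      exact n2 (neg_eq_zero.1 hdif.symm)
    · rw [e, add_neg_cancel] at hsum
      exact n1 hsum.symm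
  have hxs : x - x' ≠ 0 := sub_ne_zero.2 hx
  obtain ⟨l, hl⟩ : ∃ l, l * (x - x') = y - y' := ⟨(y - y') / (x - x'), div_mul_cancel₀ _ hxs⟩
  obtain ⟨m, hm⟩ : ∃ l, l * (x - x') = y + y' := ⟨(y + y') / (x - x'), div_mul_cancel₀ _ hxs⟩
  -- the chord law: the third point is on the curve
  have hcu : ∀ (u v u' v' k : L), v ^ 2 = g.ev u → v' ^ 2 = g.ev u' → u - u' ≠ 0 →
      k * (u - u') = v - v' →
      (-(k * ((k ^ 2 - g.a - u - u') - u) + v)) ^ 2 = g.ev (k ^ 2 - g.a - u - u') := by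
    intro u v u' v' k k1 k2 k3 k4
    have hv : v' = v - k * (u - u') := by rw [k4]; ring
    simp only [Cub.ev] at k1 k2 ⊢
    rw [hv] at k2
    apply mul_left_cancel₀ k3
    linear_combination (k ^ 2 - g.a - u - u' - u') * k1 - (k ^ 2 - g.a - u - u' - u) * k2
  have c1 := hcu x y x' y' l hxy hxy' hxs hl
  have s1 := chord hf h2 hxy hxy' c1 hx hl rfl rfl
  rw [hsum] at s1
  obtain ⟨t1, t2⟩ := eX _ _ s1
  have hnxy' : (-y') ^ 2 = g.ev x' := by rw [neg_sq]; exact hxy'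
  have hl2 : m * (x - x') = y - -y' := by rw [hm]; ring
  have c2 := hcu x y x' (-y') m hxy hnxy' hxs hl2
  have s2 := chord hf h2 hxy hnxy' c2 hx hl2 rfl rfl
  rw [← neg_pt hf h2 hxy' hnxy', ← sub_eq_add_neg] at s2
  have s3 : pt hf h2 h₂ = pt hf h2 c2 := by
    rw [← s2, ← neg_sub, hdif, neg_neg]
  obtain ⟨t3, t4⟩ := eX _ _ s3
  refine hlv_mat h2 g h₁ h₂ hxy hxy' hx hl t1 ?_ hm t3
  rw [t2, t1]

end hlv

theorem t_hlv : S_hlf → S_hlv := by
  classical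
  intro hh L _ h2 g hf x₁ y₁ x₂ y₂ h₁ h₂ hy₁ hy₂ hsq
  by_cases hx : x₁ = x₂
  · subst hx
    exact hlv_same h2 g h₁ h₂ _
  have hxs : x₁ - x₂ ≠ 0 := sub_ne_zero.2 hx
  obtain ⟨l, hl⟩ : ∃ l, l * (x₁ - x₂) = y₁ - y₂ :=
    ⟨(y₁ - y₂) / (x₁ - x₂), div_mul_cancel₀ _ hxs⟩
  obtain ⟨x₃, hx₃⟩ : ∃ x₃, x₃ = l ^ 2 - g.a - x₁ - x₂ := ⟨_, rfl⟩
  obtain ⟨y₃, hy₃⟩ : ∃ y₃, y₃ = -(l * (x₃ - x₁) + y₁) := ⟨_, rfl⟩
  have h₃ : y₃ ^ 2 = g.ev x₃ := by
    have hv : y₂ = y₁ - l * (x₁ - x₂) := by rw [hl]; ring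
    have k1 := h₁
    have k2 := h₂
    simp only [Cub.ev] at k1 k2 ⊢
    rw [hv] at k2
    rw [hy₃, hx₃]
    apply mul_left_cancel₀ hxs
    linear_combination (l ^ 2 - g.a - x₁ - x₂ - x₂) * k1 - (l ^ 2 - g.a - x₁ - x₂ - x₁) * k2
  have s := chord hf h2 h₁ h₂ h₃ hx hl hx₃ hy₃
  obtain ⟨u, v, huv, hr⟩ := hh L h2 g hf x₃ y₃ h₃ (hlv_sq g h₁ h₂ hy₁ hy₂ hx hl hx₃ hsq)
  obtain ⟨X, hX⟩ := double_of_root hf h2 h₃ huv hr
  exact hlv_dbl h2 g hf h₁ h₂ ⟨X, by rw [s, hX]⟩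

end Pool.Agent.H456.PR
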