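import Pool.Agent.H456.PR.Stm
import Pool.Agent.H456.PP.T_T3

/-!
(lcl) `S_lcl`: over the completion at a place where the cubic has exactly one root, two points whose quartics have no roots
have the same class. The root `α` of `f` is integral (Hensel), `f = (X - α)(X² + B X + C)`, the discriminant of the
quadratic factor is a nonsquare unit. Large points are divisible by two (`lcl_big`, explicit roots of the quartic), so the
points are `D x'` with `x'` integral (`lcl_int`); the values of the quadratic factor and of `X - α` have products which are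
squares, the square root in the unramified quadratic algebra is `lcl_Msq`, and the square roots are interpolated in
`lcl_interp`.
-/

set_option autoImplicit false
set_option linter.all false

open Polynomial Finset Filter
open Pool.Agent.H456.EC (toK toK_inj sig toK_eq reflect_toK cls)
open Pool.Agent.H456.RN
open Pool.Agent.H456.BQ
open Pool.Agent.H456.Coh (TF)
open Pool.Agent.H456.PP (OneR HasRt sx hh Tz Tq Iso3 nr IsoP nrP)
open Pool.Agent.H456.PP (T3V T3_V T3g T3d T3_fac T3_root T3_gu T3_du T3_dn T3_s1 T3_s2 T3_inj T3_cases T3_sqin T3_gpmap)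

namespace Pool.Agent.H456.PR

section loc

variable {O : Type} [CommRing O] [IsDomain O] {π : O}

/-- square roots in the unramified quadratic algebra -/
theorem lcl_Msq (V : T3V O π) (P S B C n : O) (hd : IsUnit (B ^ 2 - 4 * C)) (hd' : ¬ ∃ s : O, s ^ 2 = B ^ 2 - 4 * C)
    (hn : IsUnit n) (h : P ^ 2 - P * S * B + S ^ 2 * C = n ^ 2) :
    ∃ m k : O, m ^ 2 - k ^ 2 * C = P ∧ 2 * m * k - k ^ 2 * B = S := by
  have h40 : (4 : O) ≠ 0 := by
    have : (4 : O) = 2 ^ 2 := by norm_num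
    rw [this]; exact pow_ne_zero _ (V.un_ne V.two)
  -- choice of the sign
  obtain ⟨n, hn, h, ht⟩ : ∃ n' : O, IsUnit n' ∧ P ^ 2 - P * S * B + S ^ 2 * C = n' ^ 2 ∧
      IsUnit (2 * P - S * B + 2 * n') := by
    by_cases h1 : π ∣ 2 * P - S * B + 2 * n
    · refine ⟨-n, hn.neg, by rw [h]; ring, V.un _ ?_⟩
      intro h3
      have h4u : IsUnit (2 * 2 * n) := (V.two.mul V.two).mul hn
      apply V.nd h4u
      have e : 2 * 2 * n = (2 * P - S * B + 2 * n) - (2 * P - S * B + 2 * -n) := by ring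
      rw [e]
      exact dvd_sub h1 h3
    · exact ⟨n, hn, h, V.un _ h1⟩
  obtain ⟨t, htt⟩ : ∃ t : O, t = 2 * P - S * B + 2 * n := ⟨_, rfl⟩
  rw [← htt] at ht
  obtain ⟨d, hdd⟩ : ∃ d : O, d = B ^ 2 - 4 * C := ⟨_, rfl⟩
  rw [← hdd] at hd hd'
  by_cases h1 : ∃ s : O, s ^ 2 = t
  · obtain ⟨ρ, hρ⟩ := h1
    have hρu : IsUnit ρ := by
      rw [← hρ] at ht
      exact (isUnit_pow_iff (by norm_num)).1 ht
    obtain ⟨v, hv⟩ := hρu.exists_right_inv
    have hv2 : t * v ^ 2 = 1 := by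
      rw [← hρ, ← mul_pow, hv, one_pow]
    refine ⟨(P + n) * v, S * v, ?_, ?_⟩
    · have e : ((P + n) ^ 2 - S ^ 2 * C) = P * t := by
        rw [htt]; linear_combination -h
      linear_combination v ^ 2 * e + P * hv2
    · have e : (2 * (P + n) * S - S ^ 2 * B) = S * t := by
        rw [htt]; ring
      linear_combination v ^ 2 * e + S * hv2
  · obtain ⟨s, hs⟩ := V.nsq t d ht hd h1 hd'
    have hsu : IsUnit s := by
      have := ht.mul hd
      rw [← hs] at this
      exact (isUnit_pow_iff (by norm_num)).1 this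
    obtain ⟨v, hv⟩ := hsu.exists_right_inv
    have hv2 : t * d * v ^ 2 = 1 := by
      rw [← hs, ← mul_pow, hv, one_pow]
    refine ⟨((P + n) * B - 2 * S * C) * v, t * v, ?_, ?_⟩
    · have e : ((P + n) * B - 2 * S * C) ^ 2 - t ^ 2 * C = P * (t * d) := by
        rw [htt, hdd]; linear_combination (4 * C - B ^ 2) * h
      linear_combination v ^ 2 * e + P * hv2
    · have e : 2 * ((P + n) * B - 2 * S * C) * t - t ^ 2 * B = S * (t * d) := by
        rw [hdd]
        have e2 : 2 * ((P + n) * B - 2 * S * C) - t * B = S * (B ^ 2 - 4 * C) := by rw [htt]; ring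
        linear_combination t * e2
      linear_combination v ^ 2 * e + S * hv2

theorem lcl_one (V : T3V O π) {f : Cub O} (hf : OneR π f) {u : O} (hu : IsUnit u) : OneR π (f.sc u) := by
  obtain ⟨v, hv⟩ := hu.exists_right_inv
  have hv' : ∀ (k : ℕ) (x : O), π ∣ u ^ k * x → π ∣ x := by
    intro k x h
    have e : x = v ^ k * (u ^ k * x) := by
      have e1 : (u * v) ^ k = 1 := by rw [hv, one_pow]
      rw [mul_pow] at e1
      linear_combination (-x) * e1
    rw [e]
    exact Dvd.dvd.mul_left h _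
  have ev : ∀ r : O, (f.sc u).ev r = u ^ 3 * f.ev (v * r) := by
    intro r
    simp only [Cub.ev, Cub.sc]
    have e1 : (u * v) ^ 2 = 1 := by rw [hv, one_pow]
    have e2 : (u * v) ^ 3 = 1 := by rw [hv, one_pow]
    linear_combination (-(u ^ 2 * f.b * r)) * hv + (-(u * f.a * r ^ 2)) * e1 + (-(r ^ 3)) * e2
  refine ⟨?_, ?_, ?_⟩
  · intro h
    apply hf.1
    apply hv' 6
    have e : (f.sc u).disc = u ^ 6 * f.disc := by
      simp only [Cub.disc, Cub.sc]; ring
    rwa [e] at h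
  · obtain ⟨r, hr⟩ := hf.2.1
    refine ⟨u * r, ?_⟩
    rw [ev]
    have e : v * (u * r) = r := by linear_combination r * hv
    rw [e]
    exact Dvd.dvd.mul_left hr _
  · intro r s hr hs
    rw [ev] at hr hs
    have h1 := hf.2.2 _ _ (hv' 3 _ hr) (hv' 3 _ hs)
    have e : r - s = u * (v * r - v * s) := by linear_combination (s - r) * hv
    rw [e]
    exact Dvd.dvd.mul_left h1 _

end loc

section fld

variable {O L : Type} [CommRing O] [IsDomain O] [Field L] [Algebra O L] [IsFractionRing O L] {π : O}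

/-- interpolation of the square roots -/
theorem lcl_interp (g : Cub L) (α B C x₁ x₂ m k s : L) (ha : g.a = B - α) (hb : g.b = C - B * α) (hc : g.c = -(α * C))
    (hN : α ^ 2 + B * α + C ≠ 0) (hP : m ^ 2 - k ^ 2 * C = x₁ * x₂ - C) (hS : 2 * m * k - k ^ 2 * B = -(x₁ + x₂) - B)
    (hs : s ^ 2 = (x₁ - α) * (x₂ - α)) : SqA g (x₁ * x₂) (-(x₁ + x₂)) 1 := by
  obtain ⟨κ, hκ⟩ : ∃ κ : L, κ = (s - m - k * α) / (α ^ 2 + B * α + C) := ⟨_, rfl⟩
  have hκ' : κ * (α ^ 2 + B * α + C) = s - m - k * α := by rw [hκ]; exact div_mul_cancel₀ _ hN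
  have hE : κ ^ 2 * (α ^ 2 + B * α + C) + 2 * κ * (m + k * α) + k ^ 2 - 1 = 0 := by
    have h1 : (α ^ 2 + B * α + C) * (κ ^ 2 * (α ^ 2 + B * α + C) + 2 * κ * (m + k * α) + k ^ 2 - 1) = 0 := by
      linear_combination (κ * (α ^ 2 + B * α + C) + s - m - k * α + 2 * (m + k * α)) * hκ' + hs - hP - α * hS
    exact (mul_eq_zero.1 h1).resolve_left hN
  refine ⟨m + κ * C, k + κ * B, κ, ?_⟩
  intro R _ _ θ hθ
  have hP' := congrArg (algebraMap L R) hP
  have hS' := congrArg (algebraMap L R) hS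
  have hE' := congrArg (algebraMap L R) hE
  simp only [Cub.ev, Cub.map, ha, hb, hc] at hθ
  simp only [map_add, map_sub, map_mul, map_pow, map_neg, map_one, map_zero, map_ofNat] at hθ hP' hS' hE' ⊢
  generalize algebraMap L R α = α' at *
  generalize algebraMap L R B = B' at *
  generalize algebraMap L R C = C' at *
  generalize algebraMap L R x₁ = x₁' at *
  generalize algebraMap L R x₂ = x₂' at *
  generalize algebraMap L R m = m' at *
  generalize algebraMap L R k = k' at *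
  generalize algebraMap L R κ = κ' at *
  linear_combination (-(2 * κ' * k' + κ' ^ 2 * (θ + α' + B'))) * hθ - hP' - θ * hS' -
    (θ ^ 2 + B' * θ + C') * hE'

theorem lcl_scale (g : Cub L) (D x₁ x₂ : L) (hD : D ≠ 0) (h : SqA g (x₁ * x₂) (-(x₁ + x₂)) 1) :
    SqA (g.sc D) ((D * x₁) * (D * x₂)) (-(D * x₁ + D * x₂)) 1 := by
  obtain ⟨a, b, c, h⟩ := h
  refine ⟨D * a, b, D⁻¹ * c, ?_⟩
  intro R _ _ θ hθ
  have hDi : algebraMap L R D * algebraMap L R D⁻¹ = 1 := by
    rw [← map_mul, mul_inv_cancel₀ hD, map_one]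
  have h1 := h R (algebraMap L R D⁻¹ * θ) (by
    simp only [Cub.ev, Cub.map, Cub.sc, map_mul, map_pow] at hθ ⊢
    generalize algebraMap L R D = d at *
    generalize algebraMap L R D⁻¹ = e at *
    have e1 : (d * e) ^ 2 = 1 := by rw [hDi, one_pow]
    have e2 : (d * e) ^ 3 = 1 := by rw [hDi, one_pow]
    linear_combination e ^ 3 * hθ + (-(algebraMap L R g.a * e ^ 2 * θ ^ 2)) * hDi +
      (-(algebraMap L R g.b * e * θ)) * e1 + (-(algebraMap L R g.c)) * e2)
  simp only [map_add, map_sub, map_mul, map_pow, map_neg, map_one] at h1 ⊢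
  generalize algebraMap L R D = d at *
  generalize algebraMap L R D⁻¹ = e at *
  generalize algebraMap L R x₁ = x₁' at *
  generalize algebraMap L R x₂ = x₂' at *
  generalize algebraMap L R a = a' at *
  generalize algebraMap L R b = b' at *
  generalize algebraMap L R c = c' at *
  have e1 : (d * e) ^ 2 = 1 := by rw [hDi, one_pow]
  have e3 : d * (a' + b' * (e * θ) + c' * (e * θ) ^ 2) = d * a' + b' * θ + e * c' * θ ^ 2 := by
    linear_combination (b' * θ + c' * e * θ ^ 2) * hDi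
  rw [← e3]
  linear_combination d ^ 2 * h1 + (d * (x₁' + x₂') * θ) * hDi - θ ^ 2 * e1

/-- the two points with the square roots -/
theorem lcl_core (V : T3V O π) {f : Cub O} (hf : OneR π f) {α : O} (hα : f.ev α = 0) (x₁ x₂ n s : O) (hn : IsUnit n)
    (h1 : T3g f α x₁ * T3g f α x₂ = n ^ 2) (h2 : (x₁ - α) * (x₂ - α) = s ^ 2) :
    SqA (f.map (algebraMap O L)) (algebraMap O L x₁ * algebraMap O L x₂)
      (-(algebraMap O L x₁ + algebraMap O L x₂)) 1 := by
  have hd := T3_du V hf hα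
  have hd' := T3_dn V hf hα
  obtain ⟨m, k, hP, hS⟩ := lcl_Msq V (x₁ * x₂ - (α ^ 2 + f.a * α + f.b)) (-(x₁ + x₂) - (f.a + α)) (f.a + α)
    (α ^ 2 + f.a * α + f.b) n hd hd' hn (by
      rw [← h1]
      simp only [T3g]; ring)
  have hN := V.un_ne (T3_gu V hf hα α)
  have hN' := (map_ne_zero_iff (algebraMap O L) (T3_inj (O := O) (L := L))).2 hN
  have hP' := congrArg (algebraMap O L) hP
  have hS' := congrArg (algebraMap O L) hS
  have h2' := congrArg (algebraMap O L) h2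
  have hα' := congrArg (algebraMap O L) hα
  simp only [T3g] at hN'
  simp only [Cub.ev] at hα'
  simp only [map_add, map_sub, map_mul, map_pow, map_neg, map_one, map_zero, map_ofNat] at hP' hS' h2' hN' hα'
  apply lcl_interp (f.map (algebraMap O L)) (algebraMap O L α) (algebraMap O L f.a + algebraMap O L α)
    (algebraMap O L α ^ 2 + algebraMap O L f.a * algebraMap O L α + algebraMap O L f.b) (algebraMap O L x₁)
    (algebraMap O L x₂) (algebraMap O L m) (algebraMap O L k) (algebraMap O L s)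
  · simp only [Cub.map]; ring
  · simp only [Cub.map]; ring
  · simp only [Cub.map]; linear_combination hα'
  · intro h
    apply hN'
    linear_combination h
  · linear_combination hP'
  · linear_combination hS'
  · linear_combination -h2'

theorem lcl_fac {K : Type} [Field K] (g : Cub K) (A x e η h : K) (he : e ^ 2 = x - A)
    (hη : η ^ 2 = x ^ 2 + (g.a + A) * x + (A ^ 2 + g.a * A + g.b)) :
    4 * (gp g x (e * η)).ev h 1 = (2 * h ^ 2 - 4 * e * h + (-2 * x - 2 * g.a - 4 * A) - 4 * η) *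
      (2 * h ^ 2 + 4 * e * h + (-2 * x - 2 * g.a - 4 * A) + 4 * η) := by
  simp only [Q4.ev, gp]
  linear_combination (16 * h ^ 2) * he + 16 * hη

/-- the points near the origin of the group are divisible by two -/
theorem lcl_big (V : T3V O π) {f : Cub O} {α : O} (hα : f.ev α = 0) (D δ : O) (hδ : π ∣ δ)
    (x y : L) (hx : x ≠ 0) (hD : algebraMap O L D = x * algebraMap O L δ)
    (hxy : y ^ 2 = ((f.sc D).map (algebraMap O L)).ev x) : HasRt (gp ((f.sc D).map (algebraMap O L)) x y) := by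
  have h2L : (2 : L) ≠ 0 := by
    have h := (map_ne_zero_iff _ (T3_inj (O := O) (L := L))).2 (V.un_ne V.two)
    rwa [map_ofNat] at h
  have h4L : (4 : L) ≠ 0 := by
    have : (4 : L) = 2 ^ 2 := by norm_num
    rw [this]; exact pow_ne_zero _ h2L
  have u1 : IsUnit (1 - α * δ) := V.ucg isUnit_one (by
    have e : 1 - α * δ - 1 = -(α) * δ := by ring
    rw [e]; exact Dvd.dvd.mul_left hδ _)
  have u2 : IsUnit (1 + (f.a + α) * δ + (α ^ 2 + f.a * α + f.b) * δ ^ 2) := V.ucg isUnit_one (by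
    have e : 1 + (f.a + α) * δ + (α ^ 2 + f.a * α + f.b) * δ ^ 2 - 1 =
      ((f.a + α) + (α ^ 2 + f.a * α + f.b) * δ) * δ := by ring
    rw [e]; exact Dvd.dvd.mul_left hδ _)
  obtain ⟨m₁, hm₁⟩ := V.sqc _ 1 u1 (by
    have e : 1 - α * δ - 1 ^ 2 = -(α) * δ := by ring
    rw [e]; exact Dvd.dvd.mul_left hδ _)
  obtain ⟨m₂, hm₂⟩ := V.sqc _ 1 u2 (by
    have e : 1 + (f.a + α) * δ + (α ^ 2 + f.a * α + f.b) * δ ^ 2 - 1 ^ 2 =
      ((f.a + α) + (α ^ 2 + f.a * α + f.b) * δ) * δ := by ring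
    rw [e]; exact Dvd.dvd.mul_left hδ _)
  have m₁u : IsUnit m₁ := by
    rw [← hm₁] at u1
    exact (isUnit_pow_iff (by norm_num)).1 u1
  have m₂u : IsUnit m₂ := by
    rw [← hm₂] at u2
    exact (isUnit_pow_iff (by norm_num)).1 u2
  -- a square root of one of the two numbers
  obtain ⟨σ, κ, hσ, hκ⟩ : ∃ σ κ : O, σ ^ 2 = 1 ∧ κ ^ 2 = 2 + (f.a + α) * δ + 2 * σ * m₂ := by
    have key : ∀ σ : O, σ ^ 2 = 1 → π ∣ σ * m₂ - 1 → ∃ σ κ : O, σ ^ 2 = 1 ∧ κ ^ 2 = 2 + (f.a + α) * δ + 2 * σ * m₂ := by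
      intro σ hσ h
      have hd : π ∣ (2 + (f.a + α) * δ + 2 * σ * m₂) - 2 ^ 2 := by
        have e : (2 + (f.a + α) * δ + 2 * σ * m₂) - 2 ^ 2 = (f.a + α) * δ + 2 * (σ * m₂ - 1) := by ring
        rw [e]
        exact dvd_add (Dvd.dvd.mul_left hδ _) (Dvd.dvd.mul_left h _)
      obtain ⟨κ, hκ⟩ := V.sqc _ 2 (V.ucg (V.two.pow 2) hd) hd
      exact ⟨σ, κ, hσ, hκ⟩
    by_cases h1 : π ∣ m₂ - 1
    · exact key 1 (by ring) (by rw [one_mul]; exact h1)
    · apply key (-1) (by ring)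
      obtain ⟨v, hv⟩ := (V.un _ h1).exists_right_inv
      have e : -1 * m₂ - 1 = -v * (((f.a + α) + (α ^ 2 + f.a * α + f.b) * δ) * δ) := by
        linear_combination (m₂ + 1) * hv - v * hm₂
      rw [e]
      exact Dvd.dvd.mul_left (Dvd.dvd.mul_left hδ _) _
  have hm₁' := congrArg (algebraMap O L) hm₁
  have hm₂' := congrArg (algebraMap O L) hm₂
  have hσ' := congrArg (algebraMap O L) hσ
  have hκ' := congrArg (algebraMap O L) hκ
  have hα' := congrArg (algebraMap O L) hα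
  have m₁0 := (map_ne_zero_iff (algebraMap O L) (T3_inj (O := O) (L := L))).2 (V.un_ne m₁u)
  have m₂0 := (map_ne_zero_iff (algebraMap O L) (T3_inj (O := O) (L := L))).2 (V.un_ne m₂u)
  simp only [Cub.ev] at hα'
  simp only [Cub.ev, Cub.map, Cub.sc] at hxy
  simp only [map_add, map_sub, map_mul, map_pow, map_neg, map_one, map_zero, map_ofNat] at hm₁' hm₂' hσ' hκ' hα' hxy
  obtain ⟨g, hg⟩ : ∃ g : Cub L, g = (f.sc D).map (algebraMap O L) := ⟨_, rfl⟩
  have ga : g.a = algebraMap O L D * algebraMap O L f.a := by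
    rw [hg]; simp only [Cub.map, Cub.sc, map_mul]
  have gb : g.b = algebraMap O L D ^ 2 * algebraMap O L f.b := by
    rw [hg]; simp only [Cub.map, Cub.sc, map_mul, map_pow]
  rw [← hg]
  generalize algebraMap O L D = D' at *
  generalize algebraMap O L δ = δ' at *
  generalize algebraMap O L α = α' at *
  generalize algebraMap O L f.a = a' at *
  generalize algebraMap O L f.b = b' at *
  generalize algebraMap O L f.c = c' at *
  generalize algebraMap O L m₁ = M₁ at *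
  generalize algebraMap O L m₂ = M₂ at *
  generalize algebraMap O L σ = s at *
  generalize algebraMap O L κ = k at *
  subst hD
  obtain ⟨ξ, hξ⟩ : ∃ ξ : L, ξ = y / (x * M₁ * M₂) := ⟨_, rfl⟩
  have hy : y = ξ * (x * M₁ * M₂) := by
    rw [hξ]; field_simp
  have hξ2 : ξ ^ 2 = x := by
    have h1 : (x * M₁ * M₂) ^ 2 * ξ ^ 2 = (x * M₁ * M₂) ^ 2 * x := by
      have h3 : (x * M₁ * M₂) ^ 2 = x ^ 2 * ((1 - α' * δ') * (1 + (a' + α') * δ' + (α' ^ 2 + a' * α' + b') * δ' ^ 2)) := by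
        rw [← hm₁', ← hm₂']; ring
      have h4 : (x * M₁ * M₂) ^ 2 * ξ ^ 2 = y ^ 2 := by rw [hy]; ring
      rw [h4, h3, hxy]
      linear_combination (x ^ 3 * δ' ^ 3) * hα'
    exact mul_left_cancel₀ (pow_ne_zero 2 (mul_ne_zero (mul_ne_zero hx m₁0) m₂0)) h1
  have he : (ξ * M₁) ^ 2 = x - x * δ' * α' := by
    rw [mul_pow, hξ2, hm₁']; ring
  have hη : (x * M₂) ^ 2 = x ^ 2 + (g.a + x * δ' * α') * x + ((x * δ' * α') ^ 2 + g.a * (x * δ' * α') + g.b) := by
    rw [mul_pow, hm₂', ga, gb]; ring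
  have hye : y = (ξ * M₁) * (x * M₂) := by rw [hy]; ring
  refine ⟨ξ * k + s * (ξ * M₁), 1, fun h => one_ne_zero h.2, ?_⟩
  rw [hye]
  apply (mul_eq_zero.1 ?_).resolve_left h4L
  rw [lcl_fac g (x * δ' * α') x (ξ * M₁) (x * M₂) (ξ * k + s * (ξ * M₁)) he hη]
  have hs : (s - 1) * (s + 1) = 0 := by linear_combination hσ'
  have hξk : (ξ * k) ^ 2 = x * (2 + (a' + α') * δ' + 2 * s * M₂) := by rw [mul_pow, hξ2, hκ']
  rcases mul_eq_zero.1 hs with h | h
  · have hs1 : s = 1 := by linear_combination h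
    subst hs1
    apply mul_eq_zero_of_left
    rw [ga]
    linear_combination 2 * hξk - 2 * he
  · have hs1 : s = -1 := by linear_combination h
    subst hs1
    apply mul_eq_zero_of_right
    rw [ga]
    linear_combination 2 * hξk - 2 * he

theorem lcl_int (V : T3V O π) {f : Cub O} {α : O} (hα : f.ev α = 0) (D : O) (hD : D ≠ 0) (x y : L) (hy : y ≠ 0)
    (hxy : y ^ 2 = ((f.sc D).map (algebraMap O L)).ev x)
    (hn : ¬ HasRt (gp ((f.sc D).map (algebraMap O L)) x y)) : ∃ x' : O, x = algebraMap O L (D * x') := by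
  have hD' : algebraMap O L D ≠ 0 := (map_ne_zero_iff _ T3_inj).2 hD
  rcases T3_cases V (x / algebraMap O L D) with ⟨x', h⟩ | ⟨u, n, hu, hn1, h⟩
  · refine ⟨x', ?_⟩
    rw [map_mul, h]
    field_simp
  exfalso
  obtain ⟨v, hv⟩ := hu.exists_right_inv
  have hv' := congrArg (algebraMap O L) hv
  rw [map_mul, map_one] at hv'
  have h1 : algebraMap O L D = x * algebraMap O L (π ^ n * v) := by
    rw [map_mul, map_pow]
    have h3 : x * algebraMap O L π ^ n = algebraMap O L D * algebraMap O L u := by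
      rw [← h]; field_simp
    linear_combination (-(algebraMap O L D)) * hv' + (-(algebraMap O L v)) * h3
  apply hn
  apply lcl_big V hα D (π ^ n * v) (Dvd.dvd.mul_right (dvd_pow_self _ (by omega)) _) x y _ h1 hxy
  rintro rfl
  rw [zero_mul] at h1
  exact hD' h1

end fld

theorem t_lcl : S_hlf → S_lcl := by
  intro _ F _ _ h2 P O L _ _ _ _ _ π ι hL f hf D hD x₁ y₁ x₂ y₂ h₁ h₂ z₁ z₂ n₁ n₂
  have V := T3_V h2 P hL.toLc
  have hD0 : D ≠ 0 := by
    rintro rfl
    exact hD (dvd_zero _)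
  obtain ⟨α, hα⟩ := T3_root V hf
  obtain ⟨x₁', e₁⟩ := lcl_int V hα D hD0 x₁ y₁ z₁ h₁ n₁
  obtain ⟨x₂', e₂⟩ := lcl_int V hα D hD0 x₂ y₂ z₂ h₂ n₂
  have ev : ∀ x : O, ((f.sc D).map (algebraMap O L)).ev (algebraMap O L (D * x)) = algebraMap O L (D ^ 3 * f.ev x) := by
    intro x
    simp only [Cub.ev, Cub.map, Cub.sc, map_add, map_mul, map_pow]; ring
  rw [e₁, ev] at h₁
  rw [e₂, ev] at h₂
  obtain ⟨y₁', g₁⟩ := T3_sqin V h₁
  obtain ⟨y₂', g₂⟩ := T3_sqin V h₂
  subst e₁ e₂ g₁ g₂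
  have h₁' : y₁' ^ 2 = D ^ 3 * f.ev x₁' := by
    apply T3_inj (O := O) (L := L)
    rw [map_pow, h₁]
  have h₂' : y₂' ^ 2 = D ^ 3 * f.ev x₂' := by
    apply T3_inj (O := O) (L := L)
    rw [map_pow, h₂]
  have z₁' : y₁' ≠ 0 := by
    rintro rfl
    exact z₁ (map_zero _)
  have z₂' : y₂' ≠ 0 := by
    rintro rfl
    exact z₂ (map_zero _)
  obtain ⟨k, u, hu, hk⟩ := V.pow D hD0
  obtain hk0 | hk1 : k = 0 ∨ k = 1 := by
    by_contra hk2
    apply hD
    obtain ⟨i, rfl⟩ : ∃ i, k = i + 2 := ⟨k - 2, by omega⟩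
    rw [hk]
    exact ⟨u * π ^ i, by ring⟩
  · -- the unramified case
    subst hk0
    rw [pow_zero, mul_one] at hk
    subst hk
    have hf' := lcl_one V hf hu
    obtain ⟨β, hβ⟩ := T3_root V hf'
    have w₁ : y₁' ^ 2 = (f.sc D).ev (D * x₁') := by
      rw [h₁']; simp only [Cub.ev, Cub.sc]; ring
    have w₂ : y₂' ^ 2 = (f.sc D).ev (D * x₂') := by
      rw [h₂']; simp only [Cub.ev, Cub.sc]; ring
    obtain ⟨j₁, v₁, b₁, hv₁, hnv₁, hb₁, i₁, q₁⟩ := T3_s1 V hf' hβ (D * x₁') y₁' z₁' w₁ (by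
      intro h h0
      apply n₁
      refine ⟨algebraMap O L h, 1, fun h => one_ne_zero h.2, ?_⟩
      rw [T3_gpmap, h0, map_zero])
    obtain ⟨j₂, v₂, b₂, hv₂, hnv₂, hb₂, i₂, q₂⟩ := T3_s1 V hf' hβ (D * x₂') y₂' z₂' w₂ (by
      intro h h0
      apply n₂
      refine ⟨algebraMap O L h, 1, fun h => one_ne_zero h.2, ?_⟩
      rw [T3_gpmap, h0, map_zero])
    obtain ⟨s, hs⟩ := V.nsq v₁ v₂ hv₁ hv₂ hnv₁ hnv₂
    have hsu : IsUnit s := by
      have := hv₁.mul hv₂
      rw [← hs] at this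
      exact (isUnit_pow_iff (by norm_num)).1 this
    obtain ⟨t, ht⟩ := hsu.exists_right_inv
    have htu : IsUnit t := IsUnit.of_mul_eq_one s (by rw [mul_comm]; exact ht)
    apply lcl_core V hf' hβ (D * x₁') (D * x₂') (b₁ * b₂ * t) (s * π ^ (j₁ + j₂)) ((hb₁.mul hb₂).mul htu)
    · have e : (s * t) ^ 2 = 1 := by rw [ht, one_pow]
      have e1 : (b₁ * b₂ * t) ^ 2 = b₁ ^ 2 * b₂ ^ 2 * t ^ 2 := by ring
      rw [e1, q₁, q₂]
      linear_combination (-(T3g (f.sc D) β (D * x₁') * T3g (f.sc D) β (D * x₂'))) * e +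
        (T3g (f.sc D) β (D * x₁') * T3g (f.sc D) β (D * x₂') * t ^ 2) * hs
    · rw [i₁, i₂, mul_pow, hs]
      ring
  · -- the ramified case
    subst hk1
    rw [pow_one] at hk
    subst hk
    obtain ⟨j₁, v₁, b₁, hv₁, hb₁, i₁, q₁⟩ := T3_s2 V hf hα x₁' y₁' u hu z₁' h₁'
    obtain ⟨j₂, v₂, b₂, hv₂, hb₂, i₂, q₂⟩ := T3_s2 V hf hα x₂' y₂' u hu z₂' h₂'
    have G₁ := T3_gu V hf hα x₁'
    have G₂ := T3_gu V hf hα x₂'
    have dv : ∀ (x v : O) (j : ℕ), x - α = v * π ^ (2 * j + 1) → π ∣ T3g f α x - T3g f α α := by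
      intro x v j h
      have e : T3g f α x - T3g f α α = (x - α) * (x + α + (f.a + α)) := by
        simp only [T3g]; ring
      rw [e, h]
      exact Dvd.dvd.mul_right (Dvd.dvd.mul_left (dvd_pow_self _ (by omega)) _) _
    obtain ⟨n, hn⟩ := V.sqc (T3g f α x₁' * T3g f α x₂') (T3g f α α) (G₁.mul G₂) (by
      have e : T3g f α x₁' * T3g f α x₂' - T3g f α α ^ 2 = (T3g f α x₁' - T3g f α α) * T3g f α x₂' +
        T3g f α α * (T3g f α x₂' - T3g f α α) := by ring
      rw [e]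
      exact dvd_add (Dvd.dvd.mul_right (dv _ _ _ i₁) _) (Dvd.dvd.mul_left (dv _ _ _ i₂) _))
    have hnu : IsUnit n := by
      have := G₁.mul G₂
      rw [← hn] at this
      exact (isUnit_pow_iff (by norm_num)).1 this
    obtain ⟨t, ht⟩ := ((hu.pow 3).mul hnu).exists_right_inv
    have key := lcl_core (L := L) V hf hα x₁' x₂' n (b₁ * b₂ * t * π ^ (j₁ + j₂ + 1)) hnu hn.symm (by
      have e : (u ^ 3 * n * t) ^ 2 = 1 := by rw [ht, one_pow]
      have e1 : (b₁ * b₂ * t * π ^ (j₁ + j₂ + 1)) ^ 2 = b₁ ^ 2 * b₂ ^ 2 * t ^ 2 * π ^ (2 * (j₁ + j₂ + 1)) := by ring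
      rw [i₁, i₂, e1, q₁, q₂]
      linear_combination (-(v₁ * v₂ * π ^ (2 * (j₁ + j₂ + 1)))) * e +
        (u ^ 6 * v₁ * v₂ * t ^ 2 * π ^ (2 * (j₁ + j₂ + 1))) * hn)
    have key2 := lcl_scale _ (algebraMap O L (u * π)) _ _ ((map_ne_zero_iff _ T3_inj).2 hD0) key
    have hmap : (f.sc (u * π)).map (algebraMap O L) = (f.map (algebraMap O L)).sc (algebraMap O L (u * π)) :=
      Cub.map_sc _ _ _
    rw [hmap, map_mul (algebraMap O L) (u * π) x₁', map_mul (algebraMap O L) (u * π) x₂']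
    exact key2

end Pool.Agent.H456.PR
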