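import Pool.Agent.H456.PR.Stm
import Pool.Agent.H456.Coh.Out

/-!
(low) (1) Variant of `H1L` (BQ/SLow5.lean): for every `δ > 0` there is `D₁` such that for all `D ≥ D₁`, eventually in `n`: `(2 - δ) #Msh ≤ ∑_{f ∈ Msh, ¬ BadC f, ∀ P, D < deg P → ¬ P² ∣ disc} (Nat.card (Sel f) - 1)`. In the proof of `H1L` `D` is chosen with `c₀ (2 (1/2)^(D+1)) ≤ δ'` - true for all larger `D` - `S = PlD F D`, and the count `low_count` (BQ/SLow2.lean, line 190) is over `Mg S (k+1) n`, whose elements satisfy `∀ P ∉ S, ¬ P² ∣ disc`, i.e. for all `P` with `deg P > D` (`mem_PlD`): in the last step of `low_count` the sum over `Mg` is compared with the sum over all of `s`: here compare it with the sum over the good ones (all terms are `≥ 0`: `card_Sel_ge`).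
Everything is proved: `hypU_all`, `hypL_all` (BQ/SAll.lean). (2) the complement: `fam_upper` (BQ/XFam.lean; `t_avc.1`, `t_avc.2`) for the condition `T g = ¬ (the cubics with residue g satisfy all the c P)` on `Cub (RB S₀ m)`: define `Y g := ∀ P (h : P ∈ S₀), ∃ f, f.map (mk (P^m)) = g.at ⟨P, h⟩ ∧ c P f` so that `(∀ P, c P f) ↔ Y (redC S₀ m n f)` (by `Cnd.cong`; see `cOf`, `Fam_iff` and the use of `split`/`at` in BQ/XFam.lean), `Y (g.tr r) ↔ Y g`. So `∑_{Msh, ¬BadC, ¬c} (N - 1) ≤ 2 #{Msh, ¬c} + δ B`. (3) subtract: `∑_{¬BadC, c, good_D} ≥ (2-δ)#Msh - 2#{Msh,¬c} - δB ≥ 2 #{Msh, c} - 2δB` (`#Msh ≤ B = q^(12n+3)`).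
`NT ∅ f = Nat.card (Sel (f.map (toK F)))`. The classical filters: the statements with `∀ s, (∀ f, f ∈ s ↔ ...) → ...` avoid problems with `DecidablePred` (use `convert` where necessary).
-/

set_option autoImplicit false
set_option linter.all false

open Polynomial Finset Filter
open Pool.Agent.H456.EC (toK toK_inj sig toK_eq reflect_toK cls)
open Pool.Agent.H456.RN
open Pool.Agent.H456.BQ
open Pool.Agent.H456.Coh (TF)
open Pool.Agent.H456.PP (OneR HasRt sx hh Tz Tq Iso3 nr IsoP nrP)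

namespace Pool.Agent.H456.PR

/-! ### The lower bound for the cubics whose discriminants are not divisible by squares of large places -/

theorem low_count' {F : Type} [Field F] [Fintype F] (U : HypU) (L : HypL) (h2 : (2 : F) ≠ 0) {D : ℕ} {M k : ℕ}
    (hM6 : 6 ≤ M) (hM : 1 ≤ M) (hk : 2 * k + 1 ≤ M) (n : ℕ) (s : Finset (Cub F[X]))
    (hs : ∀ f, f ∈ s ↔ f ∈ Msh F n ∧ ¬ BadC f ∧ ∀ P : Pl F, D < P.1.natDegree → ¬ P.1 ^ 2 ∣ f.disc) :
    Tot (fun n e G => Pg (PlD F D) hM (k + 1) n e G) n * (Fintype.card F : ℝ) ^ (12 * n + 3) ≤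
      ∑ f ∈ s, ((Nat.card (Sel (f.map (toK F))) : ℝ) - 1) := by
  classical
  have hq2 : 2 ≤ (Fintype.card F : ℝ) := q_ge
  have hq0 : (0 : ℝ) < Fintype.card F := by linarith
  set S := PlD F D with hS
  have h1 := countS_ge (n := n) (Mg S (k + 1) n) (fun f hf => finite_Sel U h2 (mem_Msh.1 (mem_Mg.1 hf).1).2.1)
    (fun e G => Pg S hM (k + 1) n e G / pa F e) (fun e G => div_nonneg (Pg_nonneg _ _ _ _ _ _) (pa_pos e).le)
    (fun f hf σ _ => good_le L h2 hM6 hM hk hf σ) ?_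
  · unfold Tot
    rw [div_mul_cancel₀ _ (by positivity)]
    refine h1.trans ?_
    apply sum_le_sum_of_subset_of_nonneg
    · intro f hf
      rw [mem_Mg] at hf
      rw [hs]
      refine ⟨hf.1, hf.2.1, fun P hP => hf.2.2.2.2 P ?_⟩
      rw [hS, mem_PlD]
      omega
    · intro f hf _
      rw [hs] at hf
      exact card_Sel_ge U h2 (mem_Msh.1 hf.1).2.1
  · intro e he G hG r hr h0
    have h3 : Pg S hM (k + 1) n e G ≠ 0 := by
      intro h4
      apply h0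
      rw [h4, zero_div]
    unfold Pg at h3
    rw [ite_ne_right_iff] at h3
    exact good_ex L h2 hM6 hM he (mem_Vb.1 hG) (mem_PL_iff.1 hr) h3.1 h3.2

/-- the lower bound for the cubics whose discriminants are not divisible by squares of large places -/
theorem low_H1L (U : HypU) (L : HypL) {F : Type} [Field F] [Fintype F] (h2 : (2 : F) ≠ 0) (ε : ℝ) (hε : 0 < ε) :
    ∃ D₁ : ℕ, ∀ D ≥ D₁, ∀ᶠ n in atTop, ∀ (s : Finset (Cub F[X])),
    (∀ f, f ∈ s ↔ f ∈ Msh F n ∧ ¬ BadC f ∧ ∀ P : Pl F, D < P.1.natDegree → ¬ P.1 ^ 2 ∣ f.disc) →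
      (2 - ε) * (Msh F n).card ≤ ∑ f ∈ s, ((Nat.card (Sel (f.map (toK F))) : ℝ) - 1) := by
  classical
  have hq2 : 2 ≤ (Fintype.card F : ℝ) := q_ge
  set q : ℝ := (Fintype.card F : ℝ) with hq
  have hq0 : (0 : ℝ) < q := by linarith
  have hq1 : (0 : ℝ) < q - 1 := by linarith
  set δ : ℝ := ε / 164 with hδ
  have hδ0 : 0 < δ := by positivity
  obtain ⟨c₁, hc₁⟩ := L.dsq F h2
  set c₀ : ℝ := max c₁ 0 with hc₀def
  have hc0 : 0 ≤ c₀ := le_max_right _ _
  have hc₀ : ∀ P : Pl F, (({g : Q4 (Rq (P.1 ^ 2)) | g.res.disc = 0}).ncard : ℝ) ≤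
      c₀ * ((Fintype.card F : ℝ) ^ P.1.natDegree) ^ 8 := fun P =>
    (hc₁ P).trans (mul_le_mul_of_nonneg_right (le_max_left _ _) (by positivity))
  obtain ⟨D₁, hD₁⟩ : ∃ D : ℕ, c₀ * (2 * (1 / 2 : ℝ) ^ (D + 1)) ≤ δ := by
    obtain ⟨D, hD⟩ := exists_nat_gt (2 * c₀ / δ)
    refine ⟨D, ?_⟩
    have h1 : (D : ℝ) ≤ 2 ^ (D + 1) := by
      have h4 : D + 1 < 2 ^ (D + 1) := Nat.lt_two_pow_self
      have h5 : D ≤ 2 ^ (D + 1) := by omega
      exact_mod_cast h5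
    have h3 : 2 * c₀ < δ * 2 ^ (D + 1) := by
      have := (div_lt_iff₀ hδ0).1 (lt_of_lt_of_le hD h1)
      linarith
    have e1 : c₀ * (2 * (1 / 2 : ℝ) ^ (D + 1)) = 2 * c₀ / 2 ^ (D + 1) := by
      rw [one_div, inv_pow]
      ring
    rw [e1, div_le_iff₀ (by positivity)]
    exact h3.le
  refine ⟨D₁, fun D hDD => ?_⟩
  have hD : c₀ * (2 * (1 / 2 : ℝ) ^ (D + 1)) ≤ δ := by
    refine le_trans ?_ hD₁
    apply mul_le_mul_of_nonneg_left _ hc0
    apply mul_le_mul_of_nonneg_left _ (by norm_num)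
    exact pow_le_pow_of_le_one (by norm_num) (by norm_num) (by omega)
  obtain ⟨M, k, hM, hM6, hMk, hAV⟩ := AV_Pg U L h2 hc0 hc₀ hδ0 hD
  set S := PlD F D with hS
  obtain ⟨hμ0, hμ1⟩ := muS_le (S := S) hM6
  set μ := muS S M with hμ
  have hI0 : 0 ≤ IPh S M := IPh_nonneg U.phi h2 S hM
  have hI1 : IPh S M ≤ 1 := IPh_le hM6
  have hE : 1 - q⁻¹ ≤ ∏ P ∈ S, (1 - (q ^ (2 * P.1.natDegree))⁻¹) := L.euler2 F S
  -- the constant
  set s₀ : ℝ := 2 / ((q - 1) ^ 2 * (q + 1)) with hs₀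
  set A : ℝ := q ^ 3 * s₀ with hA
  have hA0 : 0 ≤ A := by positivity
  have hA8 : A ≤ 8 := by
    rw [hA, hs₀, ← mul_div_assoc, div_le_iff₀ (by positivity)]
    have h1 : 0 ≤ (q - 2) := by linarith
    nlinarith [mul_nonneg h1 h1, mul_nonneg h1 hq0.le, mul_nonneg (mul_nonneg h1 h1) hq0.le, mul_nonneg (mul_nonneg h1 hq0.le) hq0.le]
  have hA2 : A * ((1 - q⁻¹) * (1 - (q ^ 2)⁻¹)) = 2 := by
    rw [hA, hs₀]
    have h1 : q - 1 ≠ 0 := hq1.ne'
    have h3 : q + 1 ≠ 0 := by positivity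
    field_simp
    ring
  have hκ0 : 0 ≤ 1 - (q ^ 2)⁻¹ := by
    have : (q ^ 2)⁻¹ ≤ 1 := inv_le_one_of_one_le₀ (by nlinarith)
    linarith
  have hI : 2 * μ ≤ A * IPh S M := by
    have h1 : (1 - q⁻¹) * (1 - (q ^ 2)⁻¹) * μ ≤ IPh S M := by
      unfold IPh
      exact mul_le_mul_of_nonneg_right (mul_le_mul_of_nonneg_right hE hκ0) hμ0
    have h3 := mul_le_mul_of_nonneg_left h1 hA0
    have h4 : A * ((1 - q⁻¹) * (1 - (q ^ 2)⁻¹) * μ) = 2 * μ := by
      linear_combination μ * hA2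
    linarith
  -- finitely many levels suffice
  have hsum : HasSum (fun e : ℕ => (pa F e)⁻¹) s₀ := hasSum_pa
  have hpa : ∀ e, 0 ≤ (pa F e)⁻¹ := fun e => inv_nonneg.2 (pa_pos e).le
  obtain ⟨e₀, he₀⟩ : ∃ e₀ : ℕ, s₀ - δ / q ^ 3 ≤ ∑ e ∈ range e₀, (pa F e)⁻¹ := by
    have h1 := hsum.tendsto_sum_nat.eventually_const_lt (show s₀ - δ / q ^ 3 < s₀ by
      have : 0 < δ / q ^ 3 := by positivity
      linarith)
    obtain ⟨e₀, h⟩ := h1.exists
    exact ⟨e₀, h.le⟩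
  set s₁ : ℝ := ∑ e ∈ range e₀, (pa F e)⁻¹ with hs₁
  have hs₁0 : 0 ≤ s₁ := sum_nonneg fun e _ => hpa e
  have hs₁1 : s₁ ≤ s₀ := sum_le_hasSum _ (fun e _ => hpa e) hsum
  have hall : ∀ᶠ n in atTop, ∀ e ∈ range e₀, IPh S M - 5 * δ ≤ AV n e (Pg S hM (k + 1) n e) := by
    rw [eventually_all_finset]
    exact fun e _ => hAV e
  filter_upwards [hall, H3 (F := F) h2, eventually_ge_atTop (dS S M + e₀)] with n h1 h3 h4 s hs
  have h5 := low_count' U L h2 (D := D) hM6 hM hMk n s hs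
  have h6 : A * IPh S M - 41 * δ ≤ Tot (fun n e G => Pg S hM (k + 1) n e G) n := by
    rw [Tot_eq, ← hq]
    have h7 : ∑ e ∈ range e₀, (pa F e)⁻¹ * (IPh S M - 5 * δ) ≤
        ∑ e ∈ range (n + 1), (pa F e)⁻¹ * AV n e ((fun n e G => Pg S hM (k + 1) n e G) n e) := by
      calc ∑ e ∈ range e₀, (pa F e)⁻¹ * (IPh S M - 5 * δ) ≤
          ∑ e ∈ range e₀, (pa F e)⁻¹ * AV n e ((fun n e G => Pg S hM (k + 1) n e G) n e) :=
            sum_le_sum fun e he => mul_le_mul_of_nonneg_left (h1 e he) (hpa e)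
        _ ≤ _ := by
            apply sum_le_sum_of_subset_of_nonneg
            · intro e he
              rw [mem_range] at he ⊢
              omega
            · intro e _ _
              exact mul_nonneg (hpa e) (AV_nonneg fun G => Pg_nonneg _ _ _ _ _ _)
    rw [← sum_mul, ← hs₁] at h7
    have h8 : q ^ 3 * (s₁ * (IPh S M - 5 * δ)) ≤ q ^ 3 *
        ∑ e ∈ range (n + 1), (pa F e)⁻¹ * AV n e ((fun n e G => Pg S hM (k + 1) n e G) n e) :=
      mul_le_mul_of_nonneg_left h7 (by positivity)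
    refine le_trans ?_ h8
    have h9 : (s₀ - δ / q ^ 3) * IPh S M ≤ s₁ * IPh S M := mul_le_mul_of_nonneg_right he₀ hI0
    have h10 : s₁ * (5 * δ) ≤ s₀ * (5 * δ) := mul_le_mul_of_nonneg_right hs₁1 (by positivity)
    have h11 : q ^ 3 * ((s₀ - δ / q ^ 3) * IPh S M - s₀ * (5 * δ)) ≤ q ^ 3 * (s₁ * (IPh S M - 5 * δ)) :=
      mul_le_mul_of_nonneg_left (by linarith) (by positivity)
    have h12 : q ^ 3 * ((s₀ - δ / q ^ 3) * IPh S M - s₀ * (5 * δ)) = A * IPh S M - δ * IPh S M - 5 * (A * δ) := by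
      rw [hA]
      field_simp
    have h13 : δ * IPh S M ≤ δ * 1 := mul_le_mul_of_nonneg_left hI1 hδ0.le
    have h14 : A * δ ≤ 8 * δ := mul_le_mul_of_nonneg_right hA8 hδ0.le
    linarith
  rw [← hq] at h3 h5
  have hB : 0 < q ^ (12 * n + 3) := by positivity
  set B := q ^ (12 * n + 3) with hBdef
  have h8 := card_MinS (F := F) S (M := M) (n := n) hM6 (by omega)
  rw [← hq, ← hμ, ← hBdef] at h8
  have h9 : ((Msh F n).card : ℝ) ≤ μ * B := by
    rw [← h8]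
    have : (Msh F n).card ≤ ((Sb F n).filter (fun f => MinS S n f)).card := by
      apply card_le_card
      intro f hf
      rw [mem_Msh] at hf
      rw [mem_filter, mem_Sb]
      obtain ⟨hm1, hm2⟩ := (MinAll_crv h2).1 hf.2.2
      exact ⟨hf.1, fun P _ => hm1 P, hm2⟩
    exact_mod_cast this
  have h10 : (2 * μ - 41 * δ) * B ≤ Tot (fun n e G => Pg S hM (k + 1) n e G) n * B :=
    mul_le_mul_of_nonneg_right (by linarith) hB.le
  have h14 : B ≤ 4 * (Msh F n).card := by linarith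
  have h15 : 41 * δ * B ≤ ε * (Msh F n).card := by
    have : 41 * δ * B ≤ 41 * δ * (4 * (Msh F n).card) := mul_le_mul_of_nonneg_left h14 (by positivity)
    have e1 : 41 * δ * (4 * ((Msh F n).card : ℝ)) = ε * (Msh F n).card := by rw [hδ]; ring
    linarith
  linarith

/-! ### The conditions on the residues -/

/-- the residues with the conditions `c` -/
def low_Y {F : Type} [Field F] (S₀ : Finset (Pl F)) (m : ℕ) (c : Pl F → Cub F[X] → Prop) (g : Cub (RB S₀ m)) : Prop :=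
  ∀ (P : Pl F) (h : P ∈ S₀), ∃ f : Cub F[X], f.map (Ideal.Quotient.mk (Ideal.span {P.1 ^ m})) = g.at ⟨P, h⟩ ∧ c P f

theorem low_Y_iff {F : Type} [Field F] [Fintype F] {S₀ : Finset (Pl F)} {m : ℕ} {c : Pl F → Cub F[X] → Prop}
    (hc : ∀ P, Cnd P.1 m (c P)) (hS : ∀ P, P ∉ S₀ → ∀ f, c P f) (n : ℕ) (f : Cub F[X]) :
    (∀ P, c P f) ↔ low_Y S₀ m c (redC S₀ m n f) := by
  constructor
  · intro h P hP
    exact ⟨f, rfl, h P⟩
  · intro h P
    by_cases hP : P ∈ S₀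
    · obtain ⟨f', h1, h2⟩ := h P hP
      exact ((hc P).cong f' f h1).1 h2
    · exact hS P hP f

theorem low_Y_tr {F : Type} [Field F] [Fintype F] {S₀ : Finset (Pl F)} {m : ℕ} {c : Pl F → Cub F[X] → Prop}
    (hc : ∀ P, Cnd P.1 m (c P)) (g : Cub (RB S₀ m)) (r : RB S₀ m) :
    low_Y S₀ m c (g.tr r) ↔ low_Y S₀ m c g := by
  have key : ∀ (g : Cub (RB S₀ m)) (r : RB S₀ m), low_Y S₀ m c g → low_Y S₀ m c (g.tr r) := by
    intro g r h P hP
    obtain ⟨f, h1, h2⟩ := h P hP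
    obtain ⟨s, hs⟩ := Ideal.Quotient.mk_surjective (r.1 ⟨P, hP⟩)
    refine ⟨f.tr s, ?_, ((hc P).tr f s).2 h2⟩
    rw [Cub.map_tr, h1, hs]
    rfl
  constructor
  · intro h
    have h1 := key (g.tr r) (-r) h
    rwa [Cub.tr_tr, add_neg_cancel, Cub.tr_zero] at h1
  · exact key g r

theorem low_NT {F : Type} [Field F] (f : Cub F[X]) : NT ∅ f = Nat.card (Sel (f.map (toK F))) :=
  Nat.card_congr (Equiv.subtypeUnivEquiv fun σ P hP => absurd hP (notMem_empty P))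

theorem t_low : S_low := by
  intro F _ _ h2 ε hε
  obtain ⟨D₁, hD₁⟩ := low_H1L hypU_all hypL_all (F := F) h2 (ε / 2) (by positivity)
  refine ⟨D₁, fun D hD m c hc S₀ hS₀ => ?_⟩
  have a1 := hD₁ D hD
  have a2 := fam_upper hypU_all t_avc.1 t_avc.2 h2 (S₀ := S₀) (m := m) (fun g => ¬ low_Y S₀ m c g)
    (fun g r => not_congr (low_Y_tr hc g r)) (ε / 2) (by positivity)
  filter_upwards [a1, a2] with n b1 b2
  classical
  have hB0 : (0 : ℝ) ≤ (Fintype.card F : ℝ) ^ (12 * n + 3) := by positivity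
  have hMB : ((Msh F n).card : ℝ) ≤ (Fintype.card F : ℝ) ^ (12 * n + 3) := by
    have h1 : (Msh F n).card ≤ (Sb F n).card := by
      apply card_le_card
      intro f hf
      rw [mem_Sb]
      exact (mem_Msh.1 hf).1
    rw [card_Sb] at h1
    exact_mod_cast h1
  -- the sets
  set sg : Finset (Cub F[X]) := (Msh F n).filter (fun f => ¬ BadC f ∧
    ∀ P : Pl F, D < P.1.natDegree → ¬ P.1 ^ 2 ∣ f.disc) with hsg
  have b1' := b1 sg (fun f => by rw [hsg, mem_filter])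
  have hnn : ∀ f ∈ Msh F n, (0 : ℝ) ≤ (Nat.card (Sel (f.map (toK F))) : ℝ) - 1 := fun f hf =>
    card_Sel_ge hypU_all h2 (mem_Msh.1 hf).2.1
  have e1 : ∑ f ∈ sg, ((Nat.card (Sel (f.map (toK F))) : ℝ) - 1) =
      ∑ f ∈ sg.filter (fun f => ∀ P, c P f), ((Nat.card (Sel (f.map (toK F))) : ℝ) - 1) +
      ∑ f ∈ sg.filter (fun f => ¬ ∀ P, c P f), ((Nat.card (Sel (f.map (toK F))) : ℝ) - 1) :=
    (sum_filter_add_sum_filter_not sg (fun f => ∀ P, c P f) _).symm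
  have e2 : ((Msh F n).card : ℝ) = (((Msh F n).filter (fun f => ∀ P, c P f)).card : ℝ) +
      (((Msh F n).filter (fun f => ¬ ∀ P, c P f)).card : ℝ) := by
    have := card_filter_add_card_filter_not (s := Msh F n) (fun f => ∀ P, c P f)
    exact_mod_cast this.symm
  have e3 : ((Msh F n).filter (fun f => ¬ low_Y S₀ m c (redC S₀ m n f))).card =
      ((Msh F n).filter (fun f => ¬ ∀ P, c P f)).card := by
    apply congrArg
    ext f
    rw [mem_filter, mem_filter, low_Y_iff hc hS₀ n f]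
  have e4 : ∑ f ∈ sg.filter (fun f => ¬ ∀ P, c P f), ((Nat.card (Sel (f.map (toK F))) : ℝ) - 1) ≤
      ∑ f ∈ (Msh F n).filter (fun f => ¬ BadC f ∧ ¬ low_Y S₀ m c (redC S₀ m n f)),
        ((Nat.card (Sel (f.map (toK F))) : ℝ) - 1) := by
    apply sum_le_sum_of_subset_of_nonneg
    · intro f hf
      rw [mem_filter, hsg, mem_filter] at hf
      rw [mem_filter, ← low_Y_iff hc hS₀ n f]
      exact ⟨hf.1.1, hf.1.2.1, hf.2⟩
    · intro f hf _
      exact hnn f (mem_filter.1 hf).1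
  have e5 : ∑ f ∈ (Msh F n).filter (fun f => ¬ BadC f ∧ (∀ P, c P f) ∧
      ∀ P : Pl F, D < P.1.natDegree → ¬ P.1 ^ 2 ∣ f.disc), ((NT ∅ f : ℝ) - 1) =
      ∑ f ∈ sg.filter (fun f => ∀ P, c P f), ((Nat.card (Sel (f.map (toK F))) : ℝ) - 1) := by
    apply sum_congr
    · ext f
      rw [mem_filter, mem_filter, hsg, mem_filter]
      constructor
      · rintro ⟨x1, x2, x3, x4⟩
        exact ⟨⟨x1, x2, x4⟩, x3⟩
      · rintro ⟨⟨x1, x2, x4⟩, x3⟩
        exact ⟨x1, x2, x3, x4⟩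
    · intro f _
      rw [low_NT]
  have e6 : ∑ f ∈ (Msh F n).filter (fun f => ¬ BadC f ∧ ¬ low_Y S₀ m c (redC S₀ m n f)),
        ((Nat.card (Sel (f.map (toK F))) : ℝ) - 1) ≤
      2 * (((Msh F n).filter (fun f => ¬ ∀ P, c P f)).card : ℝ) + ε / 2 * (Fintype.card F : ℝ) ^ (12 * n + 3) := by
    rw [← e3]
    have k1 : ∀ (s s' : Finset (Cub F[X])) (x : ℝ), (∀ f, f ∈ s ↔ f ∈ s') →
        2 * (s.card : ℝ) + x = 2 * (s'.card : ℝ) + x := by
      intro s s' x h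
      rw [show s = s' from Finset.ext h]
    have k2 : ∀ (s s' : Finset (Cub F[X])), (∀ f, f ∈ s ↔ f ∈ s') →
        ∑ f ∈ s, ((Nat.card (Sel (f.map (toK F))) : ℝ) - 1) =
        ∑ f ∈ s', ((Nat.card (Sel (f.map (toK F))) : ℝ) - 1) := by
      intro s s' h
      rw [show s = s' from Finset.ext h]
    refine le_trans (le_of_eq (k2 _ _ fun f => ?_)) (b2.trans (le_of_eq (k1 _ _ _ fun f => ?_)))
    · simp only [mem_filter]
    · simp only [mem_filter]
  have e7 : ε / 2 * ((Msh F n).card : ℝ) ≤ ε / 2 * (Fintype.card F : ℝ) ^ (12 * n + 3) :=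
    mul_le_mul_of_nonneg_left hMB (by positivity)
  have e8 : (2 - ε / 2) * ((Msh F n).card : ℝ) = 2 * ((Msh F n).card : ℝ) - ε / 2 * (Msh F n).card := by ring
  rw [e8] at b1'
  have goal' : 2 * (((Msh F n).filter (fun f => ∀ P, c P f)).card : ℝ) - ε * (Fintype.card F : ℝ) ^ (12 * n + 3) ≤
      ∑ f ∈ sg.filter (fun f => ∀ P, c P f), ((Nat.card (Sel (f.map (toK F))) : ℝ) - 1) := by
    linarith
  rw [← e5] at goal'
  exact goal'

end Pool.Agent.H456.PR
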