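import Pool.Agent.H456.PR.Stm
import Pool.Agent.H456.PP.All

/-!
(lu) `g = (f.sc D).map (algebraMap O L)`, `g.disc ≠ 0` (`D ≠ 0` because `π² ∤ D`; `f.disc ≠ 0`), `L` is infinite (`O ∋ πᵏ`, or `F[X]` embeds), `2 ≠ 0` in `L`. Let `s₁, s₂` be pairs, soluble, without roots. By `S_sxn` replace them by equivalent pairs with `sx ≠ 0` (`PE.res`, `PE.Sol`, and roots are moved by the matrices, `PE.NR`; `HasRt g ↔ ¬ g.NR`). `PP.a_pt : S_pt` (PP/All.lean) with `D = 1`: an equivalent pair `s'` with `s'.1.A = z²`, `z ≠ 0`, `sx s'.1 ≠ 0`. `PP.t_gpr : S_gpr`: with `x = hh s'/(16 z²)`, `y = -(sx s'.1/(64 z³)) ≠ 0`, `y² = g.ev x` and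
`Rep g x y ⟨z, B/(4z), 0, 1⟩ s'.1 s'.2`, which gives `PE ⟨z, B/(4z), 0, 1⟩ (gp g x y, -(2x + 2 g.a)) s'` (see `kum_inj` in BQ/T_kum.lean for the relation between `Rep` and `PE`). So each `sᵢ` is equivalent to the pair of a point with `yᵢ ≠ 0`, whose quartic has no roots; `S_lcl` and `S_hlv` show that the two pairs of points are equivalent; compose (`PE.trans`, `PE.symm`).
Proof by helper800.
-/

set_option autoImplicit false
set_option linter.all false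

open Polynomial Finset Filter
open Pool.Agent.H456.EC (toK toK_inj sig toK_eq reflect_toK cls)
open Pool.Agent.H456.RN
open Pool.Agent.H456.BQ
open Pool.Agent.H456.Coh (TF)
open Pool.Agent.H456.PP (OneR HasRt sx hh Tz Tq Iso3 nr IsoP nrP)

namespace Pool.Agent.H456.PR

/-- a representation by a point as a relation of pairs -/
theorem lu_PE_of_Rep {L : Type} [Field L] {g : Cub L} {x y : L} {M : M2 L} {s : Q4 L × L}
    (h : Rep g x y M s.1 s.2) : PE M (gp g x y, -(2 * x + 2 * g.a)) s := by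
  refine ⟨h.det, h.sub, ?_⟩
  rw [show ((gp g x y, -(2 * x + 2 * g.a)) : Q4 L × L).1 = gp g x y from rfl, h.tau]
  ring

/-- each soluble pair without roots is the pair of a point with `y ≠ 0` -/
theorem lu_point (hsxn : S_sxn) {F : Type} [Field F] [Fintype F] (h2 : (2 : F) ≠ 0) (P : Pl F) {O L : Type}
    [CommRing O] [IsDomain O] [Field L] [Algebra O L] [IsFractionRing O L] {π : O} {ι : F[X] →+* O}
    (hL : Lc4 P.1 π ι) (g : Cub L) (hg : g.disc ≠ 0) (s : Q4 L × L) (hs : s.1.res = (g.sc 4).tr s.2)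
    (hsol : s.1.Sol) (hn : ¬ HasRt s.1) :
    ∃ (x y : L) (M : M2 L), y ^ 2 = g.ev x ∧ y ≠ 0 ∧ ¬ HasRt (gp g x y) ∧
      PE M (gp g x y, -(2 * x + 2 * g.a)) s := by
  have h2L : (2 : L) ≠ 0 := by
    have h3 := (Pool.Agent.H456.PP.pt_two h2 ι).map (algebraMap O L)
    rw [map_ofNat] at h3
    exact h3.ne_zero
  haveI hinf : Infinite L := by
    have h3 : Function.Injective (fun n : ℕ => algebraMap O L (π ^ n)) := by
      intro m n hmn
      exact Pool.Agent.H456.PP.pt_inj hL.toLc (IsFractionRing.injective O L hmn)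
    exact Infinite.of_injective _ h3
  obtain ⟨M₁, s₁, p₁, hx₁⟩ := hsxn L h2L g hg s hs
  have r₁ := p₁.res hs
  have hn₁ : ¬ HasRt s₁.1 := fun h => hn (Pool.Agent.H456.PP.T3_rt' p₁.det p₁.sub h)
  obtain ⟨M₂, s₂, z, p₂, hz, ha, hx₂⟩ := Pool.Agent.H456.PP.a_pt F h2 P.1 O L π ι hL g hg s₁ r₁ hx₁ 1 one_ne_zero
    (by rw [Q4.smul_one]; exact p₁.Sol hsol)
  have r₂ := p₂.res r₁
  have hn₂ : ¬ HasRt s₂.1 := fun h => hn₁ (Pool.Agent.H456.PP.T3_rt' p₂.det p₂.sub h)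
  rw [one_mul] at ha
  obtain ⟨he, hR⟩ := Pool.Agent.H456.PP.t_gpr L h2L g s₂ r₂ z hz ha
  have p₃ := lu_PE_of_Rep hR
  have p₄ := (p₃.trans p₂.symm).trans p₁.symm
  refine ⟨_, _, _, he, ?_, ?_, p₄⟩
  · have h64 : (64 : L) ≠ 0 := by
      have : (64 : L) = 2 ^ 6 := by norm_num
      rw [this]; exact pow_ne_zero _ h2L
    exact neg_ne_zero.2 (div_ne_zero hx₂ (mul_ne_zero h64 (pow_ne_zero _ hz)))
  · intro h
    exact hn₂ (Pool.Agent.H456.PP.T3_rt' p₃.symm.det p₃.symm.sub h)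

theorem t_lu : S_sxn → S_hlv → S_lcl → S_lu := by
  intro hsxn hhlv hlcl F _ _ h2 P O L _ _ _ _ _ π ι hL f hf D hD s₁ s₂ r₁ r₂ sol₁ sol₂ n₁ n₂
  have h2L : (2 : L) ≠ 0 := by
    have h3 := (Pool.Agent.H456.PP.pt_two h2 ι).map (algebraMap O L)
    rw [map_ofNat] at h3
    exact h3.ne_zero
  have hD0 : D ≠ 0 := by
    rintro rfl
    exact hD (dvd_zero _)
  have hdisc : ((f.sc D).map (algebraMap O L)).disc ≠ 0 := by
    have e : ((f.sc D).map (algebraMap O L)).disc = algebraMap O L (f.sc D).disc := by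
      simp only [Cub.disc, Cub.map, map_add, map_sub, map_mul, map_pow, map_ofNat]
    rw [e, Cub.disc_sc]
    apply (map_ne_zero_iff _ (IsFractionRing.injective O L)).2
    refine mul_ne_zero (pow_ne_zero _ hD0) ?_
    intro h
    apply hf.1
    rw [h]
    exact dvd_zero _
  obtain ⟨x₁, y₁, M₁, e₁, hy₁, m₁, p₁⟩ := lu_point hsxn h2 P hL _ hdisc s₁ r₁ sol₁ n₁
  obtain ⟨x₂, y₂, M₂, e₂, hy₂, m₂, p₂⟩ := lu_point hsxn h2 P hL _ hdisc s₂ r₂ sol₂ n₂
  obtain ⟨N, p₃⟩ := hhlv L h2L _ hdisc x₁ y₁ x₂ y₂ e₁ e₂ hy₁ hy₂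
    (hlcl F h2 P O L π ι hL f hf D hD x₁ y₁ x₂ y₂ e₁ e₂ hy₁ hy₂ m₁ m₂)
  exact ⟨_, (p₁.symm.trans p₃).trans p₂⟩

end Pool.Agent.H456.PR
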