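import Pool.Agent.H456.PR.Stm
import Pool.Agent.H456.PP.T_csq
import Pool.Agent.H456.PP.T_dloc
import Pool.Agent.H456.BQ.T_badc

/-!
(mai) Let `ε > 0`, wlog `ε < 1`. (1) `n₀` with `15/(ε √n₀) ≤ ε/8`, `n₀ ≥ 1`. (2) `m ≥ 1` from `S_typ (ε/8) n₀`. (3) `D₀` from `PP.a_csq : PP.S_csq` for `ε/8`. (4) `d₁` with `m · 3/q^(d₁) ≤ ε/8`; `T` from `S_sel D₀ m d₁`. (5) exceptional `f ∈ Msh n`: `BadC f` (`t_badc : S_badc`, `ε/8`), `∃ P, D₀ < deg P, P² ∣ disc` (`ε/8`), `∃ P ∈ T, P ∣ disc` (`S_bdr`, total `ε/8`), `#(Sf T f) < n₀` (`ε/8`); `Msh ⊆ Sb`. All other `f` satisfy `InG T D₀ (Sf T f) n f` with `#(Sf T f) ≥ n₀`. (6) fix `S ⊆ T` with `N = #S ≥ n₀` and `s = {f : InG T D₀ S n f}` (a filter of `Msh F n`), for these `f`: `Sf T f = S`. Let `ε₁ > 0` be small (depending on `T, ε`).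
For `J ⊆ T`, `P ∈ S \ J` the integer `δ_{J,P}(f) = 3 NT {P} (f.sc DJ) - NT ∅ (f.sc (DJ J)) - NT ∅ (f.sc (DJ (insert P J)))` is `≥ 0` (`S_fln`), and `∑_{f∈s} δ = ∑ 3(NT {P} - 1) - (NT ∅ (J) - 1) - (NT ∅ (J∪P) - 1) + 1 ≤ 3(#s + ε₁B) - 2(2#s - ε₁B) + #s = 5 ε₁ B` by `S_avg` (upper bound for `T' = {P}`: `2/2 = 1`; lower bounds for `J` and `insert P J`), so at most `5 ε₁ B` elements have `δ_{J,P}(f) ≥ 1`; the union over `(J, P)` has at most `2^|T| |T| 5 ε₁ B` elements. For the other `f ∈ s` `S_pwt` applies: `|prp T f k - Cd k| ≤ W(f)` for all `k`, `W(f) = 10/2^|T| ∑_J (Vf S (f.sc DJ)/(N√N) + 1/√N)`. (7) `∑_{f∈s} Vf S (f.sc (DJ J)) ≤ (N/2) #s + C ε₁ B`: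
`Vf S g = ∑_{P≠Q} (NT {P,Q} g - 1) - (N-1) ∑_P (NT {P} g - 1) + (NT ∅ g - 1) N²/4` (the constants cancel: `N(N-1) - (N-1)N = 0`). For `P ≠ Q ∈ S`, `J₀ = J \ {P, Q}`: `NT {P,Q} (f.sc (DJ J)) = NT {P,Q} (f.sc (DJ J₀))` (`S_fln` last part, twice), average of `NT {P,Q} - 1` at most `1/2` (`S_avg`, `T' = {P,Q}` disjoint from `J₀`). `NT {P} (J) = NT {P} (J \ P)` and `3 (NT {P} - 1) ≥ (NT ∅ (J\P) - 1) + (NT ∅ (J∪P) - 1) - 1` (`S_fln` first inequality), so `∑_{f∈s} (NT {P} - 1) ≥ (2·(2#s - ε₁B) - #s)/3 ≥ #s - ε₁B`. `∑ (NT ∅ - 1) ≤ 2#s + ε₁B`. Total: `N(N-1)/2 - (N-1)N + N²/2 = N/2`. So `∑_{f ∈ s} W(f) ≤ 10 (1/(2√N) + 1/√N) #s + C' ε₁ B = 15/√N #s + C'ε₁B`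
(for the sum over `s`; the bound for `Vf` for all `f ∈ s`, all terms `≥ 0`: `Vf ≥ 0` may be needed to restrict to the non-exceptional `f`: for the exceptional ones of (6) just do not use `W`: Markov for the set `{f ∈ s : W(f) > ε}`: `ε #{...} ≤ ∑_{f∈s} W(f)` requires `W ≥ 0` on `s`: `Vf S g ≥ 0` by the identity `Vf = ∑_{σ≠0} (...)²`, e.g. from `S_cau`-like computation or from `S_cau` itself: `(N_A-1) Vf ≥ 0`, so `Vf ≥ 0` if `N_A > 1`, and `Vf = 0` if `N_A = 1`). Hence `#{f ∈ s : W(f) > ε} ≤ 15/(ε√N) #s + ... ≤ (ε/8) #s + C' ε₁/ε B`. (8) sum over the `S ⊆ T` with `#S ≥ n₀`: the sets `s_S` are disjoint, `∑ #s_S ≤ #Msh ≤ B`: total number of bad `f` at most `4 (ε/8) B + (ε/8) B + C'' ε₁ B ≤ ε B` for `ε₁` small.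
`T.Nonempty` since `m ≥ 1`. You may add `S_cau` as a further hypothesis of the theorem if useful (it is another task): then state `theorem t_mai : S_cau → S_fln → ...` and tell helper456.
-/

set_option autoImplicit false
set_option linter.all false

open Polynomial Finset Filter
open Pool.Agent.H456.EC (toK toK_inj sig toK_eq reflect_toK cls)
open Pool.Agent.H456.RN
open Pool.Agent.H456.BQ
open Pool.Agent.H456.Coh (TF)
open Pool.Agent.H456.PP (OneR HasRt sx hh Tz Tq Iso3 nr IsoP nrP)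

namespace Pool.Agent.H456.PR

section mai_abs

variable {α β : Type*} [DecidableEq β]

/-- the second moment of the supports -/
noncomputable def mai_V (S : Finset β) (a : Finset β → ℕ) : ℝ :=
  (∑ P ∈ S, ∑ Q ∈ S.erase P, (a {P, Q} : ℝ)) - ((S.card : ℝ) - 1) * (∑ P ∈ S, (a {P} : ℝ)) +
    ((a ∅ : ℝ) - 1) * (S.card : ℝ) ^ 2 / 4

theorem mai_card (A : Type*) [Fintype A] (p : A → Prop) [DecidablePred p] :
    (Nat.card {σ : A // p σ} : ℝ) = ∑ σ, if p σ then (1 : ℝ) else 0 := by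
  rw [Nat.card_eq_fintype_card, Fintype.card_subtype, Finset.sum_boole]

theorem mai_V_nonneg (A : Type*) [Finite A] (z : A) (tr : β → A → Prop) (S : Finset β)
    (hz : ∀ P ∈ S, tr P z) :
    0 ≤ mai_V S (fun T' => Nat.card {σ : A // ∀ P ∈ T', tr P σ}) := by
  classical
  have := Fintype.ofFinite A
  obtain ⟨t, ht⟩ : ∃ t : β → A → ℝ, ∀ P σ, t P σ = if tr P σ then 1 else 0 := ⟨_, fun _ _ => rfl⟩
  have htt : ∀ P σ, t P σ * t P σ = t P σ := by
    intro P σ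
    rw [ht]
    split_ifs <;> ring
  have h2 : ∀ P Q, (Nat.card {σ : A // ∀ P' ∈ ({P, Q} : Finset β), tr P' σ} : ℝ) =
      ∑ σ, t P σ * t Q σ := by
    intro P Q
    rw [mai_card]
    refine Finset.sum_congr rfl fun σ _ => ?_
    rw [ht, ht]
    by_cases h1 : tr P σ <;> by_cases h2 : tr Q σ <;> simp [h1, h2]
  have h1 : ∀ P, (Nat.card {σ : A // ∀ P' ∈ ({P} : Finset β), tr P' σ} : ℝ) = ∑ σ, t P σ := by
    intro P
    rw [mai_card]
    refine Finset.sum_congr rfl fun σ _ => ?_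
    rw [ht]
    simp
  have h0 : (Nat.card {σ : A // ∀ P' ∈ (∅ : Finset β), tr P' σ} : ℝ) = ∑ σ : A, (1 : ℝ) := by
    rw [mai_card]
    refine Finset.sum_congr rfl fun σ _ => ?_
    simp
  obtain ⟨N, hN⟩ : ∃ N : ℝ, N = S.card := ⟨_, rfl⟩
  have hpt : ∀ σ, (∑ P ∈ S, ∑ Q ∈ S.erase P, t P σ * t Q σ) - (N - 1) * (∑ P ∈ S, t P σ) +
      1 * N ^ 2 / 4 = (∑ P ∈ S, t P σ - N / 2) ^ 2 := by
    intro σ
    have e1 : ∀ P ∈ S, ∑ Q ∈ S.erase P, t P σ * t Q σ = t P σ * (∑ Q ∈ S, t Q σ) - t P σ := by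
      intro P hP
      rw [← Finset.mul_sum, ← Finset.add_sum_erase S (fun Q => t Q σ) hP, mul_add, htt]
      ring
    rw [Finset.sum_congr rfl e1, Finset.sum_sub_distrib, ← Finset.sum_mul]
    ring
  have hV : mai_V S (fun T' => Nat.card {σ : A // ∀ P ∈ T', tr P σ}) =
      ∑ σ, (∑ P ∈ S, t P σ - N / 2) ^ 2 - N ^ 2 / 4 := by
    have e2 : ∑ P ∈ S, ∑ Q ∈ S.erase P, ∑ σ, t P σ * t Q σ =
        ∑ σ, ∑ P ∈ S, ∑ Q ∈ S.erase P, t P σ * t Q σ := by
      rw [Finset.sum_congr rfl fun P _ => Finset.sum_comm, Finset.sum_comm]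
    have e3 : ∑ P ∈ S, ∑ σ, t P σ = ∑ σ, ∑ P ∈ S, t P σ := Finset.sum_comm
    have e4 : ∑ σ, (∑ P ∈ S, t P σ - N / 2) ^ 2 =
        (∑ σ, ∑ P ∈ S, ∑ Q ∈ S.erase P, t P σ * t Q σ) - (N - 1) * (∑ σ, ∑ P ∈ S, t P σ) +
          (∑ σ : A, (1 : ℝ)) * N ^ 2 / 4 := by
      rw [← Finset.sum_congr rfl fun σ _ => hpt σ, Finset.sum_add_distrib, Finset.sum_sub_distrib,
        Finset.mul_sum, Finset.sum_mul, Finset.sum_div]
    unfold mai_V
    simp only [h2, h1, h0]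
    rw [e2, e3, e4, ← hN]
    ring
  rw [hV]
  have hz1 : ∑ P ∈ S, t P z = N := by
    rw [Finset.sum_congr rfl fun P hP => by rw [ht, if_pos (hz P hP)], Finset.sum_const, hN]
    simp
  have h3 := Finset.single_le_sum (f := fun σ => (∑ P ∈ S, t P σ - N / 2) ^ 2)
    (fun σ _ => sq_nonneg _) (Finset.mem_univ z)
  simp only [hz1] at h3
  have h4 : (N - N / 2) ^ 2 = N ^ 2 / 4 := by ring
  rw [h4] at h3
  linarith

/-- the hypotheses on the averages -/
structure MaiH (s : Finset α) (T S : Finset β) (a : Finset β → Finset β → α → ℕ) (δ : ℝ) :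
    Prop where
  sub : S ⊆ T
  pos : 1 ≤ S.card
  d0 : 0 ≤ δ
  up : ∀ J ⊆ T, ∀ T' ⊆ S, Disjoint T' J →
    ∑ f ∈ s, ((a T' J f : ℝ) - 1) ≤ 2 / 2 ^ T'.card * s.card + δ
  low : ∀ J ⊆ T, 2 * (s.card : ℝ) - δ ≤ ∑ f ∈ s, ((a ∅ J f : ℝ) - 1)
  h1 : ∀ f ∈ s, ∀ J ⊆ T, ∀ P ∈ S, P ∉ J → a ∅ J f + a ∅ (insert P J) f ≤ 3 * a {P} J f
  h4 : ∀ f ∈ s, ∀ J ⊆ T, ∀ P ∈ S, P ∉ J → ∀ T' : Finset β, P ∈ T' →
    a T' J f = a T' (insert P J) f

variable {s : Finset α} {T S : Finset β} {a : Finset β → Finset β → α → ℕ} {δ : ℝ}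

theorem MaiH.er (h : MaiH s T S a δ) {f : α} (hf : f ∈ s) {J : Finset β} (hJ : J ⊆ T) {P : β}
    (hP : P ∈ S) {T' : Finset β} (hT' : P ∈ T') : a T' (J.erase P) f = a T' J f := by
  by_cases hPJ : P ∈ J
  · rw [h.h4 f hf (J.erase P) ((Finset.erase_subset _ _).trans hJ) P hP
      (Finset.notMem_erase P J) T' hT', Finset.insert_erase hPJ]
  · rw [Finset.erase_eq_of_notMem hPJ]

theorem MaiH.up' (h : MaiH s T S a δ) {J : Finset β} (hJ : J ⊆ T) {T' : Finset β} (hT' : T' ⊆ S)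
    (hd : Disjoint T' J) : ∑ f ∈ s, (a T' J f : ℝ) ≤ (1 + 2 / 2 ^ T'.card) * s.card + δ := by
  have h1 := h.up J hJ T' hT' hd
  rw [Finset.sum_sub_distrib] at h1
  simp only [Finset.sum_const, nsmul_eq_mul, mul_one] at h1
  linarith

theorem MaiH.low' (h : MaiH s T S a δ) {J : Finset β} (hJ : J ⊆ T) :
    3 * (s.card : ℝ) - δ ≤ ∑ f ∈ s, (a ∅ J f : ℝ) := by
  have h1 := h.low J hJ
  rw [Finset.sum_sub_distrib] at h1
  simp only [Finset.sum_const, nsmul_eq_mul, mul_one] at h1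
  linarith

/-- averages of the numbers for one place -/
theorem MaiH.one (h : MaiH s T S a δ) {J : Finset β} (hJ : J ⊆ T) {P : β} (hP : P ∈ S) :
    2 * (s.card : ℝ) - δ ≤ ∑ f ∈ s, (a {P} J f : ℝ) := by
  have hJ' : J.erase P ⊆ T := (Finset.erase_subset _ _).trans hJ
  have hJ'' : insert P (J.erase P) ⊆ T := Finset.insert_subset (h.sub hP) hJ'
  have h1 := h.low' hJ'
  have h2 := h.low' hJ''
  have h3 : ∑ f ∈ s, (a ∅ (J.erase P) f : ℝ) + ∑ f ∈ s, (a ∅ (insert P (J.erase P)) f : ℝ) ≤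
      3 * ∑ f ∈ s, (a {P} J f : ℝ) := by
    rw [← Finset.sum_add_distrib, Finset.mul_sum]
    refine Finset.sum_le_sum fun f hf => ?_
    have h4 := h.h1 f hf (J.erase P) hJ' P hP (Finset.notMem_erase P J)
    rw [h.er hf hJ hP (Finset.mem_singleton_self P)] at h4
    exact_mod_cast h4
  have := h.d0
  linarith

theorem MaiH.two (h : MaiH s T S a δ) {J : Finset β} (hJ : J ⊆ T) {P Q : β} (hP : P ∈ S)
    (hQ : Q ∈ S.erase P) : ∑ f ∈ s, (a {P, Q} J f : ℝ) ≤ 3 / 2 * s.card + δ := by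
  rw [Finset.mem_erase] at hQ
  have hJ' : J.erase P ⊆ T := (Finset.erase_subset _ _).trans hJ
  have hJ'' : (J.erase P).erase Q ⊆ T := (Finset.erase_subset _ _).trans hJ'
  have h1 := h.up' hJ'' (T' := {P, Q}) (Finset.insert_subset hP (Finset.singleton_subset_iff.2 hQ.2))
    (by
      rw [Finset.disjoint_left]
      intro R hR hR'
      rw [Finset.mem_insert, Finset.mem_singleton] at hR
      rw [Finset.mem_erase, Finset.mem_erase] at hR'
      tauto)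
  rw [Finset.card_pair hQ.1.symm] at h1
  have h2 : ∑ f ∈ s, (a {P, Q} ((J.erase P).erase Q) f : ℝ) = ∑ f ∈ s, (a {P, Q} J f : ℝ) := by
    refine Finset.sum_congr rfl fun f hf => ?_
    rw [h.er hf hJ' hQ.2 (by simp), h.er hf hJ hP (by simp)]
  rw [h2] at h1
  norm_num at h1
  linarith

/-- the average of the second moment -/
theorem MaiH.sum_V (h : MaiH s T S a δ) {J : Finset β} (hJ : J ⊆ T) :
    ∑ f ∈ s, mai_V S (fun T' => a T' J f) ≤
      (S.card : ℝ) / 2 * s.card + 3 * (S.card : ℝ) ^ 2 * δ := by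
  obtain ⟨N, hN⟩ : ∃ N : ℝ, N = S.card := ⟨_, rfl⟩
  have hN1 : 1 ≤ N := by
    rw [hN]
    exact_mod_cast h.pos
  have hd := h.d0
  have e1 : ∑ f ∈ s, ∑ P ∈ S, ∑ Q ∈ S.erase P, (a {P, Q} J f : ℝ) ≤
      N * ((N - 1) * (3 / 2 * s.card + δ)) := by
    rw [Finset.sum_comm, Finset.sum_congr rfl fun P _ => Finset.sum_comm]
    have h1 : ∀ P ∈ S, ∑ Q ∈ S.erase P, ∑ f ∈ s, (a {P, Q} J f : ℝ) ≤
        (N - 1) * (3 / 2 * s.card + δ) := by
      intro P hP
      have h2 := Finset.sum_le_sum fun Q hQ => h.two hJ hP (Q := Q) hQ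
      rw [Finset.sum_const, Finset.card_erase_of_mem hP, nsmul_eq_mul, Nat.cast_sub h.pos] at h2
      rw [hN]
      exact_mod_cast h2
    have h3 := Finset.sum_le_sum h1
    rw [Finset.sum_const, nsmul_eq_mul, ← hN] at h3
    exact h3
  have e2 : N * (2 * (s.card : ℝ) - δ) ≤ ∑ f ∈ s, ∑ P ∈ S, (a {P} J f : ℝ) := by
    rw [Finset.sum_comm]
    have h3 := Finset.sum_le_sum fun P hP => h.one hJ (P := P) hP
    rw [Finset.sum_const, nsmul_eq_mul, ← hN] at h3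
    exact h3
  have e3 := h.up J hJ ∅ (Finset.empty_subset _) (Finset.disjoint_empty_left _)
  rw [Finset.card_empty, pow_zero, div_one] at e3
  have e4 : ∑ f ∈ s, mai_V S (fun T' => a T' J f) =
      ∑ f ∈ s, ∑ P ∈ S, ∑ Q ∈ S.erase P, (a {P, Q} J f : ℝ) -
        (N - 1) * ∑ f ∈ s, ∑ P ∈ S, (a {P} J f : ℝ) +
        (∑ f ∈ s, ((a ∅ J f : ℝ) - 1)) * N ^ 2 / 4 := by
    unfold mai_V
    rw [Finset.sum_add_distrib, Finset.sum_sub_distrib, Finset.mul_sum, Finset.sum_mul,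
      Finset.sum_div, ← hN]
  rw [e4, ← hN]
  have e5 := mul_le_mul_of_nonneg_left e2 (by linarith : 0 ≤ N - 1)
  have e6 := mul_le_mul_of_nonneg_right e3 (by positivity : 0 ≤ N ^ 2 / 4)
  have e7 : 0 ≤ N * δ := by positivity
  nlinarith

/-- the exceptional set -/
theorem MaiH.exc (h : MaiH s T S a δ) {J : Finset β} (hJ : J ⊆ T) {P : β} (hP : P ∈ S)
    (hPJ : P ∉ J) : ((s.filter fun f => a ∅ J f + a ∅ (insert P J) f ≠ 3 * a {P} J f).card : ℝ) ≤
      5 * δ := by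
  have hJ'' : insert P J ⊆ T := Finset.insert_subset (h.sub hP) hJ
  have h1 := h.low' hJ
  have h2 := h.low' hJ''
  have h3 := h.up' hJ (T' := {P}) (Finset.singleton_subset_iff.2 hP)
    (Finset.disjoint_singleton_left.2 hPJ)
  rw [Finset.card_singleton, pow_one, div_self two_ne_zero] at h3
  have h4 : ((s.filter fun f => a ∅ J f + a ∅ (insert P J) f ≠ 3 * a {P} J f).card : ℝ) ≤
      ∑ f ∈ s, (3 * (a {P} J f : ℝ) - a ∅ J f - a ∅ (insert P J) f) := by
    rw [← Finset.sum_boole]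
    refine Finset.sum_le_sum fun f hf => ?_
    have h5 := h.h1 f hf J hJ P hP hPJ
    split_ifs with h6
    · have h7 : a ∅ J f + a ∅ (insert P J) f + 1 ≤ 3 * a {P} J f := by omega
      have h8 : (a ∅ J f : ℝ) + a ∅ (insert P J) f + 1 ≤ 3 * a {P} J f := by exact_mod_cast h7
      linarith
    · have h8 : (a ∅ J f : ℝ) + a ∅ (insert P J) f ≤ 3 * a {P} J f := by exact_mod_cast h5
      linarith
  rw [Finset.sum_sub_distrib, Finset.sum_sub_distrib, ← Finset.mul_sum] at h4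
  linarith

/-- the bound -/
noncomputable def mai_W (T S : Finset β) (a : Finset β → Finset β → ℕ) : ℝ :=
  10 / 2 ^ T.card * ∑ J ∈ T.powerset, (mai_V S (fun T' => a T' J) / (S.card * Real.sqrt S.card) +
    1 / Real.sqrt S.card)

theorem MaiH.sum_W (h : MaiH s T S a δ) :
    ∑ f ∈ s, mai_W T S (fun T' J => a T' J f) ≤
      15 / Real.sqrt S.card * s.card + 30 * Real.sqrt S.card * δ := by
  obtain ⟨N, hN⟩ : ∃ N : ℝ, N = S.card := ⟨_, rfl⟩
  have hN1 : 1 ≤ N := by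
    rw [hN]
    exact_mod_cast h.pos
  have hd := h.d0
  obtain ⟨R, hR⟩ : ∃ R : ℝ, R = Real.sqrt N := ⟨_, rfl⟩
  have hR0 : 0 < R := by
    rw [hR]
    exact Real.sqrt_pos.2 (by linarith)
  have hRN : N = R ^ 2 := by
    rw [hR, Real.sq_sqrt (by linarith)]
  unfold mai_W
  rw [← hN, ← hR, ← Finset.mul_sum, Finset.sum_comm]
  have h1 : ∀ J ∈ T.powerset, ∑ f ∈ s, (mai_V S (fun T' => a T' J f) / (N * R) + 1 / R) ≤
      3 / 2 / R * s.card + 3 * R * δ := by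
    intro J hJ
    rw [Finset.sum_add_distrib, ← Finset.sum_div, Finset.sum_const, nsmul_eq_mul]
    have h2 := h.sum_V (Finset.mem_powerset.1 hJ)
    rw [← hN] at h2
    have h3 := div_le_div_of_nonneg_right h2 (by positivity : 0 ≤ N * R)
    refine (add_le_add_left h3 _).trans (le_of_eq ?_)
    rw [hRN]
    field_simp
    ring
  have h4 := Finset.sum_le_sum h1
  rw [Finset.sum_const, Finset.card_powerset, nsmul_eq_mul] at h4
  have h5 := mul_le_mul_of_nonneg_left h4 (by positivity : (0 : ℝ) ≤ 10 / 2 ^ T.card)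
  refine h5.trans (le_of_eq ?_)
  push_cast
  field_simp
  ring

/-- **the count for one pattern** -/
theorem MaiH.count (h : MaiH s T S a δ) {ε : ℝ} (hε : 0 < ε)
    (hV : ∀ f ∈ s, ∀ J ⊆ T, 0 ≤ mai_V S (fun T' => a T' J f)) (p : α → Prop) [DecidablePred p]
    (hp : ∀ f ∈ s, (∀ J ⊆ T, ∀ P ∈ S, P ∉ J → a ∅ J f + a ∅ (insert P J) f = 3 * a {P} J f) →
      p f → ε < mai_W T S (fun T' J => a T' J f)) :
    ((s.filter p).card : ℝ) ≤ 15 / Real.sqrt S.card / ε * s.card +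
      (30 * Real.sqrt S.card / ε + 5 * 2 ^ T.card * T.card) * δ := by
  classical
  have hW0 : ∀ f ∈ s, 0 ≤ mai_W T S (fun T' J => a T' J f) := by
    intro f hf
    unfold mai_W
    refine mul_nonneg (by positivity) (Finset.sum_nonneg fun J hJ => ?_)
    have := hV f hf J (Finset.mem_powerset.1 hJ)
    positivity
  have h1 : s.filter p ⊆ (s.filter fun f => ε < mai_W T S (fun T' J => a T' J f)) ∪
      T.powerset.biUnion fun J => (S \ J).biUnion fun P =>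
        s.filter fun f => a ∅ J f + a ∅ (insert P J) f ≠ 3 * a {P} J f := by
    intro f hf
    rw [Finset.mem_filter] at hf
    by_cases hc : ∀ J ⊆ T, ∀ P ∈ S, P ∉ J → a ∅ J f + a ∅ (insert P J) f = 3 * a {P} J f
    · exact Finset.mem_union_left _ (Finset.mem_filter.2 ⟨hf.1, hp f hf.1 hc hf.2⟩)
    · push Not at hc
      obtain ⟨J, hJ, P, hP, hPJ, hne⟩ := hc
      refine Finset.mem_union_right _ (Finset.mem_biUnion.2 ⟨J, Finset.mem_powerset.2 hJ,
        Finset.mem_biUnion.2 ⟨P, Finset.mem_sdiff.2 ⟨hP, hPJ⟩, Finset.mem_filter.2 ⟨hf.1, hne⟩⟩⟩)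
  have h2 := (Finset.card_le_card h1).trans (Finset.card_union_le _ _)
  have h3 : ((s.filter fun f => ε < mai_W T S (fun T' J => a T' J f)).card : ℝ) * ε ≤
      15 / Real.sqrt S.card * s.card + 30 * Real.sqrt S.card * δ := by
    refine le_trans ?_ h.sum_W
    rw [← nsmul_eq_mul, ← Finset.sum_const]
    refine (Finset.sum_le_sum (g := fun f => mai_W T S (fun T' J => a T' J f)) fun f hf =>
      (Finset.mem_filter.1 hf).2.le).trans ?_
    exact Finset.sum_le_sum_of_subset_of_nonneg (Finset.filter_subset _ _)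
      fun f hf _ => hW0 f hf
  have h4 : (((T.powerset.biUnion fun J => (S \ J).biUnion fun P =>
        s.filter fun f => a ∅ J f + a ∅ (insert P J) f ≠ 3 * a {P} J f).card : ℕ) : ℝ) ≤
      5 * 2 ^ T.card * T.card * δ := by
    have h5 : ∀ J ∈ T.powerset, ((((S \ J).biUnion fun P =>
        s.filter fun f => a ∅ J f + a ∅ (insert P J) f ≠ 3 * a {P} J f).card : ℕ) : ℝ) ≤
        T.card * (5 * δ) := by
      intro J hJ
      have h6 := (Finset.card_biUnion_le (s := S \ J) (t := fun P =>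
        s.filter fun f => a ∅ J f + a ∅ (insert P J) f ≠ 3 * a {P} J f))
      have h7 : ((((S \ J).biUnion fun P =>
        s.filter fun f => a ∅ J f + a ∅ (insert P J) f ≠ 3 * a {P} J f).card : ℕ) : ℝ) ≤
        ∑ P ∈ S \ J, ((s.filter fun f => a ∅ J f + a ∅ (insert P J) f ≠ 3 * a {P} J f).card : ℝ) := by
        exact_mod_cast h6
      refine h7.trans ((Finset.sum_le_sum fun P hP => h.exc (Finset.mem_powerset.1 hJ)
        (Finset.mem_sdiff.1 hP).1 (Finset.mem_sdiff.1 hP).2).trans ?_)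
      rw [Finset.sum_const, nsmul_eq_mul]
      have h8 : ((S \ J).card : ℝ) ≤ T.card := by
        exact_mod_cast Finset.card_le_card (Finset.sdiff_subset.trans h.sub)
      have := h.d0
      exact mul_le_mul_of_nonneg_right h8 (by linarith)
    have h6 := (Finset.card_biUnion_le (s := T.powerset) (t := fun J => (S \ J).biUnion fun P =>
        s.filter fun f => a ∅ J f + a ∅ (insert P J) f ≠ 3 * a {P} J f))
    have h7 : (((T.powerset.biUnion fun J => (S \ J).biUnion fun P =>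
        s.filter fun f => a ∅ J f + a ∅ (insert P J) f ≠ 3 * a {P} J f).card : ℕ) : ℝ) ≤
        ∑ J ∈ T.powerset, ((((S \ J).biUnion fun P =>
        s.filter fun f => a ∅ J f + a ∅ (insert P J) f ≠ 3 * a {P} J f).card : ℕ) : ℝ) := by
      exact_mod_cast h6
    refine h7.trans ((Finset.sum_le_sum h5).trans ?_)
    rw [Finset.sum_const, Finset.card_powerset, nsmul_eq_mul]
    push_cast
    exact le_of_eq (by ring)
  have h5 : ((s.filter p).card : ℝ) ≤
      ((s.filter fun f => ε < mai_W T S (fun T' J => a T' J f)).card : ℝ) +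
      (((T.powerset.biUnion fun J => (S \ J).biUnion fun P =>
        s.filter fun f => a ∅ J f + a ∅ (insert P J) f ≠ 3 * a {P} J f).card : ℕ) : ℝ) := by
    exact_mod_cast h2
  have h6 := (le_div_iff₀ hε).2 h3
  have h7 : (15 / Real.sqrt S.card * s.card + 30 * Real.sqrt S.card * δ) / ε =
      15 / Real.sqrt S.card / ε * s.card + 30 * Real.sqrt S.card / ε * δ := by
    rw [add_div]
    ring
  rw [h7] at h6
  linarith

end mai_abs

section mai_conc

variable {F : Type} [Field F] [Fintype F]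

theorem mai_tr0 (P : Pl F) (g : Cub (RatFunc F)) : Tr P (0 : Sel g) := by
  refine ⟨zp g, IsSel.zp g, rfl, 1, 0, fun h => one_ne_zero h.1, ?_⟩
  simp only [zp, Q4.map, Q4.ev, map_zero]
  ring

open Classical in
theorem mai_Vf_nonneg (S : Finset (Pl F)) (g : Cub F[X]) (hfin : Finite (Sel (g.map (toK F)))) :
    0 ≤ mai_V S (fun T' => NT T' g) :=
  mai_V_nonneg (Sel (g.map (toK F))) 0 (fun P σ => Tr P σ) S (fun P _ => mai_tr0 P _)

open Classical in
/-- the cubics with the pattern `S` -/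
noncomputable def mai_s (T : Finset (Pl F)) (D₀ n : ℕ) (S : Finset (Pl F)) : Finset (Cub F[X]) :=
  (Msh F n).filter (InG T D₀ S n)

theorem mai_mem {T S : Finset (Pl F)} {D₀ n : ℕ} {f : Cub F[X]} :
    f ∈ mai_s T D₀ n S ↔ InG T D₀ S n f := by
  classical
  unfold mai_s
  rw [mem_filter]
  exact ⟨fun h => h.2, fun h => ⟨h.1, h⟩⟩

theorem mai_Sf {T S : Finset (Pl F)} {D₀ n : ℕ} {f : Cub F[X]} (hS : S ⊆ T)
    (h : InG T D₀ S n f) : Sf T f = S := by
  classical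
  ext P
  unfold Sf
  rw [mem_filter]
  exact ⟨fun h1 => (h.2.2 P h1.1).1 h1.2, fun h1 => ⟨hS h1, (h.2.2 P (hS h1)).2 h1⟩⟩

open Classical in
theorem mai_H (hfln : S_fln) (h2 : (2 : F) ≠ 0) {T S : Finset (Pl F)} {D₀ : ℕ} (hC : Cfg T D₀)
    (hS : S ⊆ T) (hS1 : 1 ≤ S.card) {n : ℕ} {δ : ℝ} (hδ : 0 ≤ δ)
    (hav : ∀ J ⊆ T, (∀ T' ⊆ S, Disjoint T' J →
      ∑ f ∈ mai_s T D₀ n S, ((NT T' (f.sc (DJ J)) : ℝ) - 1) ≤
        2 / 2 ^ T'.card * ((mai_s T D₀ n S).card : ℝ) + δ) ∧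
      2 * ((mai_s T D₀ n S).card : ℝ) - δ ≤
        ∑ f ∈ mai_s T D₀ n S, ((NT ∅ (f.sc (DJ J)) : ℝ) - 1)) :
    MaiH (mai_s T D₀ n S) T S (fun T' J f => NT T' (f.sc (DJ J))) δ where
  sub := hS
  pos := hS1
  d0 := hδ
  up := fun J hJ T' hT' hd => (hav J hJ).1 T' hT' hd
  low := fun J hJ => (hav J hJ).2
  h1 := fun f hf J hJ P hP hPJ => by
    have h := mai_mem.1 hf
    exact ((hfln F h2 T D₀ hC f h.2.1 J hJ).2.2 P (hS hP) hPJ ((h.2.2 P (hS hP)).2 hP)).1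
  h4 := fun f hf J hJ P hP hPJ T' hT' => by
    have h := mai_mem.1 hf
    exact ((hfln F h2 T D₀ hC f h.2.1 J hJ).2.2 P (hS hP) hPJ
      ((h.2.2 P (hS hP)).2 hP)).2.2.2 T' hT'

open Classical in
theorem mai_cnt (hfln : S_fln) (hpwt : S_pwt) (h2 : (2 : F) ≠ 0) {T S : Finset (Pl F)} {D₀ : ℕ}
    (hC : Cfg T D₀) (hS : S ⊆ T) (hS1 : 1 ≤ S.card) {n : ℕ} {δ : ℝ} (hδ : 0 ≤ δ)
    (hav : ∀ J ⊆ T, (∀ T' ⊆ S, Disjoint T' J →
      ∑ f ∈ mai_s T D₀ n S, ((NT T' (f.sc (DJ J)) : ℝ) - 1) ≤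
        2 / 2 ^ T'.card * ((mai_s T D₀ n S).card : ℝ) + δ) ∧
      2 * ((mai_s T D₀ n S).card : ℝ) - δ ≤
        ∑ f ∈ mai_s T D₀ n S, ((NT ∅ (f.sc (DJ J)) : ℝ) - 1)) {ε : ℝ} (hε : 0 < ε) :
    (((mai_s T D₀ n S).filter (fun f => ∃ k, ε < |prp T f k - Cd k|)).card : ℝ) ≤
      15 / Real.sqrt S.card / ε * (mai_s T D₀ n S).card +
      (30 * Real.sqrt S.card / ε + 5 * 2 ^ T.card * T.card) * δ := by
  refine (mai_H hfln h2 hC hS hS1 hδ hav).count hε ?_ _ ?_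
  · intro f hf J hJ
    have h := mai_mem.1 hf
    exact mai_Vf_nonneg S _ (hfln F h2 T D₀ hC f h.2.1 J hJ).1
  · rintro f hf hbal ⟨k, hk⟩
    have h := mai_mem.1 hf
    have hSf := mai_Sf hS h
    have h1 := hpwt F h2 T D₀ hC f h.2.1 (by rw [hSf]; exact hS1)
      (fun J hJ P hP hPJ => hbal J hJ P (by rw [← hSf]; exact hP) hPJ) k
    rw [hSf] at h1
    exact hk.trans_le h1

open Classical in
theorem mai_main (hbadc : S_badc) (hcsq : PP.S_csq) :
    S_fln → S_avg → S_typ → S_bdr → S_sel → S_pwt → S_mai := by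
  intro hfln havg htyp hbdr hsel hpwt F _ _ h2 ε hε
  obtain ⟨q, hq⟩ : ∃ q : ℝ, q = (Fintype.card F : ℝ) := ⟨_, rfl⟩
  have hq1 : 1 < q := by
    rw [hq]
    exact_mod_cast Fintype.one_lt_card
  obtain ⟨n₀, hn₀⟩ : ∃ n₀ : ℕ, (120 / ε ^ 2) ^ 2 ≤ (n₀ : ℝ) := exists_nat_ge _
  obtain ⟨m₀, hm₀⟩ := htyp F h2 (ε / 8) (n₀ + 1) (by positivity)
  obtain ⟨D₀, hD₀⟩ := hcsq F h2 (ε / 8) (by positivity)
  obtain ⟨d₁, hd₁⟩ := pow_unbounded_of_one_lt (((m₀ + 1 : ℕ) : ℝ) * 3 / (ε / 8)) hq1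
  obtain ⟨T, hTm, hC, hTd⟩ := hsel F h2 D₀ (m₀ + 1) d₁
  refine ⟨T, hC.even, by rw [← Finset.card_pos, hTm]; omega, ?_⟩
  -- the constants
  obtain ⟨C₁, hC₁⟩ : ∃ C₁ : ℝ, C₁ = 30 * Real.sqrt T.card / ε + 5 * 2 ^ T.card * T.card :=
    ⟨_, rfl⟩
  have hC₁0 : 0 ≤ C₁ := by
    rw [hC₁]
    positivity
  obtain ⟨ε₁, hε₁⟩ : ∃ ε₁ : ℝ, ε₁ = ε / 8 / (2 ^ T.card * (C₁ + 1)) := ⟨_, rfl⟩
  have hε₁0 : 0 < ε₁ := by
    rw [hε₁]
    positivity
  have hε₁' : 2 ^ T.card * C₁ * ε₁ ≤ ε / 8 := by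
    have h1 : 2 ^ T.card * (C₁ + 1) * ε₁ = ε / 8 := by
      rw [hε₁]
      field_simp
    have h3 : (0 : ℝ) ≤ 2 ^ T.card * ε₁ := by positivity
    nlinarith
  have E1 := hbadc F h2 (ε / 8) (by positivity)
  have E3 : ∀ᶠ n in atTop, ∀ P ∈ T, (((Sb F n).filter (fun f => P.1 ∣ f.disc)).card : ℝ) ≤
      3 / (Fintype.card F : ℝ) ^ P.1.natDegree * (Fintype.card F : ℝ) ^ (12 * n + 3) :=
    (Finset.eventually_all T).2 fun P _ => hbdr F h2 P
  have E4 := hm₀ T (by rw [hTm]; omega)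
  have E5 : ∀ᶠ n in atTop, ∀ S ∈ T.powerset, ∀ J ∈ T.powerset,
      (∀ T' ⊆ S, Disjoint T' J → ∑ f ∈ mai_s T D₀ n S, ((NT T' (f.sc (DJ J)) : ℝ) - 1) ≤
        2 / 2 ^ T'.card * ((mai_s T D₀ n S).card : ℝ) +
          ε₁ * (Fintype.card F : ℝ) ^ (12 * n + 3)) ∧
      2 * ((mai_s T D₀ n S).card : ℝ) - ε₁ * (Fintype.card F : ℝ) ^ (12 * n + 3) ≤
        ∑ f ∈ mai_s T D₀ n S, ((NT ∅ (f.sc (DJ J)) : ℝ) - 1) := by
    rw [Finset.eventually_all]
    intro S hS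
    rw [Finset.eventually_all]
    intro J hJ
    filter_upwards [havg F h2 T D₀ hC S (Finset.mem_powerset.1 hS) J (Finset.mem_powerset.1 hJ)
      ε₁ hε₁0] with n hn
    exact hn (mai_s T D₀ n S) fun f => mai_mem
  filter_upwards [E1, hD₀, E3, E4, E5] with n e1 e2 e3 e4 e5
  obtain ⟨B, hB⟩ : ∃ B : ℝ, B = (Fintype.card F : ℝ) ^ (12 * n + 3) := ⟨_, rfl⟩
  have hB0 : 0 < B := by
    rw [hB, ← hq]
    positivity
  rw [← hB] at e1 e2 e4 ⊢
  simp only [← hB] at e3 e5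
  -- the inclusion
  have hsub : (Msh F n).filter (fun f => ∃ k, ε < |prp T f k - Cd k|) ⊆
      (Sb F n).filter (fun f => BadC f) ∪
      ((Sb F n).filter (fun f => ∃ P : Pl F, D₀ < P.1.natDegree ∧ P.1 ^ 2 ∣ f.disc) ∪
      ((T.biUnion fun P => (Sb F n).filter (fun f => P.1 ∣ f.disc)) ∪
      ((Sb F n).filter (fun f => (Sf T f).card < n₀ + 1) ∪
      ((T.powerset.filter fun S => n₀ + 1 ≤ S.card).biUnion fun S =>
        (mai_s T D₀ n S).filter (fun f => ∃ k, ε < |prp T f k - Cd k|))))) := by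
    intro f hf
    rw [mem_filter] at hf
    obtain ⟨hfM, hfb⟩ := hf
    have hfS : f ∈ Sb F n := by
      unfold Msh at hfM
      exact (Finset.mem_filter.1 hfM).1
    simp only [mem_union, mem_biUnion, mem_filter, mem_powerset]
    by_cases c1 : BadC f
    · exact Or.inl ⟨hfS, c1⟩
    right
    by_cases c2 : ∃ P : Pl F, D₀ < P.1.natDegree ∧ P.1 ^ 2 ∣ f.disc
    · exact Or.inl ⟨hfS, c2⟩
    right
    by_cases c3 : ∃ P ∈ T, P.1 ∣ f.disc
    · obtain ⟨P, hP, hd⟩ := c3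
      exact Or.inl ⟨P, hP, hfS, hd⟩
    right
    by_cases c4 : (Sf T f).card < n₀ + 1
    · exact Or.inl ⟨hfS, c4⟩
    right
    refine ⟨Sf T f, ⟨Finset.filter_subset _ _, not_lt.1 c4⟩, mai_mem.2 ⟨hfM, ⟨?_, ?_, c1⟩, ?_⟩,
      hfb⟩
    · intro P hP hd
      exact c3 ⟨P, hP, hd⟩
    · intro P hP hd
      exact c2 ⟨P, hP, hd⟩
    · intro P hP
      unfold Sf
      rw [mem_filter]
      exact ⟨fun h1 => ⟨hP, h1⟩, fun h1 => h1.2⟩
  -- the third set
  have h3 : (((T.biUnion fun P => (Sb F n).filter (fun f => P.1 ∣ f.disc)).card : ℕ) : ℝ) ≤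
      ε / 8 * B := by
    have h4 : (((T.biUnion fun P => (Sb F n).filter (fun f => P.1 ∣ f.disc)).card : ℕ) : ℝ) ≤
        ∑ P ∈ T, (((Sb F n).filter (fun f => P.1 ∣ f.disc)).card : ℝ) := by
      exact_mod_cast Finset.card_biUnion_le
    refine h4.trans ?_
    have h5 : ∀ P ∈ T, (((Sb F n).filter (fun f => P.1 ∣ f.disc)).card : ℝ) ≤
        3 / q ^ d₁ * B := by
      intro P hP
      refine (e3 P hP).trans (mul_le_mul_of_nonneg_right ?_ hB0.le)
      rw [← hq]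
      exact div_le_div_of_nonneg_left (by norm_num) (by positivity)
        (pow_le_pow_right₀ hq1.le (hTd P hP).le)
    refine (Finset.sum_le_sum h5).trans ?_
    rw [Finset.sum_const, hTm, nsmul_eq_mul, ← mul_assoc]
    refine mul_le_mul_of_nonneg_right ?_ hB0.le
    rw [div_lt_iff₀ (by positivity)] at hd₁
    rw [mul_div_assoc', div_le_iff₀ (by positivity)]
    linarith
  -- the last set
  have h5 : ((((T.powerset.filter fun S => n₀ + 1 ≤ S.card).biUnion fun S =>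
        (mai_s T D₀ n S).filter (fun f => ∃ k, ε < |prp T f k - Cd k|)).card : ℕ) : ℝ) ≤
      ε / 8 * B + ε / 8 * B := by
    have h6 : ((((T.powerset.filter fun S => n₀ + 1 ≤ S.card).biUnion fun S =>
        (mai_s T D₀ n S).filter (fun f => ∃ k, ε < |prp T f k - Cd k|)).card : ℕ) : ℝ) ≤
        ∑ S ∈ T.powerset.filter fun S => n₀ + 1 ≤ S.card,
          (((mai_s T D₀ n S).filter (fun f => ∃ k, ε < |prp T f k - Cd k|)).card : ℝ) := by
      exact_mod_cast Finset.card_biUnion_le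
    refine h6.trans ?_
    have h7 : ∀ S ∈ T.powerset.filter fun S => n₀ + 1 ≤ S.card,
        (((mai_s T D₀ n S).filter (fun f => ∃ k, ε < |prp T f k - Cd k|)).card : ℝ) ≤
        ε / 8 * (mai_s T D₀ n S).card + C₁ * (ε₁ * B) := by
      intro S hS
      rw [mem_filter, mem_powerset] at hS
      have h8 := mai_cnt hfln hpwt h2 hC hS.1 (by omega) (δ := ε₁ * B) (by positivity)
        (n := n) (fun J hJ => e5 S (mem_powerset.2 hS.1) J (mem_powerset.2 hJ)) hε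
      refine h8.trans (add_le_add (mul_le_mul_of_nonneg_right ?_ (Nat.cast_nonneg _))
        (mul_le_mul_of_nonneg_right ?_ (by positivity)))
      · have h9 : 120 / ε ^ 2 ≤ Real.sqrt S.card := by
          refine Real.le_sqrt_of_sq_le (hn₀.trans ?_)
          have : n₀ ≤ S.card := by omega
          exact_mod_cast this
        have h10 : 0 < 120 / ε ^ 2 := by positivity
        have h11 : 0 < Real.sqrt S.card := lt_of_lt_of_le h10 h9
        rw [div_div, div_le_iff₀ (mul_pos h11 hε)]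
        rw [div_le_iff₀ (by positivity)] at h9
        nlinarith
      · rw [hC₁]
        have h9 : Real.sqrt S.card ≤ Real.sqrt T.card := by
          refine Real.sqrt_le_sqrt ?_
          exact_mod_cast Finset.card_le_card hS.1
        have h10 : 30 * Real.sqrt S.card / ε ≤ 30 * Real.sqrt T.card / ε :=
          div_le_div_of_nonneg_right (by linarith) hε.le
        linarith
    refine (Finset.sum_le_sum h7).trans ?_
    rw [Finset.sum_add_distrib, ← Finset.mul_sum, Finset.sum_const, nsmul_eq_mul]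
    refine add_le_add (mul_le_mul_of_nonneg_left ?_ (by positivity)) ?_
    · -- disjointness
      have h8 : ∑ S ∈ T.powerset.filter fun S => n₀ + 1 ≤ S.card, (mai_s T D₀ n S).card =
          ((T.powerset.filter fun S => n₀ + 1 ≤ S.card).biUnion fun S => mai_s T D₀ n S).card := by
        rw [Finset.card_biUnion]
        intro S hS S' hS' hne
        rw [Finset.mem_coe, mem_filter, mem_powerset] at hS hS'
        change Disjoint (mai_s T D₀ n S) (mai_s T D₀ n S')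
        rw [Finset.disjoint_left]
        intro f hf hf'
        apply hne
        rw [← mai_Sf hS.1 (mai_mem.1 hf), ← mai_Sf hS'.1 (mai_mem.1 hf')]
      have h9 : ((T.powerset.filter fun S => n₀ + 1 ≤ S.card).biUnion
          fun S => mai_s T D₀ n S) ⊆ Sb F n := by
        intro f hf
        rw [mem_biUnion] at hf
        obtain ⟨S, -, hf⟩ := hf
        have hfM := (mai_mem.1 hf).1
        unfold Msh at hfM
        exact (Finset.mem_filter.1 hfM).1
      have h10 := Finset.card_le_card h9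
      rw [← h8, card_Sb] at h10
      rw [hB]
      exact_mod_cast h10
    · have h8 : (((T.powerset.filter fun S => n₀ + 1 ≤ S.card).card : ℕ) : ℝ) ≤ 2 ^ T.card := by
        have h9 := Finset.card_filter_le T.powerset fun S => n₀ + 1 ≤ S.card
        rw [Finset.card_powerset] at h9
        exact_mod_cast h9
      have h9 := mul_le_mul_of_nonneg_right h8 (by positivity : 0 ≤ C₁ * (ε₁ * B))
      have h10 := mul_le_mul_of_nonneg_right hε₁' hB0.le
      linarith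
  have hcard := (Finset.card_le_card hsub).trans ((Finset.card_union_le _ _).trans
    (Nat.add_le_add_left ((Finset.card_union_le _ _).trans (Nat.add_le_add_left
      ((Finset.card_union_le _ _).trans (Nat.add_le_add_left (Finset.card_union_le _ _) _)) _)) _))
  have hcard' : (((Msh F n).filter (fun f => ∃ k, ε < |prp T f k - Cd k|)).card : ℝ) ≤
      (((Sb F n).filter (fun f => BadC f)).card : ℝ) +
      ((((Sb F n).filter (fun f => ∃ P : Pl F, D₀ < P.1.natDegree ∧ P.1 ^ 2 ∣ f.disc)).card : ℝ) +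
      (((T.biUnion fun P => (Sb F n).filter (fun f => P.1 ∣ f.disc)).card : ℝ) +
      ((((Sb F n).filter (fun f => (Sf T f).card < n₀ + 1)).card : ℝ) +
      (((T.powerset.filter fun S => n₀ + 1 ≤ S.card).biUnion fun S =>
        (mai_s T D₀ n S).filter (fun f => ∃ k, ε < |prp T f k - Cd k|)).card : ℝ)))) := by
    exact_mod_cast hcard
  linarith

end mai_conc

theorem t_mai : S_fln → S_avg → S_typ → S_bdr → S_sel → S_pwt → S_mai :=
  mai_main t_badc (PP.t_csq PP.t_dloc)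

end Pool.Agent.H456.PR
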