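import Pool.Agent.H456.PR.Def

/-!
# Consequences of the law: statements
-/

set_option autoImplicit false
set_option linter.all false

open Polynomial Finset Filter
open Pool.Agent.H456.EC (toK toK_inj sig toK_eq reflect_toK cls)
open Pool.Agent.H456.RN
open Pool.Agent.H456.BQ
open Pool.Agent.H456.Coh (SelmerGroup torsionPts primaryPts)

namespace Pool.Agent.H456.PR

open Classical in
/-- **(rk)** the rank is bounded by the dimension of the 2-Selmer group. -/
def S_rk : Prop := ∀ (F : Type) [Field F] [Fintype F], (2 : F) ≠ 0 → ∀ E : WeierstrassCurve (RatFunc F), E.Δ ≠ 0 →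
  ∀ k : ℕ, Nat.card (SelmerGroup E (torsionPts E 2)) = 2 ^ k →
    AddGroup.FG E.toAffine.Point ∧ Module.finrank ℤ E.toAffine.Point ≤ k ∧ (k = 0 → Finite E.toAffine.Point)

open Classical in
/-- **(sh)** if the 2-Selmer group is trivial then the Selmer group for `E[2^∞]` is trivial. -/
def S_sh : Prop := ∀ (F : Type) [Field F] [Fintype F], (2 : F) ≠ 0 → ∀ E : WeierstrassCurve (RatFunc F), E.Δ ≠ 0 →
  Nat.card (SelmerGroup E (torsionPts E 2)) = 1 → Nat.card (SelmerGroup E (primaryPts E 2)) = 1

/-- **(num)** numerical values. -/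
def S_num : Prop := (0.2097 : ℝ) < Cd 0 ∧ Cd 1 = 2 * Cd 0 ∧ HasSum Cd 1

end Pool.Agent.H456.PR
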