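import Pool.Agent.H456.PR.Stm
import Pool.Agent.H456.PR.Stm2

/-!
(num) `Cd k = (∏' (1 + 2^-j))⁻¹ * ak k` (PR/Def.lean), `ak 0 = 1`, `ak 1 = 2`. `HasSum Cd 1` from `S_eul` (PR/Stm.lean; `HasSum ak (∏' ...)`, `∏' ≥ 4 > 0`). `0.2097 < Cd 0`: `∏' (1 + 2^-j) < 4.7686`: the product is `4.76846...`: partial product of the first `12` factors (rational number, `norm_num`) times the tail: `∏_{j ≥ 12} (1 + 2^-j) ≤ exp (∑_{j ≥ 12} 2^-j) = exp(2^-11)` and `exp x ≤ 1 + x + x²` for `0 ≤ x ≤ 1`, or by induction `∏_{12 ≤ j < N} (1 + 2^-j) ≤ 1 + 2·2^(-11)...`: a bound like `≤ 1 + 2^(-10.9)` is too weak with 12 factors? choose more factors (16 or 20) so that the product is below `4.7686`.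
-/

set_option autoImplicit false
set_option linter.all false

open Polynomial Finset Filter
open Pool.Agent.H456.EC (toK toK_inj sig toK_eq reflect_toK cls)
open Pool.Agent.H456.RN
open Pool.Agent.H456.BQ
open Pool.Agent.H456.Coh (SelmerGroup torsionPts primaryPts)

namespace Pool.Agent.H456.PR

theorem num_step (n : ℕ) : (∏ j ∈ range (16 + n), (1 + (1 / 2 : ℝ) ^ j)) *
    (1 - (1 / 2) ^ 15 + (1 / 2) ^ (15 + n)) ≤ ∏ j ∈ range 16, (1 + (1 / 2 : ℝ) ^ j) := by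
  induction n with
  | zero =>
    refine le_of_eq ?_
    simp only [add_zero]
    ring
  | succ n ih =>
    refine le_trans ?_ ih
    rw [← add_assoc, prod_range_succ, mul_assoc]
    have hp : 0 ≤ ∏ j ∈ range (16 + n), (1 + (1 / 2 : ℝ) ^ j) :=
      prod_nonneg fun j _ => by positivity
    refine mul_le_mul_of_nonneg_left ?_ hp
    have h1 : (1 / 2 : ℝ) ^ (15 + (n + 1)) = (1 / 2) ^ (15 + n) / 2 := by
      rw [← add_assoc, pow_succ]
      ring
    have h2 : (1 / 2 : ℝ) ^ (16 + n) = (1 / 2) ^ (15 + n) / 2 := by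
      rw [show 16 + n = (15 + n) + 1 by omega, pow_succ]
      ring
    rw [h1, h2]
    have h3 : (0 : ℝ) ≤ (1 / 2 : ℝ) ^ (15 + n) := by positivity
    have h4 : (1 / 2 : ℝ) ^ (15 + n) ≤ (1 / 2) ^ 15 :=
      pow_le_pow_of_le_one (by norm_num) (by norm_num) (by omega)
    nlinarith [mul_nonneg h3 (sub_nonneg.2 h4)]

theorem num_bd (h : Multipliable (fun j : ℕ => (1 + (1 / 2 : ℝ) ^ j))) :
    (∏' j : ℕ, (1 + (1 / 2 : ℝ) ^ j)) * (1 - (1 / 2) ^ 15) ≤
      ∏ j ∈ range 16, (1 + (1 / 2 : ℝ) ^ j) := by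
  have h1 := h.hasProd.tendsto_prod_nat
  have h2 := h1.mul_const (1 - (1 / 2 : ℝ) ^ 15)
  refine le_of_tendsto h2 ?_
  filter_upwards [eventually_ge_atTop 16] with N hN
  obtain ⟨n, rfl⟩ := Nat.exists_eq_add_of_le hN
  refine le_trans ?_ (num_step n)
  refine mul_le_mul_of_nonneg_left ?_ (prod_nonneg fun j _ => by positivity)
  have h3 : (0 : ℝ) ≤ (1 / 2 : ℝ) ^ (15 + n) := by positivity
  linarith

theorem num_ak0 : ak 0 = 1 := by simp [ak]
theorem num_ak1 : ak 1 = 2 := by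
  unfold ak
  rw [prod_range_succ, prod_range_zero]
  norm_num

theorem t_num : S_eul → S_num := by
  rintro ⟨h1, h2, h3⟩
  have hb := num_bd h1
  have hP : (0 : ℝ) < ∏' j : ℕ, (1 + (1 / 2 : ℝ) ^ j) := by linarith
  refine ⟨?_, ?_, ?_⟩
  · unfold Cd
    rw [num_ak0, mul_one]
    have h4 : (∏' j : ℕ, (1 + (1 / 2 : ℝ) ^ j)) < 4.7687 := by
      have h5 : ∏ j ∈ range 16, (1 + (1 / 2 : ℝ) ^ j) < 4.7687 * (1 - (1 / 2) ^ 15) := by
        simp only [prod_range_succ, prod_range_zero]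
        norm_num
      have h6 : (0 : ℝ) < 1 - (1 / 2) ^ 15 := by norm_num
      exact lt_of_mul_lt_mul_right (lt_of_le_of_lt hb h5) h6.le
    have h7 := inv_strictAnti₀ hP h4
    refine lt_trans ?_ h7
    norm_num
  · unfold Cd
    rw [num_ak0, num_ak1]
    ring
  · have h4 := h2.mul_left (∏' j : ℕ, (1 + (1 / 2 : ℝ) ^ j))⁻¹
    rw [inv_mul_cancel₀ hP.ne'] at h4
    exact h4

end Pool.Agent.H456.PR
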