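import Pool.Agent.H456.PR.Stm

/-!
(prd) Bimultiplicativity: from the first part of `S_qr`, `hs P (a a') b = hs P a b * hs P a' b` for nonzero `a, a', b`, and `hs P a b = hs P b a`; `hi (a a') b = hi a b * hi a' b` (the argument of `IsSquare` in `F` is multiplicative, products of two nonsquares are squares in a finite field), `hi` symmetric. Values are `±1` for nonzero `a, b` (the argument of `lg` is prime to `P`). For fixed `a, b ≠ 0`, `hs P a b = 1` if `P ∤ a b`. Let `S` be a finite set of places containing all `P ∣ a b`, PRODUCT FORMULA: `(∏_{P ∈ S} hs P a b) * hi a b = 1`.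
By bimultiplicativity and factorization (`a = C c * ∏` monic irreducibles; induct with `UniqueFactorizationMonoid.induction_on_prime` or on the degree) it is enough to treat `a, b ∈ {C c} ∪ {P.1}`: `(C c, C c')`: everything is `1`. `(C c, P)`: `hs P = lg P (C c)`, `= 1` iff `deg P` even or `c` a square, and `hi = 1` iff `c ^ deg P` is a square: equal. `(P, Q)`, `P ≠ Q`: `hs P P Q = lg P Q`, `hs Q P Q = lg Q P`, `hi = 1` iff `(-1)^(deg P deg Q)` is a square in `F`: third part of `S_qr`. `(P, P)`: `hs P P P = lg P (-1)` and `hi = ` class of `(-1)^(d²)`: second part of `S_qr` with `c = -1`.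
(Alternatively use `(P, P) = (P, -P)·(P, -1)`.) Then `S_prd`: all factors but the one at `P₀` are `1`, so the last one is `1`.
-/

set_option autoImplicit false
set_option linter.all false

open Polynomial Finset Filter
open Pool.Agent.H456.EC (toK toK_inj sig toK_eq reflect_toK cls)
open Pool.Agent.H456.RN
open Pool.Agent.H456.BQ
open Pool.Agent.H456.Coh (TF)
open Pool.Agent.H456.PP (OneR HasRt sx hh Tz Tq Iso3 nr IsoP nrP)

namespace Pool.Agent.H456.PR

theorem prd_prime {F : Type} [Field F] (P : Pl F) : Prime P.1 := P.2.2.prime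

theorem prd_ne {F : Type} [Field F] (P : Pl F) (k : ℕ) : P.1 ^ k ≠ 0 := pow_ne_zero k P.2.2.ne_zero

theorem prd_mult {F : Type} [Field F] (P : Pl F) {a b : F[X]} (ha : a ≠ 0) (hb : b ≠ 0) :
    multiplicity P.1 (a * b) = multiplicity P.1 a + multiplicity P.1 b :=
  multiplicity_mul (prd_prime P) (FiniteMultiplicity.of_prime_left (prd_prime P) (mul_ne_zero ha hb))

theorem prd_cf {F : Type} [Field F] (P : Pl F) (a : F[X]) :
    P.1 ^ multiplicity P.1 a * (a / P.1 ^ multiplicity P.1 a) = a :=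
  EuclideanDomain.mul_div_cancel' (prd_ne P _) (pow_multiplicity_dvd _ _)

theorem prd_cf_mul {F : Type} [Field F] (P : Pl F) {a b : F[X]} (ha : a ≠ 0) (hb : b ≠ 0) :
    (a * b) / P.1 ^ multiplicity P.1 (a * b) =
      (a / P.1 ^ multiplicity P.1 a) * (b / P.1 ^ multiplicity P.1 b) := by
  apply mul_left_cancel₀ (prd_ne P (multiplicity P.1 (a * b)))
  rw [prd_cf]
  nth_rewrite 1 [← prd_cf P a, ← prd_cf P b]
  rw [prd_mult P ha hb, pow_add]
  ring

theorem prd_hs_mul {F : Type} [Field F] (h1 : ∀ (P : Pl F) (u v : F[X]), lg P (u * v) = lg P u * lg P v)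
    (P : Pl F) {a a' : F[X]} (b : F[X]) (ha : a ≠ 0) (ha' : a' ≠ 0) :
    hs P (a * a') b = hs P a b * hs P a' b := by
  unfold hs
  rw [← h1, prd_cf_mul P ha ha', prd_mult P ha ha']
  congr 1
  ring

theorem prd_hs_comm {F : Type} [Field F] (P : Pl F) (a b : F[X]) : hs P a b = hs P b a := by
  unfold hs
  congr 1
  ring

theorem prd_lg_one {F : Type} [Field F] (P : Pl F) : lg P 1 = 1 := by
  unfold lg
  rw [if_neg (fun h => P.2.2.not_isUnit (isUnit_of_dvd_one h)), if_pos ⟨1, by rw [one_pow, sub_self]; exact dvd_zero _⟩]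

theorem prd_hs_one {F : Type} [Field F] (P : Pl F) {a b : F[X]} (ha : ¬ P.1 ∣ a) (hb : ¬ P.1 ∣ b) : hs P a b = 1 := by
  unfold hs
  rw [multiplicity_eq_zero.2 ha, multiplicity_eq_zero.2 hb]
  simp only [mul_zero, pow_zero, one_mul]
  exact prd_lg_one P

theorem prd_finD {F : Type} [Field F] {a : F[X]} (ha : a ≠ 0) : {P : Pl F | P.1 ∣ a}.Finite := by
  classical
  have h : (Subtype.val '' {P : Pl F | P.1 ∣ a}).Finite := by
    apply (UniqueFactorizationMonoid.normalizedFactors a).toFinset.finite_toSet.subset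
    rintro x ⟨P, hP, rfl⟩
    rw [Finset.mem_coe, Multiset.mem_toFinset, UniqueFactorizationMonoid.mem_normalizedFactors_iff' ha]
    exact ⟨P.2.2, P.2.1.normalize_eq_self, hP⟩
  exact Set.Finite.of_finite_image h Subtype.val_injective.injOn

theorem prd_fin {F : Type} [Field F] {a b : F[X]} (ha : a ≠ 0) (hb : b ≠ 0) :
    Function.HasFiniteMulSupport (fun P : Pl F => hs P a b) := by
  apply (prd_finD (mul_ne_zero ha hb)).subset
  intro P hP
  rw [Function.mem_mulSupport] at hP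
  by_contra h
  apply hP
  exact prd_hs_one P (fun h1 => h (dvd_mul_of_dvd_left h1 _)) (fun h1 => h (dvd_mul_of_dvd_right h1 _))

theorem prd_hi_iff {F : Type} [Field F] (a b : F[X]) : hi a b = 1 ↔
    IsSquare ((-1) ^ (a.natDegree * b.natDegree) * a.leadingCoeff ^ b.natDegree * b.leadingCoeff ^ a.natDegree) := by
  unfold hi
  constructor
  · intro h
    by_contra h6
    rw [if_neg h6] at h
    norm_num at h
  · intro h
    rw [if_pos h]

theorem prd_hi_or {F : Type} [Field F] (a b : F[X]) : hi a b = 1 ∨ hi a b = -1 := by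
  unfold hi
  split_ifs
  · exact Or.inl rfl
  · exact Or.inr rfl

open Classical in
theorem prd_hi_eq {F : Type} [Field F] [Fintype F] {a b : F[X]} (ha : a ≠ 0) (hb : b ≠ 0) :
    hi a b = quadraticChar F ((-1) ^ (a.natDegree * b.natDegree) * a.leadingCoeff ^ b.natDegree *
      b.leadingCoeff ^ a.natDegree) := by
  have h0 : (-1) ^ (a.natDegree * b.natDegree) * a.leadingCoeff ^ b.natDegree * b.leadingCoeff ^ a.natDegree ≠ 0 :=
    mul_ne_zero (mul_ne_zero (pow_ne_zero _ (neg_ne_zero.2 one_ne_zero)) (pow_ne_zero _ (leadingCoeff_ne_zero.2 ha)))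
      (pow_ne_zero _ (leadingCoeff_ne_zero.2 hb))
  have h1 := prd_hi_iff a b
  rw [quadraticChar_apply, quadraticCharFun, if_neg h0]
  by_cases h : IsSquare ((-1) ^ (a.natDegree * b.natDegree) * a.leadingCoeff ^ b.natDegree *
      b.leadingCoeff ^ a.natDegree)
  · rw [if_pos h]
    exact h1.2 h
  · rw [if_neg h]
    rcases prd_hi_or a b with h2 | h2
    · exact absurd (h1.1 h2) h
    · exact h2

theorem prd_hi_mul {F : Type} [Field F] [Fintype F] {a a' b : F[X]} (ha : a ≠ 0) (ha' : a' ≠ 0) (hb : b ≠ 0) :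
    hi (a * a') b = hi a b * hi a' b := by
  classical
  rw [prd_hi_eq (mul_ne_zero ha ha') hb, prd_hi_eq ha hb, prd_hi_eq ha' hb, ← map_mul, natDegree_mul ha ha',
    leadingCoeff_mul]
  congr 1
  ring

theorem prd_hi_comm {F : Type} [Field F] (a b : F[X]) : hi a b = hi b a := by
  unfold hi
  rw [mul_comm a.natDegree, mul_right_comm]

/-- the product formula -/
def prd_PF {F : Type} [Field F] (a b : F[X]) : Prop := (∏ᶠ P : Pl F, hs P a b) * hi a b = 1

theorem prd_PF_mul {F : Type} [Field F] [Fintype F] (h1 : ∀ (P : Pl F) (u v : F[X]), lg P (u * v) = lg P u * lg P v)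
    {a a' b : F[X]} (ha : a ≠ 0) (ha' : a' ≠ 0) (hb : b ≠ 0) (h : prd_PF a b) (h' : prd_PF a' b) :
    prd_PF (a * a') b := by
  unfold prd_PF at *
  rw [prd_hi_mul ha ha' hb, finprod_congr (fun P => prd_hs_mul h1 P b ha ha'),
    finprod_mul_distrib (prd_fin ha hb) (prd_fin ha' hb), mul_mul_mul_comm, h, h', mul_one]

theorem prd_PF_comm {F : Type} [Field F] {a b : F[X]} (h : prd_PF a b) : prd_PF b a := by
  unfold prd_PF at *
  rw [prd_hi_comm, finprod_congr (fun P => prd_hs_comm P b a)]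
  exact h

theorem prd_ind {F : Type} [Field F] (Q : F[X] → Prop) (hC : ∀ c : F, c ≠ 0 → Q (C c)) (hP : ∀ P : Pl F, Q P.1)
    (hm : ∀ a b : F[X], a ≠ 0 → b ≠ 0 → Q a → Q b → Q (a * b)) (a : F[X]) (ha : a ≠ 0) : Q a := by
  classical
  revert ha
  refine UniqueFactorizationMonoid.induction_on_prime (P := fun a => a ≠ 0 → Q a) a ?_ ?_ ?_
  · intro h
    exact absurd rfl h
  · intro x hx hx0
    obtain ⟨c, hc, rfl⟩ := Polynomial.isUnit_iff.1 hx
    exact hC c hc.ne_zero
  · intro a p ha hp ih _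
    have hp0 := hp.ne_zero
    have h1 : Q p := by
      have h2 : p = C p.leadingCoeff * (p * C p.leadingCoeff⁻¹) := by
        rw [mul_left_comm, ← C_mul, mul_inv_cancel₀ (leadingCoeff_ne_zero.2 hp0), C_1, mul_one]
      have h3 : (p * C p.leadingCoeff⁻¹).Monic := monic_mul_leadingCoeff_inv hp0
      have h4 : Irreducible (p * C p.leadingCoeff⁻¹) := by
        have hu : IsUnit (C p.leadingCoeff⁻¹) := isUnit_C.2 (inv_ne_zero (leadingCoeff_ne_zero.2 hp0)).isUnit
        exact (irreducible_mul_isUnit hu).2 hp.irreducible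
      rw [h2]
      exact hm _ _ (C_ne_zero.2 (leadingCoeff_ne_zero.2 hp0)) h3.ne_zero (hC _ (leadingCoeff_ne_zero.2 hp0))
        (hP ⟨_, h3, h4⟩)
    exact hm p a hp0 ha h1 (ih ha)

theorem prd_ndC {F : Type} [Field F] (P : Pl F) {c : F} (hc : c ≠ 0) : ¬ P.1 ∣ C c := by
  intro h
  exact P.2.2.not_isUnit (isUnit_of_dvd_unit h (isUnit_C.2 hc.isUnit))

theorem prd_ndP {F : Type} [Field F] {P Q : Pl F} (h : P ≠ Q) : ¬ P.1 ∣ Q.1 := by
  intro h1
  apply h
  apply Subtype.ext
  exact eq_of_monic_of_associated P.2.1 Q.2.1 ((P.2.2.dvd_irreducible_iff_associated Q.2.2).1 h1)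

theorem prd_selfdiv {F : Type} [Field F] (P : Pl F) : P.1 / P.1 ^ multiplicity P.1 P.1 = 1 := by
  rw [multiplicity_self, pow_one]
  exact EuclideanDomain.div_self P.2.2.ne_zero

theorem prd_notdiv {F : Type} [Field F] (P : Pl F) {a : F[X]} (h : ¬ P.1 ∣ a) : a / P.1 ^ multiplicity P.1 a = a := by
  rw [multiplicity_eq_zero.2 h, pow_zero]
  exact EuclideanDomain.div_one a

theorem prd_CC {F : Type} [Field F] {c c' : F} (hc : c ≠ 0) (hc' : c' ≠ 0) : prd_PF (C c) (C c') := by
  unfold prd_PF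
  have h1 : ∀ P : Pl F, hs P (C c) (C c') = 1 := fun P => prd_hs_one P (prd_ndC P hc) (prd_ndC P hc')
  rw [finprod_congr h1, finprod_one, one_mul]
  rw [prd_hi_iff, natDegree_C, natDegree_C]
  simp only [mul_zero, pow_zero, mul_one]
  exact IsSquare.one

theorem prd_sq_pow {F : Type} [Field F] (c : F) (n : ℕ) (hc : c ≠ 0) : IsSquare (c ^ n) ↔ (Even n ∨ IsSquare c) := by
  constructor
  · intro h
    rcases Nat.even_or_odd n with h1 | h1
    · exact Or.inl h1
    · right
      obtain ⟨k, rfl⟩ := h1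
      obtain ⟨r, hr⟩ := h
      refine ⟨r / c ^ k, ?_⟩
      rw [div_mul_div_comm, ← hr, eq_div_iff (mul_ne_zero (pow_ne_zero k hc) (pow_ne_zero k hc))]
      ring
  · rintro (h | h)
    · exact h.isSquare_pow c
    · exact h.pow n

theorem prd_CP {F : Type} [Field F]
    (h2 : ∀ (P : Pl F) (c : F), c ≠ 0 → (lg P (C c) = 1 ↔ (Even P.1.natDegree ∨ IsSquare c)))
    (h3 : ∀ (P : Pl F) (c : F), c ≠ 0 → (lg P (C c) = 1 ∨ lg P (C c) = -1))
    {c : F} (hc : c ≠ 0) (P : Pl F) : prd_PF (C c) P.1 := by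
  unfold prd_PF
  rw [finprod_eq_single (fun Q : Pl F => hs Q (C c) P.1) P (fun Q hQ => prd_hs_one Q (prd_ndC Q hc) (prd_ndP hQ))]
  have h4 : hs P (C c) P.1 = lg P (C c) := by
    unfold hs
    rw [prd_notdiv P (prd_ndC P hc), prd_selfdiv, multiplicity_eq_zero.2 (prd_ndC P hc), multiplicity_self]
    simp only [zero_mul, pow_zero, one_mul, pow_one, mul_one]
  have h5 : hi (C c) P.1 = 1 ↔ (Even P.1.natDegree ∨ IsSquare c) := by
    rw [prd_hi_iff, natDegree_C, leadingCoeff_C, P.2.1.leadingCoeff]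
    simp only [zero_mul, pow_zero, one_mul, one_pow, mul_one]
    exact prd_sq_pow c _ hc
  have h6 := prd_hi_or (C c) P.1
  rw [h4]
  rcases h3 P c hc with h | h <;> rcases h6 with h' | h' <;> rw [h, h']
  · norm_num
  · exfalso
    have := h5.2 ((h2 P c hc).1 h)
    rw [h'] at this
    norm_num at this
  · exfalso
    have := (h2 P c hc).2 (h5.1 h')
    rw [h] at this
    norm_num at this
  · norm_num

theorem prd_PP {F : Type} [Field F]
    (h2 : ∀ (P : Pl F) (c : F), c ≠ 0 → (lg P (C c) = 1 ↔ (Even P.1.natDegree ∨ IsSquare c)))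
    (h3 : ∀ (P : Pl F) (c : F), c ≠ 0 → (lg P (C c) = 1 ∨ lg P (C c) = -1)) (P : Pl F) : prd_PF P.1 P.1 := by
  unfold prd_PF
  rw [finprod_eq_single (fun Q : Pl F => hs Q P.1 P.1) P (fun Q hQ => prd_hs_one Q (prd_ndP hQ) (prd_ndP hQ))]
  have hm1 : (-1 : F) ≠ 0 := neg_ne_zero.2 one_ne_zero
  have h4 : hs P P.1 P.1 = lg P (C (-1)) := by
    unfold hs
    rw [prd_selfdiv, multiplicity_self]
    simp only [one_pow, mul_one, pow_one, C_neg, C_1]
  have h5 : hi P.1 P.1 = 1 ↔ (Even P.1.natDegree ∨ IsSquare (-1 : F)) := by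
    rw [prd_hi_iff, P.2.1.leadingCoeff]
    simp only [one_pow, mul_one]
    rw [prd_sq_pow _ _ hm1, Nat.even_mul, or_self]
  have h6 := prd_hi_or P.1 P.1
  rw [h4]
  rcases h3 P (-1) hm1 with h | h <;> rcases h6 with h' | h' <;> rw [h, h']
  · norm_num
  · exfalso
    have := h5.2 ((h2 P _ hm1).1 h)
    rw [h'] at this
    norm_num at this
  · exfalso
    have := (h2 P _ hm1).2 (h5.1 h')
    rw [h] at this
    norm_num at this
  · norm_num

theorem prd_PQ {F : Type} [Field F] (h3 : ∀ P Q : Pl F, P ≠ Q → (lg P Q.1 * lg Q P.1 = 1 ↔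
      ¬ (Odd P.1.natDegree ∧ Odd Q.1.natDegree ∧ ¬ IsSquare (-1 : F))))
    (h3' : ∀ P Q : Pl F, P ≠ Q → (lg P Q.1 * lg Q P.1 = 1 ∨ lg P Q.1 * lg Q P.1 = -1))
    {P Q : Pl F} (hPQ : P ≠ Q) : prd_PF P.1 Q.1 := by
  classical
  unfold prd_PF
  have hm1 : (-1 : F) ≠ 0 := neg_ne_zero.2 one_ne_zero
  have hf : ∏ᶠ R : Pl F, hs R P.1 Q.1 = ∏ R ∈ ({P, Q} : Finset (Pl F)), hs R P.1 Q.1 := by
    apply finprod_eq_prod_of_mulSupport_subset
    intro R hR
    rw [Function.mem_mulSupport] at hR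
    rw [Finset.coe_insert, Finset.coe_singleton, Set.mem_insert_iff, Set.mem_singleton_iff]
    by_contra h
    rw [not_or] at h
    exact hR (prd_hs_one R (prd_ndP h.1) (prd_ndP h.2))
  rw [hf, prod_pair hPQ]
  have h4 : hs P P.1 Q.1 = lg P Q.1 := by
    unfold hs
    rw [prd_notdiv P (prd_ndP hPQ), prd_selfdiv, multiplicity_eq_zero.2 (prd_ndP hPQ), multiplicity_self]
    simp only [mul_zero, pow_zero, one_mul, pow_one, mul_one]
  have h5 : hs Q P.1 Q.1 = lg Q P.1 := by
    unfold hs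
    rw [prd_notdiv Q (prd_ndP hPQ.symm), prd_selfdiv, multiplicity_eq_zero.2 (prd_ndP hPQ.symm), multiplicity_self]
    simp only [zero_mul, pow_zero, one_mul, pow_one, mul_one]
  rw [h4, h5]
  have h7 : hi P.1 Q.1 = 1 ↔ ¬ (Odd P.1.natDegree ∧ Odd Q.1.natDegree ∧ ¬ IsSquare (-1 : F)) := by
    rw [prd_hi_iff, P.2.1.leadingCoeff, Q.2.1.leadingCoeff]
    simp only [one_pow, mul_one]
    rw [prd_sq_pow _ _ hm1, Nat.even_mul, ← Nat.not_odd_iff_even, ← Nat.not_odd_iff_even]
    tauto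
  have h6 := prd_hi_or P.1 Q.1
  rcases h3' P Q hPQ with h | h <;> rcases h6 with h' | h' <;> rw [h, h']
  · norm_num
  · exfalso
    have := h7.2 ((h3 P Q hPQ).1 h)
    rw [h'] at this
    norm_num at this
  · exfalso
    have := (h3 P Q hPQ).2 (h7.1 h')
    rw [h] at this
    norm_num at this
  · norm_num

theorem t_prd : S_qr → S_prd := by
  classical
  intro hq F _ _ h2F a b ha hb P₀ hP hinf
  obtain ⟨q1, q2, q3⟩ := hq F h2F
  have h2 : ∀ (P : Pl F) (c : F), c ≠ 0 → (lg P (C c) = 1 ↔ (Even P.1.natDegree ∨ IsSquare c)) := by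
    intro P c hc
    rw [q2 P c hc]
    constructor
    · intro h
      by_contra h6
      rw [if_neg h6] at h
      norm_num at h
    · intro h
      rw [if_pos h]
  have h3 : ∀ (P : Pl F) (c : F), c ≠ 0 → (lg P (C c) = 1 ∨ lg P (C c) = -1) := by
    intro P c hc
    rw [q2 P c hc]
    split_ifs
    · exact Or.inl rfl
    · exact Or.inr rfl
  have h4 : ∀ P Q : Pl F, P ≠ Q → (lg P Q.1 * lg Q P.1 = 1 ↔
      ¬ (Odd P.1.natDegree ∧ Odd Q.1.natDegree ∧ ¬ IsSquare (-1 : F))) := by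
    intro P Q hPQ
    rw [q3 P Q hPQ]
    constructor
    · intro h h6
      rw [if_pos h6] at h
      norm_num at h
    · intro h
      rw [if_neg h]
  have h5 : ∀ P Q : Pl F, P ≠ Q → (lg P Q.1 * lg Q P.1 = 1 ∨ lg P Q.1 * lg Q P.1 = -1) := by
    intro P Q hPQ
    rw [q3 P Q hPQ]
    split_ifs
    · exact Or.inr rfl
    · exact Or.inl rfl
  have hPF : prd_PF a b := by
    refine prd_ind (fun a => ∀ b : F[X], b ≠ 0 → prd_PF a b) ?_ ?_ ?_ a ha b hb
    · intro c hc
      apply prd_ind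
      · intro c' hc'
        exact prd_CC hc hc'
      · intro P
        exact prd_CP h2 h3 hc P
      · intro x y hx hy h h'
        exact prd_PF_comm (prd_PF_mul q1 hx hy (C_ne_zero.2 hc) (prd_PF_comm h) (prd_PF_comm h'))
    · intro P
      apply prd_ind
      · intro c' hc'
        exact prd_PF_comm (prd_CP h2 h3 hc' P)
      · intro Q
        by_cases hPQ : P = Q
        · rw [← hPQ]
          exact prd_PP h2 h3 P
        · exact prd_PQ h4 h5 hPQ
      · intro x y hx hy h h'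
        exact prd_PF_comm (prd_PF_mul q1 hx hy P.2.2.ne_zero (prd_PF_comm h) (prd_PF_comm h'))
    · intro x y hx hy h h' b hb
      exact prd_PF_mul q1 hx hy hb (h b hb) (h' b hb)
  unfold prd_PF at hPF
  rw [hinf, mul_one, finprod_eq_single (fun Q : Pl F => hs Q a b) P₀ hP] at hPF
  exact hPF

end Pool.Agent.H456.PR
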