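import Pool.Agent.H456.PR.Stm
import Pool.Agent.H456.Coh.All

/-!
(pw2) `equiv_selmer` (Coh/Asm.lean, with `hypC_all` from Coh/All.lean) gives a bijection of `Sel g` with the group `SelmerGroup (crv g) (torsionPts (crv g) 2)`, in which every element is killed by two (`c σ ∈ torsionPts` i.e. `2 • c σ = 0`, so `2 • c = 0`). A finite additive commutative group of exponent two has order `2 ^ k` (`IsPGroup.iff_card`, via `Multiplicative`, or `AddGroup` exponent / vector space over `ZMod 2`).
-/

set_option autoImplicit false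
set_option linter.all false

open Polynomial Finset Filter
open Pool.Agent.H456.EC (toK toK_inj sig toK_eq reflect_toK cls)
open Pool.Agent.H456.RN
open Pool.Agent.H456.BQ
open Pool.Agent.H456.Coh (TF)
open Pool.Agent.H456.PP (OneR HasRt sx hh Tz Tq Iso3 nr IsoP nrP)

namespace Pool.Agent.H456.PR

theorem pw2_grp {A : Type} [AddCommGroup A] [Finite A] (h : ∀ a : A, 2 • a = 0) :
    ∃ k : ℕ, Nat.card A = 2 ^ k := by
  have hp : Fact (Nat.Prime 2) := ⟨Nat.prime_two⟩
  have hf : Finite (Multiplicative A) := ‹Finite A›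
  have h1 : IsPGroup 2 (Multiplicative A) := by
    intro g
    refine ⟨1, ?_⟩
    rw [pow_one]
    exact h g.toAdd
  exact (IsPGroup.iff_card (p := 2) (G := Multiplicative A)).1 h1

open Classical in
theorem pw2_two {F : Type} [Field F] (E : WeierstrassCurve (RatFunc F))
    (a : Pool.Agent.H456.Coh.SelmerGroup E (Pool.Agent.H456.Coh.torsionPts E 2)) : 2 • a = 0 := by
  obtain ⟨c, rfl⟩ := QuotientAddGroup.mk_surjective a
  have h1 : 2 • c = 0 := by
    apply Subtype.ext
    funext σ
    exact AddMonoidHom.mem_ker.1 (c.2.1 σ)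
  calc 2 • (QuotientAddGroup.mk c : Pool.Agent.H456.Coh.SelmerGroup E
        (Pool.Agent.H456.Coh.torsionPts E 2)) = QuotientAddGroup.mk (2 • c) := rfl
    _ = 0 := by rw [h1]; rfl

theorem t_pw2 : S_pw2 := by
  classical
  intro F _ _ h2 g hg hfin
  obtain ⟨e⟩ := Pool.Agent.H456.Coh.equiv_selmer Pool.Agent.H456.Coh.hypC_all h2 hg
  have hf := Finite.of_equiv _ e.symm
  obtain ⟨k, hk⟩ := pw2_grp (A := Pool.Agent.H456.Coh.SelmerGroup (crv g)
    (Pool.Agent.H456.Coh.torsionPts (crv g) 2)) (fun a => pw2_two (crv g) a)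
  exact ⟨k, by rw [← Nat.card_congr e]; exact hk⟩

end Pool.Agent.H456.PR
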