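import Pool.Agent.H456.PR.Stm
import Pool.Agent.H456.PP.All

/-!
(pwt) Let `S = Sf T f`, `n = #S ≥ 1`, `N_J = NT ∅ (f.sc (DJ J))`, `N1_P(J) = NT {P} (f.sc (DJ J))`. FLIP: for `J ⊆ T`, `P ∈ S \ J`: `N_J = 2^a`, `N_{J∪P} = 2^b` (`S_fln`), `2^a + 2^b = 3 N1`, `2^a ≤ 2 N1`, `2^b ≤ 2 N1`. `a ≠ b` (`3 ∤ 2^(a+1)`); if `a > b`: `2^b ≤ 2^a/2 ≤ N1` and `2^b = 3N1 - 2^a ≥ N1`, so `2^b = N1`, `2^a = 2 N1`, `a = b + 1`; symmetric. So `{N_J, N_{J∪P}} = {N1, 2 N1}`. Also `N1_P(J ∪ P) = N1_P(J)` (last part of `S_fln`). Let `L(J) = Nat.log 2 N_J`, `N_J = 2^L(J)`. Fix `J' ⊆ T \ S`; apply `S_bal` to the cube of the subsets `I ⊆ S`, `d I = L(J' ∪ I)`,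
`u I` = the number of `P ∈ S` with `d (I Δ P) < d I`. For `P ∈ S`, `J = J' ∪ I`: `N_J - N1_P(J) = N_J/2` if `P` decreases `d`, `0` otherwise. So `∑_{P∈S} (N_J - N1_P(J)) = u N_J/2` and `u/n - (1 - 1/N_J) = (2/(n N_J)) (∑_P (N_J - N1_P(J)) - (N_J - 1) n/2)`, whose absolute value is at most `(2/(n N_J)) √((N_J-1) V)` with `V = Vf S (f.sc (DJ J))` by `S_cau` (`A = Sel ...` finite, `z = 0`, `tr = Tr`; `Tr P 0` because `zp` has a root; `NT {P,Q} = Nat.card {σ // Tr P σ ∧ Tr Q σ}`), and `2√((N-1)V) ≤ V/√n + (N-1)√n`, so it is `≤ V/(n√n) + 1/√n` (`N ≥ 1`, `V ≥ 0`; if `N = 1`, `S_cau` gives the left side `= 0` and one needs `V ≥ 0`: `V = ∑_{σ≠0}(...)² ≥ 0`,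
which for `N = 1` is `V = 0`: from the formula, all `NT = 1`: `n(n-1) - (n-1)n = 0`). Hence with `η_{J'} = 2^(-n) ∑_{I ⊆ S} (V_{J'∪I}/(n√n) + 1/√n)` the proportion `p_k(J')` of the `I` with `d I = k` satisfies `|p_k(J') - Cd k| ≤ 10 η_{J'}`; average over the `J' ⊆ T \ S` (`powerset` of `T` ↔ pairs `(J', I)`): `prp T f k` is the average of the `p_k(J')`.
-/

set_option autoImplicit false
set_option linter.all false

open Polynomial Finset Filter
open Pool.Agent.H456.EC (toK toK_inj sig toK_eq reflect_toK cls)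
open Pool.Agent.H456.RN
open Pool.Agent.H456.BQ
open Pool.Agent.H456.Coh (TF)
open Pool.Agent.H456.PP (OneR HasRt sx hh Tz Tq Iso3 nr IsoP nrP)

namespace Pool.Agent.H456.PR

theorem pwt_num {a b m : ℕ} (h : 2 ^ a + 2 ^ b = 3 * m) (ha : 2 ^ a ≤ 2 * m) (hb : 2 ^ b ≤ 2 * m) :
    (a = b + 1 ∧ 2 ^ b = m) ∨ (b = a + 1 ∧ 2 ^ a = m) := by
  have key : ∀ a b : ℕ, 2 ^ a + 2 ^ b = 3 * m → 2 ^ a ≤ 2 * m → b < a → (a = b + 1 ∧ 2 ^ b = m) := by
    intro a b h ha hab
    have h1 : 2 ^ (b + 1) ≤ 2 ^ a := Nat.pow_le_pow_right (by norm_num) hab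
    have h2 : 2 ^ (b + 1) = 2 * 2 ^ b := by rw [pow_succ, mul_comm]
    have h3 : 2 ^ b = m := by omega
    refine ⟨?_, h3⟩
    have h4 : 2 ^ a = 2 ^ (b + 1) := by omega
    exact Nat.pow_right_injective (le_refl 2) h4
  rcases lt_trichotomy a b with h1 | h1 | h1
  · right
    exact key b a (by omega) hb h1
  · exfalso
    rw [h1] at h
    have h2 : 3 ∣ 2 ^ (b + 1) := ⟨m, by rw [pow_succ]; omega⟩
    have h3 := Nat.Prime.dvd_of_dvd_pow Nat.prime_three h2
    omega
  · left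
    exact key a b h ha h1

theorem pwt_amgm {n N X V : ℝ} (hn : 0 < n) (hN : 1 ≤ N) (hV : 0 ≤ V) (hX : X ^ 2 ≤ (N - 1) * V) :
    |2 / (n * N) * X| ≤ V / (n * Real.sqrt n) + 1 / Real.sqrt n := by
  have hs : 0 < Real.sqrt n := Real.sqrt_pos.2 hn
  have hs2 : Real.sqrt n * Real.sqrt n = n := Real.mul_self_sqrt hn.le
  have hN0 : 0 < N := by linarith
  have h1 : |2 * X| ≤ V / Real.sqrt n + (N - 1) * Real.sqrt n := by
    have ha : 0 ≤ V / Real.sqrt n := div_nonneg hV hs.le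
    have hb : 0 ≤ (N - 1) * Real.sqrt n := mul_nonneg (by linarith) hs.le
    have hab : V / Real.sqrt n * ((N - 1) * Real.sqrt n) = (N - 1) * V := by
      field_simp
    apply abs_le_of_sq_le_sq _ (add_nonneg ha hb)
    nlinarith [sq_nonneg (V / Real.sqrt n - (N - 1) * Real.sqrt n)]
  have h2 : |2 / (n * N) * X| = |2 * X| / (n * N) := by
    rw [div_mul_eq_mul_div, abs_div, abs_of_pos (mul_pos hn hN0)]
  rw [h2, div_le_iff₀ (mul_pos hn hN0)]
  refine h1.trans ?_
  have h3 : (V / (n * Real.sqrt n) + 1 / Real.sqrt n) * (n * N) = V / Real.sqrt n * N + Real.sqrt n * N := by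
    have : 1 / Real.sqrt n * n = Real.sqrt n := by
      rw [div_mul_eq_mul_div, one_mul, div_eq_iff hs.ne', hs2]
    have h4 : V / (n * Real.sqrt n) * n = V / Real.sqrt n := by
      field_simp
    calc (V / (n * Real.sqrt n) + 1 / Real.sqrt n) * (n * N) =
        (V / (n * Real.sqrt n) * n) * N + (1 / Real.sqrt n * n) * N := by ring
      _ = _ := by rw [this, h4]
  rw [h3]
  have h5 : V / Real.sqrt n * 1 ≤ V / Real.sqrt n * N := mul_le_mul_of_nonneg_left hN (div_nonneg hV hs.le)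
  nlinarith

theorem pwt_alg {n N u : ℝ} (hn : n ≠ 0) (hN : N ≠ 0) :
    u / n - (1 - 1 / N) = 2 / (n * N) * (u * (N / 2) - (N - 1) * n / 2) := by
  field_simp

open Classical in
theorem pwt_split {B : Type} {T S : Finset B} (hST : S ⊆ T) (g : Finset B → ℝ) :
    ∑ J ∈ T.powerset, g J = ∑ J' ∈ (T \ S).powerset, ∑ I ∈ S.powerset, g (J' ∪ I) := by
  rw [← sum_product']
  refine sum_nbij' (fun J => (J \ S, J ∩ S)) (fun x => x.1 ∪ x.2) ?_ ?_ ?_ ?_ ?_
  · intro J hJ
    rw [mem_powerset] at hJ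
    rw [mem_product, mem_powerset, mem_powerset]
    exact ⟨sdiff_subset_sdiff hJ (Subset.refl S), inter_subset_right⟩
  · rintro ⟨J', I⟩ hx
    rw [mem_product, mem_powerset, mem_powerset] at hx
    rw [mem_powerset]
    exact union_subset (hx.1.trans sdiff_subset) (hx.2.trans hST)
  · intro J _
    dsimp only
    rw [sdiff_union_inter]
  · rintro ⟨J', I⟩ hx
    rw [mem_product, mem_powerset, mem_powerset] at hx
    obtain ⟨h1, h2⟩ := hx
    dsimp only at h1 h2
    ext1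
    · dsimp only
      ext x
      constructor
      · intro h0
        obtain ⟨h4, h3⟩ := Finset.mem_sdiff.1 h0
        rcases Finset.mem_union.1 h4 with h | h
        · exact h
        · exact absurd (h2 h) h3
      · intro h
        exact Finset.mem_sdiff.2 ⟨Finset.mem_union.2 (Or.inl h), (Finset.mem_sdiff.1 (h1 h)).2⟩
    · dsimp only
      ext x
      constructor
      · intro h0
        obtain ⟨h4, h3⟩ := Finset.mem_inter.1 h0
        rcases Finset.mem_union.1 h4 with h | h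
        · exact absurd h3 (Finset.mem_sdiff.1 (h1 h)).2
        · exact h
      · intro h
        exact Finset.mem_inter.2 ⟨Finset.mem_union.2 (Or.inr h), h2 h⟩
  · intro J _
    dsimp only
    rw [sdiff_union_inter]

open Classical in
theorem pwt_abs (hb : S_bal) {B : Type} {T S : Finset B} (hST : S ⊆ T) (hn : 0 < S.card) (N : Finset B → ℕ)
    (N1 : B → Finset B → ℕ) (V : Finset B → ℝ) (h1 : ∀ J ⊆ T, ∃ k : ℕ, N J = 2 ^ k)
    (h2 : ∀ J ⊆ T, ∀ P ∈ S, P ∉ J → N J + N (insert P J) = 3 * N1 P J ∧ N J ≤ 2 * N1 P J ∧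
      N (insert P J) ≤ 2 * N1 P J ∧ N1 P J = N1 P (insert P J))
    (h3 : ∀ J ⊆ T, ((∑ P ∈ S, ((N J : ℝ) - N1 P J)) - ((N J : ℝ) - 1) * S.card / 2) ^ 2 ≤ ((N J : ℝ) - 1) * V J)
    (h4 : ∀ J ⊆ T, 0 ≤ V J) (k : ℕ) :
    |((T.powerset.filter (fun J => N J = 2 ^ k)).card : ℝ) / 2 ^ T.card - Cd k| ≤ 10 / 2 ^ T.card *
      ∑ J ∈ T.powerset, (V J / (S.card * Real.sqrt S.card) + 1 / Real.sqrt S.card) := by
  set L : Finset B → ℕ := fun J => Nat.log 2 (N J) with hL
  have hNL : ∀ J ⊆ T, N J = 2 ^ L J := by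
    intro J hJ
    obtain ⟨k, hk⟩ := h1 J hJ
    simp only [hL]
    rw [hk, Nat.log_pow (by norm_num)]
  have hflip : ∀ J ⊆ T, ∀ P ∈ S, P ∉ J →
      (L J = L (insert P J) + 1 ∧ N J = 2 * N1 P J ∧ N (insert P J) = N1 P J) ∨
      (L (insert P J) = L J + 1 ∧ N J = N1 P J ∧ N (insert P J) = 2 * N1 P J) := by
    intro J hJ P hP hPJ
    have hJ2 : insert P J ⊆ T := insert_subset (hST hP) hJ
    obtain ⟨e1, e2, e3, e4⟩ := h2 J hJ P hP hPJ
    have n1 := hNL J hJ
    have n2 := hNL _ hJ2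
    rw [n1, n2] at e1
    rw [n1] at e2
    rw [n2] at e3
    rcases pwt_num e1 e2 e3 with ⟨f1, f2⟩ | ⟨f1, f2⟩
    · left
      refine ⟨f1, ?_, by rw [n2, f2]⟩
      rw [n1, f1, pow_succ, f2, mul_comm]
    · right
      refine ⟨f1, by rw [n1, f2], ?_⟩
      rw [n2, f1, pow_succ, f2, mul_comm]
  have hfl : ∀ J ⊆ T, ∀ P ∈ S, (N J : ℝ) - N1 P J =
      if L (if P ∈ J then J.erase P else insert P J) < L J then (N J : ℝ) / 2 else 0 := by
    intro J hJ P hP
    by_cases hPJ : P ∈ J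
    · rw [if_pos hPJ]
      have hJ0 : J.erase P ⊆ T := (erase_subset P J).trans hJ
      have e0 := hflip (J.erase P) hJ0 P hP (notMem_erase P J)
      have e4 := (h2 (J.erase P) hJ0 P hP (notMem_erase P J)).2.2.2
      rw [insert_erase hPJ] at e0 e4
      rcases e0 with ⟨f1, f2, f3⟩ | ⟨f1, f2, f3⟩
      · rw [if_neg (by omega), ← e4, f3, sub_self]
      · rw [if_pos (by omega), ← e4, f3]
        push_cast
        ring
    · rw [if_neg hPJ]
      rcases hflip J hJ P hP hPJ with ⟨f1, f2, f3⟩ | ⟨f1, f2, f3⟩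
      · rw [if_pos (by omega), f2]
        push_cast
        ring
      · rw [if_neg (by omega), f2, sub_self]
  have hnR : (0 : ℝ) < S.card := by exact_mod_cast hn
  have hbnd : ∀ J ⊆ T, |((S.filter (fun P => L (if P ∈ J then J.erase P else insert P J) < L J)).card : ℝ) / S.card -
      (1 - (1 / 2 : ℝ) ^ L J)| ≤ V J / (S.card * Real.sqrt S.card) + 1 / Real.sqrt S.card := by
    intro J hJ
    have e1 : ∑ P ∈ S, ((N J : ℝ) - N1 P J) =
        (S.filter (fun P => L (if P ∈ J then J.erase P else insert P J) < L J)).card * ((N J : ℝ) / 2) := by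
      rw [sum_congr rfl (hfl J hJ), ← sum_filter, sum_const, nsmul_eq_mul]
    have hNR : (N J : ℝ) = 2 ^ L J := by
      rw [hNL J hJ]
      push_cast
      rfl
    have hN1 : (1 : ℝ) ≤ N J := by
      rw [hNR]
      exact one_le_pow₀ (by norm_num)
    have e2 := pwt_amgm hnR hN1 (h4 J hJ) (h3 J hJ)
    have e3 : ((S.filter (fun P => L (if P ∈ J then J.erase P else insert P J) < L J)).card : ℝ) / S.card -
      (1 - (1 / 2 : ℝ) ^ L J) = 2 / (S.card * (N J : ℝ)) *
        ((∑ P ∈ S, ((N J : ℝ) - N1 P J)) - ((N J : ℝ) - 1) * S.card / 2) := by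
      have h0 : (N J : ℝ) ≠ 0 := by linarith
      rw [e1, one_div_pow, ← hNR, pwt_alg hnR.ne' h0]
    rw [e3]
    exact e2
  have hcell : ∀ J' ∈ (T \ S).powerset,
      |((S.powerset.filter (fun I => N (J' ∪ I) = 2 ^ k)).card : ℝ) / 2 ^ S.card - Cd k| ≤
        10 * ((∑ I ∈ S.powerset, (V (J' ∪ I) / (S.card * Real.sqrt S.card) + 1 / Real.sqrt S.card)) / 2 ^ S.card) := by
    intro J' hJ'
    rw [mem_powerset] at hJ'
    have hJT : J' ⊆ T := hJ'.trans sdiff_subset
    have hJS : ∀ P ∈ S, P ∉ J' := fun P hP h => (mem_sdiff.1 (hJ' h)).2 hP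
    have hsub : ∀ I ⊆ S, J' ∪ I ⊆ T := fun I hI => union_subset hJT (hI.trans hST)
    have hfe : (S.powerset.filter (fun I => N (J' ∪ I) = 2 ^ k)) = S.powerset.filter (fun I => L (J' ∪ I) = k) := by
      apply filter_congr
      intro I hI
      rw [mem_powerset] at hI
      rw [hNL _ (hsub I hI)]
      exact ⟨fun h => Nat.pow_right_injective (le_refl 2) h, fun h => by rw [h]⟩
    rw [hfe]
    have hfl2 : ∀ I ⊆ S, ∀ P ∈ S, J' ∪ (if P ∈ I then I.erase P else insert P I) =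
        if P ∈ J' ∪ I then (J' ∪ I).erase P else insert P (J' ∪ I) := by
      intro I hI P hP
      by_cases h : P ∈ I
      · rw [if_pos h, if_pos (mem_union_right _ h)]
        ext x
        rw [mem_union, mem_erase, mem_erase, mem_union]
        constructor
        · rintro (h5 | h5)
          · exact ⟨fun h6 => hJS P hP (h6 ▸ h5), Or.inl h5⟩
          · exact ⟨h5.1, Or.inr h5.2⟩
        · rintro ⟨h5, h6 | h6⟩
          · exact Or.inl h6
          · exact Or.inr ⟨h5, h6⟩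
      · rw [if_neg h, if_neg (fun h5 => (mem_union.1 h5).elim (hJS P hP) h), union_insert]
    refine hb B S (fun I => L (J' ∪ I)) (fun I => (S.filter (fun P =>
      L (J' ∪ (if P ∈ I then I.erase P else insert P I)) < L (J' ∪ I))).card) hn ?_ ?_ _ ?_ k
    · intro I hI P hP hPI
      rw [union_insert]
      rcases hflip (J' ∪ I) (hsub I hI) P hP (fun h5 => (mem_union.1 h5).elim (hJS P hP) hPI) with h | h
      · exact Or.inr h.1
      · exact Or.inl h.1
    · intro I hI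
      rfl
    · rw [div_mul_cancel₀ _ (by positivity)]
      apply sum_le_sum
      intro I hI
      rw [mem_powerset] at hI
      have hce : (S.filter (fun P => L (J' ∪ (if P ∈ I then I.erase P else insert P I)) < L (J' ∪ I))) =
          S.filter (fun P => L (if P ∈ J' ∪ I then (J' ∪ I).erase P else insert P (J' ∪ I)) < L (J' ∪ I)) := by
        apply filter_congr
        intro P hP
        rw [hfl2 I hI P hP]
      rw [hce]
      exact hbnd _ (hsub I hI)
  have hcard : (2 : ℝ) ^ T.card = 2 ^ (T \ S).card * 2 ^ S.card := by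
    rw [← pow_add, card_sdiff_add_card_eq_card hST]
  have hA : ((T.powerset.filter (fun J => N J = 2 ^ k)).card : ℝ) =
      ∑ J' ∈ (T \ S).powerset, ((S.powerset.filter (fun I => N (J' ∪ I) = 2 ^ k)).card : ℝ) := by
    have e1 : ((T.powerset.filter (fun J => N J = 2 ^ k)).card : ℝ) =
        ∑ J ∈ T.powerset, (if N J = 2 ^ k then (1 : ℝ) else 0) := by
      rw [card_filter, Nat.cast_sum]
      apply sum_congr rfl
      intro J _
      split_ifs
      · rw [Nat.cast_one]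
      · rw [Nat.cast_zero]
    rw [e1, pwt_split hST]
    apply sum_congr rfl
    intro J' _
    rw [card_filter, Nat.cast_sum]
    apply sum_congr rfl
    intro J _
    split_ifs
    · rw [Nat.cast_one]
    · rw [Nat.cast_zero]
  have hq : (0 : ℝ) < 2 ^ (T \ S).card := by positivity
  have hq2 : (0 : ℝ) < 2 ^ S.card := by positivity
  have hC : ((T.powerset.filter (fun J => N J = 2 ^ k)).card : ℝ) / 2 ^ T.card - Cd k =
      (∑ J' ∈ (T \ S).powerset, (((S.powerset.filter (fun I => N (J' ∪ I) = 2 ^ k)).card : ℝ) / 2 ^ S.card - Cd k)) /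
        2 ^ (T \ S).card := by
    rw [sum_sub_distrib, ← sum_div, ← hA, sum_const, card_powerset, nsmul_eq_mul, hcard]
    push_cast
    field_simp
  rw [hC, abs_div, abs_of_pos hq, div_le_iff₀ hq]
  refine (abs_sum_le_sum_abs _ _).trans ((sum_le_sum hcell).trans ?_)
  rw [← mul_sum, ← sum_div, ← pwt_split hST (fun J => V J / (S.card * Real.sqrt S.card) + 1 / Real.sqrt S.card), hcard]
  apply le_of_eq
  field_simp

theorem pwt_Tr_zero {F : Type} [Field F] (P : Pl F) (f : Cub (RatFunc F)) : Tr P (0 : Sel f) := by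
  refine ⟨zp f, IsSel.zp f, rfl, 1, 0, ?_, ?_⟩
  · rintro ⟨h, -⟩
    exact one_ne_zero h
  · simp [zp, Q4.map, Q4.ev]

theorem pwt_NT_pos {F : Type} [Field F] (T' : Finset (Pl F)) (g : Cub F[X])
    (hfin : Finite (Sel (g.map (toK F)))) : 1 ≤ NT T' g := by
  haveI := hfin
  haveI : Nonempty {σ : Sel (g.map (toK F)) // ∀ P ∈ T', Tr P σ} := ⟨⟨0, fun P _ => pwt_Tr_zero P _⟩⟩
  exact Nat.card_pos

theorem pwt_NT_empty {F : Type} [Field F] (g : Cub F[X]) : NT ∅ g = Nat.card (Sel (g.map (toK F))) := by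
  unfold NT
  exact Nat.card_congr (Equiv.subtypeUnivEquiv (fun σ P hP => absurd hP (Finset.notMem_empty P)))

theorem pwt_NT_le {F : Type} [Field F] (T' : Finset (Pl F)) (g : Cub F[X])
    (hfin : Finite (Sel (g.map (toK F)))) : NT T' g ≤ NT ∅ g := by
  haveI := hfin
  rw [pwt_NT_empty]
  exact Nat.card_le_card_of_injective _ Subtype.val_injective

theorem pwt_NT_single {F : Type} [Field F] (P : Pl F) (g : Cub F[X]) :
    NT {P} g = Nat.card {σ : Sel (g.map (toK F)) // Tr P σ} := by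
  unfold NT
  refine Nat.card_congr (Equiv.subtypeEquivRight (fun σ => ?_))
  constructor
  · intro h
    exact h P (Finset.mem_singleton_self P)
  · intro h Q hQ
    rw [Finset.mem_singleton.1 hQ]
    exact h

open Classical in
theorem pwt_NT_pair {F : Type} [Field F] [Fintype F] (P Q : Pl F) (g : Cub F[X]) :
    NT {P, Q} g = Nat.card {σ : Sel (g.map (toK F)) // Tr P σ ∧ Tr Q σ} := by
  unfold NT
  refine Nat.card_congr (Equiv.subtypeEquivRight (fun σ => ?_))
  constructor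
  · intro h
    exact ⟨h P (Finset.mem_insert_self P _), h Q (Finset.mem_insert_of_mem (Finset.mem_singleton_self Q))⟩
  · intro h R hR
    rcases Finset.mem_insert.1 hR with h1 | h1
    · rw [h1]
      exact h.1
    · rw [Finset.mem_singleton.1 h1]
      exact h.2

open Classical in
theorem pwt_cs (hcau : S_cau) {F : Type} [Field F] [Fintype F] (S : Finset (Pl F)) (g : Cub F[X])
    (hfin : Finite (Sel (g.map (toK F)))) :
    ((∑ P ∈ S, ((NT ∅ g : ℝ) - NT {P} g)) - ((NT ∅ g : ℝ) - 1) * S.card / 2) ^ 2 ≤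
      ((NT ∅ g : ℝ) - 1) * Vf S g := by
  haveI : Fintype (Sel (g.map (toK F))) := @Fintype.ofFinite _ hfin
  have h := hcau (Sel (g.map (toK F))) (Pl F) 0 S (fun P σ => Tr P σ) (fun P _ => pwt_Tr_zero P _)
  unfold Vf
  simp only [pwt_NT_empty, pwt_NT_single, pwt_NT_pair]
  have hE : ∀ P : Pl F, @Finset.erase (Pl F) (fun a b => Classical.propDecidable (a = b)) S P = S.erase P := by
    intro P
    ext x
    simp only [Finset.mem_erase]
  simp only [hE] at h
  exact h

theorem pwt_Vf_nonneg (hcau : S_cau) {F : Type} [Field F] [Fintype F] (S : Finset (Pl F)) (g : Cub F[X])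
    (hfin : Finite (Sel (g.map (toK F)))) : 0 ≤ Vf S g := by
  classical
  have h1 := pwt_NT_pos ∅ g hfin
  rcases Nat.eq_or_lt_of_le h1 with h2 | h2
  · have h3 : ∀ T' : Finset (Pl F), NT T' g = 1 := by
      intro T'
      apply le_antisymm
      · rw [h2]
        exact pwt_NT_le T' g hfin
      · exact pwt_NT_pos T' g hfin
    unfold Vf
    simp only [h3]
    have h4 : ∑ P ∈ S, ∑ Q ∈ S.erase P, ((1 : ℕ) : ℝ) = (S.card : ℝ) * ((S.card : ℝ) - 1) := by
      rw [Finset.sum_congr rfl (g := fun _ => (S.card : ℝ) - 1)]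
      · rw [Finset.sum_const, nsmul_eq_mul]
      · intro P hP
        rw [Finset.sum_const, Finset.card_erase_of_mem hP, nsmul_eq_mul, Nat.cast_one, mul_one,
          Nat.cast_sub (Finset.card_pos.2 ⟨P, hP⟩), Nat.cast_one]
    rw [h4, Finset.sum_const, nsmul_eq_mul, Nat.cast_one]
    apply le_of_eq
    ring
  · have h3 := pwt_cs hcau S g hfin
    have h4 : (0 : ℝ) < (NT ∅ g : ℝ) - 1 := by
      have : (1 : ℝ) < (NT ∅ g : ℝ) := by exact_mod_cast h2
      linarith
    by_contra h5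
    rw [not_le] at h5
    have h6 := mul_neg_of_pos_of_neg h4 h5
    have h7 := le_trans (sq_nonneg _) h3
    linarith

theorem t_pwt : S_fln → S_cau → S_bal → S_pwt := by
  classical
  intro hfln hcau hbal F _ _ h2F T D₀ hT f hf hn hsum k
  have hST : Sf T f ⊆ T := Finset.filter_subset _ _
  have hfin : ∀ J ⊆ T, Finite (Sel ((f.sc (DJ J)).map (toK F))) := fun J hJ => (hfln F h2F T D₀ hT f hf J hJ).1
  refine pwt_abs hbal hST hn (fun J => NT ∅ (f.sc (DJ J))) (fun P J => NT {P} (f.sc (DJ J)))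
    (fun J => Vf (Sf T f) (f.sc (DJ J))) ?_ ?_ ?_ ?_ k
  · intro J hJ
    exact (hfln F h2F T D₀ hT f hf J hJ).2.1
  · intro J hJ P hP hPJ
    have hPT : P ∈ T := hST hP
    have hO : OneR P.1 f := (Finset.mem_filter.1 hP).2
    obtain ⟨-, e2, e3, e4⟩ := (hfln F h2F T D₀ hT f hf J hJ).2.2 P hPT hPJ hO
    have hI : ∀ (i1 i2 : DecidableEq (Pl F)) (P : Pl F) (J : Finset (Pl F)),
        @insert (Pl F) (Finset (Pl F)) (@Finset.instInsert (Pl F) i1) P J =
          @insert (Pl F) (Finset (Pl F)) (@Finset.instInsert (Pl F) i2) P J := by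
      intro i1 i2 P J
      rw [Subsingleton.elim i1 i2]
    rw [hI _ (fun a b => Subtype.instDecidableEq a b) P J]
    exact ⟨hsum J hJ P hP hPJ, e2, e3, e4 {P} (Finset.mem_singleton_self P)⟩
  · intro J hJ
    exact pwt_cs hcau (Sf T f) _ (hfin J hJ)
  · intro J hJ
    exact pwt_Vf_nonneg hcau (Sf T f) _ (hfin J hJ)

end Pool.Agent.H456.PR
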