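import Pool.Agent.H456.PR.Stm

/-!
(qr) Let `κ = F[X]/P`, a finite field with `q^d` elements, `d = deg P`. First part: standard (`quadraticChar` of `κ`, Mathlib: `quadraticChar`, `IsSquare` of products in finite fields; `SqM P u ↔ IsSquare (mk u)`, `lg P u = quadraticChar κ (mk u)`). Second: `c ∈ F^*` is a square in `κ` iff `c^((q^d-1)/2) = 1`, `(q^d-1)/2 = ((q-1)/2)(1 + q + ... + q^(d-1))`, the second factor is `≡ d mod 2`. Third: `lg P Q`: `quadraticChar κ (Q mod P) = quadraticChar F (N(Q mod P))` since
`x^((q^d-1)/2) = (x^(1+q+...+q^(d-1)))^((q-1)/2) = N(x)^((q-1)/2)`, and `N(Q mod P) = ∏_{P(α)=0} Q(α) = Res(P, Q)` (over a splitting field / algebraic closure: the conjugates of the root `X mod P` of `P` are its `q^i`-th powers, `0 ≤ i < d`, and are all the roots of `P`), `Res(P, Q) = ∏_{α, β} (α - β) = (-1)^(deg P deg Q) Res(Q, P)` for monic `P`, `Q` (Mathlib: `Polynomial.resultant`, `resultant_comm`, `resultant_eq_prod_eval` or work with the products over the roots in `AlgebraicClosure F`).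
Then `lg P Q * lg Q P = quadraticChar F ((-1)^(deg P deg Q))`. The library has proofs of reciprocity for polynomials over finite fields (grep INDEX.tsv for Recip; modules of the team library may be copied).
-/

set_option autoImplicit false
set_option linter.all false

open Polynomial Finset Filter
open Pool.Agent.H456.EC (toK toK_inj sig toK_eq reflect_toK cls)
open Pool.Agent.H456.RN
open Pool.Agent.H456.BQ
open Pool.Agent.H456.Coh (TF)
open Pool.Agent.H456.PP (OneR HasRt sx hh Tz Tq Iso3 nr IsoP nrP)

namespace Pool.Agent.H456.PR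

/-- the quadratic character of an extension and the norm -/
theorem qr_norm (K L : Type) [Field K] [Field L] [Fintype K] [Fintype L] [DecidableEq K]
    [DecidableEq L] [Algebra K L] (hK : ringChar K ≠ 2) (x : L) :
    quadraticChar L x = quadraticChar K (Algebra.norm K x) := by
  have hinj : Function.Injective (algebraMap K L) := (algebraMap K L).injective
  have hL : ringChar L ≠ 2 := by
    have h1 : ringChar K = ringChar L := by
      have : CharP L (ringChar K) := charP_of_injective_algebraMap hinj (ringChar K)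
      exact (ringChar.eq L (ringChar K)).symm
    rwa [← h1]
  by_cases hx : x = 0
  · subst hx
    rw [Algebra.norm_zero, quadraticChar_zero, quadraticChar_zero]
  have hN : Algebra.norm K x ≠ 0 := (Algebra.norm_ne_zero_iff).2 hx
  have h1 : ((quadraticChar L x : ℤ) : L) = ((quadraticChar K (Algebra.norm K x) : ℤ) : L) := by
    rw [quadraticChar_eq_pow_of_char_ne_two' hL]
    have h2 := congrArg (algebraMap K L) (quadraticChar_eq_pow_of_char_ne_two' hK (Algebra.norm K x))
    rw [map_intCast, map_pow, FiniteField.algebraMap_norm_eq_pow, ← pow_mul] at h2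
    rw [h2]
    congr 1
    have hoK : Odd (Fintype.card K) := by
      rw [Nat.odd_iff]
      exact FiniteField.odd_card_of_char_ne_two hK
    rw [Nat.card_eq_fintype_card, Nat.card_eq_fintype_card]
    have hcard : Fintype.card L = Fintype.card K ^ Module.finrank K L := Module.card_eq_pow_finrank
    have hdvd : Fintype.card K - 1 ∣ Fintype.card L - 1 := by
      rw [hcard]
      simpa using Nat.sub_dvd_pow_sub_pow (Fintype.card K) 1 (Module.finrank K L)
    obtain ⟨m, hm⟩ := hdvd
    obtain ⟨k, hk⟩ := hoK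
    have hk0 : 0 < k := by
      have := Fintype.one_lt_card (α := K)
      omega
    rw [hm]
    have h3 : Fintype.card K - 1 = 2 * k := by omega
    rw [h3, Nat.mul_div_cancel_left _ (by omega)]
    have h4 : Fintype.card K / 2 = k := by omega
    rw [h4]
    have h5 : Fintype.card L = 2 * (m * k) + 1 := by
      have h6 := Fintype.card_pos (α := L)
      rw [h3] at hm
      have h7 : 2 * k * m = 2 * (m * k) := by ring
      omega
    omega
  have h3 : ∀ {E : Type} [Field E] [Fintype E] [DecidableEq E] (y : E),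
      quadraticChar E y ∈ ({0, 1, -1} : Set ℤ) := by
    intro E _ _ _ y
    by_cases hy : y = 0
    · rw [hy, quadraticChar_zero]; simp
    · rcases quadraticChar_dichotomy hy with h | h <;> rw [h] <;> simp
  exact Int.cast_injOn_of_ringChar_ne_two hL (h3 x) (h3 _) h1

section
variable {F : Type} [Field F]

theorem qr_sq (P : Pl F) (u : F[X]) : SqM P u ↔ IsSquare (AdjoinRoot.mk P.1 u) := by
  constructor
  · rintro ⟨r, hr⟩
    refine ⟨AdjoinRoot.mk P.1 r, ?_⟩
    rw [← map_mul, AdjoinRoot.mk_eq_mk, ← sq]
    exact hr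
  · rintro ⟨y, hy⟩
    obtain ⟨r, rfl⟩ := AdjoinRoot.mk_surjective y
    refine ⟨r, ?_⟩
    rw [← map_mul, AdjoinRoot.mk_eq_mk, ← sq] at hy
    exact hy

theorem qr_finite [Finite F] (P : Pl F) : Finite (AdjoinRoot P.1) := by
  have h1 : Module.Finite F (AdjoinRoot P.1) := P.2.1.finite_adjoinRoot
  exact Module.finite_of_finite F

open Classical in
theorem qr_lg [Finite F] (P : Pl F) [Fact (Irreducible P.1)] [Fintype (AdjoinRoot P.1)] (u : F[X]) :
    lg P u = quadraticChar (AdjoinRoot P.1) (AdjoinRoot.mk P.1 u) := by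
  rw [quadraticChar_apply, quadraticCharFun, lg]
  by_cases h1 : P.1 ∣ u
  · rw [if_pos h1, if_pos (AdjoinRoot.mk_eq_zero.2 h1)]
  · rw [if_neg h1, if_neg (fun h => h1 (AdjoinRoot.mk_eq_zero.1 h))]
    by_cases h2 : SqM P u
    · rw [if_pos h2, if_pos ((qr_sq P u).1 h2)]
    · rw [if_neg h2, if_neg (fun h => h2 ((qr_sq P u).2 h))]

/-- the norm of a class is the resultant -/
theorem qr_res [Finite F] (P : Pl F) [Fact (Irreducible P.1)] (Q : F[X]) :
    Algebra.norm F (AdjoinRoot.mk P.1 Q) = resultant P.1 Q := by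
  classical
  have hfin : Module.Finite F (AdjoinRoot P.1) := P.2.1.finite_adjoinRoot
  have hP0 : P.1 ≠ 0 := P.2.1.ne_zero
  have hsep : P.1.Separable := PerfectField.separable_of_irreducible P.2.2
  let E := AlgebraicClosure F
  apply (algebraMap F E).injective
  rw [Algebra.norm_eq_prod_embeddings F E (AdjoinRoot.mk P.1 Q), ← resultant_map_map]
  have hd : (P.1.map (algebraMap F E)).natDegree = P.1.natDegree := P.2.1.natDegree_map _
  have h1 := resultant_eq_prod_eval (P.1.map (algebraMap F E)) (Q.map (algebraMap F E)) Q.natDegree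
    natDegree_map_le (IsAlgClosed.splits _)
  rw [hd, (P.2.1.map _).leadingCoeff, one_pow, one_mul] at h1
  rw [h1]
  have hnd : (P.1.map (algebraMap F E)).roots.Nodup := nodup_roots hsep.map
  have h2 : ((P.1.map (algebraMap F E)).roots.map (Q.map (algebraMap F E)).eval).prod =
      ∏ a ∈ (P.1.map (algebraMap F E)).roots.toFinset, (Q.map (algebraMap F E)).eval a := by
    rw [Finset.prod, Multiset.toFinset_val, hnd.dedup]
  rw [h2]
  have hroot : ∀ a : E, a ∈ (P.1.map (algebraMap F E)).roots.toFinset ↔
      P.1.eval₂ (algebraMap F E) a = 0 := by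
    intro a
    rw [Multiset.mem_toFinset, mem_roots (Polynomial.map_ne_zero hP0),
      IsRoot.def, eval_map]
  refine Finset.prod_bij (fun σ _ => σ (AdjoinRoot.root P.1)) ?_ ?_ ?_ ?_
  · intro σ _
    rw [hroot]
    have h3 : σ (aeval (AdjoinRoot.root P.1) P.1) = 0 := by
      rw [AdjoinRoot.aeval_eq, AdjoinRoot.mk_self, map_zero]
    rwa [← aeval_algHom_apply, aeval_def] at h3
  · intro σ _ τ _ h
    exact AdjoinRoot.algHom_ext h
  · intro a ha
    refine ⟨AdjoinRoot.liftAlgHom P.1 (Algebra.ofId F E) a ((hroot a).1 ha), Finset.mem_univ _, ?_⟩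
    exact AdjoinRoot.liftAlgHom_root _ _ _ _
  · intro σ _
    rw [← AdjoinRoot.aeval_eq, ← aeval_algHom_apply, aeval_def, eval_map]

end

theorem t_qr : S_qr := by
  classical
  intro F _ _ h2
  have hF : ringChar F ≠ 2 := by
    intro h
    apply h2
    have h3 : ((ringChar F : ℕ) : F) = 0 := ringChar.Nat.cast_ringChar
    rw [h] at h3
    exact_mod_cast h3
  have hI : ∀ P : Pl F, Fact (Irreducible P.1) := fun P => ⟨P.2.2⟩
  have hL : ∀ (P : Pl F) (u : F[X]), lg P u = quadraticChar F (resultant P.1 u) := by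
    intro P u
    have := hI P
    have := qr_finite P
    have := Fintype.ofFinite (AdjoinRoot P.1)
    rw [qr_lg, qr_norm F (AdjoinRoot P.1) hF, qr_res]
  have hdvd : ∀ P Q : Pl F, P ≠ Q → ¬ P.1 ∣ Q.1 := by
    intro P Q hPQ h
    apply hPQ
    apply Subtype.ext
    have h4 : Associated P.1 Q.1 := P.2.2.associated_of_dvd Q.2.2 h
    exact eq_of_monic_of_associated P.2.1 Q.2.1 h4
  have hsq1 : ∀ x : F, x ≠ 0 → quadraticChar F x = 1 ∨ quadraticChar F x = -1 := fun x hx =>
    quadraticChar_dichotomy hx
  refine ⟨?_, ?_, ?_⟩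
  · intro P u v
    have := hI P
    have := qr_finite P
    have := Fintype.ofFinite (AdjoinRoot P.1)
    rw [qr_lg, qr_lg, qr_lg, map_mul, map_mul]
  · intro P c hc
    rw [hL, resultant_C_right, P.2.1.coeff_natDegree, natDegree_C, pow_zero, one_mul, map_pow]
    by_cases hs : IsSquare c
    · rw [(quadraticChar_one_iff_isSquare hc).2 hs, one_pow, if_pos (Or.inr hs)]
    · rw [quadraticChar_neg_one_iff_not_isSquare.2 hs]
      by_cases he : Even P.1.natDegree
      · rw [he.neg_one_pow, if_pos (Or.inl he)]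
      · rw [(Nat.not_even_iff_odd.1 he).neg_one_pow, if_neg]
        rintro (h | h)
        · exact he h
        · exact hs h
  · intro P Q hPQ
    have hR : resultant Q.1 P.1 ≠ 0 := by
      intro h
      have h3 := hL Q P.1
      rw [h, quadraticChar_zero, lg, if_neg (hdvd Q P hPQ.symm)] at h3
      have h5 : (if SqM Q P.1 then (1 : ℤ) else -1) ≠ 0 := by
        split_ifs <;> norm_num
      exact h5 h3
    rw [hL, hL, resultant_comm, map_mul, map_pow, mul_assoc]
    have h3 : quadraticChar F (resultant Q.1 P.1) * quadraticChar F (resultant Q.1 P.1) = 1 := by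
      rcases hsq1 _ hR with h | h <;> rw [h] <;> norm_num
    rw [h3, mul_one]
    by_cases hs : IsSquare (-1 : F)
    · rw [(quadraticChar_one_iff_isSquare (neg_ne_zero.2 one_ne_zero)).2 hs, one_pow, if_neg]
      rintro ⟨_, _, h⟩
      exact h hs
    · rw [quadraticChar_neg_one_iff_not_isSquare.2 hs]
      by_cases ho : Odd P.1.natDegree ∧ Odd Q.1.natDegree
      · rw [(ho.1.mul ho.2).neg_one_pow, if_pos ⟨ho.1, ho.2, hs⟩]
      · rw [if_neg (fun h => ho ⟨h.1, h.2.1⟩)]
        apply Even.neg_one_pow
        rw [← Nat.not_odd_iff_even, Nat.odd_mul]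
        exact ho

end Pool.Agent.H456.PR
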