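import Pool.Agent.H456.PR.Stm
import Pool.Agent.H456.PP.T_rec

/-!
(rcg) Diagonalize `q` over `K = RatFunc F` (see `hasse_toDiag`, `rec_hasse` in Coh/T_hasse.lean and PP/T_rec.lean): if `q` is degenerate it is isotropic. Otherwise `q` is equivalent over `K` to `c (a x² + b y² - z²)`, with `c ≠ 0` and, after multiplication of `a`, `b` by squares, `a, b ∈ F[X]` nonzero (`⟨α, β, γ⟩ = -γ ⟨-α/γ, -β/γ, -1⟩`). Isotropy over any extension of `K` is the same for `q` and for the form `⟨a, b, -1⟩` (transport of solutions by invertible matrices; in both directions). By `S_sym` the hypotheses give `hs P a b = 1` for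
`P ≠ P₀` and `hi a b = 1`, so `hs P₀ a b = 1` by `S_prd`, so `q` is isotropic at all finite places. Conclude with the Hasse principle `rec_hasse` (PP/T_rec.lean): `(∀ P : Pl F, IsoP P q) → Iso3 q`.
-/

set_option autoImplicit false
set_option linter.all false

open Polynomial Finset Filter
open Pool.Agent.H456.EC (toK toK_inj sig toK_eq reflect_toK cls)
open Pool.Agent.H456.RN
open Pool.Agent.H456.BQ
open Pool.Agent.H456.Coh (TF)
open Pool.Agent.H456.PP (OneR HasRt sx hh Tz Tq Iso3 nr IsoP nrP)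

namespace Pool.Agent.H456.PR

open Pool.Agent.H456.Coh (hasse_Iso hasse_swap12 hasse_swap23 hasse_sq hasse_b hasse_c hasse_toDiag hasse_ofDiag
  hasse_A0 hasse_b0 hasse_c0 hasse_map)

/-- the form `⟨a, b, -1⟩` and the diagonal form `⟨-a, 1, -b⟩` -/
theorem rcg_diag {L : Type} [Field L] (a b : L) :
    Iso3 (⟨a, b, -1, 0, 0, 0⟩ : TF L) ↔ hasse_Iso L (-a) 1 (-b) := by
  constructor
  · rintro ⟨x, y, z, h0, h1⟩
    refine ⟨x, z, y, fun h => h0 ⟨h.1, h.2.2, h.2.1⟩, ?_⟩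
    have h2 : a * x ^ 2 + b * y ^ 2 + (-1) * z ^ 2 + 0 * (x * y) + 0 * (x * z) + 0 * (y * z) = 0 := h1
    linear_combination -h2
  · rintro ⟨x, z, y, h0, h1⟩
    refine ⟨x, y, z, fun h => h0 ⟨h.1, h.2.2, h.2.1⟩, ?_⟩
    show a * x ^ 2 + b * y ^ 2 + (-1) * z ^ 2 + 0 * (x * y) + 0 * (x * z) + 0 * (y * z) = 0
    linear_combination -h1

/-- the key reduction -/
theorem rcg_key {F : Type} [Field F] (h2 : (2 : F) ≠ 0) (q : TF (RatFunc F)) (hA : q.A ≠ 0)
    (hb : hasse_b q ≠ 0) (hc : hasse_c q ≠ 0) : ∃ a b : F[X], a ≠ 0 ∧ b ≠ 0 ∧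
      ∀ (L : Type) [Field L] (j : RatFunc F →+* L), Iso3 (q.map j) ↔
        Iso3 ((⟨toK F a, toK F b, -1, 0, 0, 0⟩ : TF (RatFunc F)).map j) := by
  have hK2 : (2 : RatFunc F) ≠ 0 := by
    have e : algebraMap F (RatFunc F) 2 = 2 := map_ofNat _ 2
    rw [← e, Ne, map_eq_zero_iff _ (algebraMap F (RatFunc F)).injective]
    exact h2
  have h4b : 4 * hasse_b q ≠ 0 := by
    have : 4 * hasse_b q = 2 * 2 * hasse_b q := by ring
    rw [this]
    exact mul_ne_zero (mul_ne_zero hK2 hK2) hb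
  obtain ⟨n₁, d₁, hd₁, e₁⟩ := IsFractionRing.div_surjective (A := F[X]) (4 * hasse_b q)
  obtain ⟨n₂, d₂, hd₂, e₂⟩ := IsFractionRing.div_surjective (A := F[X]) (hasse_c q)
  have k₁ : d₁ ≠ 0 := nonZeroDivisors.ne_zero hd₁
  have k₂ : d₂ ≠ 0 := nonZeroDivisors.ne_zero hd₂
  have inj := RatFunc.algebraMap_injective F
  have l₁ : algebraMap F[X] (RatFunc F) d₁ ≠ 0 := by rw [Ne, map_eq_zero_iff _ inj]; exact k₁
  have l₂ : algebraMap F[X] (RatFunc F) d₂ ≠ 0 := by rw [Ne, map_eq_zero_iff _ inj]; exact k₂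
  have m₁ : n₁ ≠ 0 := by
    intro h; rw [h, map_zero, zero_div] at e₁; exact h4b e₁.symm
  have m₂ : n₂ ≠ 0 := by
    intro h; rw [h, map_zero, zero_div] at e₂; exact hc e₂.symm
  have f₁ : algebraMap F[X] (RatFunc F) (-(n₁ * d₁)) =
      -(algebraMap F[X] (RatFunc F) d₁ ^ 2 * (4 * hasse_b q)) := by
    rw [← e₁, map_neg, map_mul]; field_simp
  have f₂ : algebraMap F[X] (RatFunc F) (-(n₂ * d₂)) =
      -(algebraMap F[X] (RatFunc F) d₂ ^ 2 * hasse_c q) := by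
    rw [← e₂, map_neg, map_mul]; field_simp
  refine ⟨-(n₁ * d₁), -(n₂ * d₂), neg_ne_zero.2 (mul_ne_zero m₁ k₁), neg_ne_zero.2 (mul_ne_zero m₂ k₂), ?_⟩
  intro L _ j
  have hL2 : (2 : L) ≠ 0 := by
    have e : j 2 = 2 := map_ofNat _ 2
    rw [← e, Ne, map_eq_zero_iff _ j.injective]
    exact hK2
  have hAj : (q.map j).A ≠ 0 := by
    change j q.A ≠ 0
    rw [Ne, map_eq_zero_iff _ j.injective]
    exact hA
  have hbj : hasse_b (q.map j) ≠ 0 := by
    rw [(hasse_map _ q).1, Ne, map_eq_zero_iff _ j.injective]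
    exact hb
  have e4 : (4 : L) * j (hasse_b q) = j (4 * hasse_b q) := by
    rw [map_mul, map_ofNat]
  have j₁ : j (algebraMap F[X] (RatFunc F) d₁) ≠ 0 := by rw [Ne, map_eq_zero_iff _ j.injective]; exact l₁
  have j₂ : j (algebraMap F[X] (RatFunc F) d₂) ≠ 0 := by rw [Ne, map_eq_zero_iff _ j.injective]; exact l₂
  have s1 : Iso3 (q.map j) ↔ hasse_Iso L (4 * hasse_b (q.map j)) 1 (hasse_c (q.map j)) :=
    ⟨fun h => hasse_toDiag hL2 (q.map j) hAj hbj h, fun h => hasse_ofDiag hL2 (q.map j) hAj hbj h⟩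
  have s2 : ((⟨toK F (-(n₁ * d₁)), toK F (-(n₂ * d₂)), -1, 0, 0, 0⟩ : TF (RatFunc F)).map j) =
      ⟨-(j (algebraMap F[X] (RatFunc F) d₁) ^ 2 * j (4 * hasse_b q)),
        -(j (algebraMap F[X] (RatFunc F) d₂) ^ 2 * j (hasse_c q)), -1, 0, 0, 0⟩ := by
    have t1 : j (toK F (-(n₁ * d₁))) = -(j (algebraMap F[X] (RatFunc F) d₁) ^ 2 * j (4 * hasse_b q)) := by
      change j (algebraMap F[X] (RatFunc F) (-(n₁ * d₁))) = _
      rw [f₁, map_neg, map_mul, map_pow]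
    have t2 : j (toK F (-(n₂ * d₂))) = -(j (algebraMap F[X] (RatFunc F) d₂) ^ 2 * j (hasse_c q)) := by
      change j (algebraMap F[X] (RatFunc F) (-(n₂ * d₂))) = _
      rw [f₂, map_neg, map_mul, map_pow]
    have t3 : j (-1) = -1 := by rw [map_neg, map_one]
    have t4 : j 0 = 0 := map_zero j
    show (⟨j (toK F (-(n₁ * d₁))), j (toK F (-(n₂ * d₂))), j (-1), j 0, j 0, j 0⟩ : TF L) = _
    rw [t1, t2, t3, t4]
  rw [s1, s2, rcg_diag, neg_neg, neg_neg, (hasse_map _ q).1, (hasse_map _ q).2, e4, hasse_sq j₁]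
  constructor
  · intro h
    have h5 := hasse_swap12 (hasse_swap23 h)
    rw [← hasse_sq j₂] at h5
    exact hasse_swap23 (hasse_swap12 h5)
  · intro h
    have h5 := hasse_swap12 (hasse_swap23 h)
    rw [hasse_sq j₂] at h5
    exact hasse_swap23 (hasse_swap12 h5)

theorem t_rcg : S_sym → S_prd → S_rcg := by
  intro hsym hprd F _ _ h2 P₀ q hq hqi
  have hK2 : (2 : RatFunc F) ≠ 0 := by
    have e : algebraMap F (RatFunc F) 2 = 2 := map_ofNat _ 2
    rw [← e, Ne, map_eq_zero_iff _ (algebraMap F (RatFunc F)).injective]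
    exact h2
  by_cases hA : q.A = 0
  · exact Pool.Agent.H456.Coh.hasse_A0 q hA
  by_cases hb : hasse_b q = 0
  · exact hasse_b0 hK2 q hA hb
  by_cases hc : hasse_c q = 0
  · exact hasse_c0 hK2 q hA hb hc
  obtain ⟨a, b, ha, hb', key⟩ := rcg_key h2 q hA hb hc
  obtain ⟨y1, y2⟩ := hsym F h2 a b ha hb'
  have h3 : ∀ P : Pl F, IsoP P q ↔ hs P a b = 1 := by
    intro P
    rw [← y1 P]
    constructor
    · rintro ⟨O, L, i1, i2, i3, i4, i5, π, ι, j, hL, hj, hiso⟩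
      exact ⟨O, L, i1, i2, i3, i4, i5, π, ι, j, hL, hj, (key L j).1 hiso⟩
    · rintro ⟨O, L, i1, i2, i3, i4, i5, π, ι, j, hL, hj, hiso⟩
      exact ⟨O, L, i1, i2, i3, i4, i5, π, ι, j, hL, hj, (key L j).2 hiso⟩
  have h4 : hi a b = 1 := by
    rw [← y2]
    obtain ⟨O, L, i1, i2, i3, i4, i5, π, ι, j, hL, hj, hiso⟩ := hqi
    exact ⟨O, L, i1, i2, i3, i4, i5, π, ι, j, hL, hj, (key L (j.comp (locI_tau F))).1 hiso⟩
  have h5 : ∀ P : Pl F, P ≠ P₀ → hs P a b = 1 := fun P hP => (h3 P).1 (hq P hP)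
  have h6 := hprd F h2 a b ha hb' P₀ h5 h4
  have h7 : ∀ P : Pl F, IsoP P q := by
    intro P
    rw [h3 P]
    by_cases hP : P = P₀
    · rw [hP]; exact h6
    · exact h5 P hP
  exact Pool.Agent.H456.PP.rec_hasse h2 q h7

end Pool.Agent.H456.PR
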