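import Pool.Agent.H456.PR.Stm
import Pool.Agent.H456.PR.Stm2
import Pool.Agent.H456.Coh.Out
import Pool.Agent.H456.BQ.Out

/-!
(rk) Let `E` be a curve over `K = F(t)`, `Δ ≠ 0`. (1) reduce to `E = (crv f).map (toK F)` with `f : Cub F[X]`, `f.disc ≠ 0`: there is a variable change `C` with `C • E` of this form (complete the square: `y² = x³ + (b₂/4) x² + (b₄/2) x + b₆/4`, then clear denominators with `u`), the group `E(K)` is invariant (`pEquiv`, used in Coh/Fin.lean) and the Selmer group too (`t_transp : S_transp`, Coh/T_transp.lean). (2) `equiv_selmer` (Coh/Asm.lean, `hypC_all` of Coh/All.lean): the Selmer group has the order of `Sel (f.map (toK F))`, and `t_kum : S_kum` (BQ/T_kum.lean): `Q2 f = E(K)/2E(K)` embeds into `Sel (f.map (toK F))`, which is finite (`finite_Sel hypU_all`).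
(3) `E(K)` is finitely generated (`t_fg : S_fg`, BQ/T_fg.lean; see how `CL_data`, `avg_le`, `final` in BQ/Fin.lean and BQ/Out.lean get `FGp` for the classes; the group modulo `2` is finite by (2)), `two_pow_le` (BQ/Fin.lean): `2 ^ rank ≤ #(A/2A)` for finitely generated `A`. So `2 ^ rank ≤ 2 ^ k`. If `k = 0` then `A = 2A`, `A` finitely generated of rank `0`, so finite (a finitely generated torsion group is finite).
-/

set_option autoImplicit false
set_option linter.all false

open Polynomial Finset Filter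
open Pool.Agent.H456.EC (toK toK_inj sig toK_eq reflect_toK cls)
open Pool.Agent.H456.RN
open Pool.Agent.H456.BQ
open Pool.Agent.H456.Coh (SelmerGroup torsionPts primaryPts)

namespace Pool.Agent.H456.PR

section

variable {F : Type} [Field F]

/-- completing the square -/
theorem rk_sq {K : Type} [Field K] (h2 : (2 : K) ≠ 0) (E : WeierstrassCurve K) :
    ∃ C : WeierstrassCurve.VariableChange K, C • E = crv (cubE E) := by
  have h4 : (4 : K) ≠ 0 := by
    have e : (4 : K) = 2 * 2 := by norm_num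
    rw [e]
    exact mul_ne_zero h2 h2
  refine ⟨⟨1, 0, -(E.a₁ / 2), -(E.a₃ / 2)⟩, ?_⟩
  ext
  · rw [WeierstrassCurve.variableChange_a₁]
    simp only [crv, cubE, inv_one, Units.val_one, one_mul]
    field_simp
    ring
  · rw [WeierstrassCurve.variableChange_a₂]
    simp only [crv, cubE, inv_one, Units.val_one, one_mul, WeierstrassCurve.b₂]
    field_simp
    ring
  · rw [WeierstrassCurve.variableChange_a₃]
    simp only [crv, cubE, inv_one, Units.val_one, one_mul]
    field_simp
    ring
  · rw [WeierstrassCurve.variableChange_a₄]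
    simp only [crv, cubE, inv_one, Units.val_one, one_mul, WeierstrassCurve.b₄]
    field_simp
    ring
  · rw [WeierstrassCurve.variableChange_a₆]
    simp only [crv, cubE, inv_one, Units.val_one, one_mul, WeierstrassCurve.b₆]
    field_simp
    ring

/-- scaling -/
theorem rk_sc {K : Type} [Field K] (u : Kˣ) (g : Cub K) :
    (⟨u, 0, 0, 0⟩ : WeierstrassCurve.VariableChange K) • crv g =
      crv ⟨((u⁻¹ : Kˣ) : K) ^ 2 * g.a, ((u⁻¹ : Kˣ) : K) ^ 4 * g.b, ((u⁻¹ : Kˣ) : K) ^ 6 * g.c⟩ := by
  ext
  · rw [WeierstrassCurve.variableChange_a₁]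
    simp only [crv]
    ring
  · rw [WeierstrassCurve.variableChange_a₂]
    simp only [crv]
    ring
  · rw [WeierstrassCurve.variableChange_a₃]
    simp only [crv]
    ring
  · rw [WeierstrassCurve.variableChange_a₄]
    simp only [crv]
    ring
  · rw [WeierstrassCurve.variableChange_a₆]
    simp only [crv]
    ring

/-- denominators -/
theorem rk_den (x : RatFunc F) : ∃ d p : F[X], d ≠ 0 ∧ toK F d * x = toK F p := by
  refine ⟨x.denom, x.num, x.denom_ne_zero, ?_⟩
  have h1 := RatFunc.num_div_denom x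
  have h3 : toK F x.denom ≠ 0 := (map_ne_zero_iff _ toK_inj).2 x.denom_ne_zero
  have h4 : toK F x.num / toK F x.denom = x := h1
  rw [div_eq_iff h3] at h4
  rw [mul_comm]
  exact h4.symm

/-- an integral model -/
theorem rk_model (h2 : (2 : F) ≠ 0) (E : WeierstrassCurve (RatFunc F)) :
    ∃ (C : WeierstrassCurve.VariableChange (RatFunc F)) (f : Cub F[X]), C • E = (crv f).map (toK F) := by
  have h2' : (2 : RatFunc F) ≠ 0 := by
    have := (map_ne_zero_iff (algebraMap F (RatFunc F)) (algebraMap F (RatFunc F)).injective).2 h2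
    rwa [map_ofNat] at this
  obtain ⟨C1, hC1⟩ := rk_sq h2' E
  generalize cubE E = g at hC1
  obtain ⟨da, pa, hda, ha⟩ := rk_den g.a
  obtain ⟨db, pb, hdb, hb⟩ := rk_den g.b
  obtain ⟨dc, pc, hdc, hc⟩ := rk_den g.c
  have hD : toK F (da * db * dc) ≠ 0 :=
    (map_ne_zero_iff _ toK_inj).2 (mul_ne_zero (mul_ne_zero hda hdb) hdc)
  refine ⟨⟨(Units.mk0 _ hD)⁻¹, 0, 0, 0⟩ * C1,
    ⟨da * db * dc * (db * dc * pa), (da * db * dc) ^ 3 * (da * dc * pb), (da * db * dc) ^ 5 * (da * db * pc)⟩, ?_⟩
  rw [mul_smul, hC1, rk_sc, crv_map, inv_inv, Units.val_mk0]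
  congr 1
  ext
  · simp only [Cub.map, map_mul, map_pow]
    rw [← ha]
    ring
  · simp only [Cub.map, map_mul, map_pow]
    rw [← hb]
    ring
  · simp only [Cub.map, map_mul, map_pow]
    rw [← hc]
    ring

end

theorem t_rk : S_rk := by
  classical
  intro F _ _ h2 E hΔ k hk
  obtain ⟨C, f, hC⟩ := rk_model h2 E
  have hΔ' : ((crv f).map (toK F)).Δ ≠ 0 := by
    rw [← hC, WeierstrassCurve.variableChange_Δ]
    exact mul_ne_zero (pow_ne_zero _ (Units.ne_zero _)) hΔ
  have hdisc : f.disc ≠ 0 := by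
    intro h0
    apply hΔ'
    rw [WeierstrassCurve.map_Δ, crv_Δ, h0, mul_zero, map_zero]
  have hΔc : (crv f).Δ ≠ 0 := by
    intro h0
    apply hΔ'
    rw [WeierstrassCurve.map_Δ, h0, map_zero]
  -- the Selmer group
  have hcard : Nat.card (Sel (f.map (toK F))) = 2 ^ k := by
    obtain ⟨e⟩ := (Pool.Agent.H456.Coh.t_transp F E C hΔ 2).1
    obtain ⟨e'⟩ := Pool.Agent.H456.Coh.equiv_selmer Pool.Agent.H456.Coh.hypC_all h2
      (Pool.Agent.H456.Coh.fK_disc hdisc)
    rw [hC, crv_map] at e
    rw [← hk]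
    exact (Nat.card_congr (e.symm.toEquiv.trans e')).symm
  have hfinS := finite_Sel hypU_all h2 hdisc
  obtain ⟨φ, hφ, -⟩ := t_kum F h2 f hdisc
  have hQ : Nat.card (Q2 f) ≤ 2 ^ k := by
    rw [← hcard]
    exact Nat.card_le_card_of_injective φ hφ
  have hQfin : Finite (Q2 f) := Finite.of_injective φ hφ
  have hfin : Finite ((((crv f).map (toK F)).toAffine.Point) ⧸
      (nsmulAddMonoidHom (α := (((crv f).map (toK F)).toAffine.Point)) 2).range) := by
    rw [crv_map]
    exact hQfin
  have hfg : AddGroup.FG (((crv f).map (toK F)).toAffine.Point) := t_fg F h2 f.a f.b f.c hΔc hfin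
  have hle : 2 ^ Module.finrank ℤ (((crv f).map (toK F)).toAffine.Point) ≤ 2 ^ k := by
    refine (two_pow_le _ hfg hfin).trans (le_trans (le_of_eq ?_) hQ)
    rw [crv_map]
    rfl
  have e := pEquiv E C hΔ
  rw [hC] at e
  have hfg' : AddGroup.FG E.toAffine.Point :=
    haveI := hfg
    AddGroup.fg_of_surjective (f := e.toAddMonoidHom) e.surjective
  have hrk : Module.finrank ℤ E.toAffine.Point = Module.finrank ℤ (((crv f).map (toK F)).toAffine.Point) :=
    (LinearEquiv.finrank_eq e.toIntLinearEquiv).symm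
  have hrk2 : Module.finrank ℤ E.toAffine.Point ≤ k := by
    rw [hrk]
    exact (Nat.pow_le_pow_iff_right (by norm_num)).1 hle
  refine ⟨hfg', hrk2, fun h0 => ?_⟩
  rw [h0, Nat.le_zero] at hrk2
  have hM : Module.Finite ℤ E.toAffine.Point := Module.Finite.iff_addGroup_fg.2 hfg'
  exact Module.finite_of_fg_torsion _ (Module.finrank_eq_zero_iff_isTorsion.1 hrk2)

end Pool.Agent.H456.PR
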