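import Pool.Agent.H456.PR.Stm

/-!
(sel) Induction on `m`: the new place `P` is congruent to one modulo the places of degree `≤ D₀` and those of `T`.
-/

set_option autoImplicit false
set_option linter.all false

open Polynomial Finset Filter
open Pool.Agent.H456.EC (toK toK_inj sig toK_eq reflect_toK cls)
open Pool.Agent.H456.RN
open Pool.Agent.H456.BQ
open Pool.Agent.H456.Coh (TF)
open Pool.Agent.H456.PP (OneR HasRt sx hh Tz Tq Iso3 nr IsoP nrP)

namespace Pool.Agent.H456.PR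

theorem sel_not_dvd {F : Type} [Field F] {P Q : Pl F} (h : P ≠ Q) : ¬ P.1 ∣ Q.1 := by
  intro hd
  apply h
  apply Subtype.ext
  exact Polynomial.eq_of_monic_of_associated P.2.1 Q.2.1 (P.2.2.associated_of_dvd Q.2.2 hd)

theorem sel_lg_one {F : Type} [Field F] {P : Pl F} {u : F[X]} (h1 : ¬ P.1 ∣ u) (h2 : SqM P u) : lg P u = 1 := by
  unfold lg
  rw [if_neg h1, if_pos h2]

theorem sel_sq_of_lg {F : Type} [Field F] {P : Pl F} {u : F[X]} (h : lg P u = 1) : SqM P u := by
  unfold lg at h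
  by_contra hn
  by_cases h1 : P.1 ∣ u
  · rw [if_pos h1] at h
    exact absurd h (by norm_num)
  · rw [if_neg h1, if_neg hn] at h
    exact absurd h (by norm_num)

theorem sel_sq_of_dvd {F : Type} [Field F] {Q : Pl F} {P M : F[X]} (h : Q.1 ∣ M) (h' : M ∣ P - 1) : SqM Q P :=
  ⟨1, by rw [one_pow]; exact h.trans h'⟩

theorem t_sel : S_qr → S_ap → S_sel := by
  intro hqr hap F _ _ h2 D₀ m d₁
  classical
  induction m with
  | zero =>
    refine ⟨∅, rfl, ⟨?_, ?_, ?_, ?_⟩, ?_⟩
    · intro P hP; simp at hP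
    · intro P hP; simp at hP
    · intro P hP; simp at hP
    · intro P hP; simp at hP
    · intro P hP; simp at hP
  | succ m ih =>
    obtain ⟨T, hT, hc, hd⟩ := ih
    have hM : (∏ Q ∈ PlD F D₀, Q.1) * ∏ Q ∈ T, Q.1 ≠ 0 := by
      apply mul_ne_zero
      · exact Finset.prod_ne_zero_iff.2 (fun Q _ => Q.2.1.ne_zero)
      · exact Finset.prod_ne_zero_iff.2 (fun Q _ => Q.2.1.ne_zero)
    obtain ⟨P, he, hdeg, hdvd⟩ := hap F _ hM (D₀ + d₁ + ∑ Q ∈ T, Q.1.natDegree)
    have hlt : ∀ Q ∈ T, Q.1.natDegree < P.1.natDegree := by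
      intro Q hQ
      have : Q.1.natDegree ≤ ∑ Q ∈ T, Q.1.natDegree :=
        Finset.single_le_sum (f := fun Q : Pl F => Q.1.natDegree) (fun _ _ => Nat.zero_le _) hQ
      omega
    have hPT : P ∉ T := fun h => lt_irrefl _ (hlt P h)
    have hs1 : ∀ Q : Pl F, Q.1.natDegree ≤ D₀ → SqM Q P.1 := by
      intro Q hQ
      refine sel_sq_of_dvd (M := (∏ Q ∈ PlD F D₀, Q.1) * ∏ Q ∈ T, Q.1) ?_ hdvd
      exact Dvd.dvd.mul_right (Finset.dvd_prod_of_mem (fun Q : Pl F => Q.1) (mem_PlD.2 hQ)) _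
    have hs2 : ∀ Q ∈ T, SqM Q P.1 := by
      intro Q hQ
      refine sel_sq_of_dvd (M := (∏ Q ∈ PlD F D₀, Q.1) * ∏ Q ∈ T, Q.1) ?_ hdvd
      exact Dvd.dvd.mul_left (Finset.dvd_prod_of_mem (fun Q : Pl F => Q.1) hQ) _
    have hs3 : ∀ Q ∈ T, SqM P Q.1 := by
      intro Q hQ
      have hne : P ≠ Q := fun h => hPT (h ▸ hQ)
      apply sel_sq_of_lg
      have h3 := (hqr F h2).2.2 P Q hne
      have h4 : lg Q P.1 = 1 := sel_lg_one (sel_not_dvd hne.symm) (hs2 Q hQ)
      rw [if_neg (by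
        rintro ⟨ho, -⟩
        exact (Nat.not_odd_iff_even.2 he) ho), h4, mul_one] at h3
      exact h3
    refine ⟨insert P T, ?_, ⟨?_, ?_, ?_, ?_⟩, ?_⟩
    · rw [Finset.card_insert_of_notMem hPT, hT]
    · intro Q hQ
      rcases Finset.mem_insert.1 hQ with rfl | hQ
      · exact he
      · exact hc.even Q hQ
    · intro Q hQ
      rcases Finset.mem_insert.1 hQ with rfl | hQ
      · omega
      · exact hc.big Q hQ
    · intro Q hQ
      rcases Finset.mem_insert.1 hQ with rfl | hQ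
      · exact hs1
      · exact hc.small Q hQ
    · intro Q hQ Q' hQ' hne
      rcases Finset.mem_insert.1 hQ with e1 | a1
      · rcases Finset.mem_insert.1 hQ' with e2 | a2
        · exact absurd (e1.trans e2.symm) hne
        · rw [e1]
          exact hs2 Q' a2
      · rcases Finset.mem_insert.1 hQ' with e2 | a2
        · rw [e2]
          exact hs3 Q a1
        · exact hc.sq Q a1 Q' a2 hne
    · intro Q hQ
      rcases Finset.mem_insert.1 hQ with rfl | hQ
      · omega
      · exact hd Q hQ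

end Pool.Agent.H456.PR
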