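import Pool.Agent.H456.PR.Stm
import Pool.Agent.H456.PR.Stm2
import Pool.Agent.H456.Coh.Out

/-!
(sh) `ctrl_all : S_ctrl` (Coh/All.lean; statement in Coh/Stm.lean (C23)): there is `φ : Sel(E[2]) →+ Sel(E[2^∞])` whose image is the set of the elements killed by `2`. If `Sel(E[2])` is trivial (`Nat.card = 1`, so it is a subsingleton) then no nonzero element of `Sel(E[2^∞])` is killed by `2`. Every element of `Sel(E[2^∞])` is killed by a power of `2`: a cocycle `c` is locally constant on the compact group `Gal K` (profinite; `IsLocallyConstant.range_finite` needs `CompactSpace (Gal K)`: Mathlib has it for the Krull topology), so it takes finitely many values, each killed by a power of `2`, so `2^k • c = 0` for some `k`.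
An element `x ≠ 0` with `2^k x = 0`, `k` minimal, gives `2^(k-1) x ≠ 0` killed by `2`, contradiction. So the group is trivial and has one element.
-/

set_option autoImplicit false
set_option linter.all false

open Polynomial Finset Filter
open Pool.Agent.H456.EC (toK toK_inj sig toK_eq reflect_toK cls)
open Pool.Agent.H456.RN
open Pool.Agent.H456.BQ
open Pool.Agent.H456.Coh (SelmerGroup torsionPts primaryPts)

namespace Pool.Agent.H456.PR

/-- every element of the Selmer group for `E[2^∞]` is killed by a power of two -/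
theorem sh_tors {F : Type} [Field F] [DecidableEq (RatFunc F)] (E : WeierstrassCurve (RatFunc F))
    (x : SelmerGroup E (primaryPts E 2)) : ∃ k : ℕ, 2 ^ k • x = 0 := by
  classical
  obtain ⟨c, rfl⟩ := QuotientAddGroup.mk_surjective x
  have hlc : IsLocallyConstant (c : Pool.Agent.H456.Coh.Gal (RatFunc F) → Pool.Agent.H456.Coh.Pt E (SeparableClosure (RatFunc F))) :=
    c.2.2.2.1
  have hfin := hlc.range_finite
  have hA : ∀ σ, (c : Pool.Agent.H456.Coh.Gal (RatFunc F) → Pool.Agent.H456.Coh.Pt E (SeparableClosure (RatFunc F))) σ ∈ primaryPts E 2 := c.2.1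
  have hk : ∀ v : Pool.Agent.H456.Coh.Pt E (SeparableClosure (RatFunc F)), ∃ k : ℕ,
      v ∈ Set.range (c : Pool.Agent.H456.Coh.Gal (RatFunc F) → Pool.Agent.H456.Coh.Pt E (SeparableClosure (RatFunc F))) → 2 ^ k • v = 0 := by
    intro v
    by_cases hv : v ∈ Set.range (c : Pool.Agent.H456.Coh.Gal (RatFunc F) → Pool.Agent.H456.Coh.Pt E (SeparableClosure (RatFunc F)))
    · obtain ⟨σ, rfl⟩ := hv
      obtain ⟨k, hk⟩ := hA σ
      exact ⟨k, fun _ => hk⟩
    · exact ⟨0, fun h => absurd h hv⟩
  choose k hk using hk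
  refine ⟨hfin.toFinset.sup k, ?_⟩
  have h0 : 2 ^ (hfin.toFinset.sup k) • c = 0 := by
    apply Subtype.ext
    funext σ
    show 2 ^ (hfin.toFinset.sup k) • (c : Pool.Agent.H456.Coh.Gal (RatFunc F) → Pool.Agent.H456.Coh.Pt E (SeparableClosure (RatFunc F))) σ = 0
    have h1 : (c : Pool.Agent.H456.Coh.Gal (RatFunc F) → Pool.Agent.H456.Coh.Pt E (SeparableClosure (RatFunc F))) σ ∈
        Set.range (c : Pool.Agent.H456.Coh.Gal (RatFunc F) → Pool.Agent.H456.Coh.Pt E (SeparableClosure (RatFunc F))) := ⟨σ, rfl⟩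
    have h2 := Finset.le_sup (f := k) (hfin.mem_toFinset.2 h1)
    obtain ⟨j, hj⟩ := Nat.exists_eq_add_of_le h2
    rw [hj, pow_add, mul_comm, mul_smul, hk _ h1, smul_zero]
  have h3 : 2 ^ (hfin.toFinset.sup k) • (QuotientAddGroup.mk c :
      Pool.Agent.H456.Coh.selCocycles E (primaryPts E 2) ⧸ (Pool.Agent.H456.Coh.coboundaries E (primaryPts E 2)).addSubgroupOf
        (Pool.Agent.H456.Coh.selCocycles E (primaryPts E 2))) = 0 := by
    rw [← QuotientAddGroup.mk_nsmul, h0, QuotientAddGroup.mk_zero]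
  exact h3

theorem sh_core (hc : Pool.Agent.H456.Coh.S_ctrl) {F : Type} [Field F] [DecidableEq (RatFunc F)] (h2 : (2 : F) ≠ 0)
    (E : WeierstrassCurve (RatFunc F)) (hE : E.Δ ≠ 0)
    (h1 : Nat.card (SelmerGroup E (torsionPts E 2)) = 1) :
    Nat.card (SelmerGroup E (primaryPts E 2)) = 1 := by
  obtain ⟨φ, hφ, -⟩ := hc F h2 E hE
  have hs : Subsingleton (SelmerGroup E (torsionPts E 2)) := (Nat.card_eq_one_iff_unique.1 h1).1
  have h3 : ∀ x : SelmerGroup E (primaryPts E 2), 2 • x = 0 → x = 0 := by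
    intro x hx
    obtain ⟨y, rfl⟩ := (hφ x).2 hx
    rw [Subsingleton.elim y 0, map_zero]
  have h4 : ∀ (k : ℕ) (x : SelmerGroup E (primaryPts E 2)), 2 ^ k • x = 0 → x = 0 := by
    intro k
    induction k with
    | zero =>
      intro x hx
      rwa [pow_zero, one_smul] at hx
    | succ k ih =>
      intro x hx
      rw [pow_succ', mul_smul] at hx
      exact ih x (h3 _ hx)
  refine Nat.card_eq_one_iff_unique.2 ⟨⟨fun x y => ?_⟩, ⟨0⟩⟩
  obtain ⟨k, hk⟩ := sh_tors E x
  obtain ⟨j, hj⟩ := sh_tors E y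
  rw [h4 k x hk, h4 j y hj]

theorem t_sh : S_sh := by
  classical
  intro F _ _ h2 E hE h1
  exact sh_core Pool.Agent.H456.Coh.ctrl_all h2 E hE h1

end Pool.Agent.H456.PR
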