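import Pool.Agent.H456.PR.Stm

/-!
(sxn) `sx g = B³ - 4ABC + 8A²D` is the value at `(1,0)` of a covariant of degree six; the covariant is not zero, since
over the algebraic closure the pair is equivalent to `zp f`.
-/

set_option autoImplicit false
set_option linter.all false

open Polynomial Finset Filter
open Pool.Agent.H456.EC (toK toK_inj sig toK_eq reflect_toK cls)
open Pool.Agent.H456.RN
open Pool.Agent.H456.BQ
open Pool.Agent.H456.Coh (TF)
open Pool.Agent.H456.PP (OneR HasRt sx hh Tz Tq Iso3 nr IsoP nrP)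

namespace Pool.Agent.H456.PR

section ring

variable {R : Type} [CommRing R]

/-- the coefficient of `u ^ 5 v` -/
def sxn_5 (g : Q4 R) : R := 2 * (16 * g.A ^ 2 * g.E + 2 * g.A * g.B * g.D - 4 * g.A * g.C ^ 2 + g.B ^ 2 * g.C)

/-- the coefficient of `u ^ 4 v ^ 2` -/
def sxn_4 (g : Q4 R) : R := 5 * (8 * g.A * g.B * g.E + g.B ^ 2 * g.D - 4 * g.A * g.C * g.D)

/-- the coefficient of `u ^ 3 v ^ 3` -/
def sxn_3 (g : Q4 R) : R := 20 * (g.B ^ 2 * g.E - g.A * g.D ^ 2)

/-- the coefficient of `u ^ 2 v ^ 4` -/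
def sxn_2 (g : Q4 R) : R := -5 * (8 * g.A * g.D * g.E + g.B * g.D ^ 2 - 4 * g.B * g.C * g.E)

/-- the coefficient of `u v ^ 5` -/
def sxn_1 (g : Q4 R) : R := -2 * (16 * g.A * g.E ^ 2 + 2 * g.B * g.D * g.E - 4 * g.C ^ 2 * g.E + g.C * g.D ^ 2)

/-- the coefficient of `v ^ 6` -/
def sxn_0 (g : Q4 R) : R := -(g.D ^ 3 - 4 * g.C * g.D * g.E + 8 * g.B * g.E ^ 2)

/-- the covariant of degree six -/
def sxn_T (g : Q4 R) (u v : R) : R :=
  sx g * u ^ 6 + sxn_5 g * u ^ 5 * v + sxn_4 g * u ^ 4 * v ^ 2 + sxn_3 g * u ^ 3 * v ^ 3 + sxn_2 g * u ^ 2 * v ^ 4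
    + sxn_1 g * u * v ^ 5 + sxn_0 g * v ^ 6

theorem sxn_sub (g : Q4 R) (M : M2 R) : sx (g.sub M) = M.det ^ 3 * sxn_T g M.α M.γ := by
  simp only [sx, Q4.sub, sxn_T, M2.det, sxn_5, sxn_4, sxn_3, sxn_2, sxn_1, sxn_0]
  ring

theorem sxn_smul (g : Q4 R) (k : R) : sx (g.smul k) = k ^ 3 * sx g := by
  simp only [sx, Q4.smul]
  ring

end ring

section map

variable {R S : Type} [CommRing R] [CommRing S] (φ : R →+* S) (g : Q4 R)

theorem sxn_m6 : sx (g.map φ) = φ (sx g) := by simp [sx, Q4.map, map_ofNat]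

theorem sxn_m5 : sxn_5 (g.map φ) = φ (sxn_5 g) := by simp [sxn_5, Q4.map, map_ofNat]

theorem sxn_m4 : sxn_4 (g.map φ) = φ (sxn_4 g) := by simp [sxn_4, Q4.map, map_ofNat]

theorem sxn_m3 : sxn_3 (g.map φ) = φ (sxn_3 g) := by simp [sxn_3, Q4.map, map_ofNat]

theorem sxn_m2 : sxn_2 (g.map φ) = φ (sxn_2 g) := by simp [sxn_2, Q4.map, map_ofNat]

theorem sxn_m1 : sxn_1 (g.map φ) = φ (sxn_1 g) := by simp [sxn_1, Q4.map, map_ofNat]

theorem sxn_m0 : sxn_0 (g.map φ) = φ (sxn_0 g) := by simp [sxn_0, Q4.map, map_ofNat]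

end map

/-- over an algebraically closed field every quartic has a root -/
theorem sxn_root {L : Type} [Field L] [IsAlgClosed L] (g : Q4 L) : ∃ u v : L, ¬ (u = 0 ∧ v = 0) ∧ g.ev u v = 0 := by
  by_cases hA : g.A = 0
  · refine ⟨1, 0, fun h => one_ne_zero h.1, ?_⟩
    simp only [Q4.ev, hA]
    ring
  · set p : L[X] := C g.A * X ^ 4 + C g.B * X ^ 3 + C g.C * X ^ 2 + C g.D * X + C g.E with hp
    have hd : p.natDegree = 4 := by
      rw [hp]
      compute_degree!
    obtain ⟨x, hx⟩ := IsAlgClosed.exists_root p (by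
      intro h
      have := Polynomial.natDegree_eq_of_degree_eq_some h
      rw [hd] at this
      exact absurd this (by norm_num))
    refine ⟨x, 1, fun h => one_ne_zero h.2, ?_⟩
    have h1 : p.eval x = 0 := hx
    rw [hp] at h1
    simp only [eval_add, eval_mul, eval_C, eval_pow, eval_X] at h1
    simp only [Q4.ev]
    linear_combination h1

theorem t_sxn : S_sxn := by
  intro K _ _ h2 f hf s hs
  suffices h : ∃ u : K, sxn_T s.1 u 1 ≠ 0 by
    obtain ⟨u, hu⟩ := h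
    have hd : (⟨u, -1, 1, 0⟩ : M2 K).det = 1 := by simp only [M2.det]; ring
    refine ⟨⟨u, -1, 1, 0⟩, (s.1.sub ⟨u, -1, 1, 0⟩, s.2 + s.1.tau ⟨u, -1, 1, 0⟩), ⟨?_, ?_, ?_⟩, ?_⟩
    · rw [hd]; exact one_ne_zero
    · rw [hd, one_pow, Q4.smul_one]
    · rw [hd]; ring
    · show sx (s.1.sub ⟨u, -1, 1, 0⟩) ≠ 0
      rw [sxn_sub, hd, one_pow, one_mul]
      exact hu
  by_contra hcon
  push Not at hcon
  have hp : C (sx s.1) * X ^ 6 + C (sxn_5 s.1) * X ^ 5 + C (sxn_4 s.1) * X ^ 4 + C (sxn_3 s.1) * X ^ 3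
      + C (sxn_2 s.1) * X ^ 2 + C (sxn_1 s.1) * X + C (sxn_0 s.1) = (0 : K[X]) := by
    apply Polynomial.funext
    intro r
    have h1 := hcon r
    simp only [sxn_T] at h1
    simp only [eval_add, eval_mul, eval_C, eval_pow, eval_X, eval_zero]
    linear_combination h1
  have k6 : sx s.1 = 0 := by
    have := congrArg (fun q : K[X] => q.coeff 6) hp
    simpa [coeff_X, coeff_C, coeff_X_pow] using this
  have k5 : sxn_5 s.1 = 0 := by
    have := congrArg (fun q : K[X] => q.coeff 5) hp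
    simpa [coeff_X, coeff_C, coeff_X_pow] using this
  have k4 : sxn_4 s.1 = 0 := by
    have := congrArg (fun q : K[X] => q.coeff 4) hp
    simpa [coeff_X, coeff_C, coeff_X_pow] using this
  have k3 : sxn_3 s.1 = 0 := by
    have := congrArg (fun q : K[X] => q.coeff 3) hp
    simpa [coeff_X, coeff_C, coeff_X_pow] using this
  have k2 : sxn_2 s.1 = 0 := by
    have := congrArg (fun q : K[X] => q.coeff 2) hp
    simpa [coeff_X, coeff_C, coeff_X_pow] using this
  have k1 : sxn_1 s.1 = 0 := by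
    have := congrArg (fun q : K[X] => q.coeff 1) hp
    simpa [coeff_X, coeff_C, coeff_X_pow] using this
  have k0 : sxn_0 s.1 = 0 := by
    have := congrArg (fun q : K[X] => q.coeff 0) hp
    simpa [coeff_X, coeff_C, coeff_X_pow] using this
  -- the algebraic closure
  set φ : K →+* AlgebraicClosure K := algebraMap K (AlgebraicClosure K) with hφ
  have hi : Function.Injective φ := φ.injective
  have hL2 : (2 : AlgebraicClosure K) ≠ 0 := by
    intro h
    apply h2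
    apply hi
    rw [map_ofNat, map_zero, h]
  have hLf : (f.map φ).disc ≠ 0 := by
    rw [Cub.map_disc]
    intro h
    exact hf (hi (by rw [h, map_zero]))
  have hLs : ((s.1.map φ, φ s.2) : Q4 (AlgebraicClosure K) × AlgebraicClosure K).1.res = ((f.map φ).sc 4).tr (φ s.2) := by
    show (s.1.map φ).res = _
    rw [Q4.map_res, hs, Cub.map_tr, Cub.map_sc, map_ofNat]
  obtain ⟨u, v, huv, hev⟩ := sxn_root (s.1.map φ)
  obtain ⟨M, hM⟩ := PE.of_root hL2 hLf (s := (s.1.map φ, φ s.2)) hLs huv hev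
  have e1 : sx ((s.1.map φ).sub M) = 0 := by
    rw [sxn_sub, sxn_T, sxn_m6, sxn_m5, sxn_m4, sxn_m3, sxn_m2, sxn_m1, sxn_m0, k6, k5, k4, k3, k2, k1, k0, map_zero]
    ring
  have e2 := hM.sub
  have e3 : (s.1.map φ).sub M = (zp (f.map φ)).1.smul (M.det ^ 2) := e2
  rw [e3, sxn_smul] at e1
  have e4 : sx (zp (f.map φ)).1 = 2 ^ 6 := by
    simp only [sx, zp]
    norm_num
  rw [e4] at e1
  exact mul_ne_zero (pow_ne_zero _ (pow_ne_zero _ hM.det)) (pow_ne_zero _ hL2) e1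

end Pool.Agent.H456.PR
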