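import Pool.Agent.H456.PR.Stm
import Pool.Agent.H456.PP.All

/-!
(sym) The tame symbol and the solubility of `a x² + b y² = z²` over the completions of `F(t)`.
For every model `(O, L, π, ι)` of the completion at `P` and `P ∤ u, v`: the form `⟨P^α u, P^β v, -1⟩` is isotropic iff
`(-1)^(αβ) u^β v^α` is a square modulo `P` (`sym_M`): only the parities of `α, β` matter; both even: Chevalley and Hensel
(`sym_A`); `α` odd, `β` even: `hasse_local` and Hensel (`sym_B`); both odd: `(a, b) ~ (a, -ab)` (`sym_Q`, `sym_D`).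
At infinity the form is `⟨X^n a♯, X^m b♯, -1⟩` up to squares, with `a♯, b♯` the reversed polynomials.
-/

set_option autoImplicit false
set_option linter.all false

open Polynomial Finset Filter
open Pool.Agent.H456.EC (toK toK_inj sig toK_eq reflect_toK cls)
open Pool.Agent.H456.RN
open Pool.Agent.H456.BQ
open Pool.Agent.H456.Coh (TF)
open Pool.Agent.H456.PP (OneR HasRt sx hh Tz Tq Iso3 nr IsoP nrP)

namespace Pool.Agent.H456.PR

section symsec

open Pool.Agent.H456.Coh (hasse_Iso hasse_swap12 hasse_swap23 hasse_sq hasse_local)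

variable {F : Type} [Field F]

theorem sym_sqm_mul {P : Pl F} {w v : F[X]} (hw : ¬ P.1 ∣ w) : SqM P (w ^ 2 * v) ↔ SqM P v := by
  constructor
  · rintro ⟨r, hr⟩
    obtain ⟨a, b, e⟩ := (P.2.2.coprime_iff_not_dvd.2 hw)
    refine ⟨b * r, ?_⟩
    have : v - (b * r) ^ 2 = P.1 * (a * (1 + b * w) * v) + b ^ 2 * (w ^ 2 * v - r ^ 2) := by
      linear_combination (-(v * (1 + b * w))) * e
    rw [this]
    exact dvd_add (dvd_mul_right _ _) (Dvd.dvd.mul_left hr _)
  · rintro ⟨r, hr⟩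
    refine ⟨w * r, ?_⟩
    have : w ^ 2 * v - (w * r) ^ 2 = w ^ 2 * (v - r ^ 2) := by ring
    rw [this]
    exact Dvd.dvd.mul_left hr _

theorem sym_sqrt (h2 : (2 : F) ≠ 0) {P : Pl F} {O : Type} [CommRing O] [IsDomain O] {π : O} {ι : F[X] →+* O}
    (h : Lc4 P.1 π ι) {u : F[X]} (hu : ¬ P.1 ∣ u) (hs : SqM P u) : ∃ r : O, r ≠ 0 ∧ r ^ 2 = ι u := by
  obtain ⟨r, hr⟩ := hs
  have hr' : ¬ P.1 ∣ r := by
    intro hd
    apply hu
    have h3 : u = (u - r ^ 2) + r * r := by ring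
    rw [h3]
    exact dvd_add hr (Dvd.dvd.mul_left hd _)
  have hPp : Prime P.1 := P.2.2.prime
  have h2r : ¬ P.1 ∣ C 2 * r := by
    intro hd
    rcases hPp.dvd_or_dvd hd with h3 | h3
    · exact P.2.2.not_isUnit (isUnit_of_dvd_unit h3 (isUnit_C.2 (isUnit_iff_ne_zero.2 h2)))
    · exact hr' h3
  have d1 : ∀ x : F[X], π ∣ ι x ↔ P.1 ∣ x := by
    intro x
    have := h.dvd 1 x
    rwa [pow_one, pow_one] at this
  obtain ⟨w, hw, hw'⟩ := h.hensel (ι (r ^ 2 - u)) (ι (C 2 * r)) 1 0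
    ((d1 _).2 (by rw [← neg_sub]; exact (dvd_neg).2 hr)) (PP.rec_unit h.toLc h2r)
  have h22 : (C 2 : F[X]) = 2 := map_ofNat C 2
  refine ⟨ι r + w, ?_, ?_⟩
  · intro h0
    apply hr'
    rw [← d1]
    have h3 : ι r = -w := by linear_combination h0
    rw [h3]
    exact (dvd_neg).2 hw
  · rw [h22, map_sub, map_mul, map_pow, map_ofNat] at hw'
    linear_combination hw'

theorem sym_pig [Finite F] (h2 : (2 : F) ≠ 0) {P : Pl F} {u v : F[X]} (hu : ¬ P.1 ∣ u) (hv : ¬ P.1 ∣ v) :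
    ∃ x y : F[X], P.1 ∣ u * x ^ 2 + v * y ^ 2 - 1 := by
  classical
  have : Fact (Irreducible P.1) := ⟨P.2.2⟩
  have : Module.Finite F (AdjoinRoot P.1) := P.2.1.finite_adjoinRoot
  have : Finite (AdjoinRoot P.1) := Module.finite_of_finite F
  have : Fintype (AdjoinRoot P.1) := Fintype.ofFinite _
  have hk2 : (2 : AdjoinRoot P.1) ≠ 0 := by
    have e : AdjoinRoot.of P.1 2 = 2 := map_ofNat _ 2
    rw [← e, Ne, map_eq_zero_iff _ (AdjoinRoot.of P.1).injective]
    exact h2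
  have hcard : Fintype.card (AdjoinRoot P.1) % 2 = 1 := by
    rw [← Nat.odd_iff]
    rcases Nat.even_or_odd (Fintype.card (AdjoinRoot P.1)) with he | ho
    · exfalso
      apply hk2
      have h3 : ringChar (AdjoinRoot P.1) = 2 := FiniteField.even_card_iff_char_two.2 (Nat.even_iff.1 he)
      have : ((2 : ℕ) : AdjoinRoot P.1) = 0 := by
        rw [← h3]; exact ringChar.Nat.cast_ringChar
      exact_mod_cast this
    · exact ho
  have hu' : AdjoinRoot.mk P.1 u ≠ 0 := by rw [Ne, AdjoinRoot.mk_eq_zero]; exact hu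
  have hv' : AdjoinRoot.mk P.1 v ≠ 0 := by rw [Ne, AdjoinRoot.mk_eq_zero]; exact hv
  obtain ⟨x, y, hxy⟩ := FiniteField.exists_root_sum_quadratic
    (f := C (AdjoinRoot.mk P.1 u) * X ^ 2 + C (-1)) (g := C (AdjoinRoot.mk P.1 v) * X ^ 2)
    (by rw [degree_add_eq_left_of_degree_lt]
        · rw [degree_C_mul_X_pow 2 hu']; rfl
        · rw [degree_C_mul_X_pow 2 hu']
          exact lt_of_le_of_lt degree_C_le (by norm_num))
    (by rw [degree_C_mul_X_pow 2 hv']; rfl) hcard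
  simp only [eval_add, eval_mul, eval_C, eval_pow, eval_X] at hxy
  obtain ⟨x, rfl⟩ := AdjoinRoot.mk_surjective x
  obtain ⟨y, rfl⟩ := AdjoinRoot.mk_surjective y
  refine ⟨x, y, ?_⟩
  rw [← AdjoinRoot.mk_eq_zero]
  simp only [map_add, map_sub, map_mul, map_pow, map_one]
  linear_combination hxy

section model

variable {P : Pl F} {O L : Type} [CommRing O] [IsDomain O] [Field L] [Algebra O L] [IsFractionRing O L] {π : O}
  {ι : F[X] →+* O}

theorem sym_A [Finite F] (h2 : (2 : F) ≠ 0) (h : Lc4 P.1 π ι) {u v : F[X]} (hu : ¬ P.1 ∣ u) (hv : ¬ P.1 ∣ v) :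
    hasse_Iso L (algebraMap O L (ι u)) (algebraMap O L (ι v)) (-1) := by
  obtain ⟨x, y, hxy⟩ := sym_pig h2 hu hv
  have hn : ¬ P.1 ∣ u * x ^ 2 + v * y ^ 2 := by
    intro hd
    have h3 : P.1 ∣ 1 := by
      have h4 := dvd_sub hd hxy
      rwa [sub_sub_cancel] at h4
    exact P.2.2.not_isUnit (isUnit_of_dvd_one h3)
  obtain ⟨r, hr0, hr⟩ := sym_sqrt h2 h hn ⟨1, by rwa [one_pow]⟩
  refine ⟨algebraMap O L (ι x), algebraMap O L (ι y), algebraMap O L r, ?_, ?_⟩
  · rintro ⟨-, -, h3⟩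
    exact hr0 ((map_eq_zero_iff _ (IsFractionRing.injective O L)).1 h3)
  · have h3 := congrArg (algebraMap O L) hr
    simp only [map_add, map_mul, map_pow] at h3
    linear_combination -h3

theorem sym_B (h2 : (2 : F) ≠ 0) (h : Lc4 P.1 π ι) {u v : F[X]} (hu : ¬ P.1 ∣ u) (hv : ¬ P.1 ∣ v) :
    hasse_Iso L (algebraMap O L (ι (P.1 * u))) (algebraMap O L (ι v)) (-1) ↔ SqM P v := by
  have hPp : Prime P.1 := P.2.2.prime
  have hm1 : ¬ P.1 ∣ (-1 : F[X]) := by
    intro h3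
    rw [dvd_neg] at h3
    exact P.2.2.not_isUnit (isUnit_of_dvd_one h3)
  constructor
  · intro hiso
    obtain ⟨a, b, c, H⟩ := hasse_local (L := L) P.2.2 h.pow h.nonunit h.ne h.dvd h.dense (P.1 * u) v (-1)
      (dvd_mul_right _ _) (by
        rw [pow_two]
        intro h3
        exact hu ((mul_dvd_mul_iff_left P.2.2.ne_zero).1 h3)) hv hm1
      (by rw [map_neg, map_neg, map_one, map_one]; exact hiso)
    have h3 := H 0 c (-b) (by
      have : a * 0 + b * c + c * -b = 0 := by ring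
      rw [this]; exact dvd_zero _)
    have h4 : P.1 ∣ c ^ 2 * v - b ^ 2 := by
      have : P.1 * u * 0 ^ 2 + v * c ^ 2 + -1 * (-b) ^ 2 = c ^ 2 * v - b ^ 2 := by ring
      rwa [this] at h3
    by_cases hc : P.1 ∣ c
    · exfalso
      have h5 := H 0 0 1 (by
        have : a * 0 + b * 0 + c * 1 = c := by ring
        rw [this]; exact hc)
      apply hm1
      have : P.1 * u * 0 ^ 2 + v * 0 ^ 2 + -1 * 1 ^ 2 = (-1 : F[X]) := by ring
      rwa [this] at h5
    · exact (sym_sqm_mul hc).1 ⟨b, h4⟩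
  · intro hs
    obtain ⟨r, hr0, hr⟩ := sym_sqrt h2 h hv hs
    refine ⟨0, 1, algebraMap O L r, fun h3 => one_ne_zero h3.2.1, ?_⟩
    have h3 := congrArg (algebraMap O L) hr
    rw [map_pow] at h3
    linear_combination -h3

theorem sym_Q {a b : L} (ha : a ≠ 0) (h : hasse_Iso L a b (-1)) : hasse_Iso L a (-(a * b)) (-1) := by
  obtain ⟨x, y, z, h0, h1⟩ := h
  refine ⟨z, y, a * x, ?_, ?_⟩
  · rintro ⟨e1, e2, e3⟩
    exact h0 ⟨(mul_eq_zero.1 e3).resolve_left ha, e2, e1⟩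
  · linear_combination (-a) * h1

theorem sym_sq2 {a b p : L} (hp : p ≠ 0) : hasse_Iso L a (p ^ 2 * b) (-1) ↔ hasse_Iso L a b (-1) := by
  constructor
  · intro h
    exact hasse_swap12 ((hasse_sq hp).1 (hasse_swap12 h))
  · intro h
    exact hasse_swap12 ((hasse_sq hp).2 (hasse_swap12 h))

theorem sym_D {p u v : L} (hp : p ≠ 0) (hu : u ≠ 0) :
    hasse_Iso L (p * u) (p * v) (-1) ↔ hasse_Iso L (p * u) (-(u * v)) (-1) := by
  constructor
  · intro h
    have h1 := sym_Q (mul_ne_zero hp hu) h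
    have e : -(p * u * (p * v)) = p ^ 2 * (-(u * v)) := by ring
    rw [e, sym_sq2 hp] at h1
    exact h1
  · intro h
    have h1 := sym_Q (mul_ne_zero hp hu) h
    have e : -(p * u * (-(u * v))) = u ^ 2 * (p * v) := by ring
    rw [e, sym_sq2 hu] at h1
    exact h1

theorem sym_red {a b s t : F[X]} (h : Lc4 P.1 π ι) (hs : s ≠ 0) (ht : t ≠ 0) :
    hasse_Iso L (algebraMap O L (ι (s ^ 2 * a))) (algebraMap O L (ι (t ^ 2 * b))) (-1) ↔
      hasse_Iso L (algebraMap O L (ι a)) (algebraMap O L (ι b)) (-1) := by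
  rw [map_mul, map_pow, map_mul, map_pow, map_mul, map_pow, map_mul, map_pow,
    hasse_sq (PP.rec_ι_ne' P.2.2 h.dvd hs), sym_sq2 (PP.rec_ι_ne' P.2.2 h.dvd ht)]

theorem sym_M [Finite F] (h2 : (2 : F) ≠ 0) (h : Lc4 P.1 π ι) {u v : F[X]} (hu : ¬ P.1 ∣ u) (hv : ¬ P.1 ∣ v)
    (α β : ℕ) :
    hasse_Iso L (algebraMap O L (ι (P.1 ^ α * u))) (algebraMap O L (ι (P.1 ^ β * v))) (-1) ↔
      SqM P ((-1) ^ (α * β) * u ^ β * v ^ α) := by
  have hPp : Prime P.1 := P.2.2.prime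
  have hP0 : P.1 ≠ 0 := P.2.2.ne_zero
  have hm1 : ¬ P.1 ∣ (-1 : F[X]) := by
    intro h3
    rw [dvd_neg] at h3
    exact P.2.2.not_isUnit (isUnit_of_dvd_one h3)
  have hone : ¬ P.1 ∣ (1 : F[X]) := fun h3 => P.2.2.not_isUnit (isUnit_of_dvd_one h3)
  have npow : ∀ (w : F[X]) (n : ℕ), ¬ P.1 ∣ w → ¬ P.1 ∣ w ^ n := fun w n hw hd => hw (hPp.dvd_of_dvd_pow hd)
  have nmul : ∀ w w' : F[X], ¬ P.1 ∣ w → ¬ P.1 ∣ w' → ¬ P.1 ∣ w * w' := by
    intro w w' h3 h4 h5
    rcases hPp.dvd_or_dvd h5 with h6 | h6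
    · exact h3 h6
    · exact h4 h6
  have e0 : ∀ (k : ℕ) (w : F[X]), P.1 ^ (2 * k) * w = (P.1 ^ k) ^ 2 * w := by intro k w; ring
  have e1 : ∀ (k : ℕ) (w : F[X]), P.1 ^ (2 * k + 1) * w = (P.1 ^ k) ^ 2 * (P.1 * w) := by intro k w; ring
  obtain ⟨k, hk | hk⟩ := Nat.even_or_odd' α
  · obtain ⟨l, hl | hl⟩ := Nat.even_or_odd' β
    · subst hk hl
      rw [e0, e0, sym_red h (pow_ne_zero _ hP0) (pow_ne_zero _ hP0)]
      have e : (-1 : F[X]) ^ (2 * k * (2 * l)) * u ^ (2 * l) * v ^ (2 * k) =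
          (((-1) ^ (k * (2 * l)) * u ^ l) * v ^ k) ^ 2 * 1 := by ring
      rw [e, sym_sqm_mul (nmul _ _ (nmul _ _ (npow _ _ hm1) (npow _ _ hu)) (npow _ _ hv))]
      exact ⟨fun _ => ⟨1, by simp⟩, fun _ => sym_A h2 h hu hv⟩
    · subst hk hl
      rw [e0, e1, sym_red h (pow_ne_zero _ hP0) (pow_ne_zero _ hP0)]
      have e : (-1 : F[X]) ^ (2 * k * (2 * l + 1)) * u ^ (2 * l + 1) * v ^ (2 * k) =
          (((-1) ^ (k * (2 * l + 1)) * u ^ l) * v ^ k) ^ 2 * u := by ring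
      rw [e, sym_sqm_mul (nmul _ _ (nmul _ _ (npow _ _ hm1) (npow _ _ hu)) (npow _ _ hv)), ← sym_B (L := L) h2 h hv hu]
      exact ⟨fun h => hasse_swap12 h, fun h => hasse_swap12 h⟩
  · obtain ⟨l, hl | hl⟩ := Nat.even_or_odd' β
    · subst hk hl
      rw [e1, e0, sym_red h (pow_ne_zero _ hP0) (pow_ne_zero _ hP0)]
      have e : (-1 : F[X]) ^ ((2 * k + 1) * (2 * l)) * u ^ (2 * l) * v ^ (2 * k + 1) =
          (((-1) ^ ((2 * k + 1) * l) * u ^ l) * v ^ k) ^ 2 * v := by ring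
      rw [e, sym_sqm_mul (nmul _ _ (nmul _ _ (npow _ _ hm1) (npow _ _ hu)) (npow _ _ hv)), ← sym_B (L := L) h2 h hu hv]
    · subst hk hl
      rw [e1, e1, sym_red h (pow_ne_zero _ hP0) (pow_ne_zero _ hP0)]
      have e : (-1 : F[X]) ^ ((2 * k + 1) * (2 * l + 1)) * u ^ (2 * l + 1) * v ^ (2 * k + 1) =
          (((-1) ^ (2 * k * l + k + l) * u ^ l) * v ^ k) ^ 2 * (-(u * v)) := by
        have e3 : (-1 : F[X]) ^ ((2 * k + 1) * (2 * l + 1)) = ((-1) ^ (2 * k * l + k + l)) ^ 2 * (-1) := by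
          rw [← pow_mul, ← pow_succ]
          congr 1
          ring
        rw [e3]
        ring
      have hnv : ¬ P.1 ∣ -(u * v) := by rw [dvd_neg]; exact nmul _ _ hu hv
      rw [e, sym_sqm_mul (nmul _ _ (nmul _ _ (npow _ _ hm1) (npow _ _ hu)) (npow _ _ hv)), ← sym_B (L := L) h2 h hu hnv]
      have hp : algebraMap O L (ι P.1) ≠ 0 := PP.rec_ι_ne' P.2.2 h.dvd hP0
      have hu0 : algebraMap O L (ι u) ≠ 0 := PP.rec_ι_ne' P.2.2 h.dvd (fun h3 => hu (h3 ▸ dvd_zero _))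
      rw [map_mul, map_mul, map_mul, map_mul, sym_D hp hu0, map_neg, map_neg, map_mul, map_mul]

end model

theorem sym_conn {L : Type} [Field L] (A B : RatFunc F) (j : RatFunc F →+* L) :
    Iso3 ((⟨A, B, -1, 0, 0, 0⟩ : TF (RatFunc F)).map j) ↔ hasse_Iso L (j A) (j B) (-1) := by
  constructor
  · rintro ⟨x, y, z, h0, h1⟩
    refine ⟨x, y, z, h0, ?_⟩
    simp only [TF.map, TF.ev, map_neg, map_one, map_zero] at h1
    linear_combination h1
  · rintro ⟨x, y, z, h0, h1⟩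
    refine ⟨x, y, z, h0, ?_⟩
    simp only [TF.map, TF.ev, map_neg, map_one, map_zero]
    linear_combination h1

theorem sym_iso [Finite F] (h2 : (2 : F) ≠ 0) (P : Pl F) (A B : RatFunc F) {u v s t : F[X]} (hu : ¬ P.1 ∣ u)
    (hv : ¬ P.1 ∣ v) (hs : s ≠ 0) (ht : t ≠ 0) (α β : ℕ) (hA : toK F s ^ 2 * A = toK F (P.1 ^ α * u))
    (hB : toK F t ^ 2 * B = toK F (P.1 ^ β * v)) :
    IsoP P ⟨A, B, -1, 0, 0, 0⟩ ↔ SqM P ((-1) ^ (α * β) * u ^ β * v ^ α) := by
  have key : ∀ (O L : Type) [CommRing O] [IsDomain O] [Field L] [Algebra O L] [IsFractionRing O L]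
      (π : O) (ι : F[X] →+* O) (j : RatFunc F →+* L), Lc4 P.1 π ι → (∀ x : F[X], j (toK F x) = algebraMap O L (ι x)) →
      (Iso3 ((⟨A, B, -1, 0, 0, 0⟩ : TF (RatFunc F)).map j) ↔ SqM P ((-1) ^ (α * β) * u ^ β * v ^ α)) := by
    intro O L _ _ _ _ _ π ι j hL hj
    rw [sym_conn, ← sym_M (L := L) h2 hL hu hv, ← hj, ← hj, ← hA, ← hB, map_mul, map_mul, map_pow, map_pow,
      hasse_sq, sym_sq2]
    · rw [hj]; exact PP.rec_ι_ne' P.2.2 hL.dvd ht
    · rw [hj]; exact PP.rec_ι_ne' P.2.2 hL.dvd hs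
  constructor
  · rintro ⟨O, L, i1, i2, i3, i4, i5, π, ι, j, hL, hj, hiso⟩
    exact (key O L π ι j hL hj).1 hiso
  · intro hsq
    refine ⟨_, (plv P).adicCompletion (RatFunc F), _, inferInstance, _, _, inferInstance, _, _,
      algebraMap (RatFunc F) ((plv P).adicCompletion (RatFunc F)), t_mcomp F P, fun x => rfl, ?_⟩
    exact (key _ _ _ _ _ (t_mcomp F P) (fun x => rfl)).2 hsq

theorem sym_X (w : F[X]) : SqM (PlX F) w ↔ IsSquare (w.coeff 0) := by
  constructor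
  · rintro ⟨r, hr⟩
    have h1 : (w - r ^ 2).coeff 0 = 0 := X_dvd_iff.1 hr
    refine ⟨r.coeff 0, ?_⟩
    rw [coeff_sub, pow_two, mul_coeff_zero] at h1
    exact sub_eq_zero.1 h1
  · rintro ⟨r, hr⟩
    refine ⟨C r, X_dvd_iff.2 ?_⟩
    rw [coeff_sub, pow_two, mul_coeff_zero, coeff_C_zero, hr, sub_self]

theorem sym_refl {a : F[X]} : (reflect a.natDegree a).coeff 0 = a.leadingCoeff := by
  rw [coeff_reflect, revAt_le (Nat.zero_le _), Nat.sub_zero]
  rfl

end symsec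

theorem t_sym : S_sym := by
  intro F _ _ h2 a b ha hb
  constructor
  · intro P
    have hPp : Prime P.1 := P.2.2.prime
    have fa : FiniteMultiplicity P.1 a := FiniteMultiplicity.of_not_isUnit P.2.2.not_isUnit ha
    have fb : FiniteMultiplicity P.1 b := FiniteMultiplicity.of_not_isUnit P.2.2.not_isUnit hb
    have key : ∀ c : F[X], FiniteMultiplicity P.1 c → c = P.1 ^ multiplicity P.1 c * (c / P.1 ^ multiplicity P.1 c) ∧
        ¬ P.1 ∣ c / P.1 ^ multiplicity P.1 c := by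
      intro c hc
      have h1 : P.1 ^ multiplicity P.1 c * (c / P.1 ^ multiplicity P.1 c) = c :=
        EuclideanDomain.mul_div_cancel' (pow_ne_zero _ P.2.2.ne_zero) (pow_multiplicity_dvd _ _)
      refine ⟨h1.symm, fun hd => ?_⟩
      apply hc.not_pow_dvd_of_multiplicity_lt (Nat.lt_succ_self _)
      obtain ⟨d, hd⟩ := hd
      refine ⟨d, ?_⟩
      rw [hd] at h1
      rw [pow_succ, mul_assoc]
      exact h1.symm
    obtain ⟨ea, na⟩ := key a fa
    obtain ⟨eb, nb⟩ := key b fb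
    rw [sym_iso h2 P (toK F a) (toK F b) na nb one_ne_zero one_ne_zero (multiplicity P.1 a) (multiplicity P.1 b)
      (by rw [map_one, one_pow, one_mul, ← ea]) (by rw [map_one, one_pow, one_mul, ← eb])]
    have hm1 : ¬ P.1 ∣ (-1 : F[X]) := by
      intro h3
      rw [dvd_neg] at h3
      exact P.2.2.not_isUnit (isUnit_of_dvd_one h3)
    have hnd : ¬ P.1 ∣ (-1) ^ (multiplicity P.1 a * multiplicity P.1 b) *
        (a / P.1 ^ multiplicity P.1 a) ^ multiplicity P.1 b * (b / P.1 ^ multiplicity P.1 b) ^ multiplicity P.1 a := by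
      intro h3
      rcases hPp.dvd_or_dvd h3 with h4 | h4
      · rcases hPp.dvd_or_dvd h4 with h5 | h5
        · exact hm1 (hPp.dvd_of_dvd_pow h5)
        · exact na (hPp.dvd_of_dvd_pow h5)
      · exact nb (hPp.dvd_of_dvd_pow h4)
    unfold hs lg
    rw [if_neg hnd]
    constructor
    · intro h3
      rw [if_pos h3]
    · intro h3
      by_contra h4
      rw [if_neg h4] at h3
      norm_num at h3
  · have hmap : (⟨toK F a, toK F b, -1, 0, 0, 0⟩ : TF (RatFunc F)).map (locI_tau F) =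
        ⟨sig F a, sig F b, -1, 0, 0, 0⟩ := by
      simp only [TF.map, locI_tau_toK, map_neg, map_one, map_zero]
    have nr : ∀ c : F[X], c ≠ 0 → ¬ (PlX F).1 ∣ reflect c.natDegree c := by
      intro c hc hd
      have h1 : (X : F[X]) ∣ reflect c.natDegree c := hd
      rw [X_dvd_iff, sym_refl] at h1
      exact hc (leadingCoeff_eq_zero.1 h1)
    have hA : ∀ c : F[X], toK F (X ^ c.natDegree) ^ 2 * sig F c =
        toK F ((PlX F).1 ^ c.natDegree * reflect c.natDegree c) := by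
      intro c
      have h1 : (PlX F).1 = X := rfl
      rw [h1, map_mul, reflect_toK le_rfl, map_pow, locI_toK_X]
      ring
    rw [hmap, sym_iso h2 (PlX F) (sig F a) (sig F b) (nr a ha) (nr b hb) (pow_ne_zero _ X_ne_zero)
      (pow_ne_zero _ X_ne_zero) a.natDegree b.natDegree (hA a) (hA b), sym_X]
    have e : ((-1 : F[X]) ^ (a.natDegree * b.natDegree) * reflect a.natDegree a ^ b.natDegree *
        reflect b.natDegree b ^ a.natDegree).coeff 0 =
        (-1) ^ (a.natDegree * b.natDegree) * a.leadingCoeff ^ b.natDegree * b.leadingCoeff ^ a.natDegree := by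
      rw [mul_coeff_zero, mul_coeff_zero, coeff_zero_eq_eval_zero, coeff_zero_eq_eval_zero, coeff_zero_eq_eval_zero,
        eval_pow, eval_pow, eval_pow, ← coeff_zero_eq_eval_zero, ← coeff_zero_eq_eval_zero, ← coeff_zero_eq_eval_zero,
        sym_refl, sym_refl, coeff_neg, coeff_one_zero]
    rw [e]
    unfold hi
    constructor
    · intro h3
      rw [if_pos h3]
    · intro h3
      by_contra h4
      rw [if_neg h4] at h3
      norm_num at h3

end Pool.Agent.H456.PR
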