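import Pool.Agent.H456.PR.Stm
import Pool.Agent.H456.BQ.T_congr

/-!
(tws) `D = DJ J`, squarefree, monic, degree `2k`. (A) `Cnd P 5 (cJ J c P)`: for `P ∉ J` a condition modulo `P²` is a condition modulo `P⁵`. For `P ∈ J`: if `g ≡ g'` mod `P⁵` and `g.tr r = f.sc P`, `c f`, then `g'.tr r = (P f.a + P⁵u, P² f.b + P⁵v, P³ f.c + P⁵w) = f'.sc P`, `f' = (f.a + P⁴u, f.b + P³v, f.c + P²w) ≡ f` mod `P²`; translations clear. (B) Let `B_m` be the set of polynomials of degree `≤ 2m`. Consider the pairs `(f, r)`, `f ∈ Msh n` with all `c P f`, `r ∈ B_{n+k}`, and the map `(f, r) ↦ g = (f.sc D).tr r`. (B1) `g ∈ Msh (n+k)`: the degrees are clear (`Cub.tr`, `deg (D f.a) ≤ 2(n+k)`, ...), `disc g = D⁶ disc f ≠ 0`,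
minimality (`MinAll_crv`: `MinAll n (crv f) ↔ (∀ P, ¬ NMc P f) ∧ ¬ NMc X (crev n f)`, `NMc_tr`): at `Q ∤ D`, `NMc Q (f.sc D) → NMc Q f` (the element `D` is invertible modulo powers of `Q`: `(f.sc D).tr r = g₀.sc (Q²)`; choose `D'` with `D D' ≡ 1` mod `Q¹²`, ...; see PP/T_mtw.lean where this is done); at `P ∈ J`: `NMc P h → P¹² ∣ disc h`, but `disc (f.sc D) = D⁶ disc f` with `P ∤ disc f`; at infinity `crev (n+k) (f.sc D) = (crev n f).sc (reverse D)`, `reverse D` has constant coefficient `1` (`D` monic of degree exactly `2k`). (B2) `cJ J c P g` for all `P`: for `P ∉ J` by translation and scaling (`P ∤ D`); for `P ∈ J`: `g.tr (-r) = (f.sc (D/P)).sc P` and `c P (f.sc (D/P))`.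
(B3) every `g ∈ Msh (n+k)` with all `cJ J c P g` comes from exactly `q^(2n+1)` pairs. Existence: for `P ∈ J` there are `r_P, f_P` with `g.tr r_P = f_P.sc P`, `c P f_P`; CRT: `r` of degree `< 2k` with `r ≡ r_P` mod `P` for all `P ∈ J`: `g.tr r = (f_P.sc P).tr (P u) = (f_P.tr u).sc P`, so the coefficients of `g.tr r` are divisible by `P, P², P³` for all `P ∈ J`, hence by `D, D², D³`: `g.tr r = f.sc D`, `f` in the box of height `n`, `f ∈ Msh n` (if `NMc Q f` then `NMc Q (f.sc D)`; the same at infinity), `c P f`: for `P ∈ J`, `f.sc (D/P) = f_P.tr u` and scaling by the unit `D/P`. Number: if `(f.sc D).tr r = (f'.sc D).tr r'` then `s = r' - r`: `f.sc D = (f'.sc D).tr s`: the third coefficient: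
`D³ f.c = D³ f'.c + D² f'.b s + D f'.a s² + s³`, so `P ∣ s` for all `P ∣ D`, `s = D s'`, `f.sc D = (f'.tr s').sc D`, `f = f'.tr s'`; `deg s' ≤ 2n` iff `deg s ≤ 2(n+k)`, and conversely every `s'` of degree `≤ 2n` gives a pair `(f.tr (-s'), r + D s')` (or with the other sign), with different `r`. (C) Sum `Φ(g)` over all pairs in two ways, `Φ(g) = Φ(f.sc D)`: `q^(2(n+k)+1) ∑_f Φ(f.sc D) = q^(2n+1) ∑_g Φ(g)`.
-/

set_option autoImplicit false
set_option linter.all false

open Polynomial Finset Filter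
open Pool.Agent.H456.EC (toK toK_inj sig toK_eq reflect_toK cls)
open Pool.Agent.H456.RN
open Pool.Agent.H456.BQ
open Pool.Agent.H456.Coh (TF)
open Pool.Agent.H456.PP (OneR HasRt sx hh Tz Tq Iso3 nr IsoP nrP)

namespace Pool.Agent.H456.PR

section tws

/-- scaling keeps nonminimality -/
theorem tws_NMc_sc {R : Type} [CommRing R] {p : R} {f : Cub R} (u : R) (h : NMc p f) :
    NMc p (f.sc u) := by
  obtain ⟨r, g, e⟩ := h
  refine ⟨u * r, g.sc u, ?_⟩
  rw [← Cub.sc_tr, e, Cub.sc_sc, Cub.sc_sc, mul_comm]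

/-- a nonminimal cubic has a discriminant divisible by a high power -/
theorem tws_NMc12 {R : Type} [CommRing R] {p : R} {g : Cub R} (h : NMc p g) : p ^ 12 ∣ g.disc := by
  obtain ⟨r, k, e⟩ := h
  refine ⟨k.disc, ?_⟩
  rw [← Cub.disc_tr r g, e, Cub.disc_sc]
  ring

variable {F : Type} [Field F]

/-- scaling by a unit modulo `P` keeps minimality -/
theorem tws_NMc_unit {P u : F[X]} (hu : IsCoprime P u) {f : Cub F[X]} (h : NMc P (f.sc u)) :
    NMc P f := by
  obtain ⟨a, v, e⟩ := (IsCoprime.pow_left (m := 6) hu)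
  have h1 := tws_NMc_sc v h
  rw [Cub.sc_sc] at h1
  have e1 : (Ideal.Quotient.mk (Ideal.span {P ^ 6}) (u * v) : Rq (P ^ 6)) = 1 := by
    rw [← map_one (Ideal.Quotient.mk (Ideal.span {P ^ 6})), mk_eq]
    exact ⟨-a, by linear_combination e⟩
  have h2 : (f.sc (u * v)).map (Ideal.Quotient.mk (Ideal.span {P ^ 6})) =
      f.map (Ideal.Quotient.mk (Ideal.span {P ^ 6})) := by
    rw [Cub.map_sc, e1, Cub.sc_one]
  have h3 := (NMc_iff_mod (P := P) (M := 6) le_rfl).2 h1
  rw [h2] at h3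
  exact (NMc_iff_mod (P := P) (M := 6) le_rfl).1 h3

theorem tws_sc_inj {D : F[X]} (hD : D ≠ 0) {f g : Cub F[X]} (h : f.sc D = g.sc D) : f = g := by
  have h1 := congrArg Cub.a h
  have h2 := congrArg Cub.b h
  have h3 := congrArg Cub.c h
  simp only [Cub.sc] at h1 h2 h3
  ext1
  · exact mul_left_cancel₀ hD h1
  · exact mul_left_cancel₀ (pow_ne_zero 2 hD) h2
  · exact mul_left_cancel₀ (pow_ne_zero 3 hD) h3

variable [Fintype F]

theorem tws_monic (J : Finset (Pl F)) : (DJ J).Monic := by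
  unfold DJ
  exact monic_prod_of_monic _ _ fun P _ => P.2.1

theorem tws_dvd {J : Finset (Pl F)} {k : ℕ} {x : F[X]} (h : ∀ P ∈ J, P.1 ^ k ∣ x) :
    DJ J ^ k ∣ x := by
  unfold DJ
  rw [← prod_pow]
  apply Finset.prod_dvd_of_coprime
  · intro P _ Q _ hne
    exact (coprime_Pl hne).pow
  · exact h

theorem tws_not_dvd {J : Finset (Pl F)} {P : Pl F} (hP : P ∉ J) : ¬ P.1 ∣ DJ J := by
  intro h
  have hp : Prime P.1 := P.2.2.prime
  unfold DJ at h
  obtain ⟨Q, hQ, hd⟩ := (Prime.dvd_finset_prod_iff hp _).1 h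
  have h1 : P = Q :=
    Subtype.ext (eq_of_monic_of_associated P.2.1 Q.2.1 (P.2.2.associated_of_dvd Q.2.2 hd))
  exact hP (h1 ▸ hQ)

open Classical in
theorem tws_erase {J : Finset (Pl F)} {P : Pl F} (hP : P ∈ J) : DJ (J.erase P) * P.1 = DJ J := by
  unfold DJ
  exact Finset.prod_erase_mul _ _ hP

theorem tws_mem_dvd {J : Finset (Pl F)} {P : Pl F} (hP : P ∈ J) : P.1 ∣ DJ J := by
  unfold DJ
  exact dvd_prod_of_mem (fun P : Pl F => P.1) hP

open Classical in
/-- the Chinese remainder theorem -/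
theorem tws_crt (ρ : Pl F → F[X]) (J : Finset (Pl F)) : ∃ r : F[X], ∀ P ∈ J, P.1 ∣ r - ρ P := by
  induction J using Finset.induction_on with
  | empty => exact ⟨0, fun P hP => absurd hP (notMem_empty P)⟩
  | insert P J hP ih =>
    obtain ⟨r, hr⟩ := ih
    obtain ⟨a, b, e⟩ := (P.2.2.coprime_iff_not_dvd).2 (tws_not_dvd hP)
    refine ⟨r + DJ J * (b * (ρ P - r)), ?_⟩
    intro Q hQ
    rw [Finset.mem_insert] at hQ
    rcases hQ with hQ | hQ
    · subst hQ
      exact ⟨(r - ρ Q) * a, by linear_combination (ρ Q - r) * e⟩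
    · have e1 : r + DJ J * (b * (ρ P - r)) - ρ Q = (r - ρ Q) + DJ J * (b * (ρ P - r)) := by ring
      rw [e1]
      exact dvd_add (hr Q hQ) (dvd_mul_of_dvd_left (tws_mem_dvd hQ) _)

theorem tws_deg_mul {D a : F[X]} (hm : D.Monic) {N : ℕ} (h : (D * a).natDegree ≤ D.natDegree + N) :
    a.natDegree ≤ N := by
  by_cases ha : a = 0
  · rw [ha, natDegree_zero]; exact Nat.zero_le _
  · rw [hm.natDegree_mul' ha] at h; omega

theorem tws_cdg_sc {n k : ℕ} {D : F[X]} (hD : D.natDegree = 2 * k) {f : Cub F[X]} (h : CDg n f) :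
    CDg (n + k) (f.sc D) := by
  obtain ⟨h1, h3, h4⟩ := h
  have p2 : (D ^ 2).natDegree ≤ 2 * (2 * k) := by
    rw [← hD]; exact natDegree_pow_le
  have p3 : (D ^ 3).natDegree ≤ 3 * (2 * k) := by
    rw [← hD]; exact natDegree_pow_le
  refine ⟨?_, ?_, ?_⟩
  · simp only [Cub.sc]
    exact natDegree_mul_le.trans (by omega)
  · simp only [Cub.sc]
    exact natDegree_mul_le.trans (by omega)
  · simp only [Cub.sc]
    exact natDegree_mul_le.trans (by omega)

theorem tws_cdg_of_sc {n k : ℕ} {D : F[X]} (hm : D.Monic) (hD : D.natDegree = 2 * k) {f : Cub F[X]}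
    (h : CDg (n + k) (f.sc D)) : CDg n f := by
  obtain ⟨h1, h3, h4⟩ := h
  simp only [Cub.sc] at h1 h3 h4
  have p2 : (D ^ 2).natDegree = 2 * (2 * k) := by rw [← hD]; exact hm.natDegree_pow 2
  have p3 : (D ^ 3).natDegree = 3 * (2 * k) := by rw [← hD]; exact hm.natDegree_pow 3
  refine ⟨?_, ?_, ?_⟩
  · exact tws_deg_mul hm (by omega)
  · exact tws_deg_mul (hm.pow 2) (by omega)
  · exact tws_deg_mul (hm.pow 3) (by omega)

/-- the reversal of a twist -/
theorem tws_crev {n k : ℕ} {f : Cub F[X]} (hf : CDg n f) (D : F[X])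
    (hD : D.natDegree ≤ 2 * k) : crev (n + k) (f.sc D) = (crev n f).sc (reflect (2 * k) D) := by
  have e2 : 2 * (n + k) = 2 * k + 2 * n := by ring
  have e4 : 4 * (n + k) = (2 * k + 2 * k) + 4 * n := by ring
  have e6 : 6 * (n + k) = (2 * k + (2 * k + 2 * k)) + 6 * n := by ring
  have d2 : (D * D).natDegree ≤ 2 * k + 2 * k := natDegree_mul_le.trans (add_le_add hD hD)
  have d3 : (D * (D * D)).natDegree ≤ 2 * k + (2 * k + 2 * k) :=
    natDegree_mul_le.trans (add_le_add hD d2)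
  ext1
  · simp only [crev, Cub.sc]
    rw [e2, reflect_mul D f.a hD hf.1]
  · simp only [crev, Cub.sc]
    rw [e4, sq, reflect_mul (D * D) f.b d2 hf.2.1, reflect_mul D D hD hD, sq]
  · simp only [crev, Cub.sc]
    have p3 : D ^ 3 = D * (D * D) := by ring
    have q3 : (reflect (2 * k) D) ^ 3 =
        reflect (2 * k) D * (reflect (2 * k) D * reflect (2 * k) D) := by ring
    rw [e6, p3, q3, reflect_mul (D * (D * D)) f.c d3 hf.2.2, reflect_mul D (D * D) hD d2,
      reflect_mul D D hD hD]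

theorem tws_X {D : F[X]} (hm : D.Monic) {N : ℕ} (hD : D.natDegree = N) :
    IsCoprime (X : F[X]) (reflect N D) := by
  rw [irreducible_X.coprime_iff_not_dvd, X_dvd_iff, coeff_reflect, revAt_le (Nat.zero_le N),
    Nat.sub_zero, ← hD, coeff_natDegree, hm.leadingCoeff]
  exact one_ne_zero

theorem tws_mono {P : F[X]} {m m' : ℕ} (hm : m ≤ m') {c : Cub F[X] → Prop} (h : Cnd P m c) :
    Cnd P m' c :=
  ⟨fun f f' e => h.cong f f' (congr_map_of (pow_dvd_pow P hm) e), h.tr⟩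

theorem tws_tw {P : Pl F} {c : Cub F[X] → Prop} (h : Cnd P.1 2 c) : Cnd P.1 5 (tw P c) := by
  have key : ∀ g g' : Cub F[X], g.map (Ideal.Quotient.mk (Ideal.span {P.1 ^ 5})) =
      g'.map (Ideal.Quotient.mk (Ideal.span {P.1 ^ 5})) → tw P c g → tw P c g' := by
    rintro g g' e ⟨f, r, e1, hc⟩
    have e2 : (g.tr r).map (Ideal.Quotient.mk (Ideal.span {P.1 ^ 5})) =
        (g'.tr r).map (Ideal.Quotient.mk (Ideal.span {P.1 ^ 5})) := by
      rw [Cub.map_tr, Cub.map_tr, e]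
    rw [e1] at e2
    have h1 := congrArg Cub.a e2
    have h2 := congrArg Cub.b e2
    have h3 := congrArg Cub.c e2
    simp only [Cub.map, Cub.sc] at h1 h2 h3
    rw [mk_eq] at h1 h2 h3
    obtain ⟨u, hu⟩ := h1
    obtain ⟨v, hv⟩ := h2
    obtain ⟨w, hw⟩ := h3
    refine ⟨⟨f.a - P.1 ^ 4 * u, f.b - P.1 ^ 3 * v, f.c - P.1 ^ 2 * w⟩, r, ?_,
      (h.cong f _ ?_).1 hc⟩
    · ext1
      · simp only [Cub.sc]; linear_combination -hu
      · simp only [Cub.sc]; linear_combination -hv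
      · simp only [Cub.sc]; linear_combination -hw
    · ext1
      · simp only [Cub.map]; rw [mk_eq]; exact ⟨P.1 ^ 2 * u, by ring⟩
      · simp only [Cub.map]; rw [mk_eq]; exact ⟨P.1 * v, by ring⟩
      · simp only [Cub.map]; rw [mk_eq]; exact ⟨w, by ring⟩
  refine ⟨fun f f' e => ⟨key f f' e, key f' f e.symm⟩, ?_⟩
  intro g s
  constructor
  · rintro ⟨f, r, e, hc⟩
    rw [Cub.tr_tr] at e
    exact ⟨f, _, e, hc⟩
  · rintro ⟨f, r, e, hc⟩
    refine ⟨f, r - s, ?_, hc⟩
    rw [Cub.tr_tr, ← e]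
    congr 1
    ring

open Classical in
/-- the twist of a minimal cubic is minimal -/
theorem tws_mem (h2 : (2 : F) ≠ 0) {n k : ℕ} {J : Finset (Pl F)} (hk : (DJ J).natDegree = 2 * k)
    {f : Cub F[X]} (hf : f ∈ Msh F n) (hd : ∀ P ∈ J, ¬ P.1 ∣ f.disc) :
    f.sc (DJ J) ∈ Msh F (n + k) := by
  rw [mem_Msh] at hf ⊢
  obtain ⟨h1, h3, h4⟩ := hf
  rw [MinAll_crv h2] at h4 ⊢
  refine ⟨tws_cdg_sc hk h1, ?_, ?_, ?_⟩
  · rw [Cub.disc_sc]
    exact mul_ne_zero (pow_ne_zero 6 (tws_monic J).ne_zero) h3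
  · intro Q hQ
    by_cases hQJ : Q ∈ J
    · have h5 := tws_NMc12 hQ
      rw [Cub.disc_sc, ← tws_erase hQJ] at h5
      have e1 : Q.1 ^ 12 = Q.1 ^ 6 * Q.1 ^ 6 := by ring
      have e2 : (DJ (J.erase Q) * Q.1) ^ 6 * f.disc = Q.1 ^ 6 * (DJ (J.erase Q) ^ 6 * f.disc) := by
        ring
      rw [e1, e2] at h5
      have h7 := (mul_dvd_mul_iff_left (pow_ne_zero 6 Q.2.1.ne_zero)).1 h5
      have h8 : Q.1 ∣ DJ (J.erase Q) ^ 6 * f.disc := (dvd_pow_self _ (by norm_num)).trans h7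
      rcases Q.2.2.prime.dvd_or_dvd h8 with h9 | h9
      · exact tws_not_dvd (Finset.notMem_erase Q J) (Q.2.2.prime.dvd_of_dvd_pow h9)
      · exact hd Q hQJ h9
    · exact h4.1 Q (tws_NMc_unit ((Q.2.2.coprime_iff_not_dvd).2 (tws_not_dvd hQJ)) hQ)
  · rw [tws_crev h1 _ hk.le]
    intro hX
    exact h4.2 (tws_NMc_unit (tws_X (tws_monic J) hk) hX)

open Classical in
/-- every cubic with the conditions is a translate of a twist -/
theorem tws_ex (h2 : (2 : F) ≠ 0) {n k : ℕ} {J : Finset (Pl F)} (hk : (DJ J).natDegree = 2 * k)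
    {c : Pl F → Cub F[X] → Prop} (hc : ∀ P, Cnd P.1 2 (c P))
    (hsc : ∀ (P : Pl F) (f : Cub F[X]) (u : F[X]), ¬ P.1 ∣ u → (c P (f.sc u) ↔ c P f))
    {g : Cub F[X]} (hg : g ∈ Msh F (n + k)) (hcg : ∀ P, cJ J c P g) :
    ∃ (f : Cub F[X]) (r : F[X]), f ∈ Msh F n ∧ (∀ P, c P f) ∧ r.natDegree ≤ 2 * (n + k) ∧
      (f.sc (DJ J)).tr r = g := by
  have h1 : ∀ P : Pl F, ∃ (f : Cub F[X]) (r : F[X]), P ∈ J → g.tr r = f.sc P.1 ∧ c P f := by
    intro P
    by_cases hP : P ∈ J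
    · have h3 := hcg P
      unfold cJ at h3
      rw [if_pos hP] at h3
      obtain ⟨f, r, e, h4⟩ := h3
      exact ⟨f, r, fun _ => ⟨e, h4⟩⟩
    · exact ⟨g, 0, fun h => absurd h hP⟩
  choose fP rP hP using h1
  obtain ⟨r1, hr1⟩ := tws_crt rP J
  have hm := tws_monic J
  set r : F[X] := r1 %ₘ DJ J with hr
  have hrd : r.natDegree ≤ 2 * (n + k) := by
    have := natDegree_modByMonic_le r1 hm
    rw [← hr] at this
    omega
  have hr2 : ∀ P ∈ J, P.1 ∣ r - rP P := by
    intro P hPJ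
    have e : r - rP P = (r1 - rP P) - DJ J * (r1 /ₘ DJ J) := by
      have := modByMonic_add_div r1 (DJ J)
      rw [← hr] at this
      linear_combination this
    rw [e]
    exact dvd_sub (hr1 P hPJ) (dvd_mul_of_dvd_left (tws_mem_dvd hPJ) _)
  have hu : ∀ P ∈ J, ∃ u, g.tr r = ((fP P).tr u).sc P.1 := by
    intro Q hQ
    obtain ⟨u, hu⟩ := hr2 Q hQ
    refine ⟨u, ?_⟩
    rw [Cub.sc_tr, ← (hP Q hQ).1, Cub.tr_tr]
    congr 1
    linear_combination hu
  have da : DJ J ^ 1 ∣ (g.tr r).a := tws_dvd fun P hPJ => by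
    obtain ⟨u, hu⟩ := hu P hPJ
    rw [hu, pow_one]
    exact Dvd.intro _ rfl
  have db : DJ J ^ 2 ∣ (g.tr r).b := tws_dvd fun P hPJ => by
    obtain ⟨u, hu⟩ := hu P hPJ
    rw [hu]
    exact Dvd.intro _ rfl
  have dc : DJ J ^ 3 ∣ (g.tr r).c := tws_dvd fun P hPJ => by
    obtain ⟨u, hu⟩ := hu P hPJ
    rw [hu]
    exact Dvd.intro _ rfl
  obtain ⟨a', ha'⟩ := da
  obtain ⟨b', hb'⟩ := db
  obtain ⟨c', hc'⟩ := dc
  rw [pow_one] at ha'
  have e : g.tr r = (⟨a', b', c'⟩ : Cub F[X]).sc (DJ J) := by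
    ext1
    · exact ha'
    · exact hb'
    · exact hc'
  set f : Cub F[X] := ⟨a', b', c'⟩ with hf
  have hgr := congr_tr_mem h2 hg hrd
  rw [e, mem_Msh] at hgr
  obtain ⟨g1, g3, g4⟩ := hgr
  rw [MinAll_crv h2] at g4
  have f1 : CDg n f := tws_cdg_of_sc hm hk g1
  have f3 : f.disc ≠ 0 := by
    rw [Cub.disc_sc] at g3
    exact right_ne_zero_of_mul g3
  refine ⟨f, -r, ?_, ?_, by rwa [natDegree_neg], ?_⟩
  · rw [mem_Msh, MinAll_crv h2]
    refine ⟨f1, f3, fun Q hQ => g4.1 Q (tws_NMc_sc _ hQ), fun hX => g4.2 ?_⟩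
    rw [tws_crev f1 _ hk.le]
    exact tws_NMc_sc _ hX
  · intro P
    by_cases hPJ : P ∈ J
    · obtain ⟨u, hu⟩ := hu P hPJ
      rw [e, ← tws_erase hPJ, ← Cub.sc_sc] at hu
      have h3 := tws_sc_inj P.2.1.ne_zero hu
      have h4 : c P ((fP P).tr u) := ((hc P).tr _ _).2 (hP P hPJ).2
      rw [← h3] at h4
      exact (hsc P f _ (tws_not_dvd (Finset.notMem_erase P J))).1 h4
    · have h3 := hcg P
      unfold cJ at h3
      rw [if_neg hPJ] at h3
      have h4 : c P (g.tr r) := ((hc P).tr _ _).2 h3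
      rw [e] at h4
      exact (hsc P f _ (tws_not_dvd hPJ)).1 h4
  · rw [← e, Cub.tr_tr, add_neg_cancel, Cub.tr_zero]

/-- two twists which are translates of each other -/
theorem tws_fib {J : Finset (Pl F)} {f f' : Cub F[X]} {s : F[X]}
    (h : f.sc (DJ J) = (f'.sc (DJ J)).tr s) : ∃ t, s = DJ J * t ∧ f = f'.tr t := by
  have h3 := congrArg Cub.c h
  simp only [Cub.sc, Cub.tr] at h3
  have hD : DJ J ∣ s ^ 3 := ⟨DJ J ^ 2 * f.c - DJ J ^ 2 * f'.c - DJ J * f'.b * s - f'.a * s ^ 2, by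
    linear_combination -h3⟩
  have hs : ∀ P ∈ J, P.1 ^ 1 ∣ s := by
    intro P hP
    rw [pow_one]
    exact P.2.2.prime.dvd_of_dvd_pow ((tws_mem_dvd hP).trans hD)
  obtain ⟨t, ht⟩ := tws_dvd hs
  rw [pow_one] at ht
  refine ⟨t, ht, tws_sc_inj (tws_monic J).ne_zero ?_⟩
  rw [h, ht, Cub.sc_tr]

end tws

theorem t_tws : S_tws := by
  classical
  intro F _ _ h2 J k hk c hc hdisc hsc
  refine ⟨?_, ?_⟩
  · intro P
    unfold cJ
    by_cases hP : P ∈ J
    · simp only [if_pos hP]; exact tws_tw (hc P)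
    · simp only [if_neg hP]; exact tws_mono (by norm_num) (hc P)
  · intro Φ hΦ n
    have hm := tws_monic J
    set D : F[X] := DJ J with hD
    set A := (Msh F n).filter (fun f => ∀ P, c P f) with hA
    set G := (Msh F (n + k)).filter (fun g => ∀ P, cJ J c P g) with hG
    have hmaps : ∀ x ∈ A ×ˢ PL F (2 * (n + k) + 1), (x.1.sc D).tr x.2 ∈ G := by
      rintro ⟨f, r⟩ hx
      rw [mem_product, hA, mem_filter, mem_PL_iff] at hx
      obtain ⟨⟨hf, hcf⟩, hr⟩ := hx
      rw [hG, mem_filter]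
      refine ⟨congr_tr_mem h2 (tws_mem h2 hk hf fun P hP => hdisc P hP f (hcf P)) hr, ?_⟩
      intro P
      unfold cJ
      by_cases hP : P ∈ J
      · rw [if_pos hP]
        refine ⟨f.sc (DJ (J.erase P)), -r, ?_, ?_⟩
        · rw [Cub.tr_tr, add_neg_cancel, Cub.tr_zero, Cub.sc_sc, tws_erase hP]
        · exact (hsc P f _ (tws_not_dvd (Finset.notMem_erase P J))).2 (hcf P)
      · rw [if_neg hP]
        exact ((hc P).tr _ _).2 ((hsc P f _ (tws_not_dvd hP)).2 (hcf P))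
    have h1 : ∑ x ∈ A ×ˢ PL F (2 * (n + k) + 1), Φ ((x.1.sc D).tr x.2) =
        ∑ g ∈ G, (Fintype.card F : ℝ) ^ (2 * n + 1) * Φ g := by
      rw [← sum_fiberwise_of_maps_to hmaps]
      refine sum_congr rfl fun g hg => ?_
      have h3 : ((A ×ˢ PL F (2 * (n + k) + 1)).filter (fun x => (x.1.sc D).tr x.2 = g)).card =
          Fintype.card F ^ (2 * n + 1) := by
        rw [hG, mem_filter] at hg
        obtain ⟨f0, r0, b1, b2, b3, b4⟩ := tws_ex h2 hk hc hsc hg.1 hg.2
        have e : (A ×ˢ PL F (2 * (n + k) + 1)).filter (fun x => (x.1.sc D).tr x.2 = g) =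
            (PL F (2 * n + 1)).image (fun s => (f0.tr (-s), r0 + D * s)) := by
          ext x
          obtain ⟨f, r⟩ := x
          rw [mem_filter, mem_product, hA, mem_filter, mem_PL_iff, mem_image]
          constructor
          · rintro ⟨⟨⟨a1, a2⟩, a3⟩, a4⟩
            simp only at a1 a2 a3 a4
            have a5 : f.sc D = (f0.sc D).tr (r0 - r) := by
              have a6 : ((f.sc D).tr r).tr (-r) = ((f0.sc D).tr r0).tr (-r) := by rw [a4, b4]
              rw [Cub.tr_tr, add_neg_cancel, Cub.tr_zero, Cub.tr_tr, ← sub_eq_add_neg] at a6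
              exact a6
            obtain ⟨t, ht, hft⟩ := tws_fib a5
            refine ⟨-t, ?_, ?_⟩
            · rw [mem_PL_iff, natDegree_neg]
              apply tws_deg_mul hm
              have ht' := ht
              rw [← hD] at ht'
              rw [← ht', hk]
              exact (natDegree_sub_le _ _).trans (by omega)
            · rw [neg_neg, ← hft]
              refine Prod.ext rfl ?_
              simp only
              rw [hD]
              linear_combination ht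
          · rintro ⟨s, hs, hx⟩
            rw [mem_PL_iff] at hs
            rw [Prod.mk.injEq] at hx
            obtain ⟨hx1, hx2⟩ := hx
            subst hx1 hx2
            refine ⟨⟨⟨congr_tr_mem h2 b1 (by rwa [natDegree_neg]), fun P => ((hc P).tr _ _).2 (b2 P)⟩, ?_⟩, ?_⟩
            · refine (natDegree_add_le _ _).trans (max_le b3 ?_)
              refine natDegree_mul_le.trans ?_
              omega
            · simp only
              rw [Cub.sc_tr, Cub.tr_tr, ← b4]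
              congr 1
              ring
        rw [e, card_image_of_injective, card_PL]
        intro s s' hss
        have h5 := congrArg Prod.snd hss
        simp only at h5
        exact mul_left_cancel₀ hm.ne_zero (add_left_cancel h5)
      rw [sum_congr rfl (g := fun _ => Φ g) (fun x hx => by rw [(mem_filter.1 hx).2]), sum_const, h3,
        nsmul_eq_mul]
      push_cast
      rfl
    have h3 : ∑ x ∈ A ×ˢ PL F (2 * (n + k) + 1), Φ ((x.1.sc D).tr x.2) =
        (Fintype.card F : ℝ) ^ (2 * (n + k) + 1) * ∑ f ∈ A, Φ (f.sc D) := by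
      rw [sum_product, mul_sum]
      refine sum_congr rfl fun f _ => ?_
      rw [sum_congr rfl (g := fun _ => Φ (f.sc D)) (fun r _ => hΦ _ _), sum_const, card_PL,
        nsmul_eq_mul]
      push_cast
      rfl
    rw [h3, ← mul_sum] at h1
    have hq : (Fintype.card F : ℝ) ^ (2 * n + 1) ≠ 0 := by
      have : (Fintype.card F : ℝ) ≠ 0 := by exact_mod_cast Fintype.card_ne_zero
      exact pow_ne_zero _ this
    apply mul_left_cancel₀ hq
    rw [← h1, ← mul_assoc, ← pow_add]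
    congr 2
    ring

end Pool.Agent.H456.PR
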