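import Pool.Agent.H456.PR.Stm

/-!
(typ) Chebyshev: for `P ≠ P'` the conditions at `P` and `P'` are independent in the boxes `Sb F n` with `n` large, and
the proportion of the cubics with exactly one root over a finite field of odd characteristic is at least `1/4`.
-/

set_option autoImplicit false
set_option linter.all false

open Polynomial Finset Filter
open Pool.Agent.H456.EC (toK toK_inj sig toK_eq reflect_toK cls)
open Pool.Agent.H456.RN
open Pool.Agent.H456.BQ
open Pool.Agent.H456.Coh (TF)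
open Pool.Agent.H456.PP (OneR HasRt sx hh Tz Tq Iso3 nr IsoP nrP)

namespace Pool.Agent.H456.PR

open Classical in
/-- the cubics over a finite ring with exactly one root and nonzero discriminant -/
noncomputable def typ_U (κ : Type) [CommRing κ] [Fintype κ] : Finset (Cub κ) :=
  univ.filter (fun g => OneR (0 : κ) g)

/-- the cubic `(x - r) ((x - s)² - δ)` -/
def typ_c {κ : Type} [CommRing κ] (r s δ : κ) : Cub κ :=
  ⟨-(r + 2 * s), s ^ 2 - δ + 2 * r * s, -(r * (s ^ 2 - δ))⟩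

theorem typ_c_ev {κ : Type} [CommRing κ] (r s δ x : κ) :
    (typ_c r s δ).ev x = (x - r) * ((x - s) ^ 2 - δ) := by
  simp only [Cub.ev, typ_c]
  ring

theorem typ_c_disc {κ : Type} [CommRing κ] (r s δ : κ) :
    (typ_c r s δ).disc = 4 * δ * ((r - s) ^ 2 - δ) ^ 2 := by
  simp only [Cub.disc, typ_c]
  ring

theorem typ_c_root {κ : Type} [Field κ] {r s δ x : κ} (hδ : ¬ IsSquare δ)
    (h : (typ_c r s δ).ev x = 0) : x = r := by
  rw [typ_c_ev] at h
  rcases mul_eq_zero.1 h with h | h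
  · exact sub_eq_zero.1 h
  · exact absurd ⟨x - s, by rw [← sub_eq_zero.1 h]; ring⟩ hδ

theorem typ_c_one {κ : Type} [Field κ] (h2 : (2 : κ) ≠ 0) {r s δ : κ} (hδ : ¬ IsSquare δ) :
    OneR (0 : κ) (typ_c r s δ) := by
  refine ⟨?_, ⟨r, ?_⟩, fun x x' hx hx' => ?_⟩
  · rw [zero_dvd_iff, typ_c_disc]
    have h4 : (4 : κ) ≠ 0 := by
      have : (4 : κ) = 2 * 2 := by norm_num
      rw [this]
      exact mul_ne_zero h2 h2
    have h0 : δ ≠ 0 := by
      rintro rfl
      exact hδ ⟨0, by ring⟩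
    have h3 : (r - s) ^ 2 - δ ≠ 0 := fun h => hδ ⟨r - s, by rw [← sub_eq_zero.1 h]; ring⟩
    exact mul_ne_zero (mul_ne_zero h4 h0) (pow_ne_zero 2 h3)
  · rw [zero_dvd_iff, typ_c_ev, sub_self, zero_mul]
  · rw [zero_dvd_iff] at hx hx' ⊢
    rw [typ_c_root hδ hx, typ_c_root hδ hx', sub_self]

open Classical in
theorem typ_ns (κ : Type) [Field κ] [Fintype κ] (h2 : (2 : κ) ≠ 0) :
    Fintype.card κ ≤ 3 * (univ.filter (fun a : κ => ¬ IsSquare a)).card := by
  have hc : ringChar κ ≠ 2 := by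
    intro h
    apply h2
    have := ringChar.spec κ 2
    rw [h] at this
    exact_mod_cast this.2 dvd_rfl
  have hs := quadraticChar_sum_zero hc
  have hle : ∀ a : κ, (1 : ℤ) ≤ quadraticChar κ a + (if a = 0 then 1 else 0) +
      2 * (if ¬ IsSquare a then 1 else 0) := by
    intro a
    by_cases h0 : a = 0
    · subst h0
      simp
    · by_cases hsq : IsSquare a
      · rw [(quadraticChar_one_iff_isSquare h0).2 hsq, if_neg h0, if_neg (not_not.2 hsq)]
        norm_num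
      · rw [quadraticChar_neg_one_iff_not_isSquare.2 hsq, if_neg h0, if_pos hsq]
        norm_num
  have h3 := sum_le_sum (s := (univ : Finset κ)) (fun a _ => hle a)
  rw [sum_add_distrib, sum_add_distrib, hs, ← mul_sum, sum_boole, sum_boole, sum_const, card_univ,
    filter_eq' univ (0 : κ), if_pos (mem_univ _), card_singleton] at h3
  have h4 := Fintype.one_lt_card (α := κ)
  simp only [nsmul_eq_mul, mul_one, zero_add, Nat.cast_one] at h3
  have h5 : Fintype.card κ ≤ 1 + 2 * (univ.filter (fun a : κ => ¬ IsSquare a)).card := by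
    exact_mod_cast h3
  omega

open Classical in
theorem typ_count (κ : Type) [Field κ] [Fintype κ] (h2 : (2 : κ) ≠ 0) :
    Fintype.card κ ^ 3 ≤ 4 * (typ_U κ).card := by
  have h1 : ((univ : Finset κ) ×ˢ (univ : Finset κ) ×ˢ
      (univ.filter (fun a : κ => ¬ IsSquare a))).card ≤ (typ_U κ).card := by
    refine card_le_card_of_injOn (fun x => typ_c x.1 x.2.1 x.2.2) ?_ ?_
    · rintro ⟨r, s, δ⟩ hx
      have hδ : ¬ IsSquare δ := by simpa using hx
      exact mem_filter.2 ⟨mem_univ _, typ_c_one h2 hδ⟩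
    · rintro ⟨r, s, δ⟩ hx ⟨r', s', δ'⟩ hx' h
      have hδ : ¬ IsSquare δ := by simpa using hx
      have hδ' : ¬ IsSquare δ' := by simpa using hx'
      simp only at h
      have e1 : r = r' := by
        apply typ_c_root hδ' (x := r) (s := s')
        rw [← h, typ_c_ev, sub_self, zero_mul]
      subst e1
      have ha := congrArg Cub.a h
      have hb := congrArg Cub.b h
      simp only [typ_c] at ha hb
      have e2 : s = s' := by
        have : 2 * s = 2 * s' := by linear_combination -ha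
        exact mul_left_cancel₀ h2 this
      subst e2
      have e3 : δ = δ' := by linear_combination -hb
      rw [e3]
  rw [card_product, card_product, card_univ] at h1
  have h3 := typ_ns κ h2
  have h4 : Fintype.card κ ^ 3 = Fintype.card κ * (Fintype.card κ * Fintype.card κ) := by ring
  rw [h4]
  calc Fintype.card κ * (Fintype.card κ * Fintype.card κ)
      ≤ Fintype.card κ * (Fintype.card κ * (3 * (univ.filter (fun a : κ => ¬ IsSquare a)).card)) := by
        gcongr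
    _ = 3 * (Fintype.card κ * (Fintype.card κ *
        (univ.filter (fun a : κ => ¬ IsSquare a)).card)) := by ring
    _ ≤ 4 * (typ_U κ).card := by omega

section

variable {F : Type} [Field F]

theorem typ_iff (P : Pl F) (f : Cub F[X]) :
    OneR P.1 f ↔ OneR (0 : Rq (P.1 ^ 1)) (f.map (Ideal.Quotient.mk (Ideal.span {P.1 ^ 1}))) := by
  have hz : ∀ a : F[X], (0 : Rq (P.1 ^ 1)) ∣ Ideal.Quotient.mk (Ideal.span {P.1 ^ 1}) a ↔
      P.1 ∣ a := by
    intro a
    rw [zero_dvd_iff, Pool.Agent.H456.BQ.mk_zero, pow_one]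
  unfold OneR
  rw [Cub.map_disc, hz]
  refine and_congr Iff.rfl (and_congr ⟨?_, ?_⟩ ⟨?_, ?_⟩)
  · rintro ⟨r, hr⟩
    exact ⟨Ideal.Quotient.mk _ r, by rw [Cub.map_ev, hz]; exact hr⟩
  · rintro ⟨r, hr⟩
    obtain ⟨r, rfl⟩ := Ideal.Quotient.mk_surjective r
    rw [Cub.map_ev, hz] at hr
    exact ⟨r, hr⟩
  · intro h x x' hx hx'
    obtain ⟨x, rfl⟩ := Ideal.Quotient.mk_surjective x
    obtain ⟨x', rfl⟩ := Ideal.Quotient.mk_surjective x'
    rw [Cub.map_ev, hz] at hx hx'
    rw [← map_sub, hz]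
    exact h x x' hx hx'
  · intro h x x' hx hx'
    rw [← hz, map_sub]
    refine h _ _ ?_ ?_
    · rw [Cub.map_ev, hz]; exact hx
    · rw [Cub.map_ev, hz]; exact hx'

variable [Fintype F]

theorem typ_max (P : Pl F) : (Ideal.span {P.1 ^ 1} : Ideal F[X]).IsMaximal := by
  rw [pow_one]
  exact PrincipalIdealRing.isMaximal_of_irreducible P.2.2

theorem typ_res (h2 : (2 : F) ≠ 0) (P : Pl F) :
    Fintype.card (Rq (P.1 ^ 1)) ^ 3 ≤ 4 * (typ_U (Rq (P.1 ^ 1))).card := by
  have := typ_max P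
  letI : Field (Rq (P.1 ^ 1)) := Ideal.Quotient.field _
  have h3 : (2 : Rq (P.1 ^ 1)) ≠ 0 := by
    have h4 := (map_ne_zero ((Ideal.Quotient.mk (Ideal.span {P.1 ^ 1})).comp (C : F →+* F[X]))).2 h2
    rwa [map_ofNat] at h4
  exact typ_count _ h3

open Classical in
theorem typ_joint (S : Finset (Pl F)) (n : ℕ) (hN : dS S 1 ≤ 2 * n + 1)
    (ψ : (P : Pl F) → Cub (Rq (P.1 ^ 1)) → ℝ) (h0 : ∃ P ∈ S, ∑ g, ψ P g = 0) :
    ∑ f ∈ Sb F n, ∏ P ∈ S, ψ P (f.map (Ideal.Quotient.mk (Ideal.span {P.1 ^ 1}))) = 0 := by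
  have h1 := sum_redC S 1 n hN (fun g => (∏ P : S, (fun P : S => ψ P.1) P (g.at P)) *
    (fun _ => (1 : ℝ)) g.inf)
  rw [sum_splitC S 1 (fun P : S => ψ P.1) (fun _ => 1)] at h1
  obtain ⟨P, hP, hP0⟩ := h0
  rw [prod_eq_zero (mem_univ (⟨P, hP⟩ : S)) hP0, zero_mul, zero_div, div_eq_zero_iff] at h1
  have hq : (Fintype.card F : ℝ) ^ (12 * n + 3) ≠ 0 := by
    have : 0 < Fintype.card F := Fintype.card_pos
    positivity
  have h3 := h1.resolve_right hq
  rw [← h3]
  refine sum_congr rfl fun f _ => ?_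
  rw [mul_one]
  exact (prod_coe_sort S
    (fun P => ψ P (f.map (Ideal.Quotient.mk (Ideal.span {P.1 ^ 1}))))).symm

open Classical in
/-- the proportion -/
noncomputable def typ_p (P : Pl F) : ℝ :=
  ((typ_U (Rq (P.1 ^ 1))).card : ℝ) / Fintype.card (Cub (Rq (P.1 ^ 1)))

theorem typ_cpos (P : Pl F) : (0 : ℝ) < Fintype.card (Cub (Rq (P.1 ^ 1))) := by
  have : 0 < Fintype.card (Cub (Rq (P.1 ^ 1))) := Fintype.card_pos_iff.2 ⟨⟨0, 0, 0⟩⟩
  exact_mod_cast this

theorem typ_p_ge (h2 : (2 : F) ≠ 0) (P : Pl F) : 1 / 4 ≤ typ_p P := by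
  unfold typ_p
  rw [le_div_iff₀ (typ_cpos P), card_Cub]
  have h := typ_res h2 P
  have h' : ((Fintype.card (Rq (P.1 ^ 1)) ^ 3 : ℕ) : ℝ) ≤ 4 * (typ_U (Rq (P.1 ^ 1))).card := by
    exact_mod_cast h
  linarith

theorem typ_p_le (P : Pl F) : typ_p P ≤ 1 := by
  unfold typ_p
  rw [div_le_one (typ_cpos P)]
  exact_mod_cast card_le_univ _

theorem typ_p_nn (P : Pl F) : 0 ≤ typ_p P := by
  unfold typ_p
  positivity

open Classical in
/-- the indicator -/
noncomputable def typ_X (P : Pl F) (f : Cub F[X]) : ℝ := if OneR P.1 f then 1 else 0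

open Classical in
theorem typ_cov (P P' : Pl F) (hne : P ≠ P') (n : ℕ) (hN : dS {P, P'} 1 ≤ 2 * n + 1) :
    ∑ f ∈ Sb F n, (typ_X P f - typ_p P) * (typ_X P' f - typ_p P') = 0 := by
  have h := typ_joint {P, P'} n hN
    (fun P g => (if OneR (0 : Rq (P.1 ^ 1)) g then (1 : ℝ) else 0) - typ_p P)
    ⟨P, mem_insert_self _ _, by
      rw [sum_sub_distrib, sum_boole, sum_const, card_univ, nsmul_eq_mul]
      unfold typ_p typ_U
      rw [mul_div_cancel₀ _ (typ_cpos P).ne', sub_self]⟩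
  rw [← h]
  refine sum_congr rfl fun f _ => ?_
  rw [prod_pair hne]
  unfold typ_X
  simp only [typ_iff P f, typ_iff P' f]

open Classical in
theorem typ_var (T : Finset (Pl F)) (n : ℕ) (hN : dS T 1 ≤ 2 * n + 1) :
    ∑ f ∈ Sb F n, (∑ P ∈ T, (typ_X P f - typ_p P)) ^ 2 ≤
      T.card * (Fintype.card F : ℝ) ^ (12 * n + 3) := by
  have h1 : ∀ f, (∑ P ∈ T, (typ_X P f - typ_p P)) ^ 2 =
      ∑ P ∈ T, ∑ P' ∈ T, (typ_X P f - typ_p P) * (typ_X P' f - typ_p P') := by
    intro f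
    rw [sq, sum_mul_sum]
  rw [sum_congr rfl (fun f _ => h1 f), sum_comm, ← nsmul_eq_mul]
  refine sum_le_card_nsmul _ _ _ fun P hP => ?_
  rw [sum_comm, sum_eq_single_of_mem P hP]
  · have h2 : ∀ f ∈ Sb F n, (typ_X P f - typ_p P) * (typ_X P f - typ_p P) ≤ 1 := by
      intro f _
      have h3 := typ_p_le P
      have h4 := typ_p_nn P
      unfold typ_X
      split_ifs <;> nlinarith
    refine (sum_le_card_nsmul _ _ _ h2).trans (le_of_eq ?_)
    rw [card_Sb, nsmul_eq_mul, mul_one]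
    push_cast
    rfl
  · intro P' hP' hne
    refine typ_cov P P' (Ne.symm hne) n (le_trans ?_ hN)
    unfold dS
    refine Nat.add_le_add_right (sum_le_sum_of_subset ?_) _
    intro x hx
    rw [mem_insert, mem_singleton] at hx
    rcases hx with rfl | rfl
    · exact hP
    · exact hP'

end

open Classical in
theorem t_typ : S_typ := by
  intro F _ _ h2 ε n₀ hε
  obtain ⟨m', hm'⟩ := exists_nat_ge (64 / ε)
  refine ⟨8 * n₀ + m' + 1, fun T hT => ?_⟩
  filter_upwards [eventually_ge_atTop (dS T 1)] with n hn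
  have hvar := typ_var T n (by omega)
  have hN : (0 : ℝ) < (Fintype.card F : ℝ) ^ (12 * n + 3) := by
    have : 0 < Fintype.card F := Fintype.card_pos
    positivity
  have ht : (8 * n₀ + m' + 1 : ℝ) ≤ T.card := by exact_mod_cast hT
  have hm0 : (0 : ℝ) ≤ m' := Nat.cast_nonneg _
  have hn0 : (0 : ℝ) ≤ n₀ := Nat.cast_nonneg _
  have ht0 : (0 : ℝ) < T.card := by linarith
  have hbad : ∀ f ∈ (Sb F n).filter (fun f => (Sf T f).card < n₀),
      ((T.card : ℝ) / 8) ^ 2 ≤ (∑ P ∈ T, (typ_X P f - typ_p P)) ^ 2 := by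
    intro f hf
    have hf2 : ((Sf T f).card : ℝ) < n₀ := by exact_mod_cast (mem_filter.1 hf).2
    have e1 : ∑ P ∈ T, typ_X P f = (Sf T f).card := by
      unfold typ_X Sf
      rw [sum_boole]
    have e2 : (T.card : ℝ) * (1 / 4) ≤ ∑ P ∈ T, typ_p P := by
      have := card_nsmul_le_sum T (fun P => typ_p P) (1 / 4) (fun P _ => typ_p_ge h2 P)
      rwa [nsmul_eq_mul] at this
    rw [sum_sub_distrib, e1]
    have h3 : (T.card : ℝ) / 8 ≤ (∑ P ∈ T, typ_p P) - (Sf T f).card := by linarith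
    have h4 : ((Sf T f).card : ℝ) - ∑ P ∈ T, typ_p P = -((∑ P ∈ T, typ_p P) - (Sf T f).card) := by
      ring
    rw [h4, neg_sq]
    exact pow_le_pow_left₀ (by positivity) h3 2
  have h5 := card_nsmul_le_sum _ _ _ hbad
  rw [nsmul_eq_mul] at h5
  have h6 : ∑ f ∈ (Sb F n).filter (fun f => (Sf T f).card < n₀),
      (∑ P ∈ T, (typ_X P f - typ_p P)) ^ 2 ≤
      ∑ f ∈ Sb F n, (∑ P ∈ T, (typ_X P f - typ_p P)) ^ 2 :=
    sum_le_sum_of_subset_of_nonneg (filter_subset _ _) (fun _ _ _ => sq_nonneg _)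
  obtain ⟨B, hB⟩ : ∃ B : ℝ, B = (((Sb F n).filter (fun f => (Sf T f).card < n₀)).card : ℝ) :=
    ⟨_, rfl⟩
  rw [← hB] at h5 ⊢
  have h7 : B * ((T.card : ℝ) / 8) ^ 2 ≤ T.card * (Fintype.card F : ℝ) ^ (12 * n + 3) :=
    h5.trans (h6.trans hvar)
  have h8 : B * T.card ≤ 64 * (Fintype.card F : ℝ) ^ (12 * n + 3) := by
    have h9 : (B * T.card) * T.card ≤ (64 * (Fintype.card F : ℝ) ^ (12 * n + 3)) * T.card := by
      linarith
    exact le_of_mul_le_mul_right h9 ht0
  have h10 : 64 ≤ ε * T.card := by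
    rw [div_le_iff₀ hε] at hm'
    nlinarith
  have h11 : B * T.card ≤ (ε * (Fintype.card F : ℝ) ^ (12 * n + 3)) * T.card := by
    refine h8.trans ?_
    have := mul_le_mul_of_nonneg_right h10 hN.le
    linarith
  exact le_of_mul_le_mul_right h11 ht0

end Pool.Agent.H456.PR
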