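import Pool.Agent.H456.PR.Stm
import Pool.Agent.H456.PP.All
import Pool.Agent.H456.Coh.Out

/-!
# The upper bound for the number of the classes which are trivial at the places of `T`
-/

set_option autoImplicit false
set_option linter.all false

open Polynomial Finset Filter
open Pool.Agent.H456.EC (toK toK_inj sig toK_eq reflect_toK cls)
open Pool.Agent.H456.RN
open Pool.Agent.H456.BQ
open Pool.Agent.H456.Coh (TF)
open Pool.Agent.H456.PP (OneR HasRt sx hh Tz Tq Iso3 nr IsoP nrP)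

namespace Pool.Agent.H456.PR

section up

/-! ### Roots of the quartics representing a class -/

theorem up_rt_sub {K : Type} [Field K] {g g' : Q4 K} {M : M2 K} {c : K} (hM : M.det ≠ 0) (hc : c ≠ 0)
    (h : g.sub M = g'.smul (c ^ 2)) (hg : HasRt g') : HasRt g := by
  by_contra hn
  obtain ⟨u, v, huv, h0⟩ := hg
  have h1 : g.NR := fun u v huv h0 => hn ⟨u, v, huv, h0⟩
  exact (h1.of_sub hM hc h) u v huv h0

variable {F : Type} [Field F]

theorem up_rt_pe {P : Pl F} {s s' : Q4 (RatFunc F) × RatFunc F} {M : M2 (RatFunc F)} (h : PE M s s')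
    (hs : Rt P s) : Rt P s' := by
  have h' := h.symm
  set j := algebraMap (RatFunc F) ((plv P).adicCompletion (RatFunc F)) with hj
  refine up_rt_sub (M := M.adj.map j) (c := j M.adj.det) ?_ ?_ ?_ hs
  · rw [M2.map_det]; exact (map_ne_zero_iff _ j.injective).2 h'.det
  · exact (map_ne_zero_iff _ j.injective).2 h'.det
  · rw [← Q4.map_sub, h'.sub, Q4.map_smul, map_pow]

/-- for a class which is trivial at `P`, all the pairs over `F[t]` representing it have exactly two roots modulo `P` -/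
theorem up_nr [Fintype F] (h2 : (2 : F) ≠ 0) {P : Pl F} {f : Cub F[X]} (hf : OneR P.1 f)
    {σ : Sel (f.map (toK F))} (hσ : Tr P σ) {p : Q4 F[X] × F[X]} (hp : p ∈ ClS f σ) : nrP P p.1 = 2 := by
  obtain ⟨s, h, e, hrt⟩ := hσ
  have hres := ClS_res hp
  obtain ⟨h', e'⟩ := hp
  have e1 : selMk _ s h = selMk _ (BQ.pr p) h' := by rw [e', e]
  obtain ⟨M, hM⟩ := selMk_eq.1 e1
  have h3 : Rt P (BQ.pr p) := up_rt_pe hM hrt
  have hL := t_mcomp F P
  refine Pool.Agent.H456.PP.a_good F h2 P _ ((plv P).adicCompletion (RatFunc F)) _ _ hL f hf p hres ?_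
  have hj : ∀ x : F[X], algebraMap (RatFunc F) ((plv P).adicCompletion (RatFunc F)) (toK F x) =
      algebraMap ((plv P).adicCompletionIntegers (RatFunc F)) ((plv P).adicCompletion (RatFunc F))
        (algebraMap F[X] ((plv P).adicCompletionIntegers (RatFunc F)) x) := by
    intro x
    rfl
  have e2 : (p.1.map (algebraMap F[X] ((plv P).adicCompletionIntegers (RatFunc F)))).map
      (algebraMap ((plv P).adicCompletionIntegers (RatFunc F)) ((plv P).adicCompletion (RatFunc F))) =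
      (BQ.pr p).1.map (algebraMap (RatFunc F) ((plv P).adicCompletion (RatFunc F))) := by
    unfold BQ.pr
    ext <;> simp only [Q4.map, hj]
  rw [e2]
  exact h3

/-! ### Counting classes with a property -/

theorem up_card {A : Type} [Finite A] (z : A) (R : A → Prop) :
    (Nat.card {a // R a} : ℝ) - 1 ≤ Nat.card {a // a ≠ z ∧ R a} := by
  classical
  have h1 : Nat.card {a // R a} ≤ Nat.card (Option {a // a ≠ z ∧ R a}) := by
    apply Nat.card_le_card_of_injective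
      (fun a : {a // R a} => if h : a.1 = z then (none : Option {a // a ≠ z ∧ R a}) else some ⟨a.1, h, a.2⟩)
    rintro ⟨a, ha⟩ ⟨b, hb⟩ hab
    simp only at hab
    by_cases h : a = z
    · by_cases h' : b = z
      · subst h; subst h'; rfl
      · rw [dif_pos h, dif_neg h'] at hab
        exact absurd hab (by simp)
    · by_cases h' : b = z
      · rw [dif_neg h, dif_pos h'] at hab
        exact absurd hab (by simp)
      · rw [dif_neg h, dif_neg h'] at hab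
        have := Option.some.inj hab
        have h3 := congrArg Subtype.val this
        exact Subtype.ext h3
  rw [Finite.card_option] at h1
  have h3 : (Nat.card {a // R a} : ℝ) ≤ (Nat.card {a // a ≠ z ∧ R a} : ℝ) + 1 := by exact_mod_cast h1
  linarith

variable [Fintype F]

theorem up_count (h2 : (2 : F) ≠ 0) {n : ℕ} (S : Finset (Cub F[X]))
    (R : ∀ f : Cub F[X], Sel (f.map (toK F)) → Prop) (hfin : ∀ f ∈ S, Finite (Sel (f.map (toK F))))
    (Ψ : ℕ → Q4 F[X] → ℝ) (hΨ : ∀ e G, 0 ≤ Ψ e G)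
    (hc : ∀ f ∈ S, ∀ (σ : Sel (f.map (toK F))), σ ≠ 0 → R f σ →
      1 ≤ ∑ e ∈ range (n + 1), ∑ p ∈ PnS n e f σ, Ψ e p.1) :
    ∑ f ∈ S, ((Nat.card {σ : Sel (f.map (toK F)) // R f σ} : ℝ) - 1) ≤
      (Fintype.card F : ℝ) ^ (2 * n + 1) * ∑ e ∈ range (n + 1), ∑ G ∈ Vb F n e, Ψ e G := by
  classical
  set B : ℝ := (Fintype.card F : ℝ) ^ (2 * n + 1) * ∑ e ∈ range (n + 1), ∑ G ∈ Vb F n e, Ψ e G with hB
  have key : ∀ T : Finset (Σ f : {f // f ∈ S}, {σ : Sel (f.1.map (toK F)) // σ ≠ 0 ∧ R f.1 σ}), (T.card : ℝ) ≤ B := by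
    intro T
    have h1 : (T.card : ℝ) ≤ ∑ t ∈ T, ∑ e ∈ range (n + 1), ∑ p ∈ Vb F n e ×ˢ PL F (2 * n + 1),
        (if p ∈ ClS t.1.1 t.2.1 then Ψ e p.1 else 0) := by
      rw [card_eq_sum_ones]
      push_cast
      apply sum_le_sum
      intro t _
      refine (hc t.1.1 t.1.2 t.2.1 t.2.2.1 t.2.2.2).trans (le_of_eq ?_)
      apply sum_congr rfl
      intro e _
      unfold PnS
      rw [sum_filter]
    refine h1.trans ?_
    rw [sum_comm]
    have h3 : ∀ e ∈ range (n + 1), ∑ t ∈ T, ∑ p ∈ Vb F n e ×ˢ PL F (2 * n + 1),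
        (if p ∈ ClS t.1.1 t.2.1 then Ψ e p.1 else 0) ≤
        ∑ p ∈ Vb F n e ×ˢ PL F (2 * n + 1), Ψ e p.1 := by
      intro e _
      rw [sum_comm]
      apply sum_le_sum
      intro p _
      rw [← sum_filter, sum_const, nsmul_eq_mul]
      have h4 : (T.filter (fun t => p ∈ ClS t.1.1 t.2.1)).card ≤ 1 := by
        rw [card_le_one]
        rintro ⟨⟨f, hf⟩, σ, hσ⟩ ht ⟨⟨f', hf'⟩, σ', hσ'⟩ ht'
        rw [mem_filter] at ht ht'
        have e1 : f = f' := ClS_cub h2 ht.2 ht'.2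
        subst e1
        have e2 : σ = σ' := ClS_inj ht.2 ht'.2
        subst e2
        rfl
      calc ((T.filter (fun t => p ∈ ClS t.1.1 t.2.1)).card : ℝ) * Ψ e p.1 ≤ 1 * Ψ e p.1 := by
            apply mul_le_mul_of_nonneg_right _ (hΨ _ _)
            exact_mod_cast h4
        _ = Ψ e p.1 := one_mul _
    refine (sum_le_sum h3).trans (le_of_eq ?_)
    rw [hB, mul_sum]
    apply sum_congr rfl
    intro e _
    rw [sum_product]
    simp only [sum_const, card_PL, nsmul_eq_mul]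
    rw [mul_sum]
    push_cast
    rfl
  have hfin1 : ∀ f : {f // f ∈ S}, Finite {σ : Sel (f.1.map (toK F)) // σ ≠ 0 ∧ R f.1 σ} := by
    intro f
    have := hfin f.1 f.2
    infer_instance
  have hfin2 : Finite (Σ f : {f // f ∈ S}, {σ : Sel (f.1.map (toK F)) // σ ≠ 0 ∧ R f.1 σ}) := inferInstance
  letI := Fintype.ofFinite (Σ f : {f // f ∈ S}, {σ : Sel (f.1.map (toK F)) // σ ≠ 0 ∧ R f.1 σ})
  have h5 := key univ
  rw [card_univ, ← Nat.card_eq_fintype_card, Nat.card_sigma] at h5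
  push_cast at h5
  refine le_trans ?_ h5
  rw [← sum_attach]
  apply sum_le_sum
  intro f _
  have := hfin f.1 f.2
  exact up_card _ _

/-! ### The weight -/

/-- the factor of the weight -/
noncomputable def upR (T : Finset (Pl F)) (G : Q4 F[X]) : ℝ := ∏ P ∈ T, ((nrP P G : ℝ) / 2)

theorem upR_nonneg (T : Finset (Pl F)) (G : Q4 F[X]) : 0 ≤ upR T G :=
  prod_nonneg fun P _ => by positivity

theorem upR_le (T : Finset (Pl F)) : ∃ c : ℝ, 0 ≤ c ∧ ∀ G : Q4 F[X], upR T G ≤ c := by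
  classical
  refine ⟨∏ P ∈ T, (((Fintype.card (Rq (P.1 ^ 1)) : ℝ) + 1) / 2), prod_nonneg fun P _ => by positivity, fun G => ?_⟩
  unfold upR
  apply Finset.prod_le_prod
  · intro P _; positivity
  · intro P _
    apply div_le_div_of_nonneg_right _ (by norm_num)
    have h1 : nrP P G ≤ Fintype.card (Rq (P.1 ^ 1)) + 1 := by
      unfold nrP nr
      apply Nat.add_le_add
      · exact card_le_univ _
      · split_ifs
        · exact le_rfl
        · exact Nat.zero_le _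
    exact_mod_cast h1

/-- the weight used in the counting -/
noncomputable def upPhi (T : Finset (Pl F)) (c : Pl F → Cub F[X] → Prop) (ci : Cub F[X] → Prop) (S : Finset (Pl F))
    {M : ℕ} (hM : 1 ≤ M) (j n e : ℕ) (G : Q4 F[X]) : ℝ :=
  Ph S hM (fun P => WPc P M (c P)) (WPc (PlX F) M ci) (redV S M n e G) * upR T G + uc S j n e G

theorem upPhi_nonneg (T : Finset (Pl F)) (c : Pl F → Cub F[X] → Prop) (ci : Cub F[X] → Prop) (S : Finset (Pl F))
    {M : ℕ} (hM : 1 ≤ M) (j n e : ℕ) (G : Q4 F[X]) : 0 ≤ upPhi T c ci S hM j n e G :=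
  add_nonneg (mul_nonneg (Phc_nonneg _ _ _ _) (upR_nonneg _ _)) (uc_nonneg _ _ _ _ _)

/-- the weighted number of the representatives of a class -/
theorem up_phi_ge (U : HypU) (h2 : (2 : F) ≠ 0) {n m M k : ℕ} (hk : 2 * k + 1 ≤ M) (hM6 : 6 ≤ M) (hM : 1 ≤ M)
    (hm : m ≤ M) {c : Pl F → Cub F[X] → Prop} {ci : Cub F[X] → Prop} (hc : ∀ P, Cnd P.1 m (c P)) (hci : Cnd X m ci)
    (S T : Finset (Pl F)) {f : Cub F[X]} (hf : f.disc ≠ 0) (hd : CDg n f) (hn : NoTwo f)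
    (hmin : (∀ P : Pl F, ¬ NMc P.1 f) ∧ ¬ NMc X (crev n f)) (hF : Fam c ci n f) (hT : ∀ P ∈ T, OneR P.1 f)
    {σ : Sel (f.map (toK F))} (hσ : σ ≠ 0) (hR : ∀ P ∈ T, Tr P σ) :
    1 ≤ ∑ e ∈ range (n + 1), ∑ p ∈ PnS n e f σ, upPhi T c ci S hM (k + 1) n e p.1 / pa F e := by
  refine (phi_geC U h2 hk hM6 hM hm hc hci S hf hd hn hmin hF hσ).trans ?_
  apply sum_le_sum
  intro e _
  apply sum_le_sum
  intro p hp
  apply div_le_div_of_nonneg_right _ (pa_pos e).le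
  have h1 : upR T p.1 = 1 := by
    unfold upR
    apply prod_eq_one
    intro P hP
    rw [up_nr h2 (hT P hP) (hR P hP) (mem_PnS.1 hp).2]
    norm_num
  unfold upPhi phic
  rw [h1, mul_one]

open Classical in
theorem up_count_phi (U : HypU) (h2 : (2 : F) ≠ 0) {n m M k : ℕ} (hk : 2 * k + 1 ≤ M) (hM6 : 6 ≤ M) (hM : 1 ≤ M)
    (hm : m ≤ M) {c : Pl F → Cub F[X] → Prop} {ci : Cub F[X] → Prop} (hc : ∀ P, Cnd P.1 m (c P)) (hci : Cnd X m ci)
    (S T : Finset (Pl F)) (hT : ∀ P ∈ T, ∀ f, c P f → OneR P.1 f) :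
    ∑ f ∈ (Msh F n).filter (fun f => ¬ BadC f ∧ Fam c ci n f), ((NT T f : ℝ) - 1) ≤
      Tot (fun n e G => upPhi T c ci S hM (k + 1) n e G) n * (Fintype.card F : ℝ) ^ (12 * n + 3) := by
  have hq2 : 2 ≤ (Fintype.card F : ℝ) := q_ge
  have hφ0 : ∀ n e G, 0 ≤ upPhi T c ci S hM (k + 1) n e G := fun n e G => upPhi_nonneg _ _ _ _ _ _ _ _ _
  have h1 := up_count h2 (n := n) ((Msh F n).filter (fun f => ¬ BadC f ∧ Fam c ci n f))
    (fun f σ => ∀ P ∈ T, Tr P σ) ?_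
    (fun e G => upPhi T c ci S hM (k + 1) n e G / pa F e)
    (fun e G => div_nonneg (hφ0 n e G) (pa_pos e).le) ?_
  · refine h1.trans (le_of_eq ?_)
    unfold Tot
    rw [div_mul_cancel₀ _ (by positivity)]
  · intro f hf
    rw [mem_filter, mem_Msh] at hf
    exact finite_Sel U h2 hf.1.2.1
  · intro f hf σ hσ hR
    rw [mem_filter, mem_Msh] at hf
    obtain ⟨⟨hd, hf', hm'⟩, hb, hF⟩ := hf
    have hn : NoTwo f := fun r hr => hb (Or.inr ⟨r, hr⟩)
    exact up_phi_ge U h2 hk hM6 hM hm hc hci S T hf' hd hn ((MinAll_crv h2).1 hm') hF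
      (fun P hP => hT P hP f (hF.1 P)) hσ hR

/-- **the upper bound** for given places -/
theorem up_upper (U : HypU) (hav : S_avT) (h2 : (2 : F) ≠ 0) {m : ℕ} {c : Pl F → Cub F[X] → Prop}
    {ci : Cub F[X] → Prop} (hc : ∀ P, Cnd P.1 m (c P)) (hci : Cnd X m ci) (S T : Finset (Pl F)) (hTS : T ⊆ S)
    (hT : ∀ P ∈ T, ∀ f, c P f → OneR P.1 f) (ε : ℝ) (hε : 0 < ε) : ∃ M : ℕ, 6 ≤ M ∧ m ≤ M ∧
    ∀ᶠ n in atTop, ∀ (s : Finset (Cub F[X])), (∀ f, f ∈ s ↔ f ∈ Msh F n ∧ ¬ BadC f ∧ Fam c ci n f) →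
      ∑ f ∈ s, ((NT T f : ℝ) - 1) ≤ ((Fintype.card F : ℝ) ^ 3 *
        ((IPhc S M c ci / 2 ^ T.card + ε) * (2 / (((Fintype.card F : ℝ) - 1) ^ 2 * ((Fintype.card F : ℝ) + 1)))) + ε) *
        (Fintype.card F : ℝ) ^ (12 * n + 3) := by
  classical
  have hq2 : 2 ≤ (Fintype.card F : ℝ) := q_ge
  have hq0 : (0 : ℝ) < Fintype.card F := by linarith
  have hq1 : (0 : ℝ) < (Fintype.card F : ℝ) - 1 := by linarith
  obtain ⟨k, hk⟩ := uc_small U.disc4 h2 S ε hε
  set M : ℕ := max (max 6 m) (2 * k + 1) with hMdef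
  have hM6 : 6 ≤ M := (le_max_left _ _).trans (le_max_left _ _)
  have hm : m ≤ M := (le_max_right _ _).trans (le_max_left _ _)
  have hMk : 2 * k + 1 ≤ M := le_max_right _ _
  have hM : 1 ≤ M := by omega
  refine ⟨M, hM6, hm, ?_⟩
  set φ : ℕ → ℕ → Q4 F[X] → ℝ := fun n e G => upPhi T c ci S hM (k + 1) n e G with hφ
  have hφ0 : ∀ n e G, 0 ≤ φ n e G := fun n e G => upPhi_nonneg _ _ _ _ _ _ _ _ _
  obtain ⟨C, hC0, hC⟩ := upR_le T
  have hφc : ∀ n e G, φ n e G ≤ (∑ g, Ph S hM (fun P => WPc P M (c P)) (WPc (PlX F) M ci) g) * C + (S.card + 1) := by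
    intro n e G
    apply add_le_add
    · apply mul_le_mul _ (hC G) (upR_nonneg _ _) (sum_nonneg fun g _ => Phc_nonneg c ci hM g)
      exact single_le_sum (f := fun g => Ph S hM (fun P => WPc P M (c P)) (WPc (PlX F) M ci) g)
        (fun g _ => Phc_nonneg c ci hM g) (mem_univ (redV S M n e G))
    · exact uc_le _ _ _ _ _
  set L : ℝ := (∑ P ∈ S, (∑ g, dP (k + 1) P g) / (((Fintype.card F : ℝ) ^ P.1.natDegree) ^ (k + 1)) ^ 5) +
      (∑ g, dP (k + 1) (PlX F) g) / ((Fintype.card F : ℝ) ^ (k + 1)) ^ 5 with hL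
  have hLε : L ≤ ε := hk (k + 1) (by omega)
  have hI : ∀ e, Tendsto (fun n => AV n e (φ n e)) atTop (nhds (IPhc S M c ci / 2 ^ T.card + L)) := by
    intro e
    refine tendsto_const_nhds.congr' ?_
    filter_upwards [eventually_ge_atTop (e + dS S M + dS S (k + 1))] with n hn
    have h1 : AV n e (φ n e) = AV n e (fun G => Ph S hM (fun P => WPc P M (c P)) (WPc (PlX F) M ci) (redV S M n e G) *
        ∏ P ∈ T, ((nrP P G : ℝ) / 2)) +
      AV n e (uc S (k + 1) n e) := AV_add n e _ _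
    rw [h1, hav F h2 m c ci hc hci T (fun P hP f hf => (hT P hP f hf).1) S hTS M hM n e hm (by omega) (by omega),
      AV_uc S (k + 1) (by omega) (by omega)]
  have hTt := tendsto_Tot hφ0 hφc hI
  have hlt : (Fintype.card F : ℝ) ^ 3 *
      ((IPhc S M c ci / 2 ^ T.card + L) * (2 / (((Fintype.card F : ℝ) - 1) ^ 2 * ((Fintype.card F : ℝ) + 1)))) <
      (Fintype.card F : ℝ) ^ 3 *
        ((IPhc S M c ci / 2 ^ T.card + ε) * (2 / (((Fintype.card F : ℝ) - 1) ^ 2 * ((Fintype.card F : ℝ) + 1)))) + ε := by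
    have h1 : (IPhc S M c ci / 2 ^ T.card + L) * (2 / (((Fintype.card F : ℝ) - 1) ^ 2 * ((Fintype.card F : ℝ) + 1))) ≤
        (IPhc S M c ci / 2 ^ T.card + ε) * (2 / (((Fintype.card F : ℝ) - 1) ^ 2 * ((Fintype.card F : ℝ) + 1))) :=
      mul_le_mul_of_nonneg_right (by linarith) (by positivity)
    have h3 := mul_le_mul_of_nonneg_left h1 (by positivity : 0 ≤ (Fintype.card F : ℝ) ^ 3)
    linarith
  filter_upwards [hTt.eventually_lt_const hlt] with n hn s hs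
  have es : s = (Msh F n).filter (fun f => ¬ BadC f ∧ Fam c ci n f) := by
    ext f
    rw [hs, mem_filter]
  rw [es]
  exact (up_count_phi U h2 hMk hM6 hM hm hc hci S T hT).trans (mul_le_mul_of_nonneg_right hn.le (by positivity))

/-- **the upper bound for the family** -/
theorem up_main (U : HypU) (hav : S_avT) (hcd : S_cardc) (h2 : (2 : F) ≠ 0) {m : ℕ} {c : Pl F → Cub F[X] → Prop}
    {ci : Cub F[X] → Prop} (hc : ∀ P, Cnd P.1 m (c P)) (hci : Cnd X m ci) {S₀ : Finset (Pl F)}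
    (hS₀ : ∀ P, P ∉ S₀ → ∀ f, c P f) (T : Finset (Pl F)) (hT : ∀ P ∈ T, ∀ f, c P f → OneR P.1 f)
    (ε : ℝ) (hε : 0 < ε) : ∀ᶠ n in atTop, ∀ (s s' : Finset (Cub F[X])),
    (∀ f, f ∈ s ↔ f ∈ Msh F n ∧ ¬ BadC f ∧ Fam c ci n f) → (∀ f, f ∈ s' ↔ f ∈ Msh F n ∧ Fam c ci n f) →
      ∑ f ∈ s, ((NT T f : ℝ) - 1) ≤ 2 / 2 ^ T.card * s'.card + ε * (Fintype.card F : ℝ) ^ (12 * n + 3) := by
  classical
  have hq2 : 2 ≤ (Fintype.card F : ℝ) := q_ge
  set q : ℝ := (Fintype.card F : ℝ) with hq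
  have hq0 : (0 : ℝ) < q := by linarith
  have hq1 : (0 : ℝ) < q - 1 := by linarith
  set δ : ℝ := ε / 21 with hδ
  have hδ0 : 0 < δ := by positivity
  obtain ⟨D₁, hD₁⟩ := U.euler F δ hδ0
  obtain ⟨D₂, hD₂⟩ := exists_nat_gt (2 / δ)
  set D := max D₁ D₂ with hD
  set S := PlD F D ∪ (S₀ ∪ T) with hS
  have hTS : T ⊆ S := fun P hP => mem_union_right _ (mem_union_right _ hP)
  have hτ : 2 * (1 / 2 : ℝ) ^ (9 * (D + 1)) ≤ δ := by
    have h1 : (D₂ : ℝ) ≤ 2 ^ (9 * (D + 1)) := by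
      have h3 : D₂ ≤ 9 * (D + 1) := by
        have := le_max_right D₁ D₂
        omega
      have h4 : 9 * (D + 1) < 2 ^ (9 * (D + 1)) := Nat.lt_two_pow_self
      have h5 : D₂ ≤ 2 ^ (9 * (D + 1)) := h3.trans h4.le
      exact_mod_cast h5
    have h3 : 2 < δ * 2 ^ (9 * (D + 1)) := by
      have := (div_lt_iff₀ hδ0).1 (lt_of_lt_of_le hD₂ h1)
      linarith
    rw [one_div, inv_pow, ← div_eq_mul_inv, div_le_iff₀ (by positivity)]
    linarith
  obtain ⟨M, hM6, hm, hup⟩ := up_upper U hav h2 hc hci S T hTS hT δ hδ0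
  obtain ⟨hμ0, hμ1⟩ := muSc_le hcd h2 hc hci (S := S) hM6 hm
  set μ := muSc S M c ci with hμ
  have hE : ∏ P ∈ S, (1 - (q ^ (2 * P.1.natDegree))⁻¹) ≤ 1 - q⁻¹ + δ :=
    hD₁ S (fun P hP => mem_union_left _ (mem_PlD.2 (hP.trans (le_max_left _ _))))
  -- the constants
  set A : ℝ := q ^ 3 * (2 / ((q - 1) ^ 2 * (q + 1))) with hA
  have hA0 : 0 ≤ A := by positivity
  have hA8 : A ≤ 8 := by
    rw [hA, ← mul_div_assoc, div_le_iff₀ (by positivity)]
    have h1 : 0 ≤ (q - 2) := by linarith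
    nlinarith [mul_nonneg h1 h1, mul_nonneg h1 hq0.le, mul_nonneg (mul_nonneg h1 h1) hq0.le, mul_nonneg (mul_nonneg h1 hq0.le) hq0.le]
  have hA2 : A * ((1 - q⁻¹) * (1 - (q ^ 2)⁻¹)) = 2 := by
    rw [hA]
    have h1 : q - 1 ≠ 0 := hq1.ne'
    have h3 : q + 1 ≠ 0 := by positivity
    field_simp
    ring
  have hκ0 : 0 ≤ 1 - (q ^ 2)⁻¹ := by
    have : (q ^ 2)⁻¹ ≤ 1 := inv_le_one_of_one_le₀ (by nlinarith)
    linarith
  have hκ1 : 1 - (q ^ 2)⁻¹ ≤ 1 := by
    have : 0 ≤ (q ^ 2)⁻¹ := by positivity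
    linarith
  set w : ℝ := (2 ^ T.card)⁻¹ with hw
  have hw0 : 0 ≤ w := by positivity
  have hw1 : w ≤ 1 := inv_le_one_of_one_le₀ (one_le_pow₀ (by norm_num))
  have hI : A * IPhc S M c ci ≤ 2 * μ + 8 * δ := by
    have h1 : IPhc S M c ci ≤ (1 - q⁻¹ + δ) * (1 - (q ^ 2)⁻¹) * μ := by
      unfold IPhc
      exact mul_le_mul_of_nonneg_right (mul_le_mul_of_nonneg_right hE hκ0) hμ0
    have h3 := mul_le_mul_of_nonneg_left h1 hA0
    have h4 : A * ((1 - q⁻¹ + δ) * (1 - (q ^ 2)⁻¹) * μ) = 2 * μ + A * δ * ((1 - (q ^ 2)⁻¹) * μ) := by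
      linear_combination μ * hA2
    have h5 : A * δ * ((1 - (q ^ 2)⁻¹) * μ) ≤ 8 * δ * 1 := by
      apply mul_le_mul (mul_le_mul_of_nonneg_right hA8 hδ0.le) _ (mul_nonneg hκ0 hμ0) (by positivity)
      calc (1 - (q ^ 2)⁻¹) * μ ≤ 1 * 1 := mul_le_mul hκ1 hμ1 hμ0 (by norm_num)
        _ = 1 := one_mul 1
    linarith
  filter_upwards [hup, disc0_small (F := F) δ hδ0, eventually_ge_atTop (dS S M)] with n h1 h3 h5 s s' hs hs'
  have h6 := h1 s hs
  have h7 := Msh_ge (F := F) h2 D n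
  have h8 := hcd F h2 m c ci hc hci S M n hM6 hm (by omega)
  rw [← hq] at h3 h6 h7
  rw [← hq, ← hμ] at h8
  have hB : 0 < q ^ (12 * n + 3) := by positivity
  set B := q ^ (12 * n + 3) with hBdef
  have h9 : (2 : ℝ) * (1 / 2 : ℝ) ^ (9 * (D + 1)) * B ≤ δ * B := mul_le_mul_of_nonneg_right hτ hB.le
  -- the cubics lost
  have hlost : (((Sb F n).filter (fun f => MinS (PlD F D) n f)).card : ℝ) =
      (Msh F n).card + ((((Sb F n).filter (fun f => MinS (PlD F D) n f)) \ Msh F n).card : ℝ) := by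
    have hsub : Msh F n ⊆ (Sb F n).filter (fun f => MinS (PlD F D) n f) := by
      intro f hf
      rw [mem_Msh] at hf
      rw [mem_filter, mem_Sb]
      obtain ⟨hm1, hm2⟩ := (MinAll_crv h2).1 hf.2.2
      exact ⟨hf.1, fun P _ => hm1 P, hm2⟩
    have := card_sdiff_add_card_eq_card hsub
    rw [add_comm] at this
    exact_mod_cast this.symm
  have hsub2 : (Sb F n).filter (fun f => MinS S n f ∧ (∀ P ∈ S, c P f) ∧ ci (crev n f)) ⊆
      s' ∪ (((Sb F n).filter (fun f => MinS (PlD F D) n f)) \ Msh F n) := by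
    intro f hf
    rw [mem_filter] at hf
    obtain ⟨hSb, ⟨hmin, hX⟩, hcP, hcI⟩ := hf
    rw [mem_union]
    by_cases hMs : f ∈ Msh F n
    · left
      rw [hs']
      refine ⟨hMs, fun P => ?_, hcI⟩
      by_cases hP : P ∈ S₀
      · exact hcP P (mem_union_right _ (mem_union_left _ hP))
      · exact hS₀ P hP f
    · right
      rw [Finset.mem_sdiff, mem_filter]
      exact ⟨⟨hSb, fun P hP => hmin P (mem_union_left _ hP), hX⟩, hMs⟩
  have h10 : μ * B ≤ s'.card + 2 * δ * B := by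
    rw [← h8]
    have h11 : (((Sb F n).filter (fun f => MinS S n f ∧ (∀ P ∈ S, c P f) ∧ ci (crev n f))).card : ℝ) ≤
        (s'.card : ℝ) + ((((Sb F n).filter (fun f => MinS (PlD F D) n f)) \ Msh F n).card : ℝ) := by
      exact_mod_cast (card_le_card hsub2).trans (card_union_le _ _)
    linarith
  have h11 : q ^ 3 * ((IPhc S M c ci / 2 ^ T.card + δ) * (2 / ((q - 1) ^ 2 * (q + 1)))) + δ ≤
      w * (2 * μ) + 17 * δ := by
    have e1 : q ^ 3 * ((IPhc S M c ci / 2 ^ T.card + δ) * (2 / ((q - 1) ^ 2 * (q + 1)))) =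
        w * (A * IPhc S M c ci) + A * δ := by
      rw [hA, hw]; ring
    have e3 : A * δ ≤ 8 * δ := mul_le_mul_of_nonneg_right hA8 hδ0.le
    have e4 : w * (A * IPhc S M c ci) ≤ w * (2 * μ + 8 * δ) := mul_le_mul_of_nonneg_left hI hw0
    have e5 : w * (8 * δ) ≤ 1 * (8 * δ) := mul_le_mul_of_nonneg_right hw1 (by positivity)
    rw [e1]
    linarith
  have h12 := mul_le_mul_of_nonneg_right h11 hB.le
  have h13 : (w * (2 * μ) + 17 * δ) * B = 2 * w * (μ * B) + 17 * (δ * B) := by ring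
  have h14 : 2 * w * (μ * B) ≤ 2 * w * (s'.card + 2 * δ * B) := mul_le_mul_of_nonneg_left h10 (by positivity)
  have h15 : w * (4 * (δ * B)) ≤ 1 * (4 * (δ * B)) := mul_le_mul_of_nonneg_right hw1 (by positivity)
  have h16 : 21 * (δ * B) = ε * B := by rw [hδ]; ring
  have h17 : 2 / 2 ^ T.card * (s'.card : ℝ) = 2 * w * s'.card := by rw [hw]; ring
  rw [h17]
  linarith

end up

theorem t_up : S_avT → S_up := by
  classical
  intro hav F _ _ h2 m c hc S₀ hS₀ T hT ε hε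
  have hci : Cnd (X : F[X]) m (fun _ => True) := ⟨fun _ _ _ => Iff.rfl, fun _ _ => Iff.rfl⟩
  filter_upwards [up_main hypU_all hav t_avc.2 h2 hc hci hS₀ T hT ε hε] with n hn
  apply hn
  · intro f
    rw [mem_filter]
    exact ⟨fun h => ⟨h.1, h.2.1, h.2.2, trivial⟩, fun h => ⟨h.1, h.2.1, h.2.2.1⟩⟩
  · intro f
    rw [mem_filter]
    exact ⟨fun h => ⟨h.1, h.2, trivial⟩, fun h => ⟨h.1, h.2.1⟩⟩

end Pool.Agent.H456.PR
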