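import Pool.Agent.H456.PR.T_sqr
import Pool.Agent.H456.PR.T_fl1
import Pool.Agent.H456.PR.T_sxn
import Pool.Agent.H456.PR.T_qr
import Pool.Agent.H456.PR.T_sym
import Pool.Agent.H456.PR.T_prd
import Pool.Agent.H456.PR.T_rcg
import Pool.Agent.H456.PR.T_fl2
import Pool.Agent.H456.PR.T_hlf
import Pool.Agent.H456.PR.T_hlv
import Pool.Agent.H456.PR.T_lcl
import Pool.Agent.H456.PR.T_lu
import Pool.Agent.H456.PR.T_grp
import Pool.Agent.H456.PR.T_pw2
import Pool.Agent.H456.PR.T_fln
import Pool.Agent.H456.PR.T_tri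
import Pool.Agent.H456.PR.T_avT
import Pool.Agent.H456.PR.T_up
import Pool.Agent.H456.PR.T_low
import Pool.Agent.H456.PR.T_tws
import Pool.Agent.H456.PR.T_avg
import Pool.Agent.H456.PR.T_typ
import Pool.Agent.H456.PR.T_bdr
import Pool.Agent.H456.PR.T_ap
import Pool.Agent.H456.PR.T_sel
import Pool.Agent.H456.PR.T_cau
import Pool.Agent.H456.PR.T_eul
import Pool.Agent.H456.PR.T_bal
import Pool.Agent.H456.PR.T_pwt
import Pool.Agent.H456.PR.T_mai
import Pool.Agent.H456.PR.T_clU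
import Pool.Agent.H456.PR.T_ctw
import Pool.Agent.H456.PR.T_rk
import Pool.Agent.H456.PR.T_sh
import Pool.Agent.H456.PR.T_num
import Pool.Agent.H456.PR.Out2

/-!
# The lemmas without hypotheses
-/

set_option autoImplicit false
set_option linter.all false

namespace Pool.Agent.H456.PR

theorem a_sqr : S_sqr := t_sqr
theorem a_fl1 : S_fl1 := t_fl1 a_sqr
theorem a_sxn : S_sxn := t_sxn
theorem a_qr : S_qr := t_qr
theorem a_prd : S_prd := t_prd a_qr
theorem a_rcg : S_rcg := t_rcg t_sym a_prd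
theorem a_fl2 : S_fl2 := t_fl2 a_sqr a_sxn a_rcg
theorem a_hlf : S_hlf := t_hlf
theorem a_hlv : S_hlv := t_hlv a_hlf
theorem a_lcl : S_lcl := t_lcl a_hlf
theorem a_lu : S_lu := t_lu a_sxn a_hlv a_lcl
theorem a_grp : S_grp := t_grp
theorem a_pw2 : S_pw2 := t_pw2
theorem a_fln : S_fln := t_fln a_fl1 a_fl2 a_lu a_grp a_pw2
theorem a_tri : S_tri := t_tri
theorem a_up : S_up := t_up t_avT
theorem a_low : S_low := t_low
theorem a_avg : S_avg := t_avg a_tri a_up a_low t_tws
theorem a_typ : S_typ := t_typ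
theorem a_bdr : S_bdr := t_bdr
theorem a_sel : S_sel := t_sel a_qr t_ap
theorem a_cau : S_cau := t_cau
theorem a_eul : S_eul := t_eul
theorem a_bal : S_bal := t_bal a_eul
theorem a_num : S_num := t_num a_eul
theorem a_pwt : S_pwt := t_pwt a_fln a_cau a_bal
theorem a_mai : S_mai := t_mai a_fln a_avg a_typ a_bdr a_sel a_pwt

theorem hypR_all : HypR where
  mai := a_mai
  clU := t_clU
  ctw := t_ctw
  rk := t_rk
  sh := t_sh
  num := a_num

end Pool.Agent.H456.PR
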