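import Pool.Agent.H456.PP.Stm
import Pool.Agent.H456.Coh.Fin

/-!
# The Poonen-Rains law for twists of almost all elliptic curves over `F(t)`: definitions
-/

set_option autoImplicit false
set_option linter.all false

open Polynomial Finset Filter
open Pool.Agent.H456.EC (toK toK_inj sig toK_eq reflect_toK)
open Pool.Agent.H456.RN
open Pool.Agent.H456.BQ
open Pool.Agent.H456.Coh (TF)
open Pool.Agent.H456.PP (OneR HasRt sx hh Tz Tq Iso3 nr IsoP nrP)

namespace Pool.Agent.H456.PR

section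

variable {F : Type} [Field F]

/-- the quartic of the pair has a root over the completion at `P` -/
def Rt (P : Pl F) (s : Q4 (RatFunc F) × RatFunc F) : Prop :=
  HasRt (s.1.map (algebraMap (RatFunc F) ((plv P).adicCompletion (RatFunc F))))

/-- the class is trivial at `P` -/
def Tr (P : Pl F) {f : Cub (RatFunc F)} (σ : Sel f) : Prop :=
  ∃ (s : Q4 (RatFunc F) × RatFunc F) (h : IsSel f s), σ = selMk f s h ∧ Rt P s

/-- the number of the classes which are trivial at the places of `T` -/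
noncomputable def NT (T : Finset (Pl F)) (f : Cub F[X]) : ℕ := Nat.card {σ : Sel (f.map (toK F)) // ∀ P ∈ T, Tr P σ}

/-- the product of the places of `J` -/
noncomputable def DJ (J : Finset (Pl F)) : F[X] := ∏ P ∈ J, P.1

/-- the pair multiplied by `D` is locally soluble everywhere -/
def IsD (D : F[X]) (s : Q4 (RatFunc F) × RatFunc F) : Prop :=
  (∀ P : Pl F, LS P (s.1.smul (toK F D))) ∧ LSI (s.1.smul (toK F D))

/-- `u` is a square modulo `P` -/
def SqM (P : Pl F) (u : F[X]) : Prop := ∃ r : F[X], P.1 ∣ u - r ^ 2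

/-- the places used for the twists -/
structure Cfg (T : Finset (Pl F)) (D₀ : ℕ) : Prop where
  even : ∀ P ∈ T, Even P.1.natDegree
  big : ∀ P ∈ T, D₀ < P.1.natDegree
  small : ∀ P ∈ T, ∀ Q : Pl F, Q.1.natDegree ≤ D₀ → SqM Q P.1
  sq : ∀ P ∈ T, ∀ Q ∈ T, P ≠ Q → SqM Q P.1

/-- the good cubics -/
structure GoodF (T : Finset (Pl F)) (D₀ : ℕ) (f : Cub F[X]) : Prop where
  disc : ∀ P ∈ T, ¬ P.1 ∣ f.disc
  sqf : ∀ P : Pl F, D₀ < P.1.natDegree → ¬ P.1 ^ 2 ∣ f.disc
  bad : ¬ BadC f

/-- the pairs over the field `L` (with the cubic `g`) which are soluble and have no roots are equivalent -/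
def Uniq2 {L : Type} [Field L] (g : Cub L) : Prop := ∀ s₁ s₂ : Q4 L × L, s₁.1.res = (g.sc 4).tr s₁.2 →
  s₂.1.res = (g.sc 4).tr s₂.2 → s₁.1.Sol → s₂.1.Sol → ¬ HasRt s₁.1 → ¬ HasRt s₂.1 → ∃ M : M2 L, PE M s₁ s₂

/-- `(x - θ)` is a square in `L[θ]`, `g(θ) = 0` -/
def SqA {L : Type} [Field L] (g : Cub L) (p q r : L) : Prop := ∃ a b c : L, ∀ (R : Type) [CommRing R] [Algebra L R] (θ : R),
  (g.map (algebraMap L R)).ev θ = 0 → algebraMap L R p + algebraMap L R q * θ + algebraMap L R r * θ ^ 2 =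
    (algebraMap L R a + algebraMap L R b * θ + algebraMap L R c * θ ^ 2) ^ 2

open Classical in
/-- the quadratic residue symbol -/
noncomputable def lg (P : Pl F) (u : F[X]) : ℤ := if P.1 ∣ u then 0 else if SqM P u then 1 else -1

open Classical in
/-- the tame symbol at `P` of `a = P ^ α a'`, `b = P ^ β b'` -/
noncomputable def hs (P : Pl F) (a b : F[X]) : ℤ :=
  lg P ((-1) ^ (multiplicity P.1 a * multiplicity P.1 b) * (a / P.1 ^ multiplicity P.1 a) ^ multiplicity P.1 b *
    (b / P.1 ^ multiplicity P.1 b) ^ multiplicity P.1 a)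

open Classical in
/-- the symbol at infinity -/
noncomputable def hi (a b : F[X]) : ℤ :=
  if IsSquare ((-1) ^ (a.natDegree * b.natDegree) * a.leadingCoeff ^ b.natDegree * b.leadingCoeff ^ a.natDegree) then 1
  else -1

/-- the twist at `P` of the condition `c` -/
def tw (P : Pl F) (c : Cub F[X] → Prop) (g : Cub F[X]) : Prop := ∃ (f : Cub F[X]) (r : F[X]), g.tr r = f.sc P.1 ∧ c f

open Classical in
/-- the conditions on the twists by `DJ J` of the cubics with the conditions `c` -/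
noncomputable def cJ (J : Finset (Pl F)) (c : Pl F → Cub F[X] → Prop) (P : Pl F) : Cub F[X] → Prop :=
  if P ∈ J then tw P (c P) else c P

end

/-- the terms `∏_{1 ≤ i ≤ k} 2 / (2 ^ i - 1)` -/
noncomputable def ak (k : ℕ) : ℝ := ∏ i ∈ range k, (2 : ℝ) / (2 ^ (i + 1) - 1)

/-- the probabilities of the law of Poonen and Rains for the prime `2` -/
noncomputable def Cd (k : ℕ) : ℝ := (∏' j : ℕ, (1 + (1 / 2 : ℝ) ^ j))⁻¹ * ak k

section

variable {F : Type} [Field F] [Fintype F]

open Classical in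
/-- the places of `T` where `f` has exactly one root -/
noncomputable def Sf (T : Finset (Pl F)) (f : Cub F[X]) : Finset (Pl F) := T.filter (fun P => OneR P.1 f)

open Classical in
/-- the second moment `∑_{σ ≠ 0} (#supp σ - n/2)²` of the sizes of the supports, in terms of the numbers `NT` -/
noncomputable def Vf (S : Finset (Pl F)) (g : Cub F[X]) : ℝ :=
  (∑ P ∈ S, ∑ Q ∈ S.erase P, (NT {P, Q} g : ℝ)) - ((S.card : ℝ) - 1) * (∑ P ∈ S, (NT {P} g : ℝ)) +
    ((NT ∅ g : ℝ) - 1) * (S.card : ℝ) ^ 2 / 4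

open Classical in
/-- the proportion of the twists whose 2-Selmer set has `2 ^ k` elements -/
noncomputable def prp (T : Finset (Pl F)) (f : Cub F[X]) (k : ℕ) : ℝ :=
  ((T.powerset.filter (fun J => NT ∅ (f.sc (DJ J)) = 2 ^ k)).card : ℝ) / 2 ^ T.card

/-- the good cubics of height `n` with the pattern `S` -/
def InG (T : Finset (Pl F)) (D₀ : ℕ) (S : Finset (Pl F)) (n : ℕ) (f : Cub F[X]) : Prop :=
  f ∈ Msh F n ∧ GoodF T D₀ f ∧ ∀ P ∈ T, (OneR P.1 f ↔ P ∈ S)

/-- the twist of `E` by `D`: `y² = x³ + D a x² + D² b x + D³ c` if `E` is `y² = x³ + a x² + b x + c` -/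
noncomputable def twE (D : RatFunc F) (E : WeierstrassCurve (RatFunc F)) : WeierstrassCurve (RatFunc F) :=
  crv ((cubE E).sc D)

end

end Pool.Agent.H456.PR
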