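import Pool.Agent.H456.PR.Stm
import Pool.Agent.H456.PR.Stm2
import Pool.Agent.H456.Coh.Out

/-!
# The law for the isomorphism classes
-/

set_option autoImplicit false
set_option linter.all false

open Polynomial Finset Filter
open Pool.Agent.H456.EC (toK toK_inj sig toK_eq reflect_toK cls)
open Pool.Agent.H456.RN
open Pool.Agent.H456.BQ
open Pool.Agent.H456.Coh (SelmerGroup torsionPts primaryPts)

namespace Pool.Agent.H456.PR

section

variable {F : Type} [Field F]

theorem DJ_monic (J : Finset (Pl F)) : (DJ J).Monic := monic_prod_of_monic _ _ fun P _ => P.2.1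

theorem DJ_ne (J : Finset (Pl F)) : DJ J ≠ 0 := (DJ_monic J).ne_zero

theorem Pl_dvd {P Q : Pl F} (h : P.1 ∣ Q.1) : P = Q := by
  have h1 : Associated P.1 Q.1 := (P.2.2.dvd_irreducible_iff_associated Q.2.2).1 h
  exact Subtype.ext (eq_of_monic_of_associated P.2.1 Q.2.1 h1)

theorem mem_of_dvd_DJ {P : Pl F} {J : Finset (Pl F)} (h : P.1 ∣ DJ J) : P ∈ J := by
  unfold DJ at h
  obtain ⟨Q, hQ, hd⟩ := (P.2.2.prime.dvd_finset_prod_iff (fun Q : Pl F => Q.1)).1 h
  rw [Pl_dvd hd]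
  exact hQ

theorem DJ_inj {J J' : Finset (Pl F)} (h : DJ J = DJ J') : J = J' := by
  ext P
  constructor
  · intro hP
    apply mem_of_dvd_DJ
    rw [← h]
    exact dvd_prod_of_mem (fun Q : Pl F => Q.1) hP
  · intro hP
    apply mem_of_dvd_DJ
    rw [h]
    exact dvd_prod_of_mem (fun Q : Pl F => Q.1) hP

theorem DJ_sqf (J : Finset (Pl F)) : Squarefree (DJ J) := by
  classical
  intro y hy
  by_contra hu
  have hy0 : y ≠ 0 := by
    rintro rfl
    rw [mul_zero] at hy
    exact DJ_ne J (zero_dvd_iff.1 hy)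
  obtain ⟨x, hx, hxy⟩ := WfDvdMonoid.exists_irreducible_factor hu hy0
  have hd : x * x ∣ ∏ P ∈ J, P.1 := (mul_dvd_mul hxy hxy).trans hy
  obtain ⟨Q, hQ, hdQ⟩ := (hx.prime.dvd_finset_prod_iff (fun Q : Pl F => Q.1)).1 ((dvd_mul_right x x).trans hd)
  have h1 : Associated x Q.1 := (hx.dvd_irreducible_iff_associated Q.2.2).1 hdQ
  have h3 : Q.1 * Q.1 ∣ ∏ P ∈ J, P.1 := (h1.symm.mul_mul h1.symm).dvd.trans hd
  rw [← mul_prod_erase J (fun P : Pl F => P.1) hQ] at h3
  have h4 : Q.1 ∣ ∏ P ∈ J.erase Q, P.1 := (mul_dvd_mul_iff_left Q.2.2.ne_zero).1 h3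
  have h5 : Q ∈ J.erase Q := mem_of_dvd_DJ h4
  exact absurd h5 (notMem_erase Q J)

theorem DJ_even {T J : Finset (Pl F)} (hT : ∀ P ∈ T, Even P.1.natDegree) (hJ : J ⊆ T) : Even (DJ J).natDegree := by
  unfold DJ
  rw [natDegree_prod_of_monic _ _ fun P _ => P.2.1]
  exact Finset.even_sum _ fun P hP => hT P (hJ hP)

end

variable {F : Type} [Field F] [Fintype F]

open Classical in
/-- the proportion of the `D` in a set whose twist has a 2-Selmer group of order `2 ^ k` -/
noncomputable def prS (𝒟 : Finset F[X]) (E : WeierstrassCurve (RatFunc F)) (k : ℕ) : ℝ :=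
  ((𝒟.filter (fun D => Nat.card (SelmerGroup (twE (toK F D) E) (torsionPts (twE (toK F D) E) 2)) = 2 ^ k)).card : ℝ) /
    𝒟.card

open Classical in
theorem prS_eq (ht : S_ctw) (h2 : (2 : F) ≠ 0) (T : Finset (Pl F)) {f : Cub F[X]} (hf : f.disc ≠ 0) (k : ℕ) :
    prS (T.powerset.image DJ) (cls (crv f)).out k = prp T f k := by
  have hinj : Set.InjOn (DJ (F := F)) (T.powerset : Set (Finset (Pl F))) := fun J _ J' _ h => DJ_inj h
  unfold prS prp
  rw [card_image_of_injOn hinj, card_powerset]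
  have h1 : (T.powerset.image DJ).filter (fun D => Nat.card (SelmerGroup (twE (toK F D) (cls (crv f)).out)
      (torsionPts (twE (toK F D) (cls (crv f)).out) 2)) = 2 ^ k) =
      (T.powerset.filter (fun J => NT ∅ (f.sc (DJ J)) = 2 ^ k)).image DJ := by
    ext D
    simp only [mem_filter, mem_image]
    constructor
    · rintro ⟨⟨J, hJ, rfl⟩, h⟩
      refine ⟨J, ⟨hJ, ?_⟩, rfl⟩
      rw [← ht F h2 f hf (DJ J) (DJ_ne J)]
      exact h
    · rintro ⟨J, ⟨hJ, h⟩, rfl⟩
      refine ⟨⟨J, hJ, rfl⟩, ?_⟩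
      rw [ht F h2 f hf (DJ J) (DJ_ne J)]
      exact h
  rw [h1, card_image_of_injOn (hinj.mono ?_)]
  · push_cast
    rfl
  · intro J hJ
    rw [mem_coe, mem_filter] at hJ
    exact hJ.1

open Classical in
/-- **the law for the isomorphism classes** -/
theorem law_CL (hm : S_mai) (hc : S_clU) (ht : S_ctw) (h2 : (2 : F) ≠ 0) (ε : ℝ) (hε : 0 < ε) :
    ∃ 𝒟 : Finset F[X], 𝒟.Nonempty ∧ (∀ D ∈ 𝒟, D.Monic ∧ Squarefree D ∧ Even D.natDegree) ∧
      ∀ᶠ d in atTop, (((CL F d).filter (fun κ => ∃ k, ε < |prS 𝒟 κ.out k - Cd k|)).card : ℝ) ≤ ε * (CL F d).card := by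
  obtain ⟨T, hT, hne, hn⟩ := hm F h2 (ε / 1000) (by positivity)
  refine ⟨T.powerset.image DJ, ⟨DJ ∅, mem_image_of_mem _ (empty_mem_powerset T)⟩, ?_, ?_⟩
  · intro D hD
    obtain ⟨J, hJ, rfl⟩ := mem_image.1 hD
    exact ⟨DJ_monic J, DJ_sqf J, DJ_even hT (mem_powerset.1 hJ)⟩
  · set w : KC F → ℝ := fun κ => if ∃ k, ε < |prS (T.powerset.image DJ) κ.out k - Cd k| then 1 else 0 with hw
    have h1 := hc F h2 w (fun κ => by simp only [hw]; split_ifs <;> norm_num) (ε / 1000) (by positivity) ?_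
    · filter_upwards [h1] with d hd
      simp only [hw, sum_boole] at hd
      refine hd.trans (le_of_eq ?_)
      ring
    · filter_upwards [hn] with n h3
      refine le_trans ?_ h3
      have h4 : ∑ f ∈ Msh F n, w (cls (crv f)) =
          (((Msh F n).filter (fun f => ∃ k, ε < |prS (T.powerset.image DJ) (cls (crv f)).out k - Cd k|)).card : ℝ) := by
        simp only [hw, sum_boole]
      rw [h4]
      have h5 : ((Msh F n).filter (fun f => ∃ k, ε < |prS (T.powerset.image DJ) (cls (crv f)).out k - Cd k|)).card ≤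
          ((Msh F n).filter (fun f => ∃ k, ε / 1000 < |prp T f k - Cd k|)).card := by
        apply card_le_card
        intro f hf
        rw [mem_filter] at hf ⊢
        obtain ⟨k, hk⟩ := hf.2
        refine ⟨hf.1, k, ?_⟩
        rw [← prS_eq ht h2 T (mem_Msh.1 hf.1).2.1]
        linarith
      exact_mod_cast h5

end Pool.Agent.H456.PR
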