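import Pool.Agent.H456.PR.Def

/-!
# The Poonen-Rains law for twists of almost all elliptic curves over `F(t)`: statements
-/

set_option autoImplicit false
set_option linter.all false

open Polynomial Finset Filter
open Pool.Agent.H456.EC (toK toK_inj sig toK_eq reflect_toK cls)
open Pool.Agent.H456.RN
open Pool.Agent.H456.BQ
open Pool.Agent.H456.Coh (TF)
open Pool.Agent.H456.PP (OneR HasRt sx hh Tz Tq Iso3 nr IsoP nrP)

namespace Pool.Agent.H456.PR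

/-! ### Group A: one elliptic curve -/

/-- **(sqr)** local squares. -/
def S_sqr : Prop := ∀ (F : Type) [Field F] [Fintype F], (2 : F) ≠ 0 →
  (∀ (P : Pl F) (u : F[X]), ¬ P.1 ∣ u → SqM P u → ∀ (O : Type) [CommRing O] [IsDomain O] (π : O) (ι : F[X] →+* O),
    Lc4 P.1 π ι → ∃ w : O, IsUnit w ∧ ι u = w ^ 2) ∧
  (∀ u : F[X], u.Monic → Even u.natDegree → ∀ (O L : Type) [CommRing O] [IsDomain O] [Field L] [Algebra O L]
    [IsFractionRing O L] (π : O) (ι : F[X] →+* O), Lc4 (X : F[X]) π ι → ∀ j : RatFunc F →+* L,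
    (∀ x : F[X], j (toK F x) = algebraMap O L (ι x)) → ∃ w : L, w ≠ 0 ∧ j (locI_tau F (toK F u)) = w ^ 2)

/-- **(fl1)** the classes which are trivial at `P` are the same for the twists by `D` and `D P`. -/
def S_fl1 : Prop := ∀ (F : Type) [Field F] [Fintype F], (2 : F) ≠ 0 → ∀ (T : Finset (Pl F)) (D₀ : ℕ), Cfg T D₀ →
  ∀ f : Cub F[X], GoodF T D₀ f → ∀ J ⊆ T, ∀ P ∈ T, P ∉ J → ∀ s : Q4 (RatFunc F) × RatFunc F,
    s.1.res = ((f.map (toK F)).sc 4).tr s.2 → Rt P s → (IsD (DJ J) s ↔ IsD (DJ J * P.1) s)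

/-- **(sxn)** a pair in general position. -/
def S_sxn : Prop := ∀ (K : Type) [Field K] [Infinite K], (2 : K) ≠ 0 → ∀ f : Cub K, f.disc ≠ 0 → ∀ s : Q4 K × K,
  s.1.res = (f.sc 4).tr s.2 → ∃ (M : M2 K) (s' : Q4 K × K), PE M s s' ∧ sx s'.1 ≠ 0

open Classical in
/-- **(qr)** quadratic reciprocity. -/
def S_qr : Prop := ∀ (F : Type) [Field F] [Fintype F], (2 : F) ≠ 0 →
  (∀ (P : Pl F) (u v : F[X]), lg P (u * v) = lg P u * lg P v) ∧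
  (∀ (P : Pl F) (c : F), c ≠ 0 → lg P (C c) = if Even P.1.natDegree ∨ IsSquare c then 1 else -1) ∧
  (∀ P Q : Pl F, P ≠ Q → lg P Q.1 * lg Q P.1 = if Odd P.1.natDegree ∧ Odd Q.1.natDegree ∧ ¬ IsSquare (-1 : F) then -1 else 1)

/-- **(sym)** the symbols and the isotropy of `a x² + b y² - z²`. -/
def S_sym : Prop := ∀ (F : Type) [Field F] [Fintype F], (2 : F) ≠ 0 → ∀ a b : F[X], a ≠ 0 → b ≠ 0 →
  (∀ P : Pl F, IsoP P (⟨toK F a, toK F b, -1, 0, 0, 0⟩ : TF (RatFunc F)) ↔ hs P a b = 1) ∧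
  (IsoP (PlX F) ((⟨toK F a, toK F b, -1, 0, 0, 0⟩ : TF (RatFunc F)).map (locI_tau F)) ↔ hi a b = 1)

/-- **(prd)** the product formula for the symbols: not exactly one symbol is `-1`. -/
def S_prd : Prop := ∀ (F : Type) [Field F] [Fintype F], (2 : F) ≠ 0 → ∀ a b : F[X], a ≠ 0 → b ≠ 0 → ∀ P₀ : Pl F,
  (∀ P : Pl F, P ≠ P₀ → hs P a b = 1) → hi a b = 1 → hs P₀ a b = 1

/-- **(rcg)** reciprocity: a ternary form which is isotropic at all places but one is isotropic. -/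
def S_rcg : Prop := ∀ (F : Type) [Field F] [Fintype F], (2 : F) ≠ 0 → ∀ (P₀ : Pl F) (q : TF (RatFunc F)),
  (∀ P : Pl F, P ≠ P₀ → IsoP P q) → IsoP (PlX F) (q.map (locI_tau F)) → Iso3 q

/-- **(fl2)** not both twists have classes which are nontrivial at `P`. -/
def S_fl2 : Prop := ∀ (F : Type) [Field F] [Fintype F], (2 : F) ≠ 0 → ∀ (T : Finset (Pl F)) (D₀ : ℕ), Cfg T D₀ →
  ∀ f : Cub F[X], GoodF T D₀ f → ∀ J ⊆ T, ∀ P ∈ T, P ∉ J → OneR P.1 f → ∀ s₁ s₂ : Q4 (RatFunc F) × RatFunc F,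
    s₁.1.res = ((f.map (toK F)).sc 4).tr s₁.2 → s₂.1.res = ((f.map (toK F)).sc 4).tr s₂.2 →
    IsD (DJ J) s₁ → ¬ Rt P s₁ → IsD (DJ J * P.1) s₂ → ¬ Rt P s₂ → False

/-- **(hlf)** halving of points. -/
def S_hlf : Prop := ∀ (L : Type) [Field L], (2 : L) ≠ 0 → ∀ g : Cub L, g.disc ≠ 0 → ∀ x y : L, y ^ 2 = g.ev x →
  SqA g x (-1) 0 → HasRt (gp g x y)

/-- **(hlv)** two points whose classes are equal have equivalent pairs. -/
def S_hlv : Prop := ∀ (L : Type) [Field L], (2 : L) ≠ 0 → ∀ g : Cub L, g.disc ≠ 0 → ∀ x₁ y₁ x₂ y₂ : L,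
  y₁ ^ 2 = g.ev x₁ → y₂ ^ 2 = g.ev x₂ → y₁ ≠ 0 → y₂ ≠ 0 → SqA g (x₁ * x₂) (-(x₁ + x₂)) 1 →
  ∃ M : M2 L, PE M (gp g x₁ y₁, -(2 * x₁ + 2 * g.a)) (gp g x₂ y₂, -(2 * x₂ + 2 * g.a))

/-- **(lcl)** the classes of the points over the completion at a place where the cubic has exactly one root. -/
def S_lcl : Prop := ∀ (F : Type) [Field F] [Fintype F], (2 : F) ≠ 0 → ∀ (P : Pl F) (O L : Type) [CommRing O] [IsDomain O]
  [Field L] [Algebra O L] [IsFractionRing O L] (π : O) (ι : F[X] →+* O), Lc4 P.1 π ι → ∀ f : Cub O, OneR π f →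
    ∀ D : O, ¬ π ^ 2 ∣ D → ∀ x₁ y₁ x₂ y₂ : L, y₁ ^ 2 = ((f.sc D).map (algebraMap O L)).ev x₁ →
    y₂ ^ 2 = ((f.sc D).map (algebraMap O L)).ev x₂ → y₁ ≠ 0 → y₂ ≠ 0 →
    ¬ HasRt (gp ((f.sc D).map (algebraMap O L)) x₁ y₁) → ¬ HasRt (gp ((f.sc D).map (algebraMap O L)) x₂ y₂) →
    SqA ((f.sc D).map (algebraMap O L)) (x₁ * x₂) (-(x₁ + x₂)) 1

/-- **(lu)** local uniqueness. -/
def S_lu : Prop := ∀ (F : Type) [Field F] [Fintype F], (2 : F) ≠ 0 → ∀ (P : Pl F) (O L : Type) [CommRing O] [IsDomain O]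
  [Field L] [Algebra O L] [IsFractionRing O L] (π : O) (ι : F[X] →+* O), Lc4 P.1 π ι → ∀ f : Cub O, OneR π f →
    ∀ D : O, ¬ π ^ 2 ∣ D → Uniq2 ((f.sc D).map (algebraMap O L))

/-- **(grp)** the classes which are trivial at `P` are at least half of the classes. -/
def S_grp : Prop := ∀ (F : Type) [Field F] [Fintype F], (2 : F) ≠ 0 → ∀ (P : Pl F) (g : Cub (RatFunc F)), g.disc ≠ 0 →
  Finite (Sel g) → Uniq2 (g.map (algebraMap (RatFunc F) ((plv P).adicCompletion (RatFunc F)))) →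
    Nat.card (Sel g) ≤ 2 * Nat.card {σ : Sel g // Tr P σ}

/-- **(pw2)** the number of the classes is a power of two. -/
def S_pw2 : Prop := ∀ (F : Type) [Field F] [Fintype F], (2 : F) ≠ 0 → ∀ g : Cub (RatFunc F), g.disc ≠ 0 →
  Finite (Sel g) → ∃ k : ℕ, Nat.card (Sel g) = 2 ^ k

open Classical in
/-- **(fln)** the numbers of the classes for the twists by `D` and `D P`. -/
def S_fln : Prop := ∀ (F : Type) [Field F] [Fintype F], (2 : F) ≠ 0 → ∀ (T : Finset (Pl F)) (D₀ : ℕ), Cfg T D₀ →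
  ∀ f : Cub F[X], GoodF T D₀ f → ∀ J ⊆ T,
    Finite (Sel ((f.sc (DJ J)).map (toK F))) ∧ (∃ k : ℕ, NT ∅ (f.sc (DJ J)) = 2 ^ k) ∧
    ∀ P ∈ T, P ∉ J → OneR P.1 f →
      NT ∅ (f.sc (DJ J)) + NT ∅ (f.sc (DJ (insert P J))) ≤ 3 * NT {P} (f.sc (DJ J)) ∧
      NT ∅ (f.sc (DJ J)) ≤ 2 * NT {P} (f.sc (DJ J)) ∧
      NT ∅ (f.sc (DJ (insert P J))) ≤ 2 * NT {P} (f.sc (DJ J)) ∧
      ∀ T' : Finset (Pl F), P ∈ T' → NT T' (f.sc (DJ J)) = NT T' (f.sc (DJ (insert P J)))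

/-! ### Group B: averages over the elliptic curves -/

/-- **(tri)** invariance under translations. -/
def S_tri : Prop := ∀ (F : Type) [Field F] (T : Finset (Pl F)) (f : Cub F[X]) (r : F[X]), NT T (f.tr r) = NT T f

/-- **(avT)** the average of the weight with the factors at the places of `T`. -/
def S_avT : Prop := ∀ (F : Type) [Field F] [Fintype F], (2 : F) ≠ 0 → ∀ (m : ℕ) (c : Pl F → Cub F[X] → Prop)
  (ci : Cub F[X] → Prop), (∀ P, Cnd P.1 m (c P)) → Cnd X m ci → ∀ T : Finset (Pl F),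
  (∀ P ∈ T, ∀ f, c P f → ¬ P.1 ∣ f.disc) → ∀ (S : Finset (Pl F)), T ⊆ S →
  ∀ (M : ℕ) (hM : 1 ≤ M) (n e : ℕ), m ≤ M → e ≤ n → dS S M ≤ 2 * n - 2 * e + 1 →
    AV n e (fun G => Ph S hM (fun P => WPc P M (c P)) (WPc (PlX F) M ci) (redV S M n e G) *
      ∏ P ∈ T, ((nrP P G : ℝ) / 2)) = IPhc S M c ci / 2 ^ T.card

open Classical in
/-- **(up)** the upper bound for the number of the classes which are trivial at the places of `T`. -/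
def S_up : Prop := ∀ (F : Type) [Field F] [Fintype F], (2 : F) ≠ 0 → ∀ (m : ℕ) (c : Pl F → Cub F[X] → Prop),
  (∀ P, Cnd P.1 m (c P)) → ∀ (S₀ : Finset (Pl F)), (∀ P, P ∉ S₀ → ∀ f, c P f) → ∀ T : Finset (Pl F),
  (∀ P ∈ T, ∀ f, c P f → OneR P.1 f) → ∀ ε : ℝ, 0 < ε → ∀ᶠ n in atTop,
    ∑ f ∈ (Msh F n).filter (fun f => ¬ BadC f ∧ ∀ P, c P f), ((NT T f : ℝ) - 1) ≤
      2 / 2 ^ T.card * (((Msh F n).filter (fun f => ∀ P, c P f)).card : ℝ) + ε * (Fintype.card F : ℝ) ^ (12 * n + 3)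

open Classical in
/-- **(low)** the lower bound for the number of the classes. -/
def S_low : Prop := ∀ (F : Type) [Field F] [Fintype F], (2 : F) ≠ 0 → ∀ ε : ℝ, 0 < ε → ∃ D₁ : ℕ, ∀ D ≥ D₁,
  ∀ (m : ℕ) (c : Pl F → Cub F[X] → Prop), (∀ P, Cnd P.1 m (c P)) → ∀ (S₀ : Finset (Pl F)), (∀ P, P ∉ S₀ → ∀ f, c P f) →
  ∀ᶠ n in atTop, 2 * (((Msh F n).filter (fun f => ∀ P, c P f)).card : ℝ) - ε * (Fintype.card F : ℝ) ^ (12 * n + 3) ≤
    ∑ f ∈ (Msh F n).filter (fun f => ¬ BadC f ∧ (∀ P, c P f) ∧ ∀ P : Pl F, D < P.1.natDegree → ¬ P.1 ^ 2 ∣ f.disc),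
      ((NT ∅ f : ℝ) - 1)

open Classical in
/-- **(tws)** sums over the twists. -/
def S_tws : Prop := ∀ (F : Type) [Field F] [Fintype F], (2 : F) ≠ 0 → ∀ (J : Finset (Pl F)) (k : ℕ),
  (DJ J).natDegree = 2 * k → ∀ (c : Pl F → Cub F[X] → Prop), (∀ P, Cnd P.1 2 (c P)) →
  (∀ P ∈ J, ∀ f, c P f → ¬ P.1 ∣ f.disc) → (∀ (P : Pl F) (f : Cub F[X]) (u : F[X]), ¬ P.1 ∣ u → (c P (f.sc u) ↔ c P f)) →
  (∀ P, Cnd P.1 5 (cJ J c P)) ∧
  ∀ (Φ : Cub F[X] → ℝ), (∀ f r, Φ (f.tr r) = Φ f) → ∀ n : ℕ,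
    (Fintype.card F : ℝ) ^ (2 * k) * ∑ f ∈ (Msh F n).filter (fun f => ∀ P, c P f), Φ (f.sc (DJ J)) =
      ∑ g ∈ (Msh F (n + k)).filter (fun g => ∀ P, cJ J c P g), Φ g

/-- **(avg)** the averages over the good cubics with a given pattern. -/
def S_avg : Prop := ∀ (F : Type) [Field F] [Fintype F], (2 : F) ≠ 0 → ∀ (T : Finset (Pl F)) (D₀ : ℕ), Cfg T D₀ →
  ∀ S ⊆ T, ∀ J ⊆ T, ∀ ε : ℝ, 0 < ε → ∀ᶠ n in atTop, ∀ s : Finset (Cub F[X]), (∀ f, f ∈ s ↔ InG T D₀ S n f) →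
    (∀ T' ⊆ S, Disjoint T' J → ∑ f ∈ s, ((NT T' (f.sc (DJ J)) : ℝ) - 1) ≤
      2 / 2 ^ T'.card * (s.card : ℝ) + ε * (Fintype.card F : ℝ) ^ (12 * n + 3)) ∧
    2 * (s.card : ℝ) - ε * (Fintype.card F : ℝ) ^ (12 * n + 3) ≤ ∑ f ∈ s, ((NT ∅ (f.sc (DJ J)) : ℝ) - 1)

open Classical in
/-- **(typ)** almost all cubics have exactly one root at many places. -/
def S_typ : Prop := ∀ (F : Type) [Field F] [Fintype F], (2 : F) ≠ 0 → ∀ (ε : ℝ) (n₀ : ℕ), 0 < ε → ∃ m : ℕ,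
  ∀ T : Finset (Pl F), m ≤ T.card → ∀ᶠ n in atTop,
    (((Sb F n).filter (fun f => (Sf T f).card < n₀)).card : ℝ) ≤ ε * (Fintype.card F : ℝ) ^ (12 * n + 3)

open Classical in
/-- **(bdr)** few cubics have a discriminant divisible by `P`. -/
def S_bdr : Prop := ∀ (F : Type) [Field F] [Fintype F], (2 : F) ≠ 0 → ∀ P : Pl F, ∀ᶠ n in atTop,
  (((Sb F n).filter (fun f => P.1 ∣ f.disc)).card : ℝ) ≤
    3 / (Fintype.card F : ℝ) ^ P.1.natDegree * (Fintype.card F : ℝ) ^ (12 * n + 3)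

/-- **(ap)** irreducible polynomials of even degree in residue classes. -/
def S_ap : Prop := ∀ (F : Type) [Field F] [Fintype F] (M : F[X]), M ≠ 0 → ∀ d₁ : ℕ, ∃ P : Pl F, Even P.1.natDegree ∧
  d₁ < P.1.natDegree ∧ M ∣ P.1 - 1

/-- **(sel)** existence of the places used for the twists. -/
def S_sel : Prop := ∀ (F : Type) [Field F] [Fintype F], (2 : F) ≠ 0 → ∀ D₀ m d₁ : ℕ, ∃ T : Finset (Pl F), T.card = m ∧
  Cfg T D₀ ∧ ∀ P ∈ T, d₁ < P.1.natDegree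

/-! ### Group C: combinatorics -/

open Classical in
/-- **(cau)** the inequality of Cauchy and Schwarz for the sizes of the supports. -/
def S_cau : Prop := ∀ (A B : Type) [Fintype A] (z : A) (S : Finset B) (tr : B → A → Prop), (∀ P ∈ S, tr P z) →
  ((∑ P ∈ S, ((Nat.card A : ℝ) - Nat.card {a // tr P a})) - ((Nat.card A : ℝ) - 1) * S.card / 2) ^ 2 ≤
    ((Nat.card A : ℝ) - 1) * ((∑ P ∈ S, ∑ Q ∈ S.erase P, (Nat.card {a // tr P a ∧ tr Q a} : ℝ)) -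
      ((S.card : ℝ) - 1) * (∑ P ∈ S, (Nat.card {a // tr P a} : ℝ)) + ((Nat.card A : ℝ) - 1) * (S.card : ℝ) ^ 2 / 4)

/-- **(eul)** the identity of Euler. -/
def S_eul : Prop := Multipliable (fun j : ℕ => (1 + (1 / 2 : ℝ) ^ j)) ∧ HasSum ak (∏' j : ℕ, (1 + (1 / 2 : ℝ) ^ j)) ∧
  4 ≤ ∏' j : ℕ, (1 + (1 / 2 : ℝ) ^ j)

open Classical in
/-- **(bal)** detailed balance on the cube: `d` changes by one along the edges; `u I` is the number of the edges along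
which `d` decreases. -/
def S_bal : Prop := ∀ (B : Type) (S : Finset B) (d u : Finset B → ℕ), 0 < S.card →
  (∀ I ⊆ S, ∀ P ∈ S, P ∉ I → (d (insert P I) = d I + 1 ∨ d I = d (insert P I) + 1)) →
  (∀ I ⊆ S, u I = (S.filter (fun P => d (if P ∈ I then I.erase P else insert P I) < d I)).card) → ∀ η : ℝ,
  ∑ I ∈ S.powerset, |(u I : ℝ) / S.card - (1 - (1 / 2 : ℝ) ^ d I)| ≤ η * 2 ^ S.card → ∀ k : ℕ,
    |((S.powerset.filter (fun I => d I = k)).card : ℝ) / 2 ^ S.card - Cd k| ≤ 10 * η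

open Classical in
/-- **(pwt)** the distribution for one curve. -/
def S_pwt : Prop := ∀ (F : Type) [Field F] [Fintype F], (2 : F) ≠ 0 → ∀ (T : Finset (Pl F)) (D₀ : ℕ), Cfg T D₀ →
  ∀ f : Cub F[X], GoodF T D₀ f → 0 < (Sf T f).card →
  (∀ J ⊆ T, ∀ P ∈ Sf T f, P ∉ J → NT ∅ (f.sc (DJ J)) + NT ∅ (f.sc (DJ (insert P J))) = 3 * NT {P} (f.sc (DJ J))) →
  ∀ k : ℕ, |prp T f k - Cd k| ≤ 10 / 2 ^ T.card *
    ∑ J ∈ T.powerset, (Vf (Sf T f) (f.sc (DJ J)) / ((Sf T f).card * Real.sqrt (Sf T f).card) + 1 / Real.sqrt (Sf T f).card)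

open Classical in
/-- **(mai)** the distribution for almost all curves. -/
def S_mai : Prop := ∀ (F : Type) [Field F] [Fintype F], (2 : F) ≠ 0 → ∀ ε : ℝ, 0 < ε → ∃ T : Finset (Pl F),
  (∀ P ∈ T, Even P.1.natDegree) ∧ T.Nonempty ∧
  ∀ᶠ n in atTop, (((Msh F n).filter (fun f => ∃ k, ε < |prp T f k - Cd k|)).card : ℝ) ≤
    ε * (Fintype.card F : ℝ) ^ (12 * n + 3)

open Classical in
/-- **(clU)** transfer of an upper bound to the isomorphism classes. -/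
def S_clU : Prop := ∀ (F : Type) [Field F] [Fintype F], (2 : F) ≠ 0 → ∀ w : KC F → ℝ, (∀ κ, 0 ≤ w κ ∧ w κ ≤ 1) →
  ∀ δ : ℝ, 0 < δ → (∀ᶠ n in atTop, ∑ f ∈ Msh F n, w (cls (crv f)) ≤ δ * (Fintype.card F : ℝ) ^ (12 * n + 3)) →
  ∀ᶠ d in atTop, ∑ κ ∈ CL F d, w κ ≤ 1000 * δ * (CL F d).card

open Classical in
/-- **(ctw)** the order of the 2-Selmer group of a twist. -/
def S_ctw : Prop := ∀ (F : Type) [Field F] [Fintype F], (2 : F) ≠ 0 → ∀ f : Cub F[X], f.disc ≠ 0 → ∀ D : F[X], D ≠ 0 →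
  Nat.card (Pool.Agent.H456.Coh.SelmerGroup (twE (toK F D) (cls (crv f)).out)
    (Pool.Agent.H456.Coh.torsionPts (twE (toK F D) (cls (crv f)).out) 2)) = NT ∅ (f.sc D)

end Pool.Agent.H456.PR
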