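import Pool.Agent.H456.PR.Stm
import Pool.Agent.H456.PP.T_clsT
import Pool.Agent.H456.BQ.T_badc

/-!
(clU) Adaptation of the proofs of `S_clsC`/`S_clsL` (BQ/T_clsC.lean) and `S_clsT` (PP/T_clsT.lean) to an upper bound.
-/

set_option autoImplicit false
set_option linter.all false

open Polynomial Finset Filter
open Pool.Agent.H456.EC (toK toK_inj sig toK_eq reflect_toK cls)
open Pool.Agent.H456.RN
open Pool.Agent.H456.BQ
open Pool.Agent.H456.Coh (TF)
open Pool.Agent.H456.PP (OneR HasRt sx hh Tz Tq Iso3 nr IsoP nrP)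

namespace Pool.Agent.H456.PR

/-- upper bounds for partial sums -/
theorem clU_upper (x y : ℕ → ℝ) {c : ℝ} (hc : 0 < c) (hx0 : ∀ n, 0 ≤ x n) (hy0 : ∀ n, 0 ≤ y n)
    (h : ∀ᶠ n in atTop, x n ≤ c * y n)
    (hyinf : Tendsto (fun d => ∑ e ∈ range (d + 1), y e) atTop atTop) :
    ∀ᶠ d in atTop, ∑ e ∈ range (d + 1), x e ≤ 2 * c * ∑ e ∈ range (d + 1), y e := by
  rw [eventually_atTop] at h
  obtain ⟨N, hN⟩ := h
  obtain ⟨B, hB⟩ : ∃ B : ℝ, B = ∑ e ∈ range N, x e := ⟨_, rfl⟩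
  filter_upwards [hyinf.eventually_ge_atTop (B / c)] with d hd
  have e1 : ∀ e ∈ range (d + 1), x e ≤ (if e < N then x e else 0) + c * y e := by
    intro e _
    split_ifs with he
    · have : 0 ≤ c * y e := mul_nonneg hc.le (hy0 e)
      linarith
    · rw [zero_add]
      exact hN e (by omega)
  have h2 := sum_le_sum e1
  rw [sum_add_distrib, ← mul_sum, ← sum_filter] at h2
  have h3 : ∑ e ∈ (range (d + 1)).filter (fun e => e < N), x e ≤ B := by
    rw [hB]
    apply sum_le_sum_of_subset_of_nonneg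
    · intro e he
      rw [mem_filter] at he
      exact mem_range.2 he.2
    · intro e _ _; exact hx0 e
  rw [div_le_iff₀ hc] at hd
  linarith

open Classical in
theorem t_clU : S_clU := by
  intro F _ _ h2 w hw δ hδ H
  have hq2 : 2 ≤ (Fintype.card F : ℝ) := q_ge
  have hk0 := fun n => clsC_k_pos (F := F) n
  have hy0 : ∀ n, 0 ≤ ((CLe F n).card : ℝ) := fun n => Nat.cast_nonneg _
  have hyl := fun n => clsC_yl (F := F) h2 n
  have hdw := fun n => clsC_dec (F := F) h2 w (fun κ => (hw κ).1) n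
  have hH3 := H3 (F := F) h2
  have hbad := t_badc F h2 (δ / (16 * (Fintype.card F : ℝ))) (by positivity)
  have hS : ∀ n, ∑ f ∈ (Msh F n).filter (fun f => ¬ BadC f), w (cls (crv f)) ≤ ∑ f ∈ Msh F n, w (cls (crv f)) := by
    intro n
    apply sum_le_sum_of_subset_of_nonneg
    · exact filter_subset _ _
    · intro f _ _; exact (hw _).1
  have hT : ∀ n, ∑ f ∈ (Msh F n).filter (fun f => BadC f), w (cls (crv f)) ≤
      (((Sb F n).filter (fun f => BadC f)).card : ℝ) := by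
    intro n
    calc ∑ f ∈ (Msh F n).filter (fun f => BadC f), w (cls (crv f))
        ≤ ∑ f ∈ (Msh F n).filter (fun f => BadC f), (1 : ℝ) := sum_le_sum fun f _ => (hw _).2
      _ = (((Msh F n).filter (fun f => BadC f)).card : ℝ) := by rw [sum_const, nsmul_eq_mul, mul_one]
      _ ≤ (((Sb F n).filter (fun f => BadC f)).card : ℝ) := by
        have : ((Msh F n).filter (fun f => BadC f)).card ≤ ((Sb F n).filter (fun f => BadC f)).card := by
          apply card_le_card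
          intro f hf
          rw [mem_filter] at hf ⊢
          exact ⟨mem_Sb.2 (mem_Msh.1 hf.1).1, hf.2⟩
        exact_mod_cast this
  obtain ⟨q, hq⟩ : ∃ q : ℝ, q = (Fintype.card F : ℝ) := ⟨_, rfl⟩
  rw [← hq] at hq2 H hH3 hbad hdw
  have hq0 : 0 < q := by linarith
  have hxy : ∀ᶠ n in atTop, ∑ κ ∈ CLe F n, w κ ≤ (6 * δ) * ((CLe F n).card : ℝ) := by
    filter_upwards [H, hH3, hbad] with n n1 n2 n3
    obtain ⟨B, hB0, hB1, hB2⟩ := hdw n
    rw [hB2]
    have hyn := hyl n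
    have hkn := hk0 n
    have hSn := hS n
    have hTn := hT n
    obtain ⟨Q, hQ⟩ : ∃ Q : ℝ, Q = q ^ (12 * n + 3) := ⟨_, rfl⟩
    obtain ⟨M, hM⟩ : ∃ M : ℝ, M = ((Msh F n).card : ℝ) := ⟨_, rfl⟩
    obtain ⟨S, hS'⟩ : ∃ S : ℝ, S = ∑ f ∈ (Msh F n).filter (fun f => ¬ BadC f), w (cls (crv f)) := ⟨_, rfl⟩
    obtain ⟨T, hT'⟩ : ∃ S : ℝ, S = ∑ f ∈ (Msh F n).filter (fun f => BadC f), w (cls (crv f)) := ⟨_, rfl⟩
    obtain ⟨W, hW⟩ : ∃ S : ℝ, S = ∑ f ∈ Msh F n, w (cls (crv f)) := ⟨_, rfl⟩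
    obtain ⟨Y, hY⟩ : ∃ Y : ℝ, Y = ((CLe F n).card : ℝ) := ⟨_, rfl⟩
    obtain ⟨k, hk⟩ : ∃ k : ℝ, k = clsC_k F n := ⟨_, rfl⟩
    rw [← hW, ← hQ] at n1
    rw [← hQ, ← hM] at n2
    rw [← hQ] at n3
    rw [← hT'] at hB1 hTn
    rw [← hM, ← hY, ← hk] at hyn
    rw [← hk] at hkn
    rw [← hS', ← hW] at hSn
    rw [← hS', ← hY, ← hk]
    have f1 : B ≤ δ * Q := by
      have e1 : 16 * q * T ≤ 16 * q * (δ / (16 * q) * Q) :=
        mul_le_mul_of_nonneg_left (hTn.trans n3) (by positivity)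
      have e2 : 16 * q * (δ / (16 * q) * Q) = δ * Q := by field_simp
      linarith
    have f2 : B + 2 * S ≤ 3 * (δ * Q) := by linarith
    have f3 : δ * Q ≤ δ * (4 * M) := mul_le_mul_of_nonneg_left (by linarith) hδ.le
    calc k * (B + 2 * S) ≤ k * (3 * (δ * (4 * M))) := mul_le_mul_of_nonneg_left (by linarith) hkn.le
      _ = 6 * δ * (2 * k * M) := by ring
      _ ≤ 6 * δ * Y := mul_le_mul_of_nonneg_left hyn (by positivity)
  have hyinf : Tendsto (fun d => ∑ e ∈ range (d + 1), ((CLe F e).card : ℝ)) atTop atTop := by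
    refine clsC_inf _ hy0 (b := 1) (by norm_num) ?_
    filter_upwards [hH3] with n hn
    have h3 := hk0 n
    have h4 : (0 : ℝ) < ((CLe F n).card : ℝ) := by
      refine lt_of_lt_of_le ?_ (hyl n)
      have h6 : (0 : ℝ) < ((Msh F n).card : ℝ) := lt_of_lt_of_le (by positivity) hn
      exact mul_pos (mul_pos two_pos h3) h6
    have h5 : 0 < (CLe F n).card := by exact_mod_cast h4
    exact_mod_cast h5
  have hfin := clU_upper (fun n => ∑ κ ∈ CLe F n, w κ) (fun n => ((CLe F n).card : ℝ)) (c := 6 * δ)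
    (by positivity) (fun n => sum_nonneg fun κ _ => (hw κ).1) hy0 hxy hyinf
  filter_upwards [hfin] with d hd
  rw [clsC_card d, sum_CL]
  refine hd.trans ?_
  have h7 : (0 : ℝ) ≤ ∑ e ∈ range (d + 1), ((CLe F e).card : ℝ) := sum_nonneg fun e _ => hy0 e
  have h8 : 2 * (6 * δ) ≤ 1000 * δ := by linarith
  exact mul_le_mul_of_nonneg_right h8 h7

end Pool.Agent.H456.PR
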