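import Pool.Agent.H456.PR.Stm

/-!
(sqr) First part: take `r` with `P ∣ u - r²`; `P ∤ r`, `ι r` and `ι u` are units (see `rec_unit` in PP/T_rec.lean), look for `w = ι r + x`, `x² + 2 (ι r) x + (ι r)² - ι u = 0` with `hensel` (`c₁ = 2 ι r` a unit since `2 ≠ 0` in `F`). Second part: `u` monic of degree `2 d`: `locI_tau F (toK F u) = toK (reverse u) / t^(2d)` with `(reverse u)(0) = 1`
(compare `locI_tau`, `reflect_toK`, T_locI.lean, PP/T_rec.lean), `reverse u` is `1` modulo `X`, apply the first part with `P = X` (`PlX F`), `w = w₀ / j(t)^d`.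
-/

set_option autoImplicit false
set_option linter.all false

open Polynomial Finset Filter
open Pool.Agent.H456.EC (toK toK_inj sig toK_eq reflect_toK cls)
open Pool.Agent.H456.RN
open Pool.Agent.H456.BQ
open Pool.Agent.H456.Coh (TF)
open Pool.Agent.H456.PP (OneR HasRt sx hh Tz Tq Iso3 nr IsoP nrP)

namespace Pool.Agent.H456.PR

/-- a non-multiple of `P` becomes a unit -/
theorem sqr_unit {F : Type} [Field F] {P : F[X]} {O : Type} [CommRing O] {π : O} {ι : F[X] →+* O}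
    (h : Lc P π ι) {x : F[X]} (hx : ¬ P ∣ x) : IsUnit (ι x) := by
  have h0 : ¬ π ∣ ι x := by
    have := h.dvd 1 x
    rw [pow_one, pow_one] at this
    rwa [this]
  have h1 : ι x ≠ 0 := fun e => h0 (e ▸ dvd_zero _)
  obtain ⟨k, u, hu, e⟩ := h.pow _ h1
  rcases Nat.eq_zero_or_pos k with rfl | hk
  · rw [e, pow_zero, mul_one]; exact hu
  · exact absurd ⟨u * π ^ (k - 1), by
      rw [e]
      obtain ⟨m, rfl⟩ : ∃ m, k = m + 1 := ⟨k - 1, by omega⟩
      rw [Nat.add_sub_cancel, pow_succ]; ring⟩ h0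

theorem sqr_first {F : Type} [Field F] (h2 : (2 : F) ≠ 0) {P u : F[X]} (hu : ¬ P ∣ u)
    (hs : ∃ r : F[X], P ∣ u - r ^ 2) {O : Type} [CommRing O] {π : O} {ι : F[X] →+* O}
    (h : Lc4 P π ι) : ∃ w : O, IsUnit w ∧ ι u = w ^ 2 := by
  obtain ⟨r, hr⟩ := hs
  have hPr : ¬ P ∣ r := by
    intro hd
    apply hu
    have e : u = (u - r ^ 2) + r * r := by ring
    rw [e]
    exact dvd_add hr (Dvd.dvd.mul_left hd r)
  have hP2 : ¬ P ∣ C (2 : F) * r := by
    intro hd
    exact hPr (((isUnit_C.2 (isUnit_iff_ne_zero.2 h2)).dvd_mul_left).1 hd)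
  have hC : (C (2 : F) : F[X]) = 2 := by
    rw [← Polynomial.C_ofNat]
  have hun : IsUnit (2 * ι r) := by
    have h3 := sqr_unit h.toLc hP2
    rw [map_mul, hC, map_ofNat] at h3
    exact h3
  have h0 : π ∣ (ι r) ^ 2 - ι u := by
    have h3 := (h.dvd 1 (u - r ^ 2)).2 (by rw [pow_one]; exact hr)
    rw [pow_one, map_sub, map_pow] at h3
    have e : (ι r) ^ 2 - ι u = -(ι u - (ι r) ^ 2) := by ring
    rw [e]
    exact (dvd_neg).2 h3
  obtain ⟨x, -, hx⟩ := h.hensel _ (2 * ι r) 1 0 h0 hun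
  have hw : ι u = (ι r + x) ^ 2 := by linear_combination -hx
  refine ⟨ι r + x, ?_, hw⟩
  have h4 : IsUnit ((ι r + x) ^ 2) := by
    rw [← hw]
    exact sqr_unit h.toLc hu
  exact (isUnit_pow_iff two_ne_zero).1 h4

theorem t_sqr : S_sqr := by
  intro F _ _ h2
  refine ⟨?_, ?_⟩
  · intro P u hu hs O _ _ π ι h
    exact sqr_first h2 hu hs h
  · intro u hm he O L _ _ _ _ _ π ι h j hj
    obtain ⟨d, hd⟩ := he
    have e0 : (reflect u.natDegree u).coeff 0 = 1 := by
      rw [coeff_reflect, revAt_le (Nat.zero_le _), Nat.sub_zero]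
      exact hm.coeff_natDegree
    have h3 : ¬ (X : F[X]) ∣ reflect u.natDegree u := by
      rw [X_dvd_iff, e0]
      exact one_ne_zero
    have h4 : ∃ r : F[X], (X : F[X]) ∣ reflect u.natDegree u - r ^ 2 := by
      refine ⟨1, ?_⟩
      rw [X_dvd_iff, one_pow, coeff_sub, e0, coeff_one_zero, sub_self]
    obtain ⟨w, hw, hw2⟩ := sqr_first h2 h3 h4 h
    have h5 := reflect_toK (F := F) (N := u.natDegree) (f := u) le_rfl
    have h6 := congrArg j h5
    rw [hj, hw2, map_mul, map_pow, map_pow, hd, ← two_mul, mul_comm 2 d, pow_mul] at h6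
    have hX : j (RatFunc.X) ≠ 0 := (_root_.map_ne_zero j).2 RatFunc.X_ne_zero
    have hXd : j (RatFunc.X) ^ d ≠ 0 := pow_ne_zero _ hX
    have hw0 : algebraMap O L w ≠ 0 := (hw.map (algebraMap O L)).ne_zero
    refine ⟨algebraMap O L w / j (RatFunc.X) ^ d, div_ne_zero hw0 hXd, ?_⟩
    rw [locI_tau_toK, div_pow, h6]
    field_simp

end Pool.Agent.H456.PR
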