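import Pool.Agent.H456.PR.Stm

/-!
(tri) `((f.tr r).map (toK F)) = (f.map (toK F)).tr (toK r)`, `(g.tr r).sc 4 = (g.sc 4).tr (4 r)`. The pairs of `f.tr r` are the `(G, ρ - 4r)` for the pairs `(G, ρ)` of `f`; `PE M (G, ρ) (G', ρ') ↔ PE M (G, ρ - 4r) (G', ρ' - 4r)` (only the difference of the second components enters). `LS, LSI, Rt` depend only on `G`. So there is a bijection of `Sel` compatible with `Tr`.
(proof by helper441)
-/

set_option autoImplicit false
set_option linter.all false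

open Polynomial Finset Filter
open Pool.Agent.H456.EC (toK toK_inj sig toK_eq reflect_toK cls)
open Pool.Agent.H456.RN
open Pool.Agent.H456.BQ
open Pool.Agent.H456.Coh (TF)
open Pool.Agent.H456.PP (OneR HasRt sx hh Tz Tq Iso3 nr IsoP nrP)

namespace Pool.Agent.H456.PR

section tri

variable {F : Type} [Field F]

/-- the translation of a pair -/
theorem tri_isSel {f : Cub (RatFunc F)} {s : Q4 (RatFunc F) × RatFunc F} (r : RatFunc F) (h : IsSel f s) :
    IsSel (f.tr r) (s.1, s.2 - 4 * r) where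
  res := by
    show s.1.res = ((f.tr r).sc 4).tr (s.2 - 4 * r)
    rw [Cub.sc_tr, Cub.tr_tr, h.res]
    congr 1
    ring
  fin := h.fin
  inf := h.inf

theorem tri_isSel' {f : Cub (RatFunc F)} {s : Q4 (RatFunc F) × RatFunc F} (r : RatFunc F) (h : IsSel (f.tr r) s) :
    IsSel f (s.1, s.2 + 4 * r) where
  res := by
    show s.1.res = (f.sc 4).tr (s.2 + 4 * r)
    rw [h.res, Cub.sc_tr, Cub.tr_tr]
    congr 1
    ring
  fin := h.fin
  inf := h.inf

theorem tri_pe {s s' : Q4 (RatFunc F) × RatFunc F} {M : M2 (RatFunc F)} (r : RatFunc F) (h : PE M s s') :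
    PE M (s.1, s.2 + r) (s'.1, s'.2 + r) where
  det := h.det
  sub := h.sub
  tau := by
    show s.1.tau M = ((s'.2 + r) - (s.2 + r)) * M.det ^ 2
    rw [h.tau]
    ring

/-- the bijection of the pairs -/
noncomputable def tri_e (f : Cub (RatFunc F)) (r : RatFunc F) :
    {s : Q4 (RatFunc F) × RatFunc F // IsSel f s} ≃ {s : Q4 (RatFunc F) × RatFunc F // IsSel (f.tr r) s} where
  toFun s := ⟨(s.1.1, s.1.2 - 4 * r), tri_isSel r s.2⟩
  invFun s := ⟨(s.1.1, s.1.2 + 4 * r), tri_isSel' r s.2⟩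
  left_inv s := by
    apply Subtype.ext
    apply Prod.ext
    · rfl
    · show s.1.2 - 4 * r + 4 * r = s.1.2
      ring
  right_inv s := by
    apply Subtype.ext
    apply Prod.ext
    · rfl
    · show s.1.2 + 4 * r - 4 * r = s.1.2
      ring

/-- the bijection of the classes -/
noncomputable def tri_q (f : Cub (RatFunc F)) (r : RatFunc F) : Sel f ≃ Sel (f.tr r) :=
  Quotient.congr (tri_e f r) (by
    intro s s'
    constructor
    · rintro ⟨M, hM⟩
      have h1 := tri_pe (-(4 * r)) hM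
      rw [← sub_eq_add_neg, ← sub_eq_add_neg] at h1
      exact ⟨M, h1⟩
    · rintro ⟨M, hM⟩
      have h1 := tri_pe (4 * r) hM
      have e1 : ((((tri_e f r) s).1.1, ((tri_e f r) s).1.2 + 4 * r) : Q4 (RatFunc F) × RatFunc F) = s.1 :=
        congrArg Subtype.val ((tri_e f r).symm_apply_apply s)
      have e2 : ((((tri_e f r) s').1.1, ((tri_e f r) s').1.2 + 4 * r) : Q4 (RatFunc F) × RatFunc F) = s'.1 :=
        congrArg Subtype.val ((tri_e f r).symm_apply_apply s')
      rw [e1, e2] at h1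
      exact ⟨M, h1⟩)

theorem tri_q_mk (f : Cub (RatFunc F)) (r : RatFunc F) (s : Q4 (RatFunc F) × RatFunc F) (h : IsSel f s) :
    tri_q f r (selMk f s h) = selMk (f.tr r) (s.1, s.2 - 4 * r) (tri_isSel r h) := rfl

theorem tri_tr (f : Cub (RatFunc F)) (r : RatFunc F) (P : Pl F) (σ : Sel f) : Tr P (tri_q f r σ) ↔ Tr P σ := by
  constructor
  · rintro ⟨s, h, hs, hr⟩
    refine ⟨(s.1, s.2 + 4 * r), tri_isSel' r h, ?_, hr⟩
    apply (tri_q f r).injective
    rw [hs, tri_q_mk]
    have : ((s.1, s.2 + 4 * r - 4 * r) : Q4 (RatFunc F) × RatFunc F) = s := by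
      apply Prod.ext
      · rfl
      · show s.2 + 4 * r - 4 * r = s.2
        ring
    rw [selMk_eq]
    show ∃ M, PE M s ((s.1, s.2 + 4 * r - 4 * r) : Q4 (RatFunc F) × RatFunc F)
    rw [this]
    exact ⟨_, PE.refl s⟩
  · rintro ⟨s, h, hs, hr⟩
    exact ⟨(s.1, s.2 - 4 * r), tri_isSel r h, by rw [hs, tri_q_mk], hr⟩

end tri

theorem t_tri : S_tri := by
  intro F _ T f r
  have h : (f.tr r).map (toK F) = (f.map (toK F)).tr (toK F r) := Cub.map_tr _ _ _
  unfold NT
  rw [h]
  exact (Nat.card_congr ((tri_q (f.map (toK F)) (toK F r)).subtypeEquiv fun σ =>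
    forall₂_congr fun P _ => (tri_tr _ _ P σ).symm)).symm

end Pool.Agent.H456.PR
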